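import Pool.Agent.RM8c.Defs
set_option autoImplicit false
open MeasureTheory Set Filter Topology
namespace Pool.Agent.RM8c
open scoped Pointwise in
theorem A_scale (n : ℕ) (F : ℝ → ℝ) (s t : ℝ) (hs : 0 < s) (ht : 0 < t) :
    A n F s (t * s) =
      (volume.real (Metric.ball (0 : E n) t))⁻¹ * ∫ w in Metric.ball (e1 n) t, F (s * ‖w‖) := by
  unfold A
  have hfr : Module.finrank ℝ (E n) = n + 1 := by simp
  have h1 := Measure.setIntegral_comp_smul_of_pos (volume : Measure (E n)) (fun z : E n => F ‖z‖)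
    (Metric.ball (e1 n) t) hs
  have h2 : s • Metric.ball (e1 n) t = Metric.ball (s • e1 n) (t * s) := by
    rw [smul_ball hs.ne', Real.norm_of_nonneg hs.le, mul_comm]
  have h3 : s • Metric.ball (0 : E n) t = Metric.ball (0 : E n) (t * s) := by
    rw [smul_ball hs.ne', Real.norm_of_nonneg hs.le, mul_comm, smul_zero]
  have h4 : volume.real (Metric.ball (0 : E n) (t * s)) =
      s ^ (n + 1) * volume.real (Metric.ball (0 : E n) t) := by
    rw [← h3, measureReal_def, Measure.addHaar_smul, ENNReal.toReal_mul, hfr,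
      ENNReal.toReal_ofReal (abs_nonneg _), abs_of_pos (by positivity)]
    rfl
  rw [h2, hfr] at h1
  have h5 : ∫ w in Metric.ball (e1 n) t, F (s * ‖w‖) = ∫ w in Metric.ball (e1 n) t, F ‖s • w‖ := by
    apply integral_congr_ae
    apply Eventually.of_forall
    intro w
    show F (s * ‖w‖) = F ‖s • w‖
    rw [norm_smul, Real.norm_of_nonneg hs.le]
  rw [h5, h1, h4, mul_inv, smul_eq_mul]
  ring

end Pool.Agent.RM8c
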