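import Pool.Agent.RM8c.Defs
set_option autoImplicit false
open MeasureTheory Set Filter Topology
namespace Pool.Agent.RM8c
theorem H1_local_bd (n : ℕ) (f : ℝ → ℝ) (a σ w : ℝ) (ha : 0 < a) (has : a ≤ σ) (hw : 0 < w) :
    0 ≤ (w / max σ w) ^ (n + 1) * |f w| ∧
      (w / max σ w) ^ (n + 1) * |f w| ≤ (a⁻¹) ^ n * (|f w| * w ^ n) := by
  have hσ : 0 < σ := ha.trans_le has
  have hm : 0 < max σ w := lt_max_of_lt_right hw
  have h0 : 0 ≤ w / max σ w := (div_pos hw hm).le
  have h1 : w / max σ w ≤ 1 := (div_le_one hm).2 (le_max_right _ _)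
  have h2 : w / max σ w ≤ a⁻¹ * w := by
    rw [div_eq_inv_mul]
    exact mul_le_mul_of_nonneg_right (inv_anti₀ ha (has.trans (le_max_left _ _))) hw.le
  refine ⟨mul_nonneg (pow_nonneg h0 _) (abs_nonneg _), ?_⟩
  have h3 : (w / max σ w) ^ (n + 1) ≤ (a⁻¹ * w) ^ n := by
    calc (w / max σ w) ^ (n + 1) ≤ (w / max σ w) ^ n := pow_le_pow_of_le_one h0 h1 (Nat.le_succ n)
      _ ≤ (a⁻¹ * w) ^ n := pow_le_pow_left₀ h0 h2 n
  calc (w / max σ w) ^ (n + 1) * |f w| ≤ (a⁻¹ * w) ^ n * |f w| :=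
        mul_le_mul_of_nonneg_right h3 (abs_nonneg _)
    _ = (a⁻¹) ^ n * (|f w| * w ^ n) := by rw [mul_pow]; ring

theorem H1_local_ms (n : ℕ) (f : ℝ → ℝ) (hf : IntegrableOn (fun w => f w * w ^ n) (Ioi 0)) :
    AEStronglyMeasurable f (volume.restrict (Ioi (0 : ℝ))) := by
  have h1 : AEStronglyMeasurable (fun w => (f w * w ^ n) * (w ^ n)⁻¹)
      (volume.restrict (Ioi (0 : ℝ))) := by
    refine hf.aestronglyMeasurable.mul ?_
    exact (by fun_prop : Measurable fun w : ℝ => (w ^ n)⁻¹).aestronglyMeasurable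
  refine h1.congr ?_
  filter_upwards [ae_restrict_mem measurableSet_Ioi] with w hw
  have : w ^ n ≠ 0 := pow_ne_zero _ (ne_of_gt hw)
  field_simp

theorem H1_local_mg (n : ℕ) (f : ℝ → ℝ) (hf : IntegrableOn (fun w => f w * w ^ n) (Ioi 0))
    (σ : ℝ) : AEStronglyMeasurable (fun w => (w / max σ w) ^ (n + 1) * |f w|)
      (volume.restrict (Ioi (0 : ℝ))) := by
  refine AEStronglyMeasurable.mul ?_ (H1_local_ms n f hf).norm
  exact (by fun_prop : Measurable fun w : ℝ => (w / max σ w) ^ (n + 1)).aestronglyMeasurable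

theorem H1_local_ig (n : ℕ) (f : ℝ → ℝ) (hf : IntegrableOn (fun w => f w * w ^ n) (Ioi 0)) :
    IntegrableOn (fun w => |f w| * w ^ n) (Ioi 0) := by
  refine hf.norm.congr ?_
  filter_upwards [ae_restrict_mem measurableSet_Ioi] with w hw
  have h5 : (0 : ℝ) < w ^ n := pow_pos hw n
  rw [norm_mul, Real.norm_eq_abs, Real.norm_eq_abs, abs_of_pos h5]

theorem H1_local (n : ℕ) (f : ℝ → ℝ) (hf : IntegrableOn (fun w => f w * w ^ n) (Ioi 0)) :
    (∀ σ, 0 < σ → IntegrableOn (fun w => (w / max σ w) ^ (n + 1) * |f w|) (Ioi 0) ∧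
      0 ≤ H1 n f σ ∧ H1 n f σ ≤ (σ⁻¹) ^ (n + 1) * ∫ w in Ioi (0 : ℝ), |f w| * w ^ n) ∧
    ∀ a b, 0 < a → a ≤ b → IntervalIntegrable (H1 n f) volume a b := by
  have hI := H1_local_ig n f hf
  constructor
  · intro σ hσ
    have hint : IntegrableOn (fun w => (w / max σ w) ^ (n + 1) * |f w|) (Ioi 0) := by
      refine Integrable.mono' (hI.const_mul ((σ⁻¹) ^ n)) (H1_local_mg n f hf σ) ?_
      filter_upwards [ae_restrict_mem measurableSet_Ioi] with w hw
      obtain ⟨h1, h2⟩ := H1_local_bd n f σ σ w hσ le_rfl hw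
      rw [Real.norm_eq_abs, abs_of_nonneg h1]
      exact h2
    refine ⟨hint, ?_, ?_⟩
    · refine mul_nonneg (inv_nonneg.2 hσ.le) (setIntegral_nonneg measurableSet_Ioi ?_)
      intro w hw
      exact (H1_local_bd n f σ σ w hσ le_rfl hw).1
    · have h3 : ∫ w in Ioi (0 : ℝ), (w / max σ w) ^ (n + 1) * |f w| ≤
          ∫ w in Ioi (0 : ℝ), (σ⁻¹) ^ n * (|f w| * w ^ n) := by
        refine setIntegral_mono_on hint (hI.const_mul ((σ⁻¹) ^ n)) measurableSet_Ioi ?_
        intro w hw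
        exact (H1_local_bd n f σ σ w hσ le_rfl hw).2
      rw [integral_const_mul] at h3
      calc H1 n f σ = σ⁻¹ * ∫ w in Ioi (0 : ℝ), (w / max σ w) ^ (n + 1) * |f w| := rfl
        _ ≤ σ⁻¹ * ((σ⁻¹) ^ n * ∫ w in Ioi (0 : ℝ), |f w| * w ^ n) :=
          mul_le_mul_of_nonneg_left h3 (inv_nonneg.2 hσ.le)
        _ = (σ⁻¹) ^ (n + 1) * ∫ w in Ioi (0 : ℝ), |f w| * w ^ n := by ring
  · intro a b ha hab
    have hc : ContinuousOn (H1 n f) (Icc a b) := by
      have h1 : ContinuousOn (fun σ : ℝ => ∫ w in Ioi (0 : ℝ),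
          (w / max σ w) ^ (n + 1) * |f w|) (Icc a b) := by
        refine continuousOn_of_dominated (bound := fun w => (a⁻¹) ^ n * (|f w| * w ^ n)) ?_ ?_ ?_ ?_
        · intro σ _
          exact H1_local_mg n f hf σ
        · intro σ hσ
          filter_upwards [ae_restrict_mem measurableSet_Ioi] with w hw
          obtain ⟨h1, h2⟩ := H1_local_bd n f a σ w ha hσ.1 hw
          rw [Real.norm_eq_abs, abs_of_nonneg h1]
          exact h2
        · exact hI.const_mul _
        · filter_upwards [ae_restrict_mem measurableSet_Ioi] with w hw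
          refine ContinuousOn.mul (ContinuousOn.pow ?_ _) continuousOn_const
          refine ContinuousOn.div continuousOn_const ?_ ?_
          · exact (continuous_id.max continuous_const).continuousOn
          · intro σ _
            have : 0 < max σ w := lt_max_of_lt_right hw
            exact this.ne'
      refine ContinuousOn.mul ?_ h1
      refine ContinuousOn.inv₀ continuousOn_id ?_
      intro σ hσ
      exact (ha.trans_le hσ.1).ne'
    refine ContinuousOn.intervalIntegrable ?_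
    rwa [uIcc_of_le hab]

end Pool.Agent.RM8c
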