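import Pool.Agent.RM8c.Defs
set_option autoImplicit false
open MeasureTheory Set Filter Topology
namespace Pool.Agent.RM8c
/-- polar coordinates for radial functions -/
theorem polar (n : ℕ) (h : ℝ → ℝ) :
    (Integrable (fun x : E n => h ‖x‖) ↔ IntegrableOn (fun s => h s * s ^ n) (Ioi 0)) ∧
    ∫ x : E n, h ‖x‖ =
      (n + 1) * volume.real (Metric.ball (0 : E n) 1) * ∫ s in Ioi (0 : ℝ), h s * s ^ n := by
  have hdim : Module.finrank ℝ (E n) = n + 1 := by simp
  have e1 : (fun y : ℝ => y ^ (Module.finrank ℝ (E n) - 1) • h y) = fun s => h s * s ^ n := by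
    funext y
    rw [hdim, Nat.add_sub_cancel, smul_eq_mul, mul_comm]
  constructor
  · rw [integrable_fun_norm_addHaar (volume : Measure (E n)) (f := h), e1]
  · rw [integral_fun_norm_addHaar (volume : Measure (E n)) h, e1, hdim, nsmul_eq_mul, smul_eq_mul]
    push_cast
    ring

theorem ae_norm (n : ℕ) (P : ℝ → Prop) (h : ∀ᵐ s ∂(volume.restrict (Ioi (0 : ℝ))), P s) :
    ∀ᵐ x : E n, P ‖x‖ := by
  classical
  obtain ⟨M, hsub, hmeas, hnull⟩ := exists_measurable_superset_of_null (ae_iff.mp h)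
  have hM : ∀ᵐ s ∂(volume.restrict (Ioi (0 : ℝ))), M.indicator (fun _ => (1 : ℝ)) s * s ^ n = 0 := by
    have : ∀ᵐ s ∂(volume.restrict (Ioi (0 : ℝ))), s ∉ M := by
      rw [ae_iff]
      simpa using hnull
    filter_upwards [this] with s hs
    rw [indicator_of_notMem hs, zero_mul]
  obtain ⟨hp1, hp2⟩ := polar n (M.indicator (fun _ => (1 : ℝ)))
  have hint : Integrable (fun x : E n => M.indicator (fun _ => (1 : ℝ)) ‖x‖) := by
    rw [hp1]
    exact (integrable_zero ℝ ℝ (volume.restrict (Ioi (0 : ℝ)))).congr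
      (by filter_upwards [hM] with s hs; rw [hs]; rfl)
  have hz : ∫ x : E n, M.indicator (fun _ => (1 : ℝ)) ‖x‖ = 0 := by
    rw [hp2, integral_congr_ae (g := fun _ => (0 : ℝ)) hM]
    simp
  rw [integral_eq_zero_iff_of_nonneg (fun x => indicator_nonneg (fun _ _ => zero_le_one) _) hint] at hz
  filter_upwards [hz] with x hx
  by_contra hP
  have : ‖x‖ ∈ M := hsub hP
  simp [indicator_of_mem this] at hx

end Pool.Agent.RM8c
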