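import Pool.Agent.RM8c.Defs
import Pool.Agent.RM8c.B1
import Pool.Agent.RM8c.B3
import Pool.Agent.RM8c.P1
set_option autoImplicit false
open MeasureTheory Set Filter Topology
namespace Pool.Agent.RM8c
theorem bd_aux1 (n : ℕ) (F f : ℝ → ℝ) (hfm : Measurable f) (hAC : AC F f)
    (hf : IntegrableOn (fun w => f w * w ^ n) (Ioi 0)) (s s' : ℝ) (hs : 0 < s) (hss : s ≤ s') :
    ∫⁻ ρ in Ioi (0 : ℝ), ENNReal.ofReal (|F (s' * ρ) - F (s * ρ)| * (max 1 ρ ^ (n + 1))⁻¹ * ρ ^ n)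
      ≤ ENNReal.ofReal (∫ σ in s..s', H1 n f σ) := by
  obtain ⟨hloc, hint⟩ := H1_local n f hf
  -- inner integral for fixed σ
  have hin : ∀ σ : ℝ, 0 < σ →
      ∫⁻ ρ in Ioi (0 : ℝ), ENNReal.ofReal ((ρ / max 1 ρ) ^ (n + 1) * |f (σ * ρ)|) =
        ENNReal.ofReal (H1 n f σ) := by
    intro σ hσ
    have hfun : (fun ρ : ℝ => (σ * ρ / max σ (σ * ρ)) ^ (n + 1) * |f (σ * ρ)|) =
        fun ρ : ℝ => (ρ / max 1 ρ) ^ (n + 1) * |f (σ * ρ)| := by
      funext ρ
      have h1 : max σ (σ * ρ) = σ * max 1 ρ := by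
        rw [mul_max_of_nonneg _ _ hσ.le, mul_one]
      rw [h1, mul_div_mul_left _ _ hσ.ne']
    have hI : IntegrableOn (fun ρ : ℝ => (ρ / max 1 ρ) ^ (n + 1) * |f (σ * ρ)|) (Ioi 0) := by
      have h2 := (integrableOn_Ioi_comp_mul_left_iff
        (fun w : ℝ => (w / max σ w) ^ (n + 1) * |f w|) 0 hσ).2 (by
          rw [mul_zero]; exact (hloc σ hσ).1)
      rw [← hfun]
      exact h2
    rw [← ofReal_integral_eq_lintegral_ofReal hI]
    · congr 1
      have h3 := integral_comp_mul_left_Ioi (fun w : ℝ => (w / max σ w) ^ (n + 1) * |f w|) 0 hσ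
      rw [mul_zero] at h3
      rw [H1, ← smul_eq_mul, ← h3]
      exact congrArg (fun g : ℝ → ℝ => ∫ ρ in Ioi (0 : ℝ), g ρ) hfun.symm
    · refine (ae_restrict_mem measurableSet_Ioi).mono fun ρ hρ => ?_
      have hρ' : (0 : ℝ) < ρ := hρ
      have : 0 < max 1 ρ := lt_max_of_lt_left one_pos
      show 0 ≤ (ρ / max 1 ρ) ^ (n + 1) * |f (σ * ρ)|
      positivity
  -- pointwise bound
  have hpt : ∀ ρ : ℝ, 0 < ρ →
      ENNReal.ofReal (|F (s' * ρ) - F (s * ρ)| * (max 1 ρ ^ (n + 1))⁻¹ * ρ ^ n) ≤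
        ∫⁻ σ in Ioc s s', ENNReal.ofReal ((ρ / max 1 ρ) ^ (n + 1) * |f (σ * ρ)|) := by
    intro ρ hρ
    have hm : 0 < max 1 ρ := lt_max_of_lt_left one_pos
    have hle : s * ρ ≤ s' * ρ := mul_le_mul_of_nonneg_right hss hρ.le
    obtain ⟨h1, h2⟩ := hAC (s * ρ) (s' * ρ) (mul_pos hs hρ) hle
    have h3 : IntervalIntegrable (fun u => |f u|) volume (s * ρ) (s' * ρ) := h1.abs
    have h4 : IntervalIntegrable (fun σ => |f (ρ * σ)|) volume s s' := by
      have h5 := h3.comp_mul_left (c := ρ) (by finiteness) (by finiteness)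
      rw [mul_div_cancel_right₀ _ hρ.ne', mul_div_cancel_right₀ _ hρ.ne'] at h5
      exact h5
    have h6 : |F (s' * ρ) - F (s * ρ)| ≤ ρ * ∫ σ in s..s', |f (ρ * σ)| := by
      rw [h2]
      have h7 : ρ * ∫ σ in s..s', |f (ρ * σ)| = ∫ u in (ρ * s)..(ρ * s'), |f u| := by
        rw [← smul_eq_mul]
        exact intervalIntegral.smul_integral_comp_mul_left (fun u => |f u|) ρ
      rw [h7, mul_comm ρ s, mul_comm ρ s']
      exact intervalIntegral.abs_integral_le_integral_abs hle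
    have h8 : |F (s' * ρ) - F (s * ρ)| * (max 1 ρ ^ (n + 1))⁻¹ * ρ ^ n ≤
        ∫ σ in Ioc s s', (ρ / max 1 ρ) ^ (n + 1) * |f (σ * ρ)| := by
      rw [integral_const_mul]
      have h9 : ∫ σ in Ioc s s', |f (σ * ρ)| = ∫ σ in s..s', |f (ρ * σ)| := by
        rw [intervalIntegral.integral_of_le hss]
        simp_rw [mul_comm ρ]
      rw [h9]
      calc |F (s' * ρ) - F (s * ρ)| * (max 1 ρ ^ (n + 1))⁻¹ * ρ ^ n
          ≤ (ρ * ∫ σ in s..s', |f (ρ * σ)|) * (max 1 ρ ^ (n + 1))⁻¹ * ρ ^ n := by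
            gcongr
        _ = (ρ / max 1 ρ) ^ (n + 1) * ∫ σ in s..s', |f (ρ * σ)| := by
            rw [div_pow, pow_succ ρ n]
            field_simp
    refine le_trans (ENNReal.ofReal_le_ofReal h8) (le_of_eq ?_)
    rw [ofReal_integral_eq_lintegral_ofReal]
    · have h10 : IntegrableOn (fun σ => |f (ρ * σ)|) (Ioc s s') := by
        rw [intervalIntegrable_iff_integrableOn_Ioc_of_le hss] at h4
        exact h4
      simp_rw [mul_comm ρ] at h10
      exact h10.const_mul _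
    · refine Eventually.of_forall fun σ => ?_
      show 0 ≤ (ρ / max 1 ρ) ^ (n + 1) * |f (σ * ρ)|
      positivity
  calc ∫⁻ ρ in Ioi (0 : ℝ),
        ENNReal.ofReal (|F (s' * ρ) - F (s * ρ)| * (max 1 ρ ^ (n + 1))⁻¹ * ρ ^ n)
      ≤ ∫⁻ ρ in Ioi (0 : ℝ), ∫⁻ σ in Ioc s s',
          ENNReal.ofReal ((ρ / max 1 ρ) ^ (n + 1) * |f (σ * ρ)|) :=
        setLIntegral_mono' measurableSet_Ioi fun ρ hρ => hpt ρ hρ
    _ = ∫⁻ σ in Ioc s s', ∫⁻ ρ in Ioi (0 : ℝ),
          ENNReal.ofReal ((ρ / max 1 ρ) ^ (n + 1) * |f (σ * ρ)|) := by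
        apply lintegral_lintegral_swap
        apply Measurable.aemeasurable
        apply Measurable.ennreal_ofReal
        apply Measurable.mul
        · exact (measurable_fst.div (measurable_const.max measurable_fst)).pow_const _
        · exact (hfm.comp (measurable_snd.mul measurable_fst)).abs
    _ = ∫⁻ σ in Ioc s s', ENNReal.ofReal (H1 n f σ) :=
        setLIntegral_congr_fun measurableSet_Ioc fun σ hσ => hin σ (lt_trans hs hσ.1)
    _ = ENNReal.ofReal (∫ σ in s..s', H1 n f σ) := by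
        rw [intervalIntegral.integral_of_le hss, ofReal_integral_eq_lintegral_ofReal]
        · have := hint s s' hs hss
          rwa [intervalIntegrable_iff_integrableOn_Ioc_of_le hss] at this
        · refine (ae_restrict_mem measurableSet_Ioc).mono fun σ hσ => ?_
          exact (hloc σ (lt_trans hs hσ.1)).2.1

theorem bd_aux2 (n : ℕ) (F f : ℝ → ℝ) (hAC : AC F f)
    (hf : IntegrableOn (fun w => f w * w ^ n) (Ioi 0)) (s s' : ℝ) (hs : 0 < s) (hss : s ≤ s') :
    ∫⁻ ρ in Ioi (0 : ℝ), ENNReal.ofReal (|F (s' * ρ) - F (s * ρ)| * (max 1 ρ ^ (n + 1))⁻¹ * ρ ^ n)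
      ≤ ENNReal.ofReal (∫ σ in s..s', H1 n f σ) := by
  have hfm : AEStronglyMeasurable f (volume.restrict (Ioi (0 : ℝ))) := by
    have h1 : AEStronglyMeasurable (fun w => f w * w ^ n * (w ^ n)⁻¹)
        (volume.restrict (Ioi (0 : ℝ))) :=
      hf.aestronglyMeasurable.mul (by fun_prop)
    refine h1.congr ((ae_restrict_mem measurableSet_Ioi).mono fun w hw => ?_)
    have : (w : ℝ) ^ n ≠ 0 := pow_ne_zero _ (ne_of_gt hw)
    show f w * w ^ n * (w ^ n)⁻¹ = f w
    field_simp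
  obtain ⟨g, hg, hfg⟩ := hfm
  have hgm : Measurable g := hg.measurable
  have hfg' : ∀ᵐ w, w ∈ Ioi (0 : ℝ) → f w = g w := (ae_restrict_iff' measurableSet_Ioi).1 hfg
  have hACg : AC F g := by
    intro a b ha hab
    obtain ⟨h1, h2⟩ := hAC a b ha hab
    have hsub : ∀ᵐ w, w ∈ uIoc a b → f w = g w := by
      filter_upwards [hfg'] with w hw hw'
      rw [uIoc_of_le hab] at hw'
      exact hw (lt_trans ha hw'.1)
    refine ⟨h1.congr_ae ?_, ?_⟩
    · exact (ae_restrict_iff' measurableSet_uIoc).2 hsub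
    · rw [h2]
      exact intervalIntegral.integral_congr_ae hsub
  have hgI : IntegrableOn (fun w => g w * w ^ n) (Ioi 0) := by
    refine hf.congr ?_
    filter_upwards [hfg] with w hw
    rw [hw]
  have hH : ∀ σ, H1 n f σ = H1 n g σ := by
    intro σ
    unfold H1
    congr 1
    refine integral_congr_ae ?_
    filter_upwards [hfg] with w hw
    rw [hw]
  simp_rw [hH]
  exact bd_aux1 n F g hgm hACg hgI s s' hs hss

/-- large balls: the dilation comparison -/
theorem big_diff (n : ℕ) (t₀ : ℝ) (ht₀ : 0 < t₀) : ∃ K : ℝ, 0 ≤ K ∧ ∀ F f : ℝ → ℝ, AC F f →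
    IntegrableOn (fun w => f w * w ^ n) (Ioi 0) → Integrable (fun z : E n => F ‖z‖) →
    ∀ t, t₀ ≤ t → ∀ s s' : ℝ, 0 < s → s ≤ s' →
      |A n F s' (t * s') - A n F s (t * s)| ≤ K * ∫ σ in s..s', H1 n f σ := by
  refine ⟨(n + 1) * (1 + t₀⁻¹) ^ (n + 1), by positivity, ?_⟩
  intro F f hAC hf hF t ht s s' hs hss
  have ht0 : 0 < t := lt_of_lt_of_le ht₀ ht
  have hs' : 0 < s' := lt_of_lt_of_le hs hss
  set κ : ℝ := volume.real (Metric.ball (0 : E n) 1) with hκ
  have hκpos : 0 < κ := by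
    rw [hκ, measureReal_def]
    exact ENNReal.toReal_pos (Metric.measure_ball_pos volume _ one_pos).ne'
      measure_ball_lt_top.ne
  have hvol : volume.real (Metric.ball (0 : E n) t) = t ^ (n + 1) * κ := by
    rw [hκ, measureReal_def, measureReal_def, Measure.addHaar_ball_of_pos volume _ ht0,
      ENNReal.toReal_mul, ENNReal.toReal_ofReal (by positivity)]
    simp
  have hFs : ∀ r : ℝ, 0 < r → Integrable (fun w : E n => F (r * ‖w‖)) := by
    intro r hr
    have h1 := hF.comp_smul hr.ne'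
    refine h1.congr (Eventually.of_forall fun w => ?_)
    show F ‖r • w‖ = F (r * ‖w‖)
    rw [norm_smul, Real.norm_eq_abs, abs_of_pos hr]
  -- the integrand on E
  have hG : Integrable (fun w : E n => |F (s' * ‖w‖) - F (s * ‖w‖)| * (max 1 ‖w‖ ^ (n + 1))⁻¹) := by
    have h1 : Integrable (fun w : E n => |F (s' * ‖w‖) - F (s * ‖w‖)|) :=
      ((hFs s' hs').sub (hFs s hs)).abs
    refine h1.mul_bdd (c := 1) ?_ ?_
    · apply Continuous.aestronglyMeasurable
      apply Continuous.inv₀ (by fun_prop)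
      intro w
      have : 0 < max 1 ‖w‖ := lt_max_of_lt_left one_pos
      positivity
    · refine Eventually.of_forall fun w => ?_
      have h2 : (1 : ℝ) ≤ max 1 ‖w‖ := le_max_left _ _
      rw [Real.norm_eq_abs, abs_of_nonneg (by positivity)]
      exact inv_le_one_of_one_le₀ (one_le_pow₀ h2)
  obtain ⟨hp1, hp2⟩ := polar n (fun ρ => |F (s' * ρ) - F (s * ρ)| * (max 1 ρ ^ (n + 1))⁻¹)
  have hI1 := hp1.1 hG
  have hHnn : 0 ≤ ∫ σ in s..s', H1 n f σ := by
    apply intervalIntegral.integral_nonneg hss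
    intro σ hσ
    exact ((H1_local n f hf).1 σ (lt_of_lt_of_le hs hσ.1)).2.1
  have hone : ∫ ρ in Ioi (0 : ℝ), |F (s' * ρ) - F (s * ρ)| * (max 1 ρ ^ (n + 1))⁻¹ * ρ ^ n ≤
      ∫ σ in s..s', H1 n f σ := by
    have h1 := bd_aux2 n F f hAC hf s s' hs hss
    rw [← ofReal_integral_eq_lintegral_ofReal hI1] at h1
    · exact (ENNReal.ofReal_le_ofReal_iff hHnn).1 h1
    · refine (ae_restrict_mem measurableSet_Ioi).mono fun ρ hρ => ?_
      have hρ' : (0 : ℝ) < ρ := hρ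
      have : 0 < max 1 ρ := lt_max_of_lt_left one_pos
      show 0 ≤ |F (s' * ρ) - F (s * ρ)| * (max 1 ρ ^ (n + 1))⁻¹ * ρ ^ n
      positivity
  rw [A_scale n F s' t hs' ht0, A_scale n F s t hs ht0, ← mul_sub,
    ← integral_sub (hFs s' hs').integrableOn (hFs s hs).integrableOn, hvol, abs_mul,
    abs_of_nonneg (by positivity)]
  have hstep : |∫ w in Metric.ball (e1 n) t, (F (s' * ‖w‖) - F (s * ‖w‖))| ≤
      ((1 + t₀⁻¹) * t) ^ (n + 1) *
        ∫ w : E n, |F (s' * ‖w‖) - F (s * ‖w‖)| * (max 1 ‖w‖ ^ (n + 1))⁻¹ := by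
    refine le_trans abs_integral_le_integral_abs ?_
    rw [← integral_const_mul]
    refine le_trans ?_ (setIntegral_le_integral (s := Metric.ball (e1 n) t) (hG.const_mul _) ?_)
    · refine setIntegral_mono_on ?_ (hG.const_mul _).integrableOn Metric.isOpen_ball.measurableSet ?_
      · exact ((hFs s' hs').sub (hFs s hs)).abs.integrableOn
      · intro w hw
        have he1 : ‖e1 n‖ = 1 := by simp [e1]
        have hw1 : ‖w‖ ≤ 1 + t := by
          have h1 : ‖w - e1 n‖ < t := by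
            rw [← dist_eq_norm]; exact hw
          have h2 : ‖w‖ ≤ ‖w - e1 n‖ + ‖e1 n‖ := by
            simpa using norm_add_le (w - e1 n) (e1 n)
          rw [he1] at h2
          linarith
        have hmax : max 1 ‖w‖ ≤ (1 + t₀⁻¹) * t := by
          have h3 : 1 ≤ t₀⁻¹ * t := by
            rw [inv_mul_eq_div, le_div_iff₀ ht₀]
            linarith
          have h4 : 1 + t ≤ (1 + t₀⁻¹) * t := by
            rw [add_mul, one_mul]; linarith
          exact max_le (by linarith) (by linarith)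
        have hmpos : 0 < max 1 ‖w‖ := lt_max_of_lt_left one_pos
        have h5 : 1 ≤ ((1 + t₀⁻¹) * t) ^ (n + 1) * (max 1 ‖w‖ ^ (n + 1))⁻¹ := by
          rw [← div_eq_mul_inv, one_le_div (by positivity)]
          gcongr
        calc |F (s' * ‖w‖) - F (s * ‖w‖)|
            ≤ |F (s' * ‖w‖) - F (s * ‖w‖)| *
              (((1 + t₀⁻¹) * t) ^ (n + 1) * (max 1 ‖w‖ ^ (n + 1))⁻¹) :=
              le_mul_of_one_le_right (abs_nonneg _) h5
          _ = _ := by ring
    · refine Eventually.of_forall fun w => ?_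
      have hmpos : 0 < max 1 ‖w‖ := lt_max_of_lt_left one_pos
      show 0 ≤ ((1 + t₀⁻¹) * t) ^ (n + 1) *
        (|F (s' * ‖w‖) - F (s * ‖w‖)| * (max 1 ‖w‖ ^ (n + 1))⁻¹)
      positivity
  rw [hp2] at hstep
  calc (t ^ (n + 1) * κ)⁻¹ * |∫ w in Metric.ball (e1 n) t, (F (s' * ‖w‖) - F (s * ‖w‖))|
      ≤ (t ^ (n + 1) * κ)⁻¹ * (((1 + t₀⁻¹) * t) ^ (n + 1) * ((n + 1) * κ *
        ∫ ρ in Ioi (0 : ℝ), |F (s' * ρ) - F (s * ρ)| * (max 1 ρ ^ (n + 1))⁻¹ * ρ ^ n)) :=
        mul_le_mul_of_nonneg_left hstep (by positivity)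
    _ ≤ (t ^ (n + 1) * κ)⁻¹ * (((1 + t₀⁻¹) * t) ^ (n + 1) * ((n + 1) * κ *
        ∫ σ in s..s', H1 n f σ)) := by
        gcongr
    _ = (n + 1) * (1 + t₀⁻¹) ^ (n + 1) * ∫ σ in s..s', H1 n f σ := by
        rw [mul_pow]
        field_simp

end Pool.Agent.RM8c
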