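import Pool.Agent.RM8c.Defs
import Pool.Agent.RM8c.B3
set_option autoImplicit false
open MeasureTheory Set Filter Topology
namespace Pool.Agent.RM8c
theorem H1_total (n : ℕ) (hn : 1 ≤ n) (f : ℝ → ℝ)
    (hf : IntegrableOn (fun w => f w * w ^ n) (Ioi 0)) :
    IntegrableOn (fun σ => H1 n f σ * σ ^ n) (Ioi 0) ∧
      ∫ σ in Ioi (0 : ℝ), H1 n f σ * σ ^ n ≤ 2 * ∫ w in Ioi (0 : ℝ), |f w| * w ^ n := by
  obtain ⟨k, rfl⟩ : ∃ k, n = k + 1 := ⟨n - 1, by omega⟩
  clear hn
  obtain ⟨hloc, -⟩ := H1_local (k + 1) f hf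
  -- measurability of f
  have hfm : AEStronglyMeasurable f (volume.restrict (Ioi (0 : ℝ))) := by
    have h1 : AEStronglyMeasurable (fun w => f w * w ^ (k + 1) * (w ^ (k + 1))⁻¹)
        (volume.restrict (Ioi (0 : ℝ))) :=
      hf.aestronglyMeasurable.mul (by
        have : Measurable (fun w : ℝ => (w ^ (k + 1))⁻¹) := by fun_prop
        exact this.aestronglyMeasurable)
    refine h1.congr ?_
    filter_upwards [ae_restrict_mem measurableSet_Ioi] with w hw
    have hw0 : (0 : ℝ) < w := hw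
    field_simp
  -- the kernel
  set g : ℝ × ℝ → ℝ := fun p => p.1 ^ k * ((p.2 / max p.1 p.2) ^ (k + 1 + 1) * |f p.2|) with hg
  have hgm : AEStronglyMeasurable g
      ((volume.restrict (Ioi (0 : ℝ))).prod (volume.restrict (Ioi (0 : ℝ)))) := by
    have h1 : AEStronglyMeasurable (fun p : ℝ × ℝ => |f p.2|)
        ((volume.restrict (Ioi (0 : ℝ))).prod (volume.restrict (Ioi (0 : ℝ)))) := by
      have := (AEStronglyMeasurable.comp_snd (μ := volume.restrict (Ioi (0 : ℝ))) hfm).norm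
      exact this
    have h2 : Measurable (fun p : ℝ × ℝ => p.1 ^ k) := by fun_prop
    have h3 : Measurable (fun p : ℝ × ℝ => (p.2 / max p.1 p.2) ^ (k + 1 + 1)) := by fun_prop
    exact h2.aestronglyMeasurable.mul (h3.aestronglyMeasurable.mul h1)
  have hHg : ∀ σ : ℝ, 0 < σ → H1 (k + 1) f σ * σ ^ (k + 1) = ∫ w in Ioi (0 : ℝ), g (σ, w) := by
    intro σ hσ
    simp only [H1, hg]
    rw [integral_const_mul, pow_succ]
    generalize (∫ (w : ℝ) in Ioi 0, (w / max σ w) ^ (k + 1 + 1) * |f w|) = II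
    field_simp
  have hgint : ∀ σ : ℝ, 0 < σ → Integrable (fun w => g (σ, w)) (volume.restrict (Ioi (0 : ℝ))) := by
    intro σ hσ
    exact (hloc σ hσ).1.const_mul (σ ^ k)
  have hgnn : ∀ σ w : ℝ, 0 < σ → 0 < w → 0 ≤ g (σ, w) := by
    intro σ w hσ hw
    simp only [hg]
    positivity
  have hHm : AEStronglyMeasurable (fun σ => H1 (k + 1) f σ * σ ^ (k + 1))
      (volume.restrict (Ioi (0 : ℝ))) := by
    refine hgm.integral_prod_right'.congr ?_
    filter_upwards [ae_restrict_mem measurableSet_Ioi] with σ hσ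
    exact (hHg σ hσ).symm
  have hHnn : ∀ σ : ℝ, 0 < σ → 0 ≤ H1 (k + 1) f σ * σ ^ (k + 1) := fun σ hσ =>
    mul_nonneg (hloc σ hσ).2.1 (by positivity)
  have hHnn' : 0 ≤ᵐ[volume.restrict (Ioi (0 : ℝ))] (fun σ => H1 (k + 1) f σ * σ ^ (k + 1)) := by
    filter_upwards [ae_restrict_mem measurableSet_Ioi] with σ hσ
    exact hHnn σ hσ
  -- inner integral
  have hinner : ∀ w : ℝ, 0 < w → ∫⁻ σ in Ioi (0 : ℝ), ENNReal.ofReal (σ ^ k * (w / max σ w) ^ (k + 1 + 1)) ≤
      ENNReal.ofReal (2 * w ^ (k + 1)) := by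
    intro w hw
    have hu : Ioi (0 : ℝ) = Ioc 0 w ∪ Ioi w := (Ioc_union_Ioi_eq_Ioi hw.le).symm
    rw [hu]
    refine (lintegral_union_le _ _ _).trans ?_
    have hA : ∫⁻ σ in Ioc (0 : ℝ) w, ENNReal.ofReal (σ ^ k * (w / max σ w) ^ (k + 1 + 1)) ≤
        ENNReal.ofReal (w ^ (k + 1)) := by
      calc ∫⁻ σ in Ioc (0 : ℝ) w, ENNReal.ofReal (σ ^ k * (w / max σ w) ^ (k + 1 + 1))
          ≤ ∫⁻ σ in Ioc (0 : ℝ) w, ENNReal.ofReal (w ^ k) := by
            apply setLIntegral_mono' measurableSet_Ioc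
            intro σ hσ
            apply ENNReal.ofReal_le_ofReal
            rw [max_eq_right hσ.2, div_self hw.ne', one_pow, mul_one]
            exact pow_le_pow_left₀ hσ.1.le hσ.2 k
        _ = ENNReal.ofReal (w ^ (k + 1)) := by
            rw [setLIntegral_const, Real.volume_Ioc, sub_zero, ← ENNReal.ofReal_mul (by positivity)]
            rw [pow_succ]
    have hB : ∫⁻ σ in Ioi w, ENNReal.ofReal (σ ^ k * (w / max σ w) ^ (k + 1 + 1)) =
        ENNReal.ofReal (w ^ (k + 1)) := by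
      have h1 : ∫⁻ σ in Ioi w, ENNReal.ofReal (σ ^ k * (w / max σ w) ^ (k + 1 + 1)) =
          ∫⁻ σ in Ioi w, ENNReal.ofReal (w ^ (k + 1 + 1) * σ ^ (-2 : ℝ)) := by
        apply setLIntegral_congr_fun measurableSet_Ioi
        intro σ hσ
        have hσw : w < σ := hσ
        have hσ0 : 0 < σ := hw.trans hσw
        simp only
        congr 1
        rw [max_eq_left hσw.le, Real.rpow_neg hσ0.le]
        have : σ ^ (2 : ℝ) = σ ^ 2 := by norm_num
        rw [this, div_pow]
        field_simp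
        ring
      rw [h1, ← ofReal_integral_eq_lintegral_ofReal]
      · rw [integral_const_mul, integral_Ioi_rpow_of_lt (by norm_num) hw]
        congr 1
        have : w ^ ((-2 : ℝ) + 1) = w⁻¹ := by
          rw [show ((-2 : ℝ) + 1) = -1 by norm_num, Real.rpow_neg_one]
        rw [this, pow_succ w (k + 1)]
        field_simp
        norm_num
      · exact (integrableOn_Ioi_rpow_of_lt (by norm_num) hw).const_mul _
      · filter_upwards [ae_restrict_mem measurableSet_Ioi] with σ hσ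
        have hσ0 : 0 < σ := hw.trans hσ
        simp only [Pi.zero_apply]
        positivity
    rw [hB]
    refine (add_le_add hA le_rfl).trans ?_
    rw [← ENNReal.ofReal_add (by positivity) (by positivity)]
    apply le_of_eq
    congr 1
    ring
  -- the right hand side
  have hR : IntegrableOn (fun w => |f w| * w ^ (k + 1)) (Ioi (0 : ℝ)) := by
    refine hf.norm.congr ?_
    filter_upwards [ae_restrict_mem measurableSet_Ioi] with w hw
    have hw0 : (0 : ℝ) < w := hw
    rw [Real.norm_eq_abs, abs_mul, abs_of_pos (by positivity : (0 : ℝ) < w ^ (k + 1))]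
  have hRr : ENNReal.ofReal (2 * ∫ w in Ioi (0 : ℝ), |f w| * w ^ (k + 1)) =
      ∫⁻ w in Ioi (0 : ℝ), ENNReal.ofReal (2 * (|f w| * w ^ (k + 1))) := by
    rw [← integral_const_mul]
    apply ofReal_integral_eq_lintegral_ofReal (hR.const_mul 2)
    filter_upwards [ae_restrict_mem measurableSet_Ioi] with w hw
    have hw0 : (0 : ℝ) < w := hw
    simp only [Pi.zero_apply]
    positivity
  -- main estimate
  have hmain : ∫⁻ σ in Ioi (0 : ℝ), ENNReal.ofReal (H1 (k + 1) f σ * σ ^ (k + 1)) ≤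
      ENNReal.ofReal (2 * ∫ w in Ioi (0 : ℝ), |f w| * w ^ (k + 1)) := by
    have h1 : ∫⁻ σ in Ioi (0 : ℝ), ENNReal.ofReal (H1 (k + 1) f σ * σ ^ (k + 1)) =
        ∫⁻ σ in Ioi (0 : ℝ), ∫⁻ w in Ioi (0 : ℝ), ENNReal.ofReal (g (σ, w)) := by
      apply setLIntegral_congr_fun measurableSet_Ioi
      intro σ hσ
      simp only
      rw [hHg σ hσ]
      apply ofReal_integral_eq_lintegral_ofReal (hgint σ hσ)
      filter_upwards [ae_restrict_mem measurableSet_Ioi] with w hw
      exact hgnn σ w hσ hw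
    rw [h1, lintegral_lintegral_swap, hRr]
    · apply setLIntegral_mono' measurableSet_Ioi
      intro w hw
      have hw0 : (0 : ℝ) < w := hw
      have h2 : ∫⁻ σ in Ioi (0 : ℝ), ENNReal.ofReal (g (σ, w)) =
          ∫⁻ σ in Ioi (0 : ℝ), ENNReal.ofReal |f w| *
            ENNReal.ofReal (σ ^ k * (w / max σ w) ^ (k + 1 + 1)) := by
        apply setLIntegral_congr_fun measurableSet_Ioi
        intro σ hσ
        simp only [hg]
        rw [← ENNReal.ofReal_mul (abs_nonneg _)]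
        congr 1
        ring
      rw [h2, lintegral_const_mul' _ _ ENNReal.ofReal_ne_top]
      refine (mul_le_mul' le_rfl (hinner w hw0)).trans ?_
      rw [← ENNReal.ofReal_mul (abs_nonneg _)]
      apply le_of_eq
      congr 1
      ring
    · exact hgm.aemeasurable.ennreal_ofReal
  have hI : IntegrableOn (fun σ => H1 (k + 1) f σ * σ ^ (k + 1)) (Ioi 0) := by
    refine ⟨hHm, ?_⟩
    rw [hasFiniteIntegral_iff_ofReal hHnn']
    exact hmain.trans_lt ENNReal.ofReal_lt_top
  refine ⟨hI, ?_⟩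
  rw [integral_eq_lintegral_of_nonneg_ae hHnn' hHm]
  have hR0 : 0 ≤ 2 * ∫ w in Ioi (0 : ℝ), |f w| * w ^ (k + 1) := by
    apply mul_nonneg (by norm_num)
    apply setIntegral_nonneg measurableSet_Ioi
    intro w hw
    have hw0 : (0 : ℝ) < w := hw
    positivity
  calc (∫⁻ σ in Ioi (0 : ℝ), ENNReal.ofReal (H1 (k + 1) f σ * σ ^ (k + 1))).toReal
      ≤ (ENNReal.ofReal (2 * ∫ w in Ioi (0 : ℝ), |f w| * w ^ (k + 1))).toReal :=
        ENNReal.toReal_mono ENNReal.ofReal_ne_top hmain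
    _ = _ := ENNReal.toReal_ofReal hR0

end Pool.Agent.RM8c
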