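import Pool.Agent.RM8c.Defs
set_option autoImplicit false
open MeasureTheory Set Filter Topology
namespace Pool.Agent.RM8c
theorem A_rep_norm (n : ℕ) (x r : ℝ) (hx : 0 ≤ x) (z : E n) (hz : z ∈ Metric.ball (x • e1 n) r) :
    x - r < ‖z‖ ∧ ‖z‖ < x + r := by
  have h1 : ‖x • e1 n‖ = x := by
    rw [norm_smul, Real.norm_of_nonneg hx, e1, EuclideanSpace.norm_single]
    simp
  have h2 : ‖z - x • e1 n‖ < r := by
    rw [← dist_eq_norm]; exact hz
  have h3 := abs_norm_sub_norm_le z (x • e1 n)
  rw [h1] at h3
  have h4 := abs_le.1 (h3.trans h2.le)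
  have h5 := abs_lt.1 (lt_of_le_of_lt h3 h2)
  constructor <;> linarith [h5.1, h5.2]

/-- representation of ball averages through the distribution function -/
theorem A_rep (n : ℕ) (F f : ℝ → ℝ) (hF : AC F f) (a b x r : ℝ) (ha : 0 < a) (hr : 0 < r)
    (hax : a ≤ x - r) (hxb : x + r ≤ b) :
    A n F x r = F b - ∫ u in a..b, f u * N n x r u := by
  have hab : a ≤ b := by linarith
  have hx : 0 ≤ x := by linarith
  set B : Set (E n) := Metric.ball (x • e1 n) r with hB
  have hV : volume.real (Metric.ball (0 : E n) r) = volume.real B := by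
    unfold Measure.real
    rw [hB, Measure.addHaar_ball_center volume (x • e1 n) r]
  have hVpos : 0 < volume.real B := by
    unfold Measure.real
    exact ENNReal.toReal_pos (Metric.measure_ball_pos volume _ hr).ne' measure_ball_lt_top.ne
  have hfin : IsFiniteMeasure ((volume : Measure (E n)).restrict B) :=
    ⟨by rw [Measure.restrict_apply_univ]; exact measure_ball_lt_top⟩
  have hfint : Integrable f (volume.restrict (Ioc a b)) := by
    have := (hF a b ha hab).1
    rwa [intervalIntegrable_iff_integrableOn_Ioc_of_le hab] at this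
  let G : E n → ℝ → ℝ := fun z t => if ‖z‖ ≤ t then f t else 0
  have hG : Integrable (Function.uncurry G)
      (((volume : Measure (E n)).restrict B).prod (volume.restrict (Ioc a b))) := by
    have h1 : Integrable (fun p : E n × ℝ => f p.2)
      (((volume : Measure (E n)).restrict B).prod (volume.restrict (Ioc a b))) :=
        hfint.comp_snd _
    have hS : MeasurableSet {p : E n × ℝ | ‖p.1‖ ≤ p.2} :=
      measurableSet_le (by fun_prop) (by fun_prop)
    have h2 := h1.indicator hS
    refine h2.congr (Eventually.of_forall fun p => ?_)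
    simp only [Set.indicator, Set.mem_ofPred_eq, Function.uncurry, G]
  have hpt : ∀ z ∈ B, F ‖z‖ = F b - ∫ t in Ioc a b, G z t := by
    intro z hz
    obtain ⟨h1, h2⟩ := A_rep_norm n x r hx z hz
    have hz0 : 0 < ‖z‖ := by linarith
    have hzb : ‖z‖ ≤ b := by linarith
    have h3 := (hF ‖z‖ b hz0 hzb).2
    have h4 : ∫ t in Ioc a b, G z t = ∫ t in (‖z‖)..b, f t := by
      have h5 : (fun t => G z t) = (Ici ‖z‖).indicator f := by
        funext t
        simp only [G, Set.indicator, Set.mem_Ici]
      rw [h5, setIntegral_indicator measurableSet_Ici]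
      have h6 : Ioc a b ∩ Ici ‖z‖ = Icc ‖z‖ b := by
        ext t
        simp only [mem_inter_iff, mem_Ioc, mem_Ici, mem_Icc]
        constructor
        · rintro ⟨⟨_, h⟩, h'⟩; exact ⟨h', h⟩
        · rintro ⟨h', h⟩; exact ⟨⟨by linarith, h⟩, h'⟩
      rw [h6, integral_Icc_eq_integral_Ioc, intervalIntegral.integral_of_le hzb]
    rw [h4]
    linarith
  have h1 : ∫ z in B, F ‖z‖ = ∫ z in B, (F b - ∫ t in Ioc a b, G z t) :=
    setIntegral_congr_fun measurableSet_ball hpt
  have h2 : ∫ z in B, (F b - ∫ t in Ioc a b, G z t) =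
      (∫ z in B, F b) - ∫ z in B, ∫ t in Ioc a b, G z t :=
    integral_sub (integrable_const _) hG.integral_prod_left
  have h3 : ∫ z in B, ∫ t in Ioc a b, G z t = ∫ t in Ioc a b, ∫ z in B, G z t :=
    integral_integral_swap hG
  have h4 : ∀ t, ∫ z in B, G z t = f t * volume.real (B ∩ Metric.closedBall (0 : E n) t) := by
    intro t
    have h5 : (fun z => G z t) = (Metric.closedBall (0 : E n) t).indicator (fun _ => f t) := by
      funext z
      simp only [G, Set.indicator, mem_closedBall_zero_iff]
    rw [h5, setIntegral_indicator Metric.isClosed_closedBall.measurableSet, setIntegral_const,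
      smul_eq_mul, mul_comm]
  have h6 : ∫ z in B, F b = volume.real B * F b := by
    rw [setIntegral_const, smul_eq_mul]
  have h7 : ∫ u in a..b, f u * N n x r u =
      (volume.real B)⁻¹ * ∫ t in Ioc a b, ∫ z in B, G z t := by
    rw [intervalIntegral.integral_of_le hab, ← integral_const_mul]
    apply setIntegral_congr_fun measurableSet_Ioc
    intro u _
    simp only [N]
    rw [h4 u, hV]
    ring
  rw [h7]
  unfold A
  rw [hV, h1, h2, h3, h6, mul_sub, ← mul_assoc, inv_mul_cancel₀ hVpos.ne', one_mul]

end Pool.Agent.RM8c
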