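import Pool.Agent.RM8c.Defs
set_option autoImplicit false
open MeasureTheory Set Filter Topology
namespace Pool.Agent.RM8c
theorem N_basic (n : ℕ) (x r : ℝ) (hr : 0 < r) (hx : r ≤ x) :
    (∀ u, 0 ≤ N n x r u ∧ N n x r u ≤ 1) ∧ Monotone (N n x r) ∧
      (∀ u, u ≤ x - r → N n x r u = 0) ∧ (∀ u, x + r ≤ u → N n x r u = 1) := by
  have hx0 : 0 < x := lt_of_lt_of_le hr hx
  have hV : 0 < volume.real (Metric.ball (0 : E n) r) := by
    rw [Measure.real]
    exact ENNReal.toReal_pos (Metric.measure_ball_pos volume _ hr).ne' measure_ball_lt_top.ne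
  have hVx : volume.real (Metric.ball (x • e1 n) r) = volume.real (Metric.ball (0 : E n) r) := by
    rw [Measure.real, Measure.real, Measure.addHaar_ball_center]
  have hfin : volume (Metric.ball (x • e1 n) r) ≠ ⊤ := measure_ball_lt_top.ne
  have hnorm : ‖x • e1 n‖ = x := by
    rw [norm_smul, e1, EuclideanSpace.norm_single, norm_one, mul_one, Real.norm_eq_abs,
      abs_of_pos hx0]
  refine ⟨fun u => ⟨?_, ?_⟩, ?_, ?_, ?_⟩
  · unfold N
    exact mul_nonneg (inv_nonneg.2 hV.le) measureReal_nonneg
  · unfold N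
    have h1 : volume.real (Metric.ball (x • e1 n) r ∩ Metric.closedBall (0 : E n) u) ≤
        volume.real (Metric.ball (0 : E n) r) := by
      rw [← hVx]
      exact measureReal_mono inter_subset_left hfin
    calc (volume.real (Metric.ball (0 : E n) r))⁻¹ *
        volume.real (Metric.ball (x • e1 n) r ∩ Metric.closedBall (0 : E n) u)
        ≤ (volume.real (Metric.ball (0 : E n) r))⁻¹ * volume.real (Metric.ball (0 : E n) r) :=
          mul_le_mul_of_nonneg_left h1 (inv_nonneg.2 hV.le)
      _ = 1 := inv_mul_cancel₀ hV.ne'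
  · intro u v huv
    unfold N
    refine mul_le_mul_of_nonneg_left ?_ (inv_nonneg.2 hV.le)
    exact measureReal_mono (inter_subset_inter_right _ (Metric.closedBall_subset_closedBall huv))
      (ne_top_of_le_ne_top hfin (measure_mono inter_subset_left))
  · intro u hu
    have hempty : Metric.ball (x • e1 n) r ∩ Metric.closedBall (0 : E n) u = ∅ := by
      rw [Set.eq_empty_iff_forall_notMem]
      rintro z ⟨hz1, hz2⟩
      rw [Metric.mem_ball, dist_eq_norm] at hz1
      rw [mem_closedBall_zero_iff] at hz2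
      have h3 : ‖x • e1 n‖ ≤ ‖z‖ + ‖z - x • e1 n‖ := by
        have h4 : x • e1 n = z - (z - x • e1 n) := by abel
        calc ‖x • e1 n‖ = ‖z - (z - x • e1 n)‖ := by rw [← h4]
          _ ≤ ‖z‖ + ‖z - x • e1 n‖ := norm_sub_le _ _
      rw [hnorm] at h3
      linarith
    unfold N
    rw [hempty]
    simp
  · intro u hu
    have hsub : Metric.ball (x • e1 n) r ∩ Metric.closedBall (0 : E n) u =
        Metric.ball (x • e1 n) r := by
      rw [Set.inter_eq_left]
      intro z hz
      rw [Metric.mem_ball, dist_eq_norm] at hz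
      rw [mem_closedBall_zero_iff]
      have h3 : ‖z‖ ≤ ‖z - x • e1 n‖ + ‖x • e1 n‖ := by
        have h4 : z = (z - x • e1 n) + x • e1 n := by abel
        calc ‖z‖ = ‖(z - x • e1 n) + x • e1 n‖ := by rw [← h4]
          _ ≤ _ := norm_add_le _ _
      rw [hnorm] at h3
      linarith
    unfold N
    rw [hsub, hVx]
    exact inv_mul_cancel₀ hV.ne'

end Pool.Agent.RM8c
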