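import Pool.Agent.RM8c.Defs
set_option autoImplicit false
open MeasureTheory Set Filter Topology
namespace Pool.Agent.RM8c
theorem x975_e1 (n : ℕ) : ‖e1 n‖ = 1 := by simp [e1]

theorem x975_sq (n : ℕ) (x : ℝ) (w : E n) :
    ‖x • e1 n + w‖ ^ 2 = x ^ 2 + 2 * x * inner ℝ (e1 n) w + ‖w‖ ^ 2 := by
  rw [norm_add_sq_real, inner_smul_left, norm_smul, x975_e1, mul_one, Real.norm_eq_abs, sq_abs]
  simp
  ring

theorem x975_sq2 (n : ℕ) (x : ℝ) (w : E n) :
    ‖x • e1 n + (1 / 2 : ℝ) • w‖ ^ 2 = x ^ 2 + x * inner ℝ (e1 n) w + ‖w‖ ^ 2 / 4 := by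
  rw [x975_sq, inner_smul_right, norm_smul, mul_pow]
  norm_num
  ring

theorem x975_in (n : ℕ) (w : E n) : |inner ℝ (e1 n) w| ≤ ‖w‖ := by
  have h := abs_real_inner_le_norm (e1 n) w
  rwa [x975_e1, one_mul] at h

theorem x975_trans (n : ℕ) (x r u : ℝ) :
    volume (Metric.ball (x • e1 n) r ∩ Metric.closedBall (0 : E n) u) =
      volume {w : E n | ‖w‖ < r ∧ ‖x • e1 n + w‖ ≤ u} := by
  rw [← measure_preimage_add (volume : Measure (E n)) (x • e1 n)]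
  congr 1
  ext w
  simp only [Set.mem_preimage, Set.mem_inter_iff, Metric.mem_ball, Metric.mem_closedBall,
    dist_eq_norm, sub_zero, add_sub_cancel_left, Set.mem_ofPred_eq]

theorem x975_fin (n : ℕ) (r : ℝ) (P : E n → Prop) :
    volume {w : E n | ‖w‖ < r ∧ P w} ≠ ⊤ := by
  refine ne_of_lt (lt_of_le_of_lt (measure_mono ?_) (measure_ball_lt_top (x := (0 : E n)) (r := r)))
  intro w hw
  rw [Metric.mem_ball, dist_zero_right]
  exact hw.1

theorem x975_N (n : ℕ) (x r u : ℝ) : N n x r u =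
    (volume.real (Metric.ball (0 : E n) r))⁻¹ *
      volume.real {w : E n | ‖w‖ < r ∧ ‖x • e1 n + w‖ ≤ u} := by
  unfold N
  rw [measureReal_def, measureReal_def, x975_trans]
  rfl

theorem x975_N2 (n : ℕ) (x r u : ℝ) : N n x (r / 2) u =
    (volume.real (Metric.ball (0 : E n) r))⁻¹ *
      volume.real {w : E n | ‖w‖ < r ∧ ‖x • e1 n + (1 / 2 : ℝ) • w‖ ≤ u} := by
  rw [x975_N]
  have hh : (1 / 2 : ℝ) ≠ 0 := by norm_num
  have k1 : {w : E n | ‖w‖ < r ∧ ‖x • e1 n + (1 / 2 : ℝ) • w‖ ≤ u} =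
      ((1 / 2 : ℝ) • ·) ⁻¹' {w : E n | ‖w‖ < r / 2 ∧ ‖x • e1 n + w‖ ≤ u} := by
    ext w
    simp only [Set.mem_preimage, Set.mem_ofPred_eq, norm_smul]
    rw [show ‖(1 / 2 : ℝ)‖ = 1 / 2 by norm_num]
    constructor
    · rintro ⟨h1, h2⟩; exact ⟨by linarith, h2⟩
    · rintro ⟨h1, h2⟩; exact ⟨by linarith, h2⟩
  have k2 : Metric.ball (0 : E n) r = ((1 / 2 : ℝ) • ·) ⁻¹' Metric.ball (0 : E n) (r / 2) := by
    ext w
    simp only [Set.mem_preimage, Metric.mem_ball, dist_zero_right, norm_smul]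
    rw [show ‖(1 / 2 : ℝ)‖ = 1 / 2 by norm_num]
    constructor
    · intro h1; linarith
    · intro h1; linarith
  have hK : (0:ℝ) < |((1 / 2 : ℝ) ^ Module.finrank ℝ (E n))⁻¹| := by positivity
  rw [k1, k2, measureReal_def, measureReal_def, measureReal_def, measureReal_def,
    Measure.addHaar_preimage_smul _ hh, Measure.addHaar_preimage_smul _ hh, ENNReal.toReal_mul,
    ENNReal.toReal_mul, ENNReal.toReal_ofReal hK.le, mul_inv]
  set K := |((1 / 2 : ℝ) ^ Module.finrank ℝ (E n))⁻¹| with hKdef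
  have hK' : K ≠ 0 := hK.ne'
  field_simp

theorem N_mono_x (n : ℕ) (r x q u : ℝ) (hr : 0 < r) (hx : r ≤ x) (hq : x ≤ q) :
    N n q r u ≤ N n x r u := by
  rw [x975_N, x975_N]
  refine mul_le_mul_of_nonneg_left ?_ (inv_nonneg.mpr measureReal_nonneg)
  refine measureReal_mono ?_ (x975_fin n r _)
  rintro w ⟨h1, h2⟩
  refine ⟨h1, le_trans ?_ h2⟩
  have h3 := abs_le.mp (x975_in n w)
  refine (sq_le_sq₀ (norm_nonneg _) (norm_nonneg _)).mp ?_
  rw [x975_sq, x975_sq]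
  nlinarith [mul_nonneg (sub_nonneg.mpr hq) (by linarith : (0:ℝ) ≤ q + x + 2 * inner ℝ (e1 n) w)]

theorem N_tangent (n : ℕ) (r x u : ℝ) (hr : 0 < r) (hx : r ≤ x) :
    N n (x + r / 2) (r / 2) u ≤ N n x r u ∧ N n x r u ≤ N n (x - r / 2) (r / 2) u := by
  constructor
  · rw [x975_N2, x975_N]
    refine mul_le_mul_of_nonneg_left ?_ (inv_nonneg.mpr measureReal_nonneg)
    refine measureReal_mono ?_ (x975_fin n r _)
    rintro w ⟨h1, h2⟩
    refine ⟨h1, le_trans ?_ h2⟩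
    have h3 := abs_le.mp (x975_in n w)
    have h0 := norm_nonneg w
    refine (sq_le_sq₀ (norm_nonneg _) (norm_nonneg _)).mp ?_
    rw [x975_sq, x975_sq2]
    nlinarith [mul_nonneg (sub_nonneg.mpr hx) (by linarith : (0:ℝ) ≤ r - inner ℝ (e1 n) w),
      mul_nonneg hr.le (by linarith : (0:ℝ) ≤ r - inner ℝ (e1 n) w),
      mul_nonneg (by linarith : (0:ℝ) ≤ r - ‖w‖) (by linarith : (0:ℝ) ≤ r + ‖w‖)]
  · rw [x975_N2, x975_N]
    refine mul_le_mul_of_nonneg_left ?_ (inv_nonneg.mpr measureReal_nonneg)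
    refine measureReal_mono ?_ (x975_fin n r _)
    rintro w ⟨h1, h2⟩
    refine ⟨h1, le_trans ?_ h2⟩
    have h3 := abs_le.mp (x975_in n w)
    have h0 := norm_nonneg w
    refine (sq_le_sq₀ (norm_nonneg _) (norm_nonneg _)).mp ?_
    rw [x975_sq2, x975_sq]
    nlinarith [mul_nonneg (sub_nonneg.mpr hx) (by linarith : (0:ℝ) ≤ r + inner ℝ (e1 n) w),
      sq_nonneg (r + inner ℝ (e1 n) w),
      mul_nonneg (by linarith : (0:ℝ) ≤ ‖w‖ - inner ℝ (e1 n) w)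
        (by linarith : (0:ℝ) ≤ ‖w‖ + inner ℝ (e1 n) w)]

end Pool.Agent.RM8c
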