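import Pool.Agent.RM8c.Defs
import Pool.Agent.RM8c.G1
import Pool.Agent.RM8c.G2
import Pool.Agent.RM8c.G3
set_option autoImplicit false
open MeasureTheory Set Filter Topology
namespace Pool.Agent.RM8c
theorem top_nrm (n : ℕ) : ‖e1 n‖ = 1 := by
  unfold e1
  rw [EuclideanSpace.norm_single, norm_one]

theorem top_ball (n : ℕ) (y r : ℝ) (hy : 0 ≤ y) (z : E n) (hz : z ∈ Metric.ball (y • e1 n) r) :
    y - r < ‖z‖ ∧ ‖z‖ < y + r := by
  rw [mem_ball_iff_norm] at hz
  have h1 : ‖y • e1 n‖ = y := by
    rw [norm_smul, top_nrm, mul_one, Real.norm_eq_abs, abs_of_nonneg hy]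
  have h2 := abs_norm_sub_norm_le z (y • e1 n)
  rw [h1] at h2
  have h3 := abs_lt.1 (lt_of_le_of_lt h2 hz)
  exact ⟨by linarith [h3.1], by linarith [h3.2]⟩

theorem top_cont (F f : ℝ → ℝ) (hF : AC F f) (c d : ℝ) (hc : 0 < c) (hcd : c ≤ d) :
    ContinuousOn F (Icc c d) := by
  obtain ⟨hi, -⟩ := hF c d hc hcd
  have h1 : ContinuousOn (fun t => ∫ s in c..t, f s) (uIcc c d) :=
    intervalIntegral.continuousOn_primitive_interval' hi left_mem_uIcc
  rw [uIcc_of_le hcd] at h1
  have h2 : ContinuousOn (fun t => F c + ∫ s in c..t, f s) (Icc c d) := continuousOn_const.add h1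
  refine h2.congr ?_
  intro t ht
  have h3 := (hF c t hc ht.1).2
  show F t = F c + ∫ s in c..t, f s
  linarith

theorem top_avg (n : ℕ) (F f : ℝ → ℝ) (hF : AC F f) (y r l : ℝ) (hr : 0 < r) (hyr : 0 < y - r)
    (hle : ∀ t, y - r < t → t < y + r → F t ≤ l) : A n F y r ≤ l := by
  have hy : 0 ≤ y := by linarith
  have hcl : ∀ z ∈ Metric.closedBall (y • e1 n) r, ‖z‖ ∈ Icc (y - r) (y + r) := by
    intro z hz
    rw [mem_closedBall_iff_norm] at hz
    have h1 : ‖y • e1 n‖ = y := by
      rw [norm_smul, top_nrm, mul_one, Real.norm_eq_abs, abs_of_nonneg hy]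
    have h2 := abs_norm_sub_norm_le z (y • e1 n)
    rw [h1] at h2
    have h3 := abs_le.1 (h2.trans hz)
    exact ⟨by linarith [h3.1], by linarith [h3.2]⟩
  have hcont : ContinuousOn (fun z : E n => F ‖z‖) (Metric.closedBall (y • e1 n) r) :=
    (top_cont F f hF (y - r) (y + r) hyr (by linarith)).comp continuous_norm.continuousOn hcl
  have hint : IntegrableOn (fun z : E n => F ‖z‖) (Metric.ball (y • e1 n) r) :=
    (hcont.integrableOn_compact (isCompact_closedBall _ _)).mono_set Metric.ball_subset_closedBall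
  have hfin : volume (Metric.ball (y • e1 n) r) ≠ ⊤ := Metric.isBounded_ball.measure_lt_top.ne
  have h4 : ∫ z in Metric.ball (y • e1 n) r, F ‖z‖ ≤ ∫ z in Metric.ball (y • e1 n) r, l := by
    apply setIntegral_mono_on hint (integrableOn_const hfin) measurableSet_ball
    intro z hz
    obtain ⟨h5, h6⟩ := top_ball n y r hy z hz
    exact hle _ h5 h6
  have hvol : volume.real (Metric.ball (y • e1 n) r) = volume.real (Metric.ball (0 : E n) r) :=
    Measure.addHaar_real_ball_center _ _ _
  rw [setIntegral_const, hvol, smul_eq_mul] at h4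
  have hpos : 0 < volume.real (Metric.ball (0 : E n) r) := by
    rw [measureReal_def]
    apply ENNReal.toReal_pos
    · exact (Metric.measure_ball_pos volume _ hr).ne'
    · exact Metric.isBounded_ball.measure_lt_top.ne
  unfold A
  rw [inv_mul_le_iff₀ hpos]
  exact h4

theorem top_int (n : ℕ) (F f : ℝ → ℝ) (hF : AC F f) (a b y1 r1 y2 r2 : ℝ) (ha : 0 < a)
    (hr1 : 0 < r1) (hr2 : 0 < r2) (hab : a ≤ b) (h1a : a ≤ y1 - r1) (h1b : y1 + r1 ≤ b)
    (h2a : a ≤ y2 - r2) (h2b : y2 + r2 ≤ b) :
    ∫ u in a..b, f u * (N n y1 r1 u - N n y2 r2 u) = A n F y2 r2 - A n F y1 r1 := by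
  have hi := (hF a b ha hab).1
  have hN : ∀ y r, 0 < r → r ≤ y → IntervalIntegrable (fun u => f u * N n y r u) volume a b := by
    intro y r hr hry
    obtain ⟨hb, hmono, -, -⟩ := N_basic n y r hr hry
    have hmeas : Measurable (N n y r) := hmono.measurable
    rw [intervalIntegrable_iff] at hi ⊢
    apply Integrable.mul_bdd (c := 1) hi hmeas.aestronglyMeasurable
    refine Eventually.of_forall (fun u => ?_)
    rw [Real.norm_eq_abs, abs_of_nonneg (hb u).1]
    exact (hb u).2
  have e1 := A_rep n F f hF a b y1 r1 ha hr1 h1a h1b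
  have e2 := A_rep n F f hF a b y2 r2 ha hr2 h2a h2b
  have e3 : ∫ u in a..b, f u * (N n y1 r1 u - N n y2 r2 u) =
      (∫ u in a..b, f u * N n y1 r1 u) - ∫ u in a..b, f u * N n y2 r2 u := by
    rw [← intervalIntegral.integral_sub (hN y1 r1 hr1 (by linarith)) (hN y2 r2 hr2 (by linarith))]
    congr 1
    funext u
    ring
  rw [e3]
  linarith

theorem top_sqrt (CK s : ℝ) (hCK : 0 < CK) (ω d : ℝ) (hω : 0 < ω) (hd : 0 ≤ d)
    (hs : s = d / ω) : CK * Real.sqrt (d / (ω / 2)) ≤ 2 * CK * Real.sqrt s := by
  have h1 : d / (ω / 2) = 2 * s := by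
    rw [hs]
    field_simp
  have h2 : 0 ≤ s := by rw [hs]; positivity
  have h3 : Real.sqrt (2 * s) ≤ 2 * Real.sqrt s := by
    rw [Real.sqrt_le_left (by positivity), mul_pow, Real.sq_sqrt h2]
    linarith
  rw [h1]
  calc CK * Real.sqrt (2 * s) ≤ CK * (2 * Real.sqrt s) := mul_le_mul_of_nonneg_left h3 hCK.le
    _ = 2 * CK * Real.sqrt s := by ring

/-- a single peak produces two admissible kernels -/
theorem TOP (n : ℕ) (CK : ℝ) (hK : Ker n CK) (F f : ℝ → ℝ) (hF : AC F f) (a b x ω p q l h : ℝ)
    (ha : 0 < a) (hω : 0 < ω) (hax : a ≤ x - 2 * ω) (hxb : x + 2 * ω ≤ b) (h8 : 8 * ω ≤ x)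
    (hpx : p < x) (hxq : x < q) (hp : x - p ≤ ω → A n F p ω ≤ l) (hq : q - x ≤ ω → A n F q ω ≤ l)
    (hle : ∀ y, p < y → y < q → F y ≤ l) (hx : l + h ≤ A n F x ω) :
    ∃ φ0 φ1 : ℝ → ℝ, GoodK (3 * CK + 1) a b x ω φ0 ∧ GoodK (3 * CK + 1) a b x ω φ1 ∧
      h ≤ -(∫ u in a..b, f u * φ0 u) ∧ h ≤ ∫ u in a..b, f u * φ1 u := by
  obtain ⟨hCK, hK1, hK2, hK3⟩ := hK
  have hx0 : 0 < x := by linarith
  have hab : a ≤ b := by linarith
  have hNx := N_basic n x ω hω (by linarith)
  -- Hölder estimate for differences of type 3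
  have hH3 : ∀ y, 2 * ω ≤ y → ∀ u ∈ Icc a b, ∀ v ∈ Icc a b,
      |N n y (ω / 2) u - N n y (ω / 2) v| ≤ 2 * CK * Real.sqrt (|u - v| / ω) := by
    intro y hy u hu v hv
    refine (hK3 (ω / 2) y u v (by linarith) (by linarith) (by linarith [hu.1])
      (by linarith [hv.1])).trans ?_
    exact top_sqrt CK _ hCK ω _ hω (abs_nonneg _) rfl
  have hH3x : ∀ u ∈ Icc a b, ∀ v ∈ Icc a b,
      |N n x ω u - N n x ω v| ≤ CK * Real.sqrt (|u - v| / ω) := by
    intro u hu v hv
    exact hK3 ω x u v hω (by linarith) (by linarith [hu.1]) (by linarith [hv.1])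
  have hH2 : ∀ y q', 4 * ω ≤ y → y ≤ q' → q' - y ≤ ω → ∀ u ∈ Icc a b, ∀ v ∈ Icc a b,
      |(N n y ω u - N n q' ω u) - (N n y ω v - N n q' ω v)| ≤
        (3 * CK + 1) * Real.sqrt (|u - v| / ω) := by
    intro y q' hy hyq hqy u hu v hv
    refine (hK2 ω y q' u v hω hy hyq (by linarith [hu.1]) (by linarith [hv.1])).trans ?_
    apply mul_le_mul_of_nonneg_right _ (Real.sqrt_nonneg _)
    have h1 : (q' - y) / ω ≤ 1 := by
      rw [div_le_one hω]
      exact hqy
    have h2 : CK * ((q' - y) / ω) ≤ CK * 1 := mul_le_mul_of_nonneg_left h1 hCK.le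
    linarith
  have hright : ∃ φ0 : ℝ → ℝ, GoodK (3 * CK + 1) a b x ω φ0 ∧ h ≤ -(∫ u in a..b, f u * φ0 u) := by
    by_cases hc : q - x ≤ ω
    · have hNq := N_basic n q ω hω (by linarith)
      refine ⟨fun u => N n x ω u - N n q ω u, ⟨?_, ?_, ?_⟩, ?_⟩
      · intro u _
        have h1 := (hK1 ω x q u hω (by linarith) hxq.le).1
        have h2 := (hNx.1 u).2
        have h3 := (hNq.1 u).1
        exact ⟨h1, by linarith⟩
      · intro u _ hne
        have h1 : x - ω < u := by
          by_contra hcon
          push Not at hcon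
          apply hne
          show N n x ω u - N n q ω u = 0
          rw [hNx.2.2.1 u hcon, hNq.2.2.1 u (by linarith), sub_zero]
        have h2 : u < q + ω := by
          by_contra hcon
          push Not at hcon
          apply hne
          show N n x ω u - N n q ω u = 0
          rw [hNx.2.2.2 u (by linarith), hNq.2.2.2 u hcon, sub_self]
        rw [abs_le]
        constructor <;> linarith
      · intro u hu v hv
        exact hH2 x q (by linarith) hxq.le hc u hu v hv
      · rw [top_int n F f hF a b x ω q ω ha hω hω hab (by linarith) (by linarith) (by linarith)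
          (by linarith)]
        have := hq hc
        linarith
    · push Not at hc
      have hNy := N_basic n (x + ω / 2) (ω / 2) (by linarith) (by linarith)
      refine ⟨fun u => N n x ω u - N n (x + ω / 2) (ω / 2) u, ⟨?_, ?_, ?_⟩, ?_⟩
      · intro u _
        have h1 := (N_tangent n ω x u hω (by linarith)).1
        have h2 := (hNx.1 u).2
        have h3 := (hNy.1 u).1
        exact ⟨by linarith, by linarith⟩
      · intro u _ hne
        have h1 : x - ω < u := by
          by_contra hcon
          push Not at hcon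
          apply hne
          show N n x ω u - N n (x + ω / 2) (ω / 2) u = 0
          rw [hNx.2.2.1 u hcon, hNy.2.2.1 u (by linarith), sub_zero]
        have h2 : u < x + ω := by
          by_contra hcon
          push Not at hcon
          apply hne
          show N n x ω u - N n (x + ω / 2) (ω / 2) u = 0
          rw [hNx.2.2.2 u (by linarith), hNy.2.2.2 u (by linarith), sub_self]
        rw [abs_le]
        constructor <;> linarith
      · intro u hu v hv
        have h1 := hH3x u hu v hv
        have h2 := hH3 (x + ω / 2) (by linarith) u hu v hv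
        have h3 : |(N n x ω u - N n (x + ω / 2) (ω / 2) u) -
            (N n x ω v - N n (x + ω / 2) (ω / 2) v)| ≤ |N n x ω u - N n x ω v| +
            |N n (x + ω / 2) (ω / 2) u - N n (x + ω / 2) (ω / 2) v| := by
          have h4 : (N n x ω u - N n (x + ω / 2) (ω / 2) u) -
            (N n x ω v - N n (x + ω / 2) (ω / 2) v) = (N n x ω u - N n x ω v) -
            (N n (x + ω / 2) (ω / 2) u - N n (x + ω / 2) (ω / 2) v) := by ring
          rw [h4]
          exact abs_sub _ _
        have h5 := Real.sqrt_nonneg (|u - v| / ω)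
        show |(N n x ω u - N n (x + ω / 2) (ω / 2) u) -
            (N n x ω v - N n (x + ω / 2) (ω / 2) v)| ≤ _
        linarith
      · rw [top_int n F f hF a b x ω (x + ω / 2) (ω / 2) ha hω (by linarith) hab (by linarith)
          (by linarith) (by linarith) (by linarith)]
        have h6 := top_avg n F f hF (x + ω / 2) (ω / 2) l (by linarith) (by linarith)
          (fun t ht1 ht2 => hle t (by linarith) (by linarith))
        linarith
  have hleft : ∃ φ1 : ℝ → ℝ, GoodK (3 * CK + 1) a b x ω φ1 ∧ h ≤ ∫ u in a..b, f u * φ1 u := by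
    by_cases hc : x - p ≤ ω
    · have hNp := N_basic n p ω hω (by linarith)
      refine ⟨fun u => N n p ω u - N n x ω u, ⟨?_, ?_, ?_⟩, ?_⟩
      · intro u _
        have h1 := (hK1 ω p x u hω (by linarith) hpx.le).1
        have h2 := (hNp.1 u).2
        have h3 := (hNx.1 u).1
        exact ⟨h1, by linarith⟩
      · intro u _ hne
        have h1 : p - ω < u := by
          by_contra hcon
          push Not at hcon
          apply hne
          show N n p ω u - N n x ω u = 0
          rw [hNp.2.2.1 u hcon, hNx.2.2.1 u (by linarith), sub_zero]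
        have h2 : u < x + ω := by
          by_contra hcon
          push Not at hcon
          apply hne
          show N n p ω u - N n x ω u = 0
          rw [hNp.2.2.2 u (by linarith), hNx.2.2.2 u hcon, sub_self]
        rw [abs_le]
        constructor <;> linarith
      · intro u hu v hv
        exact hH2 p x (by linarith) hpx.le hc u hu v hv
      · rw [top_int n F f hF a b p ω x ω ha hω hω hab (by linarith) (by linarith) (by linarith)
          (by linarith)]
        have := hp hc
        linarith
    · push Not at hc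
      have hNy := N_basic n (x - ω / 2) (ω / 2) (by linarith) (by linarith)
      refine ⟨fun u => N n (x - ω / 2) (ω / 2) u - N n x ω u, ⟨?_, ?_, ?_⟩, ?_⟩
      · intro u _
        have h1 := (N_tangent n ω x u hω (by linarith)).2
        have h2 := (hNy.1 u).2
        have h3 := (hNx.1 u).1
        exact ⟨by linarith, by linarith⟩
      · intro u _ hne
        have h1 : x - ω < u := by
          by_contra hcon
          push Not at hcon
          apply hne
          show N n (x - ω / 2) (ω / 2) u - N n x ω u = 0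
          rw [hNx.2.2.1 u hcon, hNy.2.2.1 u (by linarith), sub_zero]
        have h2 : u < x + ω := by
          by_contra hcon
          push Not at hcon
          apply hne
          show N n (x - ω / 2) (ω / 2) u - N n x ω u = 0
          rw [hNx.2.2.2 u (by linarith), hNy.2.2.2 u (by linarith), sub_self]
        rw [abs_le]
        constructor <;> linarith
      · intro u hu v hv
        have h1 := hH3x u hu v hv
        have h2 := hH3 (x - ω / 2) (by linarith) u hu v hv
        have h3 : |(N n (x - ω / 2) (ω / 2) u - N n x ω u) -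
            (N n (x - ω / 2) (ω / 2) v - N n x ω v)| ≤
            |N n (x - ω / 2) (ω / 2) u - N n (x - ω / 2) (ω / 2) v| +
            |N n x ω u - N n x ω v| := by
          have h4 : (N n (x - ω / 2) (ω / 2) u - N n x ω u) -
            (N n (x - ω / 2) (ω / 2) v - N n x ω v) =
            (N n (x - ω / 2) (ω / 2) u - N n (x - ω / 2) (ω / 2) v) -
            (N n x ω u - N n x ω v) := by ring
          rw [h4]
          exact abs_sub _ _
        have h5 := Real.sqrt_nonneg (|u - v| / ω)
        show |(N n (x - ω / 2) (ω / 2) u - N n x ω u) -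
            (N n (x - ω / 2) (ω / 2) v - N n x ω v)| ≤ _
        linarith
      · rw [top_int n F f hF a b (x - ω / 2) (ω / 2) x ω ha (by linarith) hω hab (by linarith)
          (by linarith) (by linarith) (by linarith)]
        have h6 := top_avg n F f hF (x - ω / 2) (ω / 2) l (by linarith) (by linarith)
          (fun t ht1 ht2 => hle t (by linarith) (by linarith))
        linarith
  obtain ⟨φ0, h0a, h0b⟩ := hright
  obtain ⟨φ1, h1a, h1b⟩ := hleft
  exact ⟨φ0, φ1, h0a, h1a, h0b, h1b⟩

end Pool.Agent.RM8c
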