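import Pool.Agent.RM8c.Defs
import Pool.Agent.BV653.Defs
import Pool.Agent.BV653.K3
import Pool.Agent.RM8c.G1
import Pool.Agent.RM8c.G2
set_option autoImplicit false
open MeasureTheory Set Filter Topology
namespace Pool.Agent.RM8c
theorem clus_int (f N : ℝ → ℝ) (a b : ℝ) (hab : a ≤ b) (hf : IntervalIntegrable f volume a b)
    (hN : Monotone N) (hb : ∀ u, 0 ≤ N u ∧ N u ≤ 1) :
    IntervalIntegrable (fun u => f u * N u) volume a b := by
  rw [intervalIntegrable_iff_integrableOn_Ioc_of_le hab] at hf ⊢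
  refine Integrable.mul_bdd (c := 1) hf hN.measurable.aestronglyMeasurable ?_
  refine Filter.Eventually.of_forall (fun u => ?_)
  rw [Real.norm_eq_abs, abs_of_nonneg (hb u).1]
  exact (hb u).2

theorem clus_ker (n : ℕ) (CK : ℝ) (hK : Ker n CK) (F f : ℝ → ℝ) (hF : AC F f) (a b : ℝ)
    (ha : 0 < a) (p q ω c : ℝ) (hω : 0 < ω) (hp : 4 * ω ≤ p) (hpq : p < q) (hqp : q - p ≤ ω)
    (hc1 : p ≤ c) (hc2 : c ≤ q) (hap : a ≤ p - ω) (hqb : q + ω ≤ b) :
    ∃ φ : ℝ → ℝ, GoodK (3 * CK + 1) a b c ω φ ∧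
      CK * ∫ u in a..b, f u * φ u = (ω / (q - p)) * (A n F q ω - A n F p ω) := by
  obtain ⟨hCK, k1, k2, -⟩ := hK
  have hab : a ≤ b := by linarith
  have hd : 0 < q - p := by linarith
  obtain ⟨b1, b2, b3, b4⟩ := N_basic n p ω hω (by linarith)
  obtain ⟨c1, c2, c3, c4⟩ := N_basic n q ω hω (by linarith)
  have hpos : 0 < ω / (CK * (q - p)) := by positivity
  have hdn : q - p ≠ 0 := hd.ne'
  refine ⟨fun u => ω / (CK * (q - p)) * (N n p ω u - N n q ω u), ⟨?_, ?_, ?_⟩, ?_⟩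
  · intro u hu
    obtain ⟨h1, h2⟩ := k1 ω p q u hω hp hpq.le
    refine ⟨mul_nonneg hpos.le h1, ?_⟩
    calc ω / (CK * (q - p)) * (N n p ω u - N n q ω u)
        ≤ ω / (CK * (q - p)) * (CK * ((q - p) / ω)) := mul_le_mul_of_nonneg_left h2 hpos.le
      _ = 1 := by field_simp
  · intro u hu hne
    by_contra hcon
    apply hne
    rw [not_le, lt_abs] at hcon
    show ω / (CK * (q - p)) * (N n p ω u - N n q ω u) = 0
    rcases hcon with h | h
    · rw [b4 u (by linarith), c4 u (by linarith)]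
      ring
    · rw [b3 u (by linarith), c3 u (by linarith)]
      ring
  · intro u hu v hv
    have hu0 : 0 ≤ u := by linarith [hu.1]
    have hv0 : 0 ≤ v := by linarith [hv.1]
    have h1 := k2 ω p q u v hω hp hpq.le hu0 hv0
    have hs : 0 ≤ Real.sqrt (|u - v| / ω) := Real.sqrt_nonneg _
    show |ω / (CK * (q - p)) * (N n p ω u - N n q ω u) -
      ω / (CK * (q - p)) * (N n p ω v - N n q ω v)| ≤ _
    rw [← mul_sub, abs_mul, abs_of_pos hpos]
    calc ω / (CK * (q - p)) * |N n p ω u - N n q ω u - (N n p ω v - N n q ω v)|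
        ≤ ω / (CK * (q - p)) * (CK * ((q - p) / ω) * Real.sqrt (|u - v| / ω)) :=
          mul_le_mul_of_nonneg_left h1 hpos.le
      _ = Real.sqrt (|u - v| / ω) := by field_simp
      _ ≤ (3 * CK + 1) * Real.sqrt (|u - v| / ω) := by nlinarith
  · have hfi := (hF a b ha hab).1
    have e1 := A_rep n F f hF a b p ω ha hω hap (by linarith)
    have e2 := A_rep n F f hF a b q ω ha hω (by linarith) hqb
    have i1 := clus_int f (N n p ω) a b hab hfi b2 b1
    have i2 := clus_int f (N n q ω) a b hab hfi c2 c1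
    have e3 : ∫ u in a..b, f u * (ω / (CK * (q - p)) * (N n p ω u - N n q ω u)) =
        ω / (CK * (q - p)) * ((∫ u in a..b, f u * N n p ω u) - ∫ u in a..b, f u * N n q ω u) := by
      rw [← intervalIntegral.integral_sub i1 i2, ← intervalIntegral.integral_const_mul]
      refine intervalIntegral.integral_congr (fun u _ => ?_)
      show f u * (ω / (CK * (q - p)) * (N n p ω u - N n q ω u)) =
        ω / (CK * (q - p)) * (f u * N n p ω u - f u * N n q ω u)
      ring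
    rw [e3, e1, e2]
    field_simp
    ring

theorem clus_top (C : Finset ℕ) (hC : C.Nonempty) (g : ℕ → ℝ) :
    ∃ t₀ ∈ C, ∀ t ∈ C, g t ≤ g t₀ ∧ (g t = g t₀ → t₀ ≤ t) := by
  obtain ⟨m, hm, hmax⟩ := C.exists_max_image g hC
  have hne : (C.filter (fun t => g t = g m)).Nonempty :=
    ⟨m, by simp [hm]⟩
  obtain ⟨t₀, ht₀, hmin⟩ := (C.filter (fun t => g t = g m)).exists_min_image id hne
  simp only [Finset.mem_filter] at ht₀ hmin
  refine ⟨t₀, ht₀.1, fun t ht => ⟨?_, fun h => ?_⟩⟩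
  · rw [ht₀.2]; exact hmax t ht
  · exact hmin t ⟨ht, by rw [h, ht₀.2]⟩

theorem clus_mono (M : ℕ) (x : ℕ → ℝ) (hx : ∀ i < M, x i < x (i + 1)) :
    ∀ j, j ≤ M → ∀ i, i < j → x i < x j := by
  intro j
  induction j with
  | zero => intro _ i hi; exact absurd hi (Nat.not_lt_zero _)
  | succ j ih =>
    intro hj i hi
    have h1 := hx j (by omega)
    rcases Nat.lt_succ_iff_lt_or_eq.1 hi with h | h
    · exact (ih (by omega) i h).trans h1
    · rw [h]; exact h1

/-- a cluster of peaks produces two admissible kernels -/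
theorem CLUS (n : ℕ) (CK : ℝ) (hK : Ker n CK) (F f : ℝ → ℝ) (hF : AC F f) (a b : ℝ) (ha : 0 < a)
    (M : ℕ) (g φ x ω : ℕ → ℝ) (hx : ∀ i < M, x i < x (i + 1)) (η : ℝ)
    (hη : ∀ i ≤ M, ∀ j ≤ M, g j < g i → 2 * η ≤ g i - g j)
    (C : Finset ℕ) (hC : ∀ t ∈ C, t ≤ M) (α ℓ : ℝ) (hℓ : 0 < ℓ)
    (hα : ∀ t ∈ C, α ≤ x t ∧ x t ≤ α + ℓ) (hω : ∀ t ∈ C, 8 * ℓ < ω t ∧ ω t ≤ 16 * ℓ)
    (hab : ∀ t ∈ C, a ≤ x t - 2 * ω t ∧ x t + 2 * ω t ≤ b ∧ 8 * ω t ≤ x t)
    (hwin : ∀ t ∈ C, g t - η ≤ A n F (x t) (ω t))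
    (hG : ∀ t ∈ C, ∀ v ≤ M, A n F (x v) (ω t) ≤ g v)
    (B : ℝ) (hB0 : 0 ≤ B) (hB : ∀ t ∈ C, (volume (BV653.Lam M g φ t)).toReal ≤ B) (S : ℝ)
    (hS : S = ∑ t ∈ C, (volume (BV653.Lam M g φ t)).toReal - 2 * B) (hS0 : 0 < S) :
    ∃ r ∈ C, ∃ φ0 φ1 : ℝ → ℝ, GoodK (3 * CK + 1) a b (x r) (ω r) φ0 ∧
      GoodK (3 * CK + 1) a b (x r) (ω r) φ1 ∧
      S ≤ -(CK * ∫ u in a..b, f u * φ0 u) ∧ S ≤ CK * ∫ u in a..b, f u * φ1 u := by
  classical
  have hmono := clus_mono M x hx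
  set σ : ℝ := S / (4 * ℓ) with hσ
  have hσ0 : 0 < σ := by positivity
  have hσℓ : σ * ℓ = S / 4 := by rw [hσ]; field_simp
  -- an element which is neither right flat nor left flat
  have key : ∃ r ∈ C, (∃ v, r < v ∧ (∃ r' ∈ C, v < r') ∧ σ * (x v - x r) < g r - g v) ∧
      (∃ v, v < r ∧ (∃ r' ∈ C, r' < v) ∧ σ * (x r - x v) < g r - g v) := by
    by_contra hcon
    have hcon' : ∀ r ∈ C, (∀ v, r < v → (∃ r' ∈ C, v < r') → g r - g v ≤ σ * (x v - x r)) ∨
        (∀ v, v < r → (∃ r' ∈ C, r' < v) → g r - g v ≤ σ * (x r - x v)) := by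
      intro r hr
      by_contra h
      rw [not_or] at h
      obtain ⟨h1, h2⟩ := h
      apply hcon
      push Not at h1 h2
      obtain ⟨v, hv1, hv2, hv3⟩ := h1
      obtain ⟨v', hv1', hv2', hv3'⟩ := h2
      exact ⟨r, hr, ⟨v, hv1, hv2, hv3⟩, ⟨v', hv1', hv2', hv3'⟩⟩
    set CR : Finset ℕ := C.filter (fun r =>
      ∀ v, r < v → (∃ r' ∈ C, v < r') → g r - g v ≤ σ * (x v - x r)) with hCR
    set CL : Finset ℕ := C.filter (fun r =>
      ∀ v, v < r → (∃ r' ∈ C, r' < v) → g r - g v ≤ σ * (x r - x v)) with hCL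
    have hCRs : CR ⊆ C := Finset.filter_subset _ _
    have hCLs : CL ⊆ C := Finset.filter_subset _ _
    have hR : ∑ t ∈ CR, (volume (BV653.Lam M g φ t)).toReal ≤ B + σ * ℓ := by
      rcases CR.eq_empty_or_nonempty with h | h
      · rw [h, Finset.sum_empty]; positivity
      · obtain ⟨t₀, ht₀, htop⟩ := clus_top CR h g
        have h1 := BV653.CL_fall M g φ x hx CR (fun t ht => hC t (hCRs ht)) t₀ ht₀ htop σ α
          (α + ℓ) hσ0.le (fun t ht => (hα t (hCRs ht)).1) (fun t ht => (hα t (hCRs ht)).2)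
          (fun r hr v hv hv2 => by
            obtain ⟨r', hr', hvr'⟩ := hv2
            exact (Finset.mem_filter.1 hr).2 v hv ⟨r', hCRs hr', hvr'⟩)
        rw [add_sub_cancel_left] at h1
        have h2 := hB t₀ (hCRs ht₀)
        rw [← Finset.add_sum_erase _ _ ht₀]
        linarith
    have hL : ∑ t ∈ CL, (volume (BV653.Lam M g φ t)).toReal ≤ B + σ * ℓ := by
      rcases CL.eq_empty_or_nonempty with h | h
      · rw [h, Finset.sum_empty]; positivity
      · obtain ⟨t₀, ht₀, htop⟩ := clus_top CL h g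
        have h1 := BV653.CL_rise M g φ x hx CL (fun t ht => hC t (hCLs ht)) t₀ ht₀ htop σ α
          (α + ℓ) hσ0.le (fun t ht => (hα t (hCLs ht)).1) (fun t ht => (hα t (hCLs ht)).2)
          (fun r hr v hv hv2 => by
            obtain ⟨r', hr', hvr'⟩ := hv2
            exact (Finset.mem_filter.1 hr).2 v hv ⟨r', hCLs hr', hvr'⟩)
        rw [add_sub_cancel_left] at h1
        have h2 := hB t₀ (hCLs ht₀)
        rw [← Finset.add_sum_erase _ _ ht₀]
        linarith
    have hCu : C ⊆ CR ∪ CL := by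
      intro r hr
      rw [Finset.mem_union]
      rcases hcon' r hr with h | h
      · left; exact Finset.mem_filter.2 ⟨hr, h⟩
      · right; exact Finset.mem_filter.2 ⟨hr, h⟩
    have hsum : ∑ t ∈ C, (volume (BV653.Lam M g φ t)).toReal ≤
        ∑ t ∈ CR, (volume (BV653.Lam M g φ t)).toReal +
          ∑ t ∈ CL, (volume (BV653.Lam M g φ t)).toReal := by
      have h1 : ∑ t ∈ C, (volume (BV653.Lam M g φ t)).toReal ≤
          ∑ t ∈ CR ∪ CL, (volume (BV653.Lam M g φ t)).toReal :=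
        Finset.sum_le_sum_of_subset_of_nonneg hCu (fun _ _ _ => ENNReal.toReal_nonneg)
      have h2 := Finset.sum_union_inter (s₁ := CR) (s₂ := CL)
        (f := fun t => (volume (BV653.Lam M g φ t)).toReal)
      have h3 : 0 ≤ ∑ t ∈ CR ∩ CL, (volume (BV653.Lam M g φ t)).toReal :=
        Finset.sum_nonneg (fun _ _ => ENNReal.toReal_nonneg)
      linarith
    linarith
  obtain ⟨r, hr, ⟨v, hrv, ⟨r1, hr1, hvr1⟩, hgv⟩, ⟨w, hwr, ⟨r2, hr2, hr2w⟩, hgw⟩⟩ := key
  have hrM := hC r hr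
  have hr1M := hC r1 hr1
  have hvM : v ≤ M := by omega
  have hwM : w ≤ M := by omega
  have x1 : x r < x v := hmono v hvM r hrv
  have x2 : x v < x r1 := hmono r1 hr1M v hvr1
  have x3 : x w < x r := hmono r hrM w hwr
  have x4 : x r2 < x w := hmono w hwM r2 hr2w
  obtain ⟨ar1, ar2⟩ := hα r hr
  obtain ⟨a11, a12⟩ := hα r1 hr1
  obtain ⟨a21, a22⟩ := hα r2 hr2
  obtain ⟨o1, o2⟩ := hω r hr
  obtain ⟨ab1, ab2, ab3⟩ := hab r hr
  have hω0 : 0 < ω r := by linarith
  have hd1 : x v - x r ≤ ℓ := by linarith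
  have hd2 : x r - x w ≤ ℓ := by linarith
  obtain ⟨φ0, g0, i0⟩ := clus_ker n CK hK F f hF a b ha (x r) (x v) (ω r) (x r) hω0
    (by linarith) x1 (by linarith) le_rfl x1.le (by linarith) (by linarith)
  obtain ⟨φ1, g1, i1⟩ := clus_ker n CK hK F f hF a b ha (x w) (x r) (ω r) (x r) hω0
    (by linarith) x3 (by linarith) x3.le le_rfl (by linarith) (by linarith)
  have hσω : S ≤ ω r * σ / 2 := by
    have h1 : 8 * ℓ * σ ≤ ω r * σ := mul_le_mul_of_nonneg_right o1.le hσ0.le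
    have h2 : 8 * ℓ * σ = 2 * S := by
      have : 8 * ℓ * σ = 8 * (σ * ℓ) := by ring
      rw [this, hσℓ]; ring
    linarith
  refine ⟨r, hr, φ0, φ1, g0, g1, ?_, ?_⟩
  · rw [i0]
    have hd : 0 < x v - x r := by linarith
    have hlt : g v < g r := by
      have : 0 < σ * (x v - x r) := mul_pos hσ0 hd
      linarith
    have h1 := hη r hrM v hvM hlt
    have h2 := hwin r hr
    have h3 := hG r hr v hvM
    have h4 : σ * (x v - x r) / 2 ≤ A n F (x r) (ω r) - A n F (x v) (ω r) := by linarith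
    have h5 : ω r / (x v - x r) * (σ * (x v - x r) / 2) ≤
        ω r / (x v - x r) * (A n F (x r) (ω r) - A n F (x v) (ω r)) :=
      mul_le_mul_of_nonneg_left h4 (by positivity)
    have h6 : ω r / (x v - x r) * (σ * (x v - x r) / 2) = ω r * σ / 2 := by
      field_simp
    rw [h6] at h5
    have h7 : -(ω r / (x v - x r) * (A n F (x v) (ω r) - A n F (x r) (ω r))) =
      ω r / (x v - x r) * (A n F (x r) (ω r) - A n F (x v) (ω r)) := by ring
    rw [h7]
    linarith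
  · rw [i1]
    have hd : 0 < x r - x w := by linarith
    have hlt : g w < g r := by
      have : 0 < σ * (x r - x w) := mul_pos hσ0 hd
      linarith
    have h1 := hη r hrM w hwM hlt
    have h2 := hwin r hr
    have h3 := hG r hr w hwM
    have h4 : σ * (x r - x w) / 2 ≤ A n F (x r) (ω r) - A n F (x w) (ω r) := by linarith
    have h5 : ω r / (x r - x w) * (σ * (x r - x w) / 2) ≤
        ω r / (x r - x w) * (A n F (x r) (ω r) - A n F (x w) (ω r)) :=
      mul_le_mul_of_nonneg_left h4 (by positivity)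
    have h6 : ω r / (x r - x w) * (σ * (x r - x w) / 2) = ω r * σ / 2 := by
      field_simp
    rw [h6] at h5
    linarith

end Pool.Agent.RM8c
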