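import Pool.Agent.RM8c.Defs
set_option autoImplicit false
open MeasureTheory Set Filter Topology
namespace Pool.Agent.RM8c
theorem dual_geo {ι : Type} [DecidableEq ι] (A : Finset ι) (s : ι → ℕ) (x : ℝ) (h0 : 0 ≤ x)
    (h1 : x < 1) (hs : ∀ i ∈ A, 1 ≤ s i) (hinj : ∀ i ∈ A, ∀ j ∈ A, s i = s j → i = j) :
    ∑ i ∈ A, x ^ (s i) ≤ x / (1 - x) := by
  have e1 : ∑ i ∈ A, x ^ (s i) = x * ∑ i ∈ A, x ^ (s i - 1) := by
    rw [Finset.mul_sum]
    refine Finset.sum_congr rfl fun i hi => ?_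
    rw [← pow_succ', Nat.sub_add_cancel (hs i hi)]
  have e2 : ∑ i ∈ A, x ^ (s i - 1) = ∑ t ∈ A.image (fun i => s i - 1), x ^ t := by
    rw [Finset.sum_image]
    intro i hi j hj hij
    apply hinj i hi j hj
    have := hs i hi
    have := hs j hj
    simp only at hij
    omega
  rw [e1, e2, div_eq_mul_inv, ← tsum_geometric_of_lt_one h0 h1]
  exact mul_le_mul_of_nonneg_left
    ((summable_geometric_of_lt_one h0 h1).sum_le_tsum _ (fun i _ => pow_nonneg h0 i)) h0

theorem dual_sum (L : ℝ) (hL : 0 ≤ L) (m : ℕ) (x : ℝ) (hx0 : 0 ≤ x)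
    (hx1 : x < 1) (hx : x ^ 2 = (1 / 2) ^ m) (hxL : 16 * L * x ≤ 1 - x)
    {ι : Type} [DecidableEq ι] (A : Finset ι) (k : ι → ℤ) (ρ : ι → ℝ) (κ : ℤ) (d : ℝ)
    (hd : d ≤ 64 * (2 : ℝ) ^ κ) (hd0 : 0 ≤ d) (hρ : ∀ i ∈ A, (2 : ℝ) ^ (k i) ≤ ρ i)
    (hk : ∀ i ∈ A, κ < k i) (hdvd : ∀ i ∈ A, (m : ℤ) ∣ k i - κ)
    (hinj : ∀ i ∈ A, ∀ j ∈ A, k i = k j → i = j) :
    ∑ i ∈ A, L * Real.sqrt (d / ρ i) ≤ 1 / 2 := by
  have hex : ∀ i : ι, ∃ s : ℕ, i ∈ A → (1 ≤ s ∧ k i = κ + m * s) := by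
    intro i
    by_cases hi : i ∈ A
    · obtain ⟨t, ht⟩ := hdvd i hi
      have h1 := hk i hi
      have ht0 : 0 < t := by
        by_contra hcon
        have h2 : (m : ℤ) * t ≤ 0 :=
          mul_nonpos_of_nonneg_of_nonpos (Int.natCast_nonneg m) (not_lt.1 hcon)
        omega
      refine ⟨t.toNat, fun _ => ⟨by omega, ?_⟩⟩
      rw [Int.toNat_of_nonneg ht0.le]
      linarith
    · exact ⟨0, fun h => absurd h hi⟩
  choose s hs using hex
  have hterm : ∀ i ∈ A, L * Real.sqrt (d / ρ i) ≤ (8 * L) * x ^ (s i) := by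
    intro i hi
    obtain ⟨hs1, hs2⟩ := hs i hi
    have h2k : (0 : ℝ) < (2 : ℝ) ^ (k i) := by positivity
    have hρi := hρ i hi
    have hsq : Real.sqrt (d / ρ i) ≤ 8 * x ^ (s i) := by
      rw [Real.sqrt_le_left (by positivity)]
      have h3 : (8 * x ^ (s i)) ^ 2 = 64 * (2 : ℝ) ^ κ / (2 : ℝ) ^ (k i) := by
        have h4 : (2 : ℝ) ^ (k i) = (2 : ℝ) ^ κ * ((2 : ℝ) ^ m) ^ (s i) := by
          rw [hs2, zpow_add₀ (by norm_num : (2 : ℝ) ≠ 0), ← pow_mul]
          congr 1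
        have h5 : (8 * x ^ (s i)) ^ 2 = 64 * (x ^ 2) ^ (s i) := by ring
        rw [h5, hx, h4]
        have h6 : (0 : ℝ) < (2 : ℝ) ^ κ := by positivity
        have h7 : (0 : ℝ) < ((2 : ℝ) ^ m) ^ (s i) := by positivity
        rw [eq_div_iff (mul_pos h6 h7).ne', one_div, inv_pow, inv_pow]
        field_simp
      rw [h3]
      exact div_le_div₀ (by positivity) hd h2k hρi
    calc L * Real.sqrt (d / ρ i) ≤ L * (8 * x ^ (s i)) := mul_le_mul_of_nonneg_left hsq hL
      _ = (8 * L) * x ^ (s i) := by ring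
  have h1x : 0 < 1 - x := by linarith
  have hgeo := dual_geo A s x hx0 hx1 (fun i hi => (hs i hi).1) (fun i hi j hj hij => by
    apply hinj i hi j hj
    rw [(hs i hi).2, (hs j hj).2, hij])
  calc ∑ i ∈ A, L * Real.sqrt (d / ρ i) ≤ ∑ i ∈ A, (8 * L) * x ^ (s i) := Finset.sum_le_sum hterm
    _ = (8 * L) * ∑ i ∈ A, x ^ (s i) := by rw [Finset.mul_sum]
    _ ≤ (8 * L) * (x / (1 - x)) := mul_le_mul_of_nonneg_left hgeo (by linarith)
    _ = (8 * L * x) / (1 - x) := by ring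
    _ ≤ 1 / 2 := by
        rw [div_le_iff₀ h1x]
        linarith

theorem dual_claim (L : ℝ) (hL : 0 ≤ L) (m : ℕ) (x : ℝ) (hx0 : 0 ≤ x)
    (hx1 : x < 1) (hx : x ^ 2 = (1 / 2) ^ m) (hxL : 16 * L * x ≤ 1 - x)
    {ι : Type} [DecidableEq ι] (k : ι → ℤ) (c ρ : ι → ℝ) (φ0 φ1 : ι → ℝ → ℝ) (a b : ℝ) :
    ∀ (n : ℕ) (T : Finset ι), T.card = n →
    (∀ i ∈ T, (2 : ℝ) ^ (k i) ≤ ρ i ∧ ρ i ≤ 16 * (2 : ℝ) ^ (k i)) →
    (∀ i ∈ T, GoodK L a b (c i) (ρ i) (φ0 i) ∧ GoodK L a b (c i) (ρ i) (φ1 i)) →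
    (∀ i ∈ T, ∀ j ∈ T, i ≠ j →
      (k i = k j ∧ 64 * (2 : ℝ) ^ (k i) < |c i - c j|) ∨ (k i ≠ k j ∧ (m : ℤ) ∣ k i - k j)) →
    ∃ ψ : ι → ℝ → ℝ, (∀ i ∈ T, ψ i = φ1 i ∨ ψ i = fun u => -φ0 i u) ∧
      ∀ u ∈ Icc a b, |∑ i ∈ T, ψ i u| ≤ 2 := by
  intro n
  induction n with
  | zero =>
    intro T hT _ _ _
    rw [Finset.card_eq_zero] at hT
    subst hT
    exact ⟨fun _ _ => 0, by simp, by simp⟩
  | succ n ih =>
    intro T hT hρ hG hsep
    have hne : T.Nonempty := by
      rw [← Finset.card_pos]; omega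
    obtain ⟨j, hjT, hjmin⟩ := Finset.exists_min_image T k hne
    obtain ⟨ψ, hψ1, hψ2⟩ := ih (T.erase j) (by rw [Finset.card_erase_of_mem hjT]; omega)
      (fun i hi => hρ i (Finset.mem_of_mem_erase hi)) (fun i hi => hG i (Finset.mem_of_mem_erase hi))
      (fun i hi i' hi' h => hsep i (Finset.mem_of_mem_erase hi) i' (Finset.mem_of_mem_erase hi') h)
    -- properties of ψ
    have hP1 : ∀ i ∈ T.erase j, ∀ u ∈ Icc a b, ψ i u ≠ 0 → |u - c i| ≤ 2 * ρ i := by
      intro i hi u hu hne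
      have hg := hG i (Finset.mem_of_mem_erase hi)
      rcases hψ1 i hi with h | h
      · exact hg.2.2.1 u hu (by rwa [h] at hne)
      · exact hg.1.2.1 u hu (fun h0 => hne (by rw [h]; simp [h0]))
    have hP2 : ∀ i ∈ T.erase j, ∀ u ∈ Icc a b, ∀ v ∈ Icc a b,
        |ψ i u - ψ i v| ≤ L * Real.sqrt (|u - v| / ρ i) := by
      intro i hi u hu v hv
      have hg := hG i (Finset.mem_of_mem_erase hi)
      rcases hψ1 i hi with h | h
      · rw [h]; exact hg.2.2.2 u hu v hv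
      · rw [h]
        have := hg.1.2.2 u hu v hv
        rwa [show -φ0 i u - -φ0 i v = -(φ0 i u - φ0 i v) by ring, abs_neg]
    have h2k : ∀ i, (0 : ℝ) < (2 : ℝ) ^ (k i) := fun i => by positivity
    -- active sums
    have hact : ∀ u ∈ Icc a b, |u - c j| ≤ 2 * ρ j → ∀ d : ℝ, 0 ≤ d → d ≤ 64 * (2 : ℝ) ^ (k j) →
        ∑ i ∈ (T.erase j).filter (fun i => ψ i u ≠ 0), L * Real.sqrt (d / ρ i) ≤ 1 / 2 := by
      intro u hu huW d hd0 hd
      have hclose : ∀ i ∈ (T.erase j).filter (fun i => ψ i u ≠ 0), |u - c i| ≤ 2 * ρ i := by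
        intro i hi
        rw [Finset.mem_filter] at hi
        exact hP1 i hi.1 u hu hi.2
      have hkne : ∀ i ∈ (T.erase j).filter (fun i => ψ i u ≠ 0),
          k i ≠ k j ∧ (m : ℤ) ∣ k i - k j := by
        intro i hi
        have h1 := hclose i hi
        have hi' := (Finset.mem_filter.1 hi).1
        have hij : i ≠ j := Finset.ne_of_mem_erase hi'
        have hiT := Finset.mem_of_mem_erase hi'
        rcases hsep i hiT j hjT hij with h | h
        · exfalso
          have h3 := (hρ i hiT).2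
          have h4 := (hρ j hjT).2
          have h5 : |c i - c j| ≤ |u - c i| + |u - c j| := by
            have := abs_sub_le (c i) u (c j)
            rwa [abs_sub_comm (c i) u] at this
          rw [← h.1] at h4
          have := h.2
          linarith
        · exact h
      refine dual_sum L hL m x hx0 hx1 hx hxL _ k ρ (k j) d hd hd0 ?_ ?_ ?_ ?_
      · intro i hi
        exact (hρ i (Finset.mem_of_mem_erase (Finset.mem_filter.1 hi).1)).1
      · intro i hi
        have h1 := hjmin i (Finset.mem_of_mem_erase (Finset.mem_filter.1 hi).1)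
        have h2 := (hkne i hi).1
        omega
      · intro i hi
        exact (hkne i hi).2
      · intro i hi i' hi' hkk
        by_contra hne
        have hiT := Finset.mem_of_mem_erase (Finset.mem_filter.1 hi).1
        have hiT' := Finset.mem_of_mem_erase (Finset.mem_filter.1 hi').1
        rcases hsep i hiT i' hiT' hne with h | h
        · have h3 := (hρ i hiT).2
          have h4 := (hρ i' hiT').2
          have h5 : |c i - c i'| ≤ |u - c i| + |u - c i'| := by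
            have := abs_sub_le (c i) u (c i')
            rwa [abs_sub_comm (c i) u] at this
          have h6 := hclose i hi
          have h7 := hclose i' hi'
          rw [← hkk] at h4
          have := h.2
          linarith
        · exact h.1 hkk
    have hosc : ∀ u ∈ Icc a b, |u - c j| ≤ 2 * ρ j → ∀ v ∈ Icc a b, |v - c j| ≤ 2 * ρ j →
        ∑ i ∈ T.erase j, ψ i u ≤ ∑ i ∈ T.erase j, ψ i v + 1 := by
      intro u hu huW v hv hvW
      have hd : |u - v| ≤ 64 * (2 : ℝ) ^ (k j) := by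
        have h4 := (hρ j hjT).2
        have h5 : |u - v| ≤ |u - c j| + |v - c j| := by
          have := abs_sub_le u (c j) v
          rwa [abs_sub_comm (c j) v] at this
        linarith
      have h1 := hact u hu huW _ (abs_nonneg _) hd
      have h2 := hact v hv hvW _ (abs_nonneg _) hd
      have h3 : ∑ i ∈ T.erase j, (ψ i u - ψ i v) ≤
          ∑ i ∈ (T.erase j).filter (fun i => ψ i u ≠ 0), L * Real.sqrt (|u - v| / ρ i) +
          ∑ i ∈ (T.erase j).filter (fun i => ψ i v ≠ 0), L * Real.sqrt (|u - v| / ρ i) := by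
        rw [Finset.sum_filter, Finset.sum_filter, ← Finset.sum_add_distrib]
        refine Finset.sum_le_sum fun i hi => ?_
        have hnn : 0 ≤ L * Real.sqrt (|u - v| / ρ i) := mul_nonneg hL (Real.sqrt_nonneg _)
        have hb := (le_abs_self _).trans (hP2 i hi u hu v hv)
        by_cases hu0 : ψ i u = 0
        · by_cases hv0 : ψ i v = 0
          · simp [hu0, hv0]
          · rw [if_neg (not_not.2 hu0), if_pos hv0]
            linarith
        · rw [if_pos hu0]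
          by_cases hv0 : ψ i v = 0
          · rw [if_neg (not_not.2 hv0)]
            linarith
          · rw [if_pos hv0]
            linarith
      rw [Finset.sum_sub_distrib] at h3
      linarith
    have hsum : ∀ (g : ℝ → ℝ) (u : ℝ), ∑ i ∈ T, Function.update ψ j g i u =
        g u + ∑ i ∈ T.erase j, ψ i u := by
      intro g u
      rw [← Finset.add_sum_erase T (fun i => Function.update ψ j g i u) hjT]
      simp only [Function.update_self]
      congr 1
      refine Finset.sum_congr rfl fun i hi => ?_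
      rw [Function.update_of_ne (Finset.ne_of_mem_erase hi)]
    have hchoice : ∀ g : ℝ → ℝ, (g = φ1 j ∨ g = fun u => -φ0 j u) →
        ∀ i ∈ T, Function.update ψ j g i = φ1 i ∨ Function.update ψ j g i = fun u => -φ0 i u := by
      intro g hg i hi
      by_cases hij : i = j
      · subst hij
        rw [Function.update_self]; exact hg
      · rw [Function.update_of_ne hij]
        exact hψ1 i (Finset.mem_erase.2 ⟨hij, hi⟩)
    have hGj := hG j hjT
    by_cases hcase : ∃ u0 ∈ Icc a b, |u0 - c j| ≤ 2 * ρ j ∧ ∑ i ∈ T.erase j, ψ i u0 ≤ 0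
    · obtain ⟨u0, hu0, hu0W, hΦ0⟩ := hcase
      refine ⟨Function.update ψ j (φ1 j), hchoice _ (Or.inl rfl), fun u hu => ?_⟩
      rw [hsum]
      have h1 := hψ2 u hu
      rw [abs_le] at h1 ⊢
      obtain ⟨hp0, hp1⟩ := hGj.2.1 u hu
      by_cases hW : |u - c j| ≤ 2 * ρ j
      · have h2 := hosc u hu hW u0 hu0 hu0W
        constructor <;> linarith
      · have h3 : φ1 j u = 0 := by
          by_contra hne
          exact hW (hGj.2.2.1 u hu hne)
        constructor <;> linarith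
    · push Not at hcase
      refine ⟨Function.update ψ j (fun u => -φ0 j u), hchoice _ (Or.inr rfl), fun u hu => ?_⟩
      rw [hsum]
      have h1 := hψ2 u hu
      rw [abs_le] at h1 ⊢
      obtain ⟨hp0, hp1⟩ := hGj.1.1 u hu
      by_cases hW : |u - c j| ≤ 2 * ρ j
      · have h2 := hcase u hu hW
        constructor <;> linarith
      · have h3 : φ0 j u = 0 := by
          by_contra hne
          exact hW (hGj.1.2.1 u hu hne)
        rw [h3]
        constructor <;> linarith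

theorem dual_cont (L a b c ρ : ℝ) (hρ : 0 < ρ) (φ : ℝ → ℝ) (h : GoodK L a b c ρ φ) :
    ContinuousOn φ (Icc a b) := by
  intro u hu
  have h1 : Tendsto (fun v => L * Real.sqrt (|v - u| / ρ)) (𝓝[Icc a b] u) (𝓝 0) := by
    have h2 : Continuous (fun v : ℝ => L * Real.sqrt (|v - u| / ρ)) := by fun_prop
    have h3 := (h2.tendsto u).mono_left (nhdsWithin_le_nhds (s := Icc a b))
    simpa using h3
  rw [ContinuousWithinAt, tendsto_iff_dist_tendsto_zero]
  refine squeeze_zero' (Eventually.of_forall fun v => dist_nonneg) ?_ h1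
  filter_upwards [self_mem_nhdsWithin] with v hv
  rw [Real.dist_eq]
  exact h.2.2 v hv u hu

/-- lacunary duality lemma -/
theorem DUAL (L : ℝ) (hL : 0 ≤ L) : ∃ m : ℕ, 0 < m ∧ ∀ {ι : Type} [DecidableEq ι] (T : Finset ι)
    (k : ι → ℤ) (c ρ : ι → ℝ) (φ0 φ1 : ι → ℝ → ℝ) (h : ι → ℝ) (f : ℝ → ℝ) (a b : ℝ), a ≤ b →
    IntervalIntegrable f volume a b →
    (∀ i ∈ T, (2 : ℝ) ^ (k i) ≤ ρ i ∧ ρ i ≤ 16 * (2 : ℝ) ^ (k i)) →
    (∀ i ∈ T, GoodK L a b (c i) (ρ i) (φ0 i) ∧ GoodK L a b (c i) (ρ i) (φ1 i)) →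
    (∀ i ∈ T, ∀ j ∈ T, i ≠ j →
      (k i = k j ∧ 64 * (2 : ℝ) ^ (k i) < |c i - c j|) ∨ (k i ≠ k j ∧ (m : ℤ) ∣ k i - k j)) →
    (∀ i ∈ T, h i ≤ -∫ u in a..b, f u * φ0 i u) →
    (∀ i ∈ T, h i ≤ ∫ u in a..b, f u * φ1 i u) →
    ∑ i ∈ T, h i ≤ 2 * ∫ u in a..b, |f u| := by
  have hr0 : (0 : ℝ) ≤ Real.sqrt (1 / 2) := Real.sqrt_nonneg _
  have hr1 : Real.sqrt (1 / 2) < 1 := by
    rw [Real.sqrt_lt' one_pos]; norm_num
  obtain ⟨m0, hm0⟩ := exists_pow_lt_of_lt_one (show (0 : ℝ) < 1 / (16 * L + 1) by positivity) hr1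
  obtain ⟨m, hm⟩ : ∃ m : ℕ, m = m0 + 1 := ⟨_, rfl⟩
  obtain ⟨x, hxdef⟩ : ∃ x : ℝ, x = Real.sqrt (1 / 2) ^ m := ⟨_, rfl⟩
  have hx0 : 0 ≤ x := by rw [hxdef]; positivity
  have hxle : x < 1 / (16 * L + 1) := by
    rw [hxdef, hm, pow_succ]
    refine lt_of_le_of_lt ?_ hm0
    exact mul_le_of_le_one_right (pow_nonneg hr0 _) hr1.le
  have hL1 : 0 < 16 * L + 1 := by linarith
  rw [lt_div_iff₀ hL1] at hxle
  have hx1 : x < 1 := by
    have : 0 ≤ x * (16 * L) := mul_nonneg hx0 (by linarith)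
    linarith
  have hxL : 16 * L * x ≤ 1 - x := by linarith
  have hx : x ^ 2 = (1 / 2) ^ m := by
    rw [hxdef, ← pow_mul, mul_comm m 2, pow_mul, Real.sq_sqrt (by norm_num)]
  refine ⟨m, by omega, ?_⟩
  intro ι _ T k c ρ φ0 φ1 h f a b hab hf hρ hG hsep hh0 hh1
  obtain ⟨ψ, hψ1, hψ2⟩ := dual_claim L hL m x hx0 hx1 hx hxL k c ρ φ0 φ1 a b T.card T rfl hρ hG hsep
  have hρ0 : ∀ i ∈ T, 0 < ρ i := fun i hi => lt_of_lt_of_le (by positivity) (hρ i hi).1
  have hc0 : ∀ i ∈ T, ContinuousOn (φ0 i) (Icc a b) := fun i hi =>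
    dual_cont L a b (c i) (ρ i) (hρ0 i hi) _ (hG i hi).1
  have hc1 : ∀ i ∈ T, ContinuousOn (φ1 i) (Icc a b) := fun i hi =>
    dual_cont L a b (c i) (ρ i) (hρ0 i hi) _ (hG i hi).2
  have hcψ : ∀ i ∈ T, ContinuousOn (ψ i) (Icc a b) := by
    intro i hi
    rcases hψ1 i hi with h | h
    · rw [h]; exact hc1 i hi
    · rw [h]; exact (hc0 i hi).neg
  have hle : ∀ i ∈ T, h i ≤ ∫ u in a..b, f u * ψ i u := by
    intro i hi
    rcases hψ1 i hi with h' | h'
    · rw [h']; exact hh1 i hi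
    · rw [h']
      have := hh0 i hi
      simp only [mul_neg, intervalIntegral.integral_neg]
      exact this
  have hint : ∀ i ∈ T, IntervalIntegrable (fun u => f u * ψ i u) volume a b := by
    intro i hi
    refine hf.mul_continuousOn ?_
    rw [uIcc_of_le hab]
    exact hcψ i hi
  calc ∑ i ∈ T, h i ≤ ∑ i ∈ T, ∫ u in a..b, f u * ψ i u := Finset.sum_le_sum hle
    _ = ∫ u in a..b, ∑ i ∈ T, f u * ψ i u := by
        rw [intervalIntegral.integral_finsetSum hint]
    _ ≤ ∫ u in a..b, 2 * |f u| := by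
        refine intervalIntegral.integral_mono_on hab ?_ (hf.abs.const_mul 2) ?_
        · have := IntervalIntegrable.sum T hint
          have e : (∑ i ∈ T, fun u => f u * ψ i u) = fun u => ∑ i ∈ T, f u * ψ i u := by
            funext u
            simp
          rwa [e] at this
        · intro u hu
          rw [← Finset.mul_sum]
          refine (le_abs_self _).trans ?_
          rw [abs_mul, mul_comm]
          exact mul_le_mul_of_nonneg_right (hψ2 u hu) (abs_nonneg _)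
    _ = 2 * ∫ u in a..b, |f u| := by
        rw [intervalIntegral.integral_const_mul]

end Pool.Agent.RM8c
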