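import Pool.Agent.RM8c.Defs
set_option autoImplicit false
open MeasureTheory Set Filter Topology
namespace Pool.Agent.RM8c
theorem cs_zero (n : ℕ) (t : ℝ) (y : EuclideanSpace ℝ (Fin n)) : cs n t y 0 = t := rfl

theorem cs_succ (n : ℕ) (t : ℝ) (y : EuclideanSpace ℝ (Fin n)) (i : Fin n) :
    cs n t y i.succ = y i := rfl

theorem cs_facts (n : ℕ) : (∀ t y, ‖cs n t y‖ ^ 2 = t ^ 2 + ‖y‖ ^ 2) ∧
    (∀ t y t' y', cs n t y + cs n t' y' = cs n (t + t') (y + y')) ∧
    (∀ x : ℝ, x • e1 n = cs n x 0) ∧ (∀ z : E n, ∃ t y, z = cs n t y) ∧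
    Measurable (fun p : ℝ × EuclideanSpace ℝ (Fin n) => cs n p.1 p.2) := by
  refine ⟨?_, ?_, ?_, ?_, ?_⟩
  · intro t y
    rw [EuclideanSpace.norm_sq_eq, EuclideanSpace.norm_sq_eq, Fin.sum_univ_succ]
    simp only [cs_zero, cs_succ, Real.norm_eq_abs, sq_abs]
  · intro t y t' y'
    ext i
    refine Fin.cases ?_ (fun j => ?_) i
    · rfl
    · rfl
  · intro x
    ext i
    refine Fin.cases ?_ (fun j => ?_) i
    · rw [cs_zero]
      simp [e1]
    · rw [cs_succ]
      simp [e1]
  · intro z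
    refine ⟨z 0, WithLp.toLp 2 (fun i => z i.succ), ?_⟩
    ext i
    refine Fin.cases ?_ (fun j => ?_) i
    · rfl
    · rfl
  · unfold cs
    refine (PiLp.volume_preserving_toLp (Fin (n + 1))).measurable.comp (measurable_pi_iff.2 fun i => ?_)
    refine Fin.cases ?_ (fun j => ?_) i
    · exact measurable_fst
    · exact (measurable_pi_apply j).comp
        ((PiLp.volume_preserving_ofLp (Fin n)).measurable.comp measurable_snd)

theorem vol_slice (n : ℕ) (S : Set (E n)) (hS : MeasurableSet S) :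
    volume S = ∫⁻ y : EuclideanSpace ℝ (Fin n), volume {t : ℝ | cs n t y ∈ S} := by
  have h1 : MeasurePreserving (Prod.map id (@WithLp.ofLp 2 (Fin n → ℝ)))
      ((volume : Measure ℝ).prod (volume : Measure (EuclideanSpace ℝ (Fin n))))
      ((volume : Measure ℝ).prod (volume : Measure (Fin n → ℝ))) :=
    (MeasurePreserving.id volume).prod (PiLp.volume_preserving_ofLp (Fin n))
  have h2 : MeasurePreserving (MeasurableEquiv.piFinSuccAbove (fun _ : Fin (n + 1) => ℝ) 0).symm
      ((volume : Measure ℝ).prod (volume : Measure (Fin n → ℝ))) volume :=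
    (volume_preserving_piFinSuccAbove (fun _ : Fin (n + 1) => ℝ) 0).symm _
  have h3 := (PiLp.volume_preserving_toLp (Fin (n + 1))).comp (h2.comp h1)
  have h4 : (@WithLp.toLp 2 (Fin (n + 1) → ℝ)) ∘
      ((MeasurableEquiv.piFinSuccAbove (fun _ : Fin (n + 1) => ℝ) 0).symm ∘
        (Prod.map id (@WithLp.ofLp 2 (Fin n → ℝ)))) =
      (fun p : ℝ × EuclideanSpace ℝ (Fin n) => cs n p.1 p.2) := by
    funext p
    ext i
    refine Fin.cases ?_ (fun j => ?_) i
    · rfl
    · rfl
  rw [h4] at h3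
  rw [← h3.measure_preimage hS.nullMeasurableSet,
    Measure.prod_apply_symm (h3.measurable hS)]
  rfl

end Pool.Agent.RM8c
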