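import Pool.Agent.RM8c.Defs
import Pool.Agent.RM8c.G2
import Pool.Agent.RM8c.G4
set_option autoImplicit false
open MeasureTheory Set Filter Topology
namespace Pool.Agent.RM8c
/-- slices of the cap -/
def Bset (n : ℕ) (r u s : ℝ) : Set (EuclideanSpace ℝ (Fin n)) :=
  {y | ‖y‖ ≤ u ∧ (Real.sqrt (u ^ 2 - ‖y‖ ^ 2) - s) ^ 2 + ‖y‖ ^ 2 < r ^ 2}

theorem cap_slices (n : ℕ) (r u s : ℝ) (hr : 0 < r) (hs : r < s) (hu : 0 ≤ u) :
    volume (Metric.ball (s • e1 n) r ∩ Metric.closedBall (0 : E n) u) =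
      ∫⁻ s' in Ici s, volume (Bset n r u s') := by
  obtain ⟨hnorm, hadd, hsm, _, _⟩ := cs_facts n
  have hS : MeasurableSet (Metric.ball (s • e1 n) r ∩ Metric.closedBall (0 : E n) u) :=
    measurableSet_ball.inter measurableSet_closedBall
  rw [vol_slice n _ hS]
  set W : Set (ℝ × EuclideanSpace ℝ (Fin n)) := {p | s ≤ p.1 ∧ ‖p.2‖ ≤ u ∧
    (Real.sqrt (u ^ 2 - ‖p.2‖ ^ 2) - p.1) ^ 2 + ‖p.2‖ ^ 2 < r ^ 2} with hW
  have hWm : MeasurableSet W := by
    have h1 : MeasurableSet {p : ℝ × EuclideanSpace ℝ (Fin n) | s ≤ p.1} :=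
      measurableSet_le measurable_const measurable_fst
    have h2 : MeasurableSet {p : ℝ × EuclideanSpace ℝ (Fin n) | ‖p.2‖ ≤ u} :=
      measurableSet_le (measurable_norm.comp measurable_snd) measurable_const
    have h3 : MeasurableSet {p : ℝ × EuclideanSpace ℝ (Fin n) |
        (Real.sqrt (u ^ 2 - ‖p.2‖ ^ 2) - p.1) ^ 2 + ‖p.2‖ ^ 2 < r ^ 2} := by
      apply measurableSet_lt _ measurable_const
      have hn : Measurable (fun p : ℝ × EuclideanSpace ℝ (Fin n) => ‖p.2‖) :=
        measurable_norm.comp measurable_snd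
      have hsq : Measurable (fun p : ℝ × EuclideanSpace ℝ (Fin n) =>
          Real.sqrt (u ^ 2 - ‖p.2‖ ^ 2)) :=
        (Real.continuous_sqrt.measurable).comp (measurable_const.sub (hn.pow_const 2))
      exact ((hsq.sub measurable_fst).pow_const 2).add (hn.pow_const 2)
    exact h1.inter (h2.inter h3)
  have hcopy : ∀ y : EuclideanSpace ℝ (Fin n),
      volume {t : ℝ | cs n t y ∈ Metric.ball (s • e1 n) r ∩ Metric.closedBall (0 : E n) u}
        = volume ((fun s' : ℝ => (s', y)) ⁻¹' W) := by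
    intro y
    have hmp : MeasurePreserving (fun t : ℝ => (s + Real.sqrt (u ^ 2 - ‖y‖ ^ 2)) - t) volume
        volume := Measure.measurePreserving_sub_left volume _
    have hmeas : MeasurableSet ((fun s' : ℝ => (s', y)) ⁻¹' W) :=
      (measurable_id.prodMk measurable_const) hWm
    rw [← hmp.measure_preimage hmeas.nullMeasurableSet]
    congr 1
    ext t
    have hball : cs n t y ∈ Metric.ball (s • e1 n) r ↔ (t - s) ^ 2 + ‖y‖ ^ 2 < r ^ 2 := by
      rw [Metric.mem_ball, dist_eq_norm, hsm]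
      have h1 : cs n t y - cs n s 0 = cs n (t - s) y := by
        rw [sub_eq_iff_eq_add, hadd]
        congr 1
        · ring
        · simp
      rw [h1, ← hnorm (t - s) y]
      constructor
      · intro h
        exact pow_lt_pow_left₀ h (norm_nonneg _) (by norm_num)
      · intro h
        exact lt_of_pow_lt_pow_left₀ 2 hr.le h
    have hcball : cs n t y ∈ Metric.closedBall (0 : E n) u ↔ t ^ 2 + ‖y‖ ^ 2 ≤ u ^ 2 := by
      rw [Metric.mem_closedBall, dist_eq_norm, sub_zero, ← hnorm t y]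
      constructor
      · intro h
        exact pow_le_pow_left₀ (norm_nonneg _) h 2
      · intro h
        exact (pow_le_pow_iff_left₀ (norm_nonneg _) hu two_ne_zero).mp h
    have hW' : t ∈ (fun t : ℝ => (s + Real.sqrt (u ^ 2 - ‖y‖ ^ 2)) - t) ⁻¹'
        ((fun s' : ℝ => (s', y)) ⁻¹' W) ↔ (t ≤ Real.sqrt (u ^ 2 - ‖y‖ ^ 2) ∧ ‖y‖ ≤ u ∧
          (t - s) ^ 2 + ‖y‖ ^ 2 < r ^ 2) := by
      show (s ≤ (s + Real.sqrt (u ^ 2 - ‖y‖ ^ 2)) - t ∧ ‖y‖ ≤ u ∧
        (Real.sqrt (u ^ 2 - ‖y‖ ^ 2) - ((s + Real.sqrt (u ^ 2 - ‖y‖ ^ 2)) - t)) ^ 2 + ‖y‖ ^ 2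
          < r ^ 2) ↔ _
      have e1 : Real.sqrt (u ^ 2 - ‖y‖ ^ 2) - ((s + Real.sqrt (u ^ 2 - ‖y‖ ^ 2)) - t) = t - s := by
        ring
      rw [e1]
      constructor
      · rintro ⟨a, b, c⟩
        exact ⟨by linarith, b, c⟩
      · rintro ⟨a, b, c⟩
        exact ⟨by linarith, b, c⟩
    rw [hW']
    show (cs n t y ∈ Metric.ball (s • e1 n) r ∧ cs n t y ∈ Metric.closedBall (0 : E n) u) ↔ _
    rw [hball, hcball]
    have htpos : (t - s) ^ 2 + ‖y‖ ^ 2 < r ^ 2 → 0 < t := by
      intro h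
      have h2 : (t - s) ^ 2 < r ^ 2 := by nlinarith [sq_nonneg ‖y‖]
      have h3 := abs_lt_of_sq_lt_sq h2 hr.le
      rw [abs_lt] at h3
      linarith [h3.1]
    constructor
    · rintro ⟨h1, h2⟩
      have ht := htpos h1
      refine ⟨?_, ?_, h1⟩
      · rw [Real.le_sqrt' ht]; linarith
      · apply (pow_le_pow_iff_left₀ (norm_nonneg _) hu two_ne_zero).mp
        nlinarith [sq_nonneg t]
    · rintro ⟨h1, h2, h3⟩
      have ht := htpos h3
      refine ⟨h3, ?_⟩
      rw [Real.le_sqrt' ht] at h1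
      linarith
  rw [lintegral_congr hcopy]
  have hsym := Measure.prod_apply_symm (μ := (volume : Measure ℝ))
    (ν := (volume : Measure (EuclideanSpace ℝ (Fin n)))) hWm
  have hpr := Measure.prod_apply (μ := (volume : Measure ℝ))
    (ν := (volume : Measure (EuclideanSpace ℝ (Fin n)))) hWm
  rw [← hsym, hpr, ← lintegral_indicator measurableSet_Ici]
  apply lintegral_congr
  intro s'
  by_cases hs' : s ≤ s'
  · rw [indicator_of_mem (mem_Ici.mpr hs')]
    congr 1
    ext y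
    show (s ≤ s' ∧ ‖y‖ ≤ u ∧ _) ↔ (‖y‖ ≤ u ∧ _)
    constructor
    · rintro ⟨_, b⟩; exact b
    · intro b; exact ⟨hs', b⟩
  · rw [indicator_of_notMem (by rw [mem_Ici]; exact hs')]
    have : Prod.mk s' ⁻¹' W = (∅ : Set (EuclideanSpace ℝ (Fin n))) := by
      ext y
      constructor
      · rintro ⟨a, _⟩
        exact absurd a hs'
      · intro h; exact absurd h (notMem_empty _)
    rw [this, measure_empty]

theorem Bset_vol (n : ℕ) (hn : 1 ≤ n) (r u s : ℝ) (hr : 0 < r) (hs : r < s) (hu : 0 ≤ u) :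
    volume (Bset n r u s) = ENNReal.ofReal
      (volume.real (Metric.ball (0 : EuclideanSpace ℝ (Fin n)) 1) *
        Real.sqrt (max (u ^ 2 - ((u ^ 2 + s ^ 2 - r ^ 2) / (2 * s)) ^ 2) 0) ^ n) := by
  have : Nonempty (Fin n) := ⟨⟨0, hn⟩⟩
  have hs0 : 0 < s := hr.trans hs
  set T : ℝ := (u ^ 2 + s ^ 2 - r ^ 2) / (2 * s) with hT
  have hTpos : 0 < T := by
    apply div_pos _ (by positivity)
    nlinarith
  have hset : Bset n r u s = Metric.ball (0 : EuclideanSpace ℝ (Fin n))
      (Real.sqrt (max (u ^ 2 - T ^ 2) 0)) := by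
    ext y
    rw [Metric.mem_ball, dist_eq_norm, sub_zero, Real.lt_sqrt (norm_nonneg y), lt_max_iff]
    have hTs : 2 * T * s = u ^ 2 + s ^ 2 - r ^ 2 := by
      rw [hT]; field_simp
    constructor
    · rintro ⟨h1, h2⟩
      left
      have h3 : 0 ≤ u ^ 2 - ‖y‖ ^ 2 := by nlinarith [norm_nonneg y]
      have h4 := Real.sq_sqrt h3
      have h5 : T < Real.sqrt (u ^ 2 - ‖y‖ ^ 2) := by
        by_contra hcon
        push Not at hcon
        have h6 : (Real.sqrt (u ^ 2 - ‖y‖ ^ 2) - s) ^ 2 + ‖y‖ ^ 2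
            = u ^ 2 - 2 * Real.sqrt (u ^ 2 - ‖y‖ ^ 2) * s + s ^ 2 := by
          rw [sub_sq, h4]; ring
        rw [h6] at h2
        nlinarith
      rw [Real.lt_sqrt hTpos.le] at h5
      linarith
    · intro h
      have h1 : ‖y‖ ^ 2 < u ^ 2 - T ^ 2 := by
        rcases h with h | h
        · exact h
        · exact absurd h (not_lt.mpr (sq_nonneg _))
      have h2 : T ^ 2 < u ^ 2 - ‖y‖ ^ 2 := by linarith
      have h3 : 0 ≤ u ^ 2 - ‖y‖ ^ 2 := by nlinarith [sq_nonneg T]
      have h4 := Real.sq_sqrt h3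
      have h5 : T < Real.sqrt (u ^ 2 - ‖y‖ ^ 2) := (Real.lt_sqrt hTpos.le).mpr h2
      refine ⟨?_, ?_⟩
      · apply (pow_le_pow_iff_left₀ (norm_nonneg _) hu two_ne_zero).mp
        nlinarith [sq_nonneg T]
      · have h6 : (Real.sqrt (u ^ 2 - ‖y‖ ^ 2) - s) ^ 2 + ‖y‖ ^ 2
            = u ^ 2 - 2 * Real.sqrt (u ^ 2 - ‖y‖ ^ 2) * s + s ^ 2 := by
          rw [sub_sq, h4]; ring
        rw [h6]
        nlinarith
  rw [hset, Measure.addHaar_ball _ _ (Real.sqrt_nonneg _), finrank_euclideanSpace_fin,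
    mul_comm (volume.real _), ENNReal.ofReal_mul (by positivity), measureReal_def,
    ENNReal.ofReal_toReal measure_ball_lt_top.ne]

theorem N_diff_formula (n : ℕ) (hn : 1 ≤ n) (r x q u : ℝ) (hr : 0 < r) (hx : r < x) (hq : x ≤ q)
    (hu : 0 ≤ u) :
    N n x r u - N n q r u =
      volume.real (Metric.ball (0 : EuclideanSpace ℝ (Fin n)) 1) /
        volume.real (Metric.ball (0 : E n) 1) * r⁻¹ * ∫ y in x..q, kk n r y u := by
  set g : ℝ → ℝ := fun s => volume.real (Metric.ball (0 : EuclideanSpace ℝ (Fin n)) 1) *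
        Real.sqrt (max (u ^ 2 - ((u ^ 2 + s ^ 2 - r ^ 2) / (2 * s)) ^ 2) 0) ^ n with hg
  have hgm : Measurable g := by
    have h1 : Measurable (fun s : ℝ => (u ^ 2 + s ^ 2 - r ^ 2) / (2 * s)) :=
      ((measurable_const.add (measurable_id.pow_const 2)).sub measurable_const).div
        (measurable_const.mul measurable_id)
    have h2 : Measurable (fun s : ℝ => Real.sqrt (max (u ^ 2 -
        ((u ^ 2 + s ^ 2 - r ^ 2) / (2 * s)) ^ 2) 0)) :=
      (Real.continuous_sqrt.measurable).comp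
        ((measurable_const.sub (h1.pow_const 2)).max measurable_const)
    exact measurable_const.mul (h2.pow_const n)
  have hg0 : ∀ s, 0 ≤ g s := fun s => mul_nonneg measureReal_nonneg (by positivity)
  have hcapx := cap_slices n r u x hr hx hu
  have hcapq := cap_slices n r u q hr (lt_of_lt_of_le hx hq) hu
  have hfin : ∀ s : ℝ, volume (Metric.ball (s • e1 n) r ∩ Metric.closedBall (0 : E n) u) ≠ ⊤ := by
    intro s
    exact ((measure_mono inter_subset_left).trans_lt measure_ball_lt_top).ne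
  have hsplit : volume (Metric.ball (x • e1 n) r ∩ Metric.closedBall (0 : E n) u)
      = (∫⁻ s in Ico x q, ENNReal.ofReal (g s)) +
        volume (Metric.ball (q • e1 n) r ∩ Metric.closedBall (0 : E n) u) := by
    rw [hcapx, hcapq, ← Ico_union_Ici_eq_Ici hq, lintegral_union measurableSet_Ici]
    · congr 1
      apply setLIntegral_congr_fun measurableSet_Ico
      intro s hs
      exact Bset_vol n hn r u s hr (lt_of_lt_of_le hx hs.1) hu
    · rw [Set.disjoint_left]
      intro s hs hs'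
      exact absurd hs.2 (not_lt.mpr hs')
  have hfin2 : (∫⁻ s in Ico x q, ENNReal.ofReal (g s)) ≠ ⊤ := by
    intro h
    rw [h, top_add] at hsplit
    exact hfin x hsplit
  have hreal : volume.real (Metric.ball (x • e1 n) r ∩ Metric.closedBall (0 : E n) u)
      - volume.real (Metric.ball (q • e1 n) r ∩ Metric.closedBall (0 : E n) u)
      = ∫ s in x..q, g s := by
    rw [measureReal_def, measureReal_def, hsplit, ENNReal.toReal_add hfin2 (hfin q),
      add_sub_cancel_right, intervalIntegral.integral_of_le hq, integral_Ioc_eq_integral_Ioo,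
      ← integral_Ico_eq_integral_Ioo,
      integral_eq_lintegral_of_nonneg_ae (Eventually.of_forall hg0) hgm.aestronglyMeasurable]
  have hκ : 0 < volume.real (Metric.ball (0 : E n) 1) := by
    rw [measureReal_def]
    exact ENNReal.toReal_pos (Metric.measure_ball_pos _ _ one_pos).ne' measure_ball_lt_top.ne
  have hBr : volume.real (Metric.ball (0 : E n) r)
      = r ^ (n + 1) * volume.real (Metric.ball (0 : E n) 1) := by
    rw [measureReal_def, Measure.addHaar_ball_of_pos _ _ hr, finrank_euclideanSpace_fin,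
      ENNReal.toReal_mul, ENNReal.toReal_ofReal (by positivity), measureReal_def]
  have hkk : ∫ y in x..q, kk n r y u = (r ^ n)⁻¹ *
      (∫ s in x..q, Real.sqrt (max (u ^ 2 - ((u ^ 2 + s ^ 2 - r ^ 2) / (2 * s)) ^ 2) 0) ^ n) := by
    rw [← intervalIntegral.integral_const_mul]
    apply intervalIntegral.integral_congr
    intro s _
    simp only [kk, div_pow]
    rw [div_eq_inv_mul]
  have hgi : ∫ s in x..q, g s = volume.real (Metric.ball (0 : EuclideanSpace ℝ (Fin n)) 1) *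
      (∫ s in x..q, Real.sqrt (max (u ^ 2 - ((u ^ 2 + s ^ 2 - r ^ 2) / (2 * s)) ^ 2) 0) ^ n) := by
    rw [← intervalIntegral.integral_const_mul]
  unfold N
  rw [← mul_sub, hreal, hBr, hkk, hgi]
  have hr' : r ≠ 0 := hr.ne'
  generalize (∫ s in x..q,
    Real.sqrt (max (u ^ 2 - ((u ^ 2 + s ^ 2 - r ^ 2) / (2 * s)) ^ 2) 0) ^ n) = J
  have hκ' := hκ.ne'
  field_simp
  ring

end Pool.Agent.RM8c
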