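import Pool.Agent.RM8c.Defs
set_option autoImplicit false
open MeasureTheory Set Filter Topology
namespace Pool.Agent.RM8c
/-- auxiliary quartic -/
noncomputable def kP (r y u : ℝ) : ℝ := u ^ 2 - ((u ^ 2 + y ^ 2 - r ^ 2) / (2 * y)) ^ 2

theorem kP_eq (r y u : ℝ) (hy : 0 < y) :
    kP r y u = ((y + r) ^ 2 - u ^ 2) * (u ^ 2 - (y - r) ^ 2) / (4 * y ^ 2) := by
  unfold kP
  field_simp
  ring

theorem kP_le (r y u : ℝ) (hy : 0 < y) : kP r y u ≤ r ^ 2 := by
  have h : kP r y u = r ^ 2 - ((u ^ 2 + y ^ 2 - r ^ 2) / (2 * y) - y) ^ 2 := by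
    unfold kP
    field_simp
    ring
  rw [h]
  have := sq_nonneg ((u ^ 2 + y ^ 2 - r ^ 2) / (2 * y) - y)
  linarith

theorem kP_lip (r y u v : ℝ) (hr : 0 < r) (hy : 4 * r ≤ y) (hu : y - r ≤ u) (hu' : u ≤ y + r)
    (hv : y - r ≤ v) (hv' : v ≤ y + r) : |kP r y u - kP r y v| ≤ 3 * r * |u - v| := by
  have hy0 : 0 < y := by linarith
  have h1 : kP r y u - kP r y v =
      (u - v) * ((u + v) * (2 * y ^ 2 + 2 * r ^ 2 - u ^ 2 - v ^ 2) / (4 * y ^ 2)) := by
    rw [kP_eq r y u hy0, kP_eq r y v hy0]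
    field_simp
    ring
  rw [h1, abs_mul, mul_comm]
  apply mul_le_mul_of_nonneg_right _ (abs_nonneg _)
  rw [abs_div, abs_mul, abs_of_pos (show (0:ℝ) < 4 * y ^ 2 by positivity),
    div_le_iff₀ (by positivity)]
  have hu0 : 0 < u := by linarith
  have hv0 : 0 < v := by linarith
  have h2 : |u + v| ≤ 2 * (y + r) := by
    rw [abs_of_pos (by linarith)]
    linarith
  have hu1 : (y - r) ^ 2 ≤ u ^ 2 := pow_le_pow_left₀ (by linarith) hu 2
  have hu2 : u ^ 2 ≤ (y + r) ^ 2 := pow_le_pow_left₀ hu0.le hu' 2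
  have hv1 : (y - r) ^ 2 ≤ v ^ 2 := pow_le_pow_left₀ (by linarith) hv 2
  have hv2 : v ^ 2 ≤ (y + r) ^ 2 := pow_le_pow_left₀ hv0.le hv' 2
  have h3 : |2 * y ^ 2 + 2 * r ^ 2 - u ^ 2 - v ^ 2| ≤ 4 * y * r := by
    rw [abs_le]
    constructor <;> nlinarith
  calc |u + v| * |2 * y ^ 2 + 2 * r ^ 2 - u ^ 2 - v ^ 2| ≤ (2 * (y + r)) * (4 * y * r) :=
        mul_le_mul h2 h3 (abs_nonneg _) (by linarith)
    _ ≤ 3 * r * (4 * y ^ 2) := by
        have h4 : 0 ≤ y * r := by positivity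
        have h5 : 0 ≤ y * r * (y - 2 * r) := mul_nonneg h4 (by linarith)
        nlinarith

/-- clamp to `[y-r, y+r]` -/
noncomputable def kc (r y u : ℝ) : ℝ := max (y - r) (min u (y + r))

theorem kc_mem (r y u : ℝ) (hr : 0 < r) : y - r ≤ kc r y u ∧ kc r y u ≤ y + r := by
  unfold kc
  refine ⟨le_max_left _ _, max_le (by linarith) (min_le_right _ _)⟩

theorem kc_lip (r y u v : ℝ) : |kc r y u - kc r y v| ≤ |u - v| := by
  unfold kc
  refine (abs_max_sub_max_le_max _ _ _ _).trans ?_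
  rw [sub_self, abs_zero]
  refine max_le (abs_nonneg _) ?_
  refine (abs_min_sub_min_le_max _ _ _ _).trans ?_
  rw [sub_self, abs_zero]
  exact max_le le_rfl (abs_nonneg _)

theorem kP_clamp (r y u : ℝ) (hr : 0 < r) (hy : 4 * r ≤ y) (hu : 0 ≤ u) :
    max (kP r y u) 0 = kP r y (kc r y u) := by
  have hy0 : 0 < y := by linarith
  rcases lt_or_ge u (y - r) with h | h
  · have h1 : kc r y u = y - r := by
      unfold kc
      rw [min_eq_left (by linarith), max_eq_left h.le]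
    rw [h1, kP_eq r y (y - r) hy0, sub_self, mul_zero, zero_div, max_eq_right]
    rw [kP_eq r y u hy0]
    have hu1 : u ^ 2 ≤ (y - r) ^ 2 := pow_le_pow_left₀ hu h.le 2
    have hu2 : u ^ 2 ≤ (y + r) ^ 2 := pow_le_pow_left₀ hu (by linarith) 2
    apply div_nonpos_of_nonpos_of_nonneg _ (by positivity)
    exact mul_nonpos_of_nonneg_of_nonpos (by linarith) (by linarith)
  · rcases lt_or_ge (y + r) u with h' | h'
    · have h1 : kc r y u = y + r := by
        unfold kc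
        rw [min_eq_right h'.le, max_eq_right (by linarith)]
      rw [h1, kP_eq r y (y + r) hy0, sub_self, zero_mul, zero_div, max_eq_right]
      rw [kP_eq r y u hy0]
      have hu1 : (y + r) ^ 2 ≤ u ^ 2 := pow_le_pow_left₀ (by linarith) h'.le 2
      have hu2 : (y - r) ^ 2 ≤ u ^ 2 := pow_le_pow_left₀ (by linarith) h 2
      apply div_nonpos_of_nonpos_of_nonneg _ (by positivity)
      exact mul_nonpos_of_nonpos_of_nonneg (by linarith) (by linarith)
    · have h1 : kc r y u = u := by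
        unfold kc
        rw [min_eq_left h', max_eq_right h]
      rw [h1, max_eq_left]
      rw [kP_eq r y u hy0]
      have hu1 : (y - r) ^ 2 ≤ u ^ 2 := pow_le_pow_left₀ (by linarith) h 2
      have hu2 : u ^ 2 ≤ (y + r) ^ 2 := pow_le_pow_left₀ hu h' 2
      apply div_nonneg _ (by positivity)
      exact mul_nonneg (by linarith) (by linarith)

theorem kQ_lip (r y u v : ℝ) (hr : 0 < r) (hy : 4 * r ≤ y) (hu : 0 ≤ u) (hv : 0 ≤ v) :
    |max (kP r y u) 0 - max (kP r y v) 0| ≤ 3 * r * |u - v| := by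
  rw [kP_clamp r y u hr hy hu, kP_clamp r y v hr hy hv]
  obtain ⟨a1, a2⟩ := kc_mem r y u hr
  obtain ⟨b1, b2⟩ := kc_mem r y v hr
  refine (kP_lip r y _ _ hr hy a1 a2 b1 b2).trans ?_
  exact mul_le_mul_of_nonneg_left (kc_lip r y u v) (by positivity)

theorem k_sqrt (s t : ℝ) (hs : 0 ≤ s) (ht : 0 ≤ t) : |√s - √t| ≤ √|s - t| := by
  apply Real.le_sqrt_of_sq_le
  rw [sq_abs]
  have h1 : |s - t| = |√s - √t| * |√s + √t| := by
    rw [← abs_mul]
    congr 1
    have h2 := Real.sq_sqrt hs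
    have h3 := Real.sq_sqrt ht
    nlinarith
  rw [h1, ← sq_abs, sq]
  apply mul_le_mul_of_nonneg_left _ (abs_nonneg _)
  have h4 := Real.sqrt_nonneg s
  have h5 := Real.sqrt_nonneg t
  rw [abs_le, abs_of_nonneg (by linarith)]
  constructor <;> linarith

theorem k_pow (n : ℕ) (α β : ℝ) (ha : 0 ≤ α) (ha' : α ≤ 1) (hb : 0 ≤ β) (hb' : β ≤ 1) :
    |α ^ n - β ^ n| ≤ n * |α - β| := by
  induction n with
  | zero => simp
  | succ n ih =>
    have h1 : α ^ (n + 1) - β ^ (n + 1) = α ^ n * (α - β) + (α ^ n - β ^ n) * β := by ring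
    rw [h1]
    refine (abs_add_le _ _).trans ?_
    rw [abs_mul, abs_mul, abs_of_nonneg (pow_nonneg ha n), abs_of_nonneg hb]
    push_cast
    have h2 : α ^ n * |α - β| ≤ 1 * |α - β| :=
      mul_le_mul_of_nonneg_right (pow_le_one₀ ha ha') (abs_nonneg _)
    have h3 : |α ^ n - β ^ n| * β ≤ (n * |α - β|) * 1 :=
      mul_le_mul ih hb' hb (by positivity)
    linarith

theorem kk_holder (n : ℕ) (hn : 1 ≤ n) (r y u v : ℝ) (hr : 0 < r) (hy : 4 * r ≤ y) (hu : 0 ≤ u)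
    (hv : 0 ≤ v) :
    0 ≤ kk n r y u ∧ kk n r y u ≤ 1 ∧
      |kk n r y u - kk n r y v| ≤ 2 * n * Real.sqrt (|u - v| / r) := by
  have hy0 : 0 < y := by linarith
  have hk : ∀ w, kk n r y w = (√(max (kP r y w) 0) / r) ^ n := fun w => rfl
  have hα0 : ∀ w, 0 ≤ √(max (kP r y w) 0) / r := fun w => by positivity
  have hα1 : ∀ w, √(max (kP r y w) 0) / r ≤ 1 := by
    intro w
    rw [div_le_one hr]
    apply Real.sqrt_le_iff.2
    exact ⟨hr.le, max_le (kP_le r y w hy0) (sq_nonneg _)⟩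
  rw [hk, hk]
  refine ⟨pow_nonneg (hα0 u) n, pow_le_one₀ (hα0 u) (hα1 u), ?_⟩
  refine (k_pow n _ _ (hα0 u) (hα1 u) (hα0 v) (hα1 v)).trans ?_
  have h1 : |√(max (kP r y u) 0) / r - √(max (kP r y v) 0) / r| ≤ 2 * √(|u - v| / r) := by
    rw [← sub_div, abs_div, abs_of_pos hr, div_le_iff₀ hr]
    refine (k_sqrt _ _ (le_max_right _ _) (le_max_right _ _)).trans ?_
    have h2 := kQ_lip r y u v hr hy hu hv
    refine (Real.sqrt_le_sqrt h2).trans ?_
    apply Real.sqrt_le_iff.2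
    refine ⟨by positivity, ?_⟩
    have h3 : (2 * √(|u - v| / r) * r) ^ 2 = 4 * r * |u - v| := by
      rw [mul_pow, mul_pow, Real.sq_sqrt (by positivity)]
      field_simp
      ring
    rw [h3]
    have h4 : 0 ≤ r * |u - v| := by positivity
    linarith
  calc (n:ℝ) * |√(max (kP r y u) 0) / r - √(max (kP r y v) 0) / r|
      ≤ n * (2 * √(|u - v| / r)) := mul_le_mul_of_nonneg_left h1 (by positivity)
    _ = 2 * n * √(|u - v| / r) := by ring

end Pool.Agent.RM8c
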