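import Pool.Agent.RM8c.Defs
import Pool.Agent.RM8c.G2
import Pool.Agent.RM8c.G4
set_option autoImplicit false
open MeasureTheory Set Filter Topology
namespace Pool.Agent.RM8c
theorem N_lip_sq {a b : ℝ} (h : a ^ 2 ≤ b ^ 2) (hb : 0 ≤ b) : a ≤ b :=
  abs_le_of_sq_le_sq' h hb |>.2

theorem N_lip_slice (n : ℕ) (r x u v : ℝ) (hr : 0 < r) (hx : 4 * r ≤ x) (huv : u ≤ v)
    (y : EuclideanSpace ℝ (Fin n)) :
    volume {t : ℝ | cs n t y ∈ Metric.ball (x • e1 n) r ∩
      (Metric.closedBall (0 : E n) v \ Metric.closedBall (0 : E n) u)} ≤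
      (Metric.ball (0 : EuclideanSpace ℝ (Fin n)) r).indicator
        (fun _ => ENNReal.ofReal (2 * (v - u))) y := by
  obtain ⟨hnorm, hadd, hxe, -, -⟩ := cs_facts n
  have key : ∀ t, cs n t y ∈ Metric.ball (x • e1 n) r → ‖y‖ < r ∧ 3 * r < t := by
    intro t ht
    rw [Metric.mem_ball, dist_eq_norm, hxe] at ht
    have e : cs n t y - cs n x 0 = cs n (t - x) y := by
      rw [sub_eq_iff_eq_add, hadd]; simp
    rw [e] at ht
    have h1 := hnorm (t - x) y
    have h2 : (t - x) ^ 2 + ‖y‖ ^ 2 < r ^ 2 := by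
      rw [← h1]; exact pow_lt_pow_left₀ ht (norm_nonneg _) (by norm_num)
    constructor
    · exact lt_of_pow_lt_pow_left₀ 2 hr.le (by nlinarith [sq_nonneg (t - x)])
    · have h3 : (t - x) ^ 2 < r ^ 2 := by nlinarith [sq_nonneg (‖y‖)]
      have := (abs_lt_of_sq_lt_sq' h3 hr.le).1
      linarith
  by_cases hy : y ∈ Metric.ball (0 : EuclideanSpace ℝ (Fin n)) r
  · rw [Set.indicator_of_mem hy]
    refine (Real.volume_le_diam _).trans (Metric.ediam_le ?_)
    have main : ∀ t1 t2 : ℝ, cs n t1 y ∈ Metric.ball (x • e1 n) r ∩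
      (Metric.closedBall (0 : E n) v \ Metric.closedBall (0 : E n) u) →
      cs n t2 y ∈ Metric.ball (x • e1 n) r ∩
      (Metric.closedBall (0 : E n) v \ Metric.closedBall (0 : E n) u) → t1 ≤ t2 →
      t2 - t1 ≤ 2 * (v - u) := by
      intro t1 t2 h1 h2 h12
      obtain ⟨hyr, ht1⟩ := key t1 h1.1
      obtain ⟨-, ht2⟩ := key t2 h2.1
      have a1 : u < ‖cs n t1 y‖ := by
        have := h1.2.2
        rw [Metric.mem_closedBall, dist_zero_right, not_le] at this
        exact this
      have b1 : ‖cs n t2 y‖ ≤ v := by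
        have := h2.2.1
        rw [Metric.mem_closedBall, dist_zero_right] at this
        exact this
      have n1 := hnorm t1 y
      have n2 := hnorm t2 y
      set a := ‖cs n t1 y‖
      set b := ‖cs n t2 y‖
      have ha0 : 0 ≤ a := norm_nonneg _
      have hb0 : 0 ≤ b := norm_nonneg _
      have hy0 := norm_nonneg y
      have hy2 : ‖y‖ ^ 2 ≤ r ^ 2 := pow_le_pow_left₀ hy0 hyr.le 2
      have hr1 : r ^ 2 ≤ t1 ^ 2 := pow_le_pow_left₀ hr.le (by linarith) 2
      have hr2 : r ^ 2 ≤ t2 ^ 2 := pow_le_pow_left₀ hr.le (by linarith) 2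
      have ha2 : a ≤ 2 * t1 := N_lip_sq (by nlinarith) (by linarith)
      have hb2 : b ≤ 2 * t2 := N_lip_sq (by nlinarith) (by linarith)
      have hab : a ≤ b := N_lip_sq (by nlinarith) hb0
      have e : (t2 - t1) * (t1 + t2) = (b - a) * (b + a) := by nlinarith
      have e2 : (t2 - t1) * (t1 + t2) ≤ (2 * (b - a)) * (t1 + t2) := by
        rw [e]
        nlinarith
      have e3 : t2 - t1 ≤ 2 * (b - a) := le_of_mul_le_mul_right e2 (by linarith)
      linarith
    intro t1 ht1 t2 ht2
    rw [edist_dist, Real.dist_eq]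
    apply ENNReal.ofReal_le_ofReal
    rcases le_total t1 t2 with h | h
    · rw [abs_sub_comm, abs_of_nonneg (by linarith)]
      exact main t1 t2 ht1 ht2 h
    · rw [abs_of_nonneg (by linarith)]
      exact main t2 t1 ht2 ht1 h
  · rw [Set.indicator_of_notMem hy]
    have : {t : ℝ | cs n t y ∈ Metric.ball (x • e1 n) r ∩
      (Metric.closedBall (0 : E n) v \ Metric.closedBall (0 : E n) u)} = ∅ := by
      ext t
      constructor
      · intro ht
        exact (hy (by
          rw [Metric.mem_ball, dist_zero_right]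
          exact (key t ht.1).1)).elim
      · intro h
        exact h.elim
    rw [this, measure_empty]

theorem N_lip_mono (n : ℕ) (r x u v : ℝ) (hr : 0 < r) (hx : 4 * r ≤ x) (huv : u ≤ v) :
    volume.real (Metric.ball (x • e1 n) r ∩
      (Metric.closedBall (0 : E n) v \ Metric.closedBall (0 : E n) u)) ≤
      2 * (v - u) * (r ^ n * volume.real (Metric.ball (0 : EuclideanSpace ℝ (Fin n)) 1)) := by
  have hm : MeasurableSet (Metric.ball (x • e1 n) r ∩
      (Metric.closedBall (0 : E n) v \ Metric.closedBall (0 : E n) u)) :=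
    measurableSet_ball.inter (measurableSet_closedBall.diff measurableSet_closedBall)
  have h1 := vol_slice n _ hm
  have h2 : volume (Metric.ball (x • e1 n) r ∩
      (Metric.closedBall (0 : E n) v \ Metric.closedBall (0 : E n) u)) ≤
      ENNReal.ofReal (2 * (v - u)) *
        volume (Metric.ball (0 : EuclideanSpace ℝ (Fin n)) r) := by
    rw [h1]
    refine (lintegral_mono (N_lip_slice n r x u v hr hx huv)).trans ?_
    rw [lintegral_indicator_const measurableSet_ball]
  have h3 := Measure.addHaar_ball_of_pos (volume : Measure (EuclideanSpace ℝ (Fin n)))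
    (0 : EuclideanSpace ℝ (Fin n)) hr
  rw [h3, finrank_euclideanSpace_fin] at h2
  have h4 : volume.real (Metric.ball (x • e1 n) r ∩
      (Metric.closedBall (0 : E n) v \ Metric.closedBall (0 : E n) u)) ≤
      (ENNReal.ofReal (2 * (v - u)) * (ENNReal.ofReal (r ^ n) *
        volume (Metric.ball (0 : EuclideanSpace ℝ (Fin n)) 1))).toReal := by
    apply ENNReal.toReal_mono _ h2
    exact ENNReal.mul_ne_top ENNReal.ofReal_ne_top
      (ENNReal.mul_ne_top ENNReal.ofReal_ne_top measure_ball_lt_top.ne)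
  rw [ENNReal.toReal_mul, ENNReal.toReal_mul, ENNReal.toReal_ofReal (by linarith),
    ENNReal.toReal_ofReal (by positivity)] at h4
  exact h4

theorem N_lip (n : ℕ) : ∃ C : ℝ, 0 < C ∧ ∀ r x u v : ℝ, 0 < r → 4 * r ≤ x → 0 ≤ u → 0 ≤ v →
    |N n x r u - N n x r v| ≤ C * (|u - v| / r) := by
  set κ := volume.real (Metric.ball (0 : EuclideanSpace ℝ (Fin n)) 1) with hκ
  set κ' := volume.real (Metric.ball (0 : E n) 1) with hκ'
  have hκp : 0 < κ := by
    rw [hκ]
    exact ENNReal.toReal_pos (Metric.measure_ball_pos _ _ one_pos).ne' measure_ball_lt_top.ne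
  have hκp' : 0 < κ' := by
    rw [hκ']
    exact ENNReal.toReal_pos (Metric.measure_ball_pos _ _ one_pos).ne' measure_ball_lt_top.ne
  have main : ∀ r x u v : ℝ, 0 < r → 4 * r ≤ x → u ≤ v →
      |N n x r u - N n x r v| ≤ (2 * κ / κ') * ((v - u) / r) := by
    intro r x u v hr hx huv
    have hmono := (N_basic n x r hr (by linarith)).2.1 huv
    have hball : volume.real (Metric.ball (0 : E n) r) = r ^ (n + 1) * κ' := by
      rw [hκ', Measure.real, Measure.addHaar_ball_of_pos _ _ hr, ENNReal.toReal_mul,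
        ENNReal.toReal_ofReal (by positivity), finrank_euclideanSpace_fin]
      rfl
    have h1 := N_lip_mono n r x u v hr hx huv
    have h2 : volume.real (Metric.ball (x • e1 n) r ∩ Metric.closedBall (0 : E n) v) ≤
        volume.real (Metric.ball (x • e1 n) r ∩ Metric.closedBall (0 : E n) u) +
        volume.real (Metric.ball (x • e1 n) r ∩
      (Metric.closedBall (0 : E n) v \ Metric.closedBall (0 : E n) u)) := by
      refine (measureReal_mono ?_ ?_).trans (measureReal_union_le _ _)
      · rintro z ⟨hz1, hz2⟩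
        by_cases hz : z ∈ Metric.closedBall (0 : E n) u
        · exact Or.inl ⟨hz1, hz⟩
        · exact Or.inr ⟨hz1, hz2, hz⟩
      · refine (measure_union_lt_top ?_ ?_).ne
        · exact (measure_mono Set.inter_subset_left).trans_lt measure_ball_lt_top
        · exact (measure_mono Set.inter_subset_left).trans_lt measure_ball_lt_top
    have h3 : N n x r v - N n x r u ≤ (r ^ (n + 1) * κ')⁻¹ * (2 * (v - u) * (r ^ n * κ)) := by
      unfold N
      rw [hball, ← mul_sub]
      apply mul_le_mul_of_nonneg_left _ (by positivity)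
      linarith
    rw [abs_sub_comm, abs_of_nonneg (by linarith)]
    refine h3.trans (le_of_eq ?_)
    field_simp
    ring
  refine ⟨2 * κ / κ', by positivity, ?_⟩
  intro r x u v hr hx _ _
  rcases le_total u v with h | h
  · rw [abs_sub_comm u v, abs_of_nonneg (sub_nonneg.2 h)]
    exact main r x u v hr hx h
  · rw [abs_sub_comm (N n x r u), abs_of_nonneg (sub_nonneg.2 h)]
    exact main r x v u hr hx h

end Pool.Agent.RM8c
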