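import Pool.Agent.RM8c.Defs
import Pool.Agent.RM8c.G2
import Pool.Agent.RM8c.G3
import Pool.Agent.RM8c.G5
import Pool.Agent.RM8c.G6
import Pool.Agent.RM8c.G7
set_option autoImplicit false
open MeasureTheory Set Filter Topology
namespace Pool.Agent.RM8c
theorem exists_Ker_int (n : ℕ) (r x q u : ℝ) (hx : 0 < x) (hq : x ≤ q) :
    IntervalIntegrable (fun y => kk n r y u) volume x q := by
  apply ContinuousOn.intervalIntegrable
  rw [uIcc_of_le hq]
  have h1 : ContinuousOn (fun y : ℝ => (u ^ 2 + y ^ 2 - r ^ 2) / (2 * y)) (Icc x q) := by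
    refine ContinuousOn.div (Continuous.continuousOn (by fun_prop))
      (Continuous.continuousOn (by fun_prop)) ?_
    intro y hy
    have : 0 < y := lt_of_lt_of_le hx hy.1
    positivity
  have h2 : ContinuousOn (fun y : ℝ => u ^ 2 - ((u ^ 2 + y ^ 2 - r ^ 2) / (2 * y)) ^ 2) (Icc x q) :=
    continuousOn_const.sub (h1.pow 2)
  have h3 : ContinuousOn (fun y : ℝ =>
      max (u ^ 2 - ((u ^ 2 + y ^ 2 - r ^ 2) / (2 * y)) ^ 2) 0) (Icc x q) :=
    ContinuousOn.sup h2 continuousOn_const
  have h4 : ContinuousOn (fun y : ℝ => Real.sqrt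
      (max (u ^ 2 - ((u ^ 2 + y ^ 2 - r ^ 2) / (2 * y)) ^ 2) 0)) (Icc x q) :=
    Real.continuous_sqrt.comp_continuousOn h3
  exact (h4.div_const r).pow n

theorem exists_Ker (n : ℕ) (hn : 1 ≤ n) : ∃ CK : ℝ, Ker n CK := by
  obtain ⟨C, hC, hlip⟩ := N_lip n
  obtain ⟨κ, hκ⟩ : ∃ κ, κ = volume.real (Metric.ball (0 : EuclideanSpace ℝ (Fin n)) 1) /
        volume.real (Metric.ball (0 : E n) 1) := ⟨_, rfl⟩
  have hκ0 : 0 ≤ κ := by rw [hκ]; positivity
  have hn0 : (0 : ℝ) ≤ n := Nat.cast_nonneg n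
  have hκn : 0 ≤ κ * (2 * n) := by positivity
  have hCK1 : κ ≤ κ * (1 + 2 * n) + C + 1 := by nlinarith
  have hCK2 : κ * (2 * n) ≤ κ * (1 + 2 * n) + C + 1 := by nlinarith
  have hCK3 : C ≤ κ * (1 + 2 * n) + C + 1 := by nlinarith
  have hCK4 : 1 ≤ κ * (1 + 2 * n) + C + 1 := by nlinarith
  have hCK0 : 0 ≤ κ * (1 + 2 * n) + C + 1 := by linarith
  refine ⟨κ * (1 + 2 * n) + C + 1, by linarith, ?_, ?_, ?_⟩
  · intro r x q u hr hx hq
    have hrx : r < x := by linarith
    have hqx : 0 ≤ (q - x) / r := div_nonneg (by linarith) hr.le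
    refine ⟨by linarith [N_mono_x n r x q u hr hrx.le hq], ?_⟩
    rcases lt_or_ge u 0 with hu | hu
    · have h1 := (N_basic n x r hr hrx.le).2.2.1 u (by linarith)
      have h2 := (N_basic n q r hr (by linarith)).2.2.1 u (by linarith)
      rw [h1, h2, sub_zero]
      exact mul_nonneg hCK0 hqx
    · rw [N_diff_formula n hn r x q u hr hrx hq hu, ← hκ]
      have h1 : ‖∫ y in x..q, kk n r y u‖ ≤ 1 * |q - x| := by
        refine intervalIntegral.norm_integral_le_of_norm_le_const (fun y hy => ?_)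
        rw [uIoc_of_le hq] at hy
        have h2 := kk_holder n hn r y u u hr (by linarith [hy.1]) hu hu
        rw [Real.norm_eq_abs, abs_of_nonneg h2.1]
        exact h2.2.1
      rw [one_mul, abs_of_nonneg (by linarith : 0 ≤ q - x)] at h1
      have h2 : ∫ y in x..q, kk n r y u ≤ q - x := (le_abs_self _).trans h1
      have h3 : 0 ≤ κ * r⁻¹ := by positivity
      calc κ * r⁻¹ * ∫ y in x..q, kk n r y u ≤ κ * r⁻¹ * (q - x) :=
            mul_le_mul_of_nonneg_left h2 h3
        _ = κ * ((q - x) / r) := by ring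
        _ ≤ _ := mul_le_mul_of_nonneg_right hCK1 hqx
  · intro r x q u v hr hx hq hu hv
    have hrx : r < x := by linarith
    have hqx : 0 ≤ (q - x) / r := div_nonneg (by linarith) hr.le
    rw [N_diff_formula n hn r x q u hr hrx hq hu, N_diff_formula n hn r x q v hr hrx hq hv, ← hκ,
      ← mul_sub, ← intervalIntegral.integral_sub (exists_Ker_int n r x q u (by linarith) hq)
        (exists_Ker_int n r x q v (by linarith) hq), abs_mul]
    have h1 : ‖∫ y in x..q, (kk n r y u - kk n r y v)‖ ≤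
        2 * n * Real.sqrt (|u - v| / r) * |q - x| := by
      refine intervalIntegral.norm_integral_le_of_norm_le_const (fun y hy => ?_)
      rw [uIoc_of_le hq] at hy
      exact (kk_holder n hn r y u v hr (by linarith [hy.1]) hu hv).2.2
    rw [abs_of_nonneg (by linarith : 0 ≤ q - x), Real.norm_eq_abs] at h1
    have h3 : 0 ≤ κ * r⁻¹ := by positivity
    rw [abs_of_nonneg h3]
    have hsq := Real.sqrt_nonneg (|u - v| / r)
    calc κ * r⁻¹ * |∫ y in x..q, (kk n r y u - kk n r y v)| ≤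
          κ * r⁻¹ * (2 * n * Real.sqrt (|u - v| / r) * (q - x)) :=
          mul_le_mul_of_nonneg_left h1 h3
      _ = κ * (2 * n) * (((q - x) / r) * Real.sqrt (|u - v| / r)) := by ring
      _ ≤ (κ * (1 + 2 * n) + C + 1) * (((q - x) / r) * Real.sqrt (|u - v| / r)) :=
          mul_le_mul_of_nonneg_right hCK2 (mul_nonneg hqx hsq)
      _ = _ := by ring
  · intro r x u v hr hx hu hv
    have hs : 0 ≤ |u - v| / r := div_nonneg (abs_nonneg _) hr.le
    have h1 := hlip r x u v hr hx hu hv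
    have hsq := Real.sqrt_nonneg (|u - v| / r)
    rcases le_or_gt (|u - v| / r) 1 with h2 | h2
    · have h3 : |u - v| / r ≤ Real.sqrt (|u - v| / r) := by
        apply Real.le_sqrt_of_sq_le
        nlinarith
      calc |N n x r u - N n x r v| ≤ C * (|u - v| / r) := h1
        _ ≤ C * Real.sqrt (|u - v| / r) := mul_le_mul_of_nonneg_left h3 hC.le
        _ ≤ _ := mul_le_mul_of_nonneg_right hCK3 hsq
    · have h3 : 1 ≤ Real.sqrt (|u - v| / r) := by
        rw [Real.one_le_sqrt]
        exact h2.le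
      have hb := (N_basic n x r hr (by linarith)).1
      have h4 : |N n x r u - N n x r v| ≤ 1 := by
        rw [abs_le]
        constructor <;> linarith [(hb u).1, (hb u).2, (hb v).1, (hb v).2]
      calc |N n x r u - N n x r v| ≤ 1 := h4
        _ ≤ 1 * Real.sqrt (|u - v| / r) := by linarith
        _ ≤ _ := mul_le_mul_of_nonneg_right hCK4 hsq

end Pool.Agent.RM8c
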