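import Pool.Agent.RM8c.Defs
import Pool.Agent.BV653.Defs
import Pool.Agent.RM8c.C1
import Pool.Agent.RM8c.C2
import Pool.Agent.RM8c.D1
import Pool.Agent.RM8c.G8
set_option autoImplicit false
open MeasureTheory Set Filter Topology
namespace Pool.Agent.RM8c
/-- lacunary duality, summed over the residue classes of the keys -/
theorem SUML_aux (L : ℝ) (m : ℕ) (hm : 0 < m)
    (hdual : ∀ (T : Finset (ℤ × ℤ))
    (k : ℤ × ℤ → ℤ) (c ρ : ℤ × ℤ → ℝ) (φ0 φ1 : ℤ × ℤ → ℝ → ℝ) (h : ℤ × ℤ → ℝ) (f : ℝ → ℝ)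
    (a b : ℝ), a ≤ b →
    IntervalIntegrable f volume a b →
    (∀ i ∈ T, (2 : ℝ) ^ (k i) ≤ ρ i ∧ ρ i ≤ 16 * (2 : ℝ) ^ (k i)) →
    (∀ i ∈ T, GoodK L a b (c i) (ρ i) (φ0 i) ∧ GoodK L a b (c i) (ρ i) (φ1 i)) →
    (∀ i ∈ T, ∀ j ∈ T, i ≠ j →
      (k i = k j ∧ 64 * (2 : ℝ) ^ (k i) < |c i - c j|) ∨ (k i ≠ k j ∧ (m : ℤ) ∣ k i - k j)) →
    (∀ i ∈ T, h i ≤ -∫ u in a..b, f u * φ0 i u) →
    (∀ i ∈ T, h i ≤ ∫ u in a..b, f u * φ1 i u) →
    ∑ i ∈ T, h i ≤ 2 * ∫ u in a..b, |f u|)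
    (f : ℝ → ℝ) (a b : ℝ) (hab : a ≤ b) (hint : IntervalIntegrable f volume a b)
    (K : Finset (ℤ × ℤ)) (hh : ℤ × ℤ → ℝ)
    (H : ∀ c ∈ K, ∃ (ctr sc : ℝ) (φ0 φ1 : ℝ → ℝ),
      ((2 : ℝ) ^ c.1 ≤ sc ∧ sc ≤ 16 * (2 : ℝ) ^ c.1) ∧
      ((c.2 : ℝ) * (2 : ℝ) ^ c.1 ≤ ctr ∧ ctr ≤ ((c.2 : ℝ) + 1) * (2 : ℝ) ^ c.1) ∧
      GoodK L a b ctr sc φ0 ∧ GoodK L a b ctr sc φ1 ∧
      hh c ≤ -(∫ u in a..b, f u * φ0 u) ∧ hh c ≤ ∫ u in a..b, f u * φ1 u) :
    ∑ c ∈ K, hh c ≤ 132 * m * ∫ u in a..b, |f u| := by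
  classical
  choose! ctr sc φ0 φ1 H1 H2 H3 H4 H5 H6 using H
  have hmaps : ∀ c ∈ K, ((c.1 % (m : ℤ), c.2 % 66) : ℤ × ℤ) ∈
      Finset.Ico (0 : ℤ) m ×ˢ Finset.Ico (0 : ℤ) 66 := by
    intro c _
    simp only [Finset.mem_product, Finset.mem_Ico]
    have hm' : (0 : ℤ) < m := by exact_mod_cast hm
    exact ⟨⟨Int.emod_nonneg _ hm'.ne', Int.emod_lt_of_pos _ hm'⟩,
      ⟨Int.emod_nonneg _ (by norm_num), Int.emod_lt_of_pos _ (by norm_num)⟩⟩
  rw [← Finset.sum_fiberwise_of_maps_to hmaps]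
  have hcl : ∀ q ∈ Finset.Ico (0 : ℤ) m ×ˢ Finset.Ico (0 : ℤ) 66,
      ∑ c ∈ K.filter (fun c => ((c.1 % (m : ℤ), c.2 % 66) : ℤ × ℤ) = q), hh c ≤
        2 * ∫ u in a..b, |f u| := by
    intro q _
    apply hdual _ (fun c => c.1) ctr sc φ0 φ1 hh f a b hab hint
    · intro i hi
      exact H1 i (Finset.mem_filter.mp hi).1
    · intro i hi
      exact ⟨H3 i (Finset.mem_filter.mp hi).1, H4 i (Finset.mem_filter.mp hi).1⟩
    · intro i hi j hj hij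
      obtain ⟨hiK, hi'⟩ := Finset.mem_filter.mp hi
      obtain ⟨hjK, hj'⟩ := Finset.mem_filter.mp hj
      have e := hi'.trans hj'.symm
      rw [Prod.mk.injEq] at e
      obtain ⟨e1, e2⟩ := e
      by_cases hk : i.1 = j.1
      · left
        refine ⟨hk, ?_⟩
        have h2 : i.2 ≠ j.2 := fun h => hij (Prod.ext hk h)
        have hp : (0 : ℝ) < (2 : ℝ) ^ i.1 := by positivity
        obtain ⟨i1, i2⟩ := H2 i hiK
        obtain ⟨j1, j2⟩ := H2 j hjK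
        rw [← hk] at j1 j2
        rcases lt_or_gt_of_ne h2 with h | h
        · have h66 : i.2 + 66 ≤ j.2 := by omega
          have h66' : (i.2 : ℝ) + 66 ≤ (j.2 : ℝ) := by exact_mod_cast h66
          have h67 : ((i.2 : ℝ) + 66) * (2 : ℝ) ^ i.1 ≤ (j.2 : ℝ) * (2 : ℝ) ^ i.1 :=
            mul_le_mul_of_nonneg_right h66' hp.le
          rw [abs_sub_comm]
          refine lt_of_lt_of_le ?_ (le_abs_self _)
          nlinarith
        · have h66 : j.2 + 66 ≤ i.2 := by omega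
          have h66' : (j.2 : ℝ) + 66 ≤ (i.2 : ℝ) := by exact_mod_cast h66
          have h67 : ((j.2 : ℝ) + 66) * (2 : ℝ) ^ i.1 ≤ (i.2 : ℝ) * (2 : ℝ) ^ i.1 :=
            mul_le_mul_of_nonneg_right h66' hp.le
          refine lt_of_lt_of_le ?_ (le_abs_self _)
          nlinarith
      · right
        refine ⟨hk, ?_⟩
        have e3 : i.1 ≡ j.1 [ZMOD (m : ℤ)] := e1
        exact e3.symm.dvd
    · intro i hi
      exact H5 i (Finset.mem_filter.mp hi).1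
    · intro i hi
      exact H6 i (Finset.mem_filter.mp hi).1
  calc ∑ q ∈ Finset.Ico (0 : ℤ) m ×ˢ Finset.Ico (0 : ℤ) 66,
      ∑ c ∈ K.filter (fun c => ((c.1 % (m : ℤ), c.2 % 66) : ℤ × ℤ) = q), hh c
      ≤ (Finset.Ico (0 : ℤ) m ×ˢ Finset.Ico (0 : ℤ) 66).card • (2 * ∫ u in a..b, |f u|) :=
        Finset.sum_le_card_nsmul _ _ _ hcl
    _ = 132 * m * ∫ u in a..b, |f u| := by
        rw [Finset.card_product, Int.card_Ico, Int.card_Ico, nsmul_eq_mul]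
        have e1 : ((m : ℤ) - 0).toNat = m := by simp
        have e2 : ((66 : ℤ) - 0).toNat = 66 := rfl
        rw [e1, e2]
        push_cast
        ring

theorem SUML_top (n : ℕ) (CK : ℝ) (hK : Ker n CK) (F f : ℝ → ℝ) (hF : AC F f) (R : ℝ)
    (hR : 0 < R) (M : ℕ) (g φ x ω : ℕ → ℝ) (η : ℝ) (hx : ∀ i < M, x i < x (i + 1))
    (hxR : ∀ i ≤ M, x i ∈ Icc R (2 * R)) (hη0 : 0 < η)
    (hφ : ∀ i < M, ∀ y ∈ Icc (x i) (x (i + 1)), F y ≤ φ (i + 1))
    (hω : ∀ t ≤ M, 0 < ω t ∧ ω t ≤ R / 16)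
    (hwin : ∀ t ≤ M, g t - η ≤ A n F (x t) (ω t))
    (hG : ∀ v ≤ M, ∀ r : ℝ, 0 < r → r ≤ R / 16 → A n F (x v) r ≤ g v) (t : ℕ) (ht : t ≤ M)
    (hv : 2 * η < (volume (BV653.Lam M g φ t)).toReal) :
    ∃ φ0 φ1 : ℝ → ℝ, GoodK (3 * CK + 1) (R / 2) (4 * R) (x t) (ω t) φ0 ∧
      GoodK (3 * CK + 1) (R / 2) (4 * R) (x t) (ω t) φ1 ∧
      (volume (BV653.Lam M g φ t)).toReal - 2 * η ≤
        -(∫ u in (R / 2)..(4 * R), f u * φ0 u) ∧
      (volume (BV653.Lam M g φ t)).toReal - 2 * η ≤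
        ∫ u in (R / 2)..(4 * R), f u * φ1 u := by
  have hmono : ∀ i j, i < j → j ≤ M → x i < x j := by
    intro i j hij hj
    induction j with
    | zero => omega
    | succ j ih =>
      rcases Nat.lt_succ_iff_lt_or_eq.mp hij with h | h
      · exact (ih h (by omega)).trans (hx j (by omega))
      · subst h
        exact hx i (by omega)
  obtain ⟨l, hl, hl2⟩ : ∃ l ∈ BV653.Lam M g φ t,
      (volume (BV653.Lam M g φ t)).toReal - η ≤ g t - l := by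
    by_contra hcon
    push Not at hcon
    have hsub : BV653.Lam M g φ t ⊆
        Ioo (g t - ((volume (BV653.Lam M g φ t)).toReal - η)) (g t) := by
      intro l hl
      have h1 := hcon l hl
      exact ⟨by linarith, hl.1⟩
    have h1 := measure_mono (μ := volume) hsub
    rw [Real.volume_Ioo] at h1
    have h2 := ENNReal.toReal_le_of_le_ofReal (by linarith) h1
    linarith
  obtain ⟨hlg, a', b', ha', hb', hbM, hga, hgb, -, -, -, hφl⟩ := hl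
  have hle : ∀ y, x a' < y → y < x b' → F y ≤ l := by
    classical
    intro y hy1 hy2
    have hex : ∃ i, a' < i ∧ y ≤ x i := ⟨b', by omega, hy2.le⟩
    have hi0 := Nat.find_spec hex
    have hmin : Nat.find hex ≤ b' := Nat.find_min' hex ⟨by omega, hy2.le⟩
    obtain ⟨i, hi⟩ : ∃ i, Nat.find hex = i + 1 := ⟨Nat.find hex - 1, by omega⟩
    have hxi : x i ≤ y := by
      rcases Nat.lt_or_ge a' i with h | h
      · by_contra hc
        exact Nat.find_min hex (m := i) (by omega) ⟨h, (not_le.mp hc).le⟩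
      · have hia : i = a' := by omega
        rw [hia]
        exact hy1.le
    have h3 := hφ i (by omega) y ⟨hxi, by rw [← hi]; exact hi0.2⟩
    exact h3.trans (hφl (i + 1) (by omega) (by omega))
  obtain ⟨hw1, hw2⟩ := hω t ht
  obtain ⟨hx1, hx2⟩ := hxR t ht
  refine TOP n CK hK F f hF (R / 2) (4 * R) (x t) (ω t) (x a') (x b') l
    ((volume (BV653.Lam M g φ t)).toReal - 2 * η) (by linarith) hw1 (by linarith) (by linarith)
    (by linarith) (hmono a' t ha' ht) (hmono t b' hb' hbM) ?_ ?_ hle ?_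
  · intro _
    exact (hG a' (by omega) (ω t) hw1 hw2).trans hga
  · intro _
    exact (hG b' hbM (ω t) hw1 hw2).trans hgb
  · have h3 := hwin t ht
    linarith

/-- the type II levels have total measure at most `C ∫ |f|` up to the error `η` -/
theorem SUML (n : ℕ) (hn : 1 ≤ n) : ∃ C : ℝ, 0 ≤ C ∧ ∀ (F f : ℝ → ℝ), AC F f → ∀ R : ℝ, 0 < R →
    ∀ (M : ℕ) (g φ x ω : ℕ → ℝ) (η : ℝ), (∀ i < M, x i < x (i + 1)) →
    (∀ i ≤ M, x i ∈ Icc R (2 * R)) → 0 < η →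
    (∀ i ≤ M, ∀ j ≤ M, g j < g i → 2 * η ≤ g i - g j) →
    (∀ i < M, ∀ y ∈ Icc (x i) (x (i + 1)), F y ≤ φ (i + 1)) →
    (∀ t ≤ M, 0 < ω t ∧ ω t ≤ R / 16) →
    (∀ t ≤ M, g t - η ≤ A n F (x t) (ω t)) →
    (∀ v ≤ M, ∀ r : ℝ, 0 < r → r ≤ R / 16 → A n F (x v) r ≤ g v) →
    ∑ t ∈ Finset.range (M + 1), (volume (BV653.Lam M g φ t)).toReal ≤
      C * (∫ u in (R / 2)..(4 * R), |f u|) + (M + 1) * (6 * η) := by
  classical
  obtain ⟨CK, hK⟩ := exists_Ker n hn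
  have hCK : 0 < CK := hK.1
  obtain ⟨m, hm, hdual⟩ := DUAL (3 * CK + 1) (by linarith)
  refine ⟨132 * m * (CK + 2), by positivity, ?_⟩
  intro F f hF R hR M g φ x ω η hx hxR hη0 hη hφ hω hwin hG
  have hab : R / 2 ≤ 4 * R := by linarith
  have hint : IntervalIntegrable f volume (R / 2) (4 * R) := (hF (R / 2) (4 * R) (by linarith) hab).1
  have hV0 : 0 ≤ ∫ u in (R / 2)..(4 * R), |f u| :=
    intervalIntegral.integral_nonneg hab (fun _ _ => abs_nonneg _)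
  obtain ⟨h, hh⟩ : ∃ h : ℕ → ℝ, ∀ t, h t = (volume (BV653.Lam M g φ t)).toReal :=
    ⟨_, fun _ => rfl⟩
  have hh0 : ∀ t, 0 ≤ h t := fun t => by rw [hh]; exact ENNReal.toReal_nonneg
  -- keys
  have hkey : ∀ t : ℕ, ∃ c : ℤ × ℤ, t ≤ M → 8 * (2 : ℝ) ^ c.1 < ω t ∧ ω t ≤ 16 * (2 : ℝ) ^ c.1 ∧
      (c.2 : ℝ) * (2 : ℝ) ^ c.1 ≤ x t ∧ x t ≤ ((c.2 : ℝ) + 1) * (2 : ℝ) ^ c.1 := by
    intro t
    by_cases ht : t ≤ M
    · obtain ⟨k, hk1, hk2⟩ := exists_mem_Ioc_zpow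
        (show 0 < ω t / 8 by have := (hω t ht).1; positivity) (one_lt_two : (1 : ℝ) < 2)
      have hp : (0 : ℝ) < (2 : ℝ) ^ k := by positivity
      rw [zpow_add_one₀ (by norm_num : (2 : ℝ) ≠ 0)] at hk2
      refine ⟨(k, ⌊x t / (2 : ℝ) ^ k⌋), fun _ => ⟨?_, ?_, ?_, ?_⟩⟩
      · show 8 * (2 : ℝ) ^ k < ω t
        linarith
      · show ω t ≤ 16 * (2 : ℝ) ^ k
        linarith
      · show ((⌊x t / (2 : ℝ) ^ k⌋ : ℤ) : ℝ) * (2 : ℝ) ^ k ≤ x t
        rw [← le_div_iff₀ hp]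
        exact Int.floor_le _
      · show x t ≤ (((⌊x t / (2 : ℝ) ^ k⌋ : ℤ) : ℝ) + 1) * (2 : ℝ) ^ k
        rw [← div_le_iff₀ hp]
        exact (Int.lt_floor_add_one _).le
    · exact ⟨0, fun h => absurd h ht⟩
  choose key hkey using hkey
  obtain ⟨T0, hT0⟩ : ∃ T0 : Finset ℕ,
      T0 = (Finset.range (M + 1)).filter (fun t => 2 * η < h t) := ⟨_, rfl⟩
  have hT0m : ∀ t ∈ T0, t ≤ M ∧ 2 * η < h t := by
    intro t ht
    rw [hT0, Finset.mem_filter, Finset.mem_range] at ht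
    exact ⟨by omega, ht.2⟩
  have hstar : ∀ c ∈ T0.image key, ∃ t, t ∈ T0 ∧ key t = c ∧
      ∀ t' ∈ T0, key t' = c → h t' ≤ h t := by
    intro c hc
    obtain ⟨t, ht, htc⟩ := Finset.mem_image.mp hc
    obtain ⟨t', ht', hmax⟩ := Finset.exists_max_image (T0.filter (fun t => key t = c)) h
      ⟨t, Finset.mem_filter.mpr ⟨ht, htc⟩⟩
    rw [Finset.mem_filter] at ht'
    exact ⟨t', ht'.1, ht'.2, fun t'' h1 h2 => hmax t'' (Finset.mem_filter.mpr ⟨h1, h2⟩)⟩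
  choose! ts hts1 hts2 hts3 using hstar
  -- single peaks
  have hA : ∑ c ∈ T0.image key, (h (ts c) - 2 * η) ≤
      132 * m * ∫ u in (R / 2)..(4 * R), |f u| := by
    apply SUML_aux (3 * CK + 1) m hm (fun T => hdual T) f (R / 2) (4 * R) hab hint
    intro c hc
    obtain ⟨ht1, ht2⟩ := hT0m _ (hts1 c hc)
    have ht2' := ht2
    rw [hh] at ht2'
    obtain ⟨φ0, φ1, g1, g2, g3, g4⟩ := SUML_top n CK hK F f hF R hR M g φ x ω η hx hxR hη0 hφ hω
      hwin hG (ts c) ht1 ht2'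
    obtain ⟨k1, k2, k3, k4⟩ := hkey (ts c) ht1
    rw [hts2 c hc] at k1 k2 k3 k4
    have hp : (0 : ℝ) < (2 : ℝ) ^ c.1 := by positivity
    rw [← hh] at g3 g4
    exact ⟨x (ts c), ω (ts c), φ0, φ1, ⟨by linarith, k2⟩, ⟨k3, k4⟩, g1, g2, g3, g4⟩
  -- clusters
  obtain ⟨S, hS⟩ : ∃ S : ℤ × ℤ → ℝ, ∀ c, S c =
      ∑ t ∈ T0.filter (fun t => key t = c), h t - 2 * h (ts c) := ⟨_, fun _ => rfl⟩
  have hB : ∑ c ∈ (T0.image key).filter (fun c => 0 < S c), S c / CK ≤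
      132 * m * ∫ u in (R / 2)..(4 * R), |f u| := by
    apply SUML_aux (3 * CK + 1) m hm (fun T => hdual T) f (R / 2) (4 * R) hab hint
    intro c hc
    obtain ⟨hc, hSc⟩ := Finset.mem_filter.mp hc
    have hp : (0 : ℝ) < (2 : ℝ) ^ c.1 := by positivity
    have hCm : ∀ t ∈ T0.filter (fun t => key t = c), t ≤ M ∧ key t = c ∧ t ∈ T0 := by
      intro t ht
      rw [Finset.mem_filter] at ht
      exact ⟨(hT0m t ht.1).1, ht.2, ht.1⟩
    have hk : ∀ t ∈ T0.filter (fun t => key t = c), 8 * (2 : ℝ) ^ c.1 < ω t ∧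
        ω t ≤ 16 * (2 : ℝ) ^ c.1 ∧ (c.2 : ℝ) * (2 : ℝ) ^ c.1 ≤ x t ∧
        x t ≤ ((c.2 : ℝ) + 1) * (2 : ℝ) ^ c.1 := by
      intro t ht
      have h1 := hkey t (hCm t ht).1
      rw [(hCm t ht).2.1] at h1
      exact h1
    obtain ⟨r, hr, φ0, φ1, g1, g2, g3, g4⟩ := CLUS n CK hK F f hF (R / 2) (4 * R) (by linarith) M g
      φ x ω hx η hη (T0.filter (fun t => key t = c)) (fun t ht => (hCm t ht).1)
      ((c.2 : ℝ) * (2 : ℝ) ^ c.1) ((2 : ℝ) ^ c.1) hp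
      (fun t ht => ⟨(hk t ht).2.2.1, by have := (hk t ht).2.2.2; linarith⟩)
      (fun t ht => ⟨(hk t ht).1, (hk t ht).2.1⟩)
      (fun t ht => by
        obtain ⟨w1, w2⟩ := hω t (hCm t ht).1
        obtain ⟨x1, x2⟩ := hxR t (hCm t ht).1
        exact ⟨by linarith, by linarith, by linarith⟩)
      (fun t ht => hwin t (hCm t ht).1)
      (fun t ht v hv => hG v hv (ω t) (hω t (hCm t ht).1).1 (hω t (hCm t ht).1).2)
      (h (ts c)) (hh0 _)
      (fun t ht => by rw [← hh]; exact hts3 c hc t (hCm t ht).2.2 (hCm t ht).2.1)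
      (S c) (by rw [hS]; congr 1; exact Finset.sum_congr rfl (fun t _ => hh t)) hSc
    obtain ⟨k1, k2, k3, k4⟩ := hk r hr
    refine ⟨x r, ω r, φ0, φ1, ⟨by linarith, k2⟩, ⟨k3, k4⟩, g1, g2, ?_, ?_⟩
    · rw [div_le_iff₀ hCK]
      linarith
    · rw [div_le_iff₀ hCK]
      linarith
  -- total
  have hT : ∑ t ∈ T0, h t = ∑ c ∈ T0.image key, (S c + 2 * h (ts c)) := by
    rw [← Finset.sum_fiberwise_of_maps_to (g := key) (t := T0.image key)
      (fun t ht => Finset.mem_image_of_mem _ ht)]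
    apply Finset.sum_congr rfl
    intro c _
    rw [hS]
    ring
  have hS1 : ∑ c ∈ T0.image key, S c ≤ ∑ c ∈ (T0.image key).filter (fun c => 0 < S c), S c := by
    rw [← Finset.sum_filter_add_sum_filter_not (T0.image key) (fun c => 0 < S c)]
    have h1 : ∑ c ∈ (T0.image key).filter (fun c => ¬ 0 < S c), S c ≤ 0 :=
      Finset.sum_nonpos (fun c hc => not_lt.mp (Finset.mem_filter.mp hc).2)
    linarith
  have hS2 : ∑ c ∈ (T0.image key).filter (fun c => 0 < S c), S c ≤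
      132 * m * CK * ∫ u in (R / 2)..(4 * R), |f u| := by
    rw [← Finset.sum_div, div_le_iff₀ hCK] at hB
    linarith
  have hA2 : ∑ c ∈ T0.image key, 2 * h (ts c) ≤
      2 * (132 * m * ∫ u in (R / 2)..(4 * R), |f u|) + (T0.card : ℝ) * (4 * η) := by
    have h1 : ∑ c ∈ T0.image key, 2 * h (ts c) =
        2 * ∑ c ∈ T0.image key, (h (ts c) - 2 * η) + ((T0.image key).card : ℝ) * (4 * η) := by
      rw [Finset.sum_sub_distrib, Finset.sum_const, nsmul_eq_mul, ← Finset.mul_sum]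
      ring
    have h2 : ((T0.image key).card : ℝ) ≤ (T0.card : ℝ) := by
      exact_mod_cast Finset.card_image_le
    have h3 : ((T0.image key).card : ℝ) * (4 * η) ≤ (T0.card : ℝ) * (4 * η) :=
      mul_le_mul_of_nonneg_right h2 (by linarith)
    rw [h1]
    linarith
  have hN : ∑ t ∈ (Finset.range (M + 1)).filter (fun t => ¬ 2 * η < h t), h t ≤
      (((Finset.range (M + 1)).filter (fun t => ¬ 2 * η < h t)).card : ℝ) * (2 * η) := by
    rw [← nsmul_eq_mul]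
    exact Finset.sum_le_card_nsmul _ _ _ (fun t ht => not_lt.mp (Finset.mem_filter.mp ht).2)
  have hcard : (T0.card : ℝ) + (((Finset.range (M + 1)).filter (fun t => ¬ 2 * η < h t)).card : ℝ) =
      (M : ℝ) + 1 := by
    have h1 := Finset.card_filter_add_card_filter_not (s := Finset.range (M + 1))
      (fun t => 2 * η < h t)
    rw [Finset.card_range, ← hT0] at h1
    exact_mod_cast h1
  have hfin : ∑ t ∈ Finset.range (M + 1), h t = ∑ t ∈ T0, h t +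
      ∑ t ∈ (Finset.range (M + 1)).filter (fun t => ¬ 2 * η < h t), h t := by
    rw [hT0, Finset.sum_filter_add_sum_filter_not]
  have hgoal : ∑ t ∈ Finset.range (M + 1), (volume (BV653.Lam M g φ t)).toReal =
      ∑ t ∈ Finset.range (M + 1), h t := Finset.sum_congr rfl (fun t _ => (hh t).symm)
  rw [hgoal, hfin, hT, Finset.sum_add_distrib]
  have hc0 : (0 : ℝ) ≤ (((Finset.range (M + 1)).filter (fun t => ¬ 2 * η < h t)).card : ℝ) :=
    Nat.cast_nonneg _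
  have hc1 : (0 : ℝ) ≤ (T0.card : ℝ) := Nat.cast_nonneg _
  generalize (((Finset.range (M + 1)).filter (fun t => ¬ 2 * η < h t)).card : ℝ) = q at *
  generalize (T0.card : ℝ) = p at *
  have e1 : ((M : ℝ) + 1) * (6 * η) = p * (4 * η) + q * (2 * η) + (p * (2 * η) + q * (4 * η)) := by
    rw [← hcard]
    ring
  have e2 : 0 ≤ p * (2 * η) := mul_nonneg hc1 (by linarith)
  have e3 : 0 ≤ q * (4 * η) := mul_nonneg hc0 (by linarith)
  rw [e1]
  linarith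

end Pool.Agent.RM8c
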