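import Pool.Agent.RM8c.Defs
import Pool.Agent.BV653.Defs
import Pool.Agent.BV653.K1
import Pool.Agent.BV653.K11
import Pool.Agent.RM8c.C3
set_option autoImplicit false
open MeasureTheory Set Filter Topology
namespace Pool.Agent.RM8c
theorem lt_contAt (F f : ℝ → ℝ) (hF : AC F f) (x : ℝ) (hx : 0 < x) : ContinuousAt F x := by
  have h1 : IntervalIntegrable f volume (x / 2) (2 * x) :=
    (hF _ _ (by linarith) (by linarith)).1
  have h2 : ContinuousOn (fun b => ∫ u in (x / 2)..b, f u) (uIcc (x / 2) (2 * x)) :=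
    intervalIntegral.continuousOn_primitive_interval' h1 left_mem_uIcc
  rw [uIcc_of_le (by linarith)] at h2
  have h3 : ContinuousAt (fun b => ∫ u in (x / 2)..b, f u) x :=
    h2.continuousAt (Icc_mem_nhds (by linarith) (by linarith))
  have h4 : ContinuousAt (fun b => F (x / 2) + ∫ u in (x / 2)..b, f u) x :=
    continuousAt_const.add h3
  refine h4.congr ?_
  filter_upwards [Icc_mem_nhds (show x / 2 < x by linarith) (show x < 2 * x by linarith)] with b hb
  have := (hF (x / 2) b (by linarith) hb.1).2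
  linarith

theorem lt_osc (F f : ℝ → ℝ) (hF : AC F f) (a b : ℝ) (ha : 0 < a) (hab : a ≤ b) :
    |F b - F a| ≤ ∫ u in a..b, |f u| := by
  rw [(hF a b ha hab).2]
  exact intervalIntegral.abs_integral_le_integral_abs hab

theorem lt_sub (f : ℝ → ℝ) (a b c d : ℝ) (h1 : c ≤ a) (h2 : a ≤ b) (h3 : b ≤ d)
    (hfi : IntervalIntegrable f volume c d) : ∫ u in a..b, |f u| ≤ ∫ u in c..d, |f u| := by
  refine intervalIntegral.integral_mono_interval h1 h2 h3 ?_ hfi.abs
  exact Filter.Eventually.of_forall fun u => abs_nonneg _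

theorem lt_norm (n : ℕ) (x r : ℝ) (hx : 0 ≤ x) (z : E n) (hz : z ∈ Metric.closedBall (x • e1 n) r) :
    x - r ≤ ‖z‖ ∧ ‖z‖ ≤ x + r := by
  have h1 : ‖x • e1 n‖ = x := by
    rw [norm_smul, Real.norm_eq_abs, abs_of_nonneg hx]
    unfold e1
    rw [EuclideanSpace.norm_single, norm_one, mul_one]
  rw [Metric.mem_closedBall, dist_eq_norm] at hz
  have h2 := abs_norm_sub_norm_le z (x • e1 n)
  rw [h1] at h2
  have h3 := abs_le.mp (h2.trans hz)
  constructor <;> linarith [h3.1, h3.2]

theorem lt_int (n : ℕ) (F f : ℝ → ℝ) (hF : AC F f) (x r : ℝ) (hr : 0 < r) (hx : r < x) :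
    IntegrableOn (fun z : E n => F ‖z‖) (Metric.ball (x • e1 n) r) := by
  have hc : ContinuousOn (fun z : E n => F ‖z‖) (Metric.closedBall (x • e1 n) r) := by
    intro z hz
    have h1 := lt_norm n x r (by linarith) z hz
    have h2 : ContinuousAt F ‖z‖ := lt_contAt F f hF _ (by linarith [h1.1])
    exact (ContinuousAt.comp (f := fun z : E n => ‖z‖) (g := F) h2
      continuous_norm.continuousAt).continuousWithinAt
  exact (hc.integrableOn_compact (isCompact_closedBall _ _)).mono_set Metric.ball_subset_closedBall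

theorem lt_vol (n : ℕ) (x r : ℝ) : volume.real (Metric.ball (x • e1 n) r) =
    volume.real (Metric.ball (0 : E n) r) := by
  unfold Measure.real
  rw [Measure.addHaar_ball_center]

theorem lt_volpos (n : ℕ) (r : ℝ) (hr : 0 < r) : 0 < volume.real (Metric.ball (0 : E n) r) := by
  unfold Measure.real
  exact ENNReal.toReal_pos (Metric.measure_ball_pos volume _ hr).ne' measure_ball_lt_top.ne

theorem lt_avg_le (n : ℕ) (F f : ℝ → ℝ) (hF : AC F f) (x r m : ℝ) (hr : 0 < r) (hx : r < x)
    (h : ∀ u, x - r ≤ u → u ≤ x + r → F u ≤ m) : A n F x r ≤ m := by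
  have hv := lt_volpos n r hr
  have h1 : ∫ z in Metric.ball (x • e1 n) r, F ‖z‖ ≤ ∫ z in Metric.ball (x • e1 n) r, m := by
    refine setIntegral_mono_on (lt_int n F f hF x r hr hx) ?_ measurableSet_ball ?_
    · exact integrableOn_const (measure_ball_lt_top).ne
    · intro z hz
      have h2 := lt_norm n x r (by linarith) z (Metric.ball_subset_closedBall hz)
      exact h _ h2.1 h2.2
  rw [setIntegral_const, lt_vol, smul_eq_mul] at h1
  unfold A
  rw [inv_mul_le_iff₀ hv]
  exact h1

theorem lt_avg_ge (n : ℕ) (F f : ℝ → ℝ) (hF : AC F f) (x r m : ℝ) (hr : 0 < r) (hx : r < x)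
    (h : ∀ u, x - r ≤ u → u ≤ x + r → m ≤ F u) : m ≤ A n F x r := by
  have hv := lt_volpos n r hr
  have h1 : ∫ z in Metric.ball (x • e1 n) r, m ≤ ∫ z in Metric.ball (x • e1 n) r, F ‖z‖ := by
    refine setIntegral_mono_on ?_ (lt_int n F f hF x r hr hx) measurableSet_ball ?_
    · exact integrableOn_const (measure_ball_lt_top).ne
    · intro z hz
      have h2 := lt_norm n x r (by linarith) z (Metric.ball_subset_closedBall hz)
      exact h _ h2.1 h2.2
  rw [setIntegral_const, lt_vol, smul_eq_mul] at h1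
  unfold A
  rw [le_inv_mul_iff₀ hv]
  exact h1

theorem lt_F_le_G (n : ℕ) (F f : ℝ → ℝ) (hF : AC F f) (R : ℝ) (hR : 0 < R) (G : ℝ → ℝ)
    (hG1 : ∀ x ∈ Icc R (2 * R), ∀ r : ℝ, 0 < r → r ≤ R / 16 → A n F x r ≤ G x)
    (x : ℝ) (hx : x ∈ Icc R (2 * R)) : F x ≤ G x := by
  refine le_of_forall_pos_le_add fun ε hε => ?_
  have hc := lt_contAt F f hF x (by linarith [hx.1])
  rw [Metric.continuousAt_iff] at hc
  obtain ⟨δ, hδ, hd⟩ := hc ε hε
  have hr : 0 < min (δ / 2) (R / 16) := lt_min (by linarith) (by linarith)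
  have h1 := hG1 x hx (min (δ / 2) (R / 16)) hr (min_le_right _ _)
  have hm1 := min_le_left (δ / 2) (R / 16)
  have hm2 := min_le_right (δ / 2) (R / 16)
  have h2 : F x - ε ≤ A n F x (min (δ / 2) (R / 16)) := by
    refine lt_avg_ge n F f hF x _ _ hr (by linarith [hx.1]) ?_
    intro u hu1 hu2
    have h3 : dist u x < δ := by
      rw [Real.dist_eq, abs_lt]
      constructor <;> linarith
    have h4 := hd h3
    rw [Real.dist_eq, abs_lt] at h4
    linarith [h4.1]
  linarith

/-- local variation estimate for small radii -/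
theorem LT (n : ℕ) (hn : 1 ≤ n) : ∃ C : ℝ, 0 ≤ C ∧ ∀ (F f : ℝ → ℝ), AC F f → ∀ R : ℝ, 0 < R →
    ∀ G : ℝ → ℝ, (∀ x ∈ Icc R (2 * R), ∀ r : ℝ, 0 < r → r ≤ R / 16 → A n F x r ≤ G x) →
    (∀ x ∈ Icc R (2 * R), ∀ η > 0, ∃ r : ℝ, 0 < r ∧ r ≤ R / 16 ∧ G x - η ≤ A n F x r) →
    BV653.FallsLE G (Icc R (2 * R)) (C * ∫ u in (R / 2)..(4 * R), |f u|) := by
  obtain ⟨C', hC', hS⟩ := SUML n hn
  refine ⟨C' + 2, by linarith, fun F f hF R hR G hG1 hG2 => ?_⟩
  have hfi : IntervalIntegrable f volume (R / 2) (4 * R) :=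
    (hF _ _ (by linarith) (by linarith)).1
  have hV0 : 0 ≤ ∫ u in (R / 2)..(4 * R), |f u| :=
    intervalIntegral.integral_nonneg (by linarith) (fun u _ => abs_nonneg _)
  have hosc : ∀ u v, R / 2 ≤ u → u ≤ 4 * R → R / 2 ≤ v → v ≤ 4 * R →
      |F u - F v| ≤ ∫ u in (R / 2)..(4 * R), |f u| := by
    intro u v hu1 hu2 hv1 hv2
    rcases le_total u v with h | h
    · rw [abs_sub_comm]
      exact (lt_osc F f hF u v (by linarith) h).trans (lt_sub f _ _ _ _ hu1 h hv2 hfi)
    · exact (lt_osc F f hF v u (by linarith) h).trans (lt_sub f _ _ _ _ hv1 h hu2 hfi)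
  have hFG := lt_F_le_G n F f hF R hR G hG1
  refine BV653.falls_of_strict G _ _ (by positivity) fun M x hx hxm => ?_
  -- the auxiliary sequences
  have hpos : ∀ i ≤ M, 0 < x i := fun i hi => lt_of_lt_of_le hR (hxm i hi).1
  have hbdd : ∀ i < M, BddAbove (F '' Icc (x i) (x (i + 1))) := by
    intro i hi
    refine (isCompact_Icc.image_of_continuousOn ?_).bddAbove
    intro y hy
    exact (lt_contAt F f hF y (lt_of_lt_of_le (hpos i hi.le) hy.1)).continuousWithinAt
  have hφ : ∀ i < M, ∀ y ∈ Icc (x i) (x (i + 1)),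
      F y ≤ sSup (F '' Icc (x (i + 1 - 1)) (x (i + 1))) := by
    intro i hi y hy
    rw [Nat.add_sub_cancel]
    exact le_csSup (hbdd i hi) (mem_image_of_mem F hy)
  have hx0 : ∀ i ≤ M, x 0 ≤ x i := by
    intro i
    induction i with
    | zero => intro _; exact le_rfl
    | succ i ih =>
      intro hi
      exact (ih (by omega)).trans (hx i (by omega)).le
  have hK := BV653.K_comb M (fun i => G (x i))
    (fun j => sSup (F '' Icc (x (j - 1)) (x j))) (fun i => F (x i))
    (∫ u in (R / 2)..(4 * R), |f u|) hV0 ?_ ?_ ?_ ?_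
  rotate_left
  · intro i hi
    show G (x 0) - G (x i) ≤ _
    have h1 : G (x 0) ≤ G (x i) + (∫ u in (R / 2)..(4 * R), |f u|) := by
      refine le_of_forall_pos_le_add fun ε hε => ?_
      obtain ⟨r, hr0, hr1, hr2⟩ := hG2 (x 0) (hxm 0 (Nat.zero_le _)) ε hε
      have h2 : A n F (x 0) r ≤ F (x i) + ∫ u in (R / 2)..(4 * R), |f u| := by
        have hm0 := hxm 0 (Nat.zero_le _)
        have hmi := hxm i hi
        refine lt_avg_le n F f hF (x 0) r _ hr0 (by linarith [hm0.1]) ?_
        intro u hu1 hu2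
        have h3 := hosc u (x i) (by linarith [hm0.1]) (by linarith [hm0.2])
          (by linarith [hmi.1]) (by linarith [hmi.2])
        linarith [(abs_le.mp h3).2]
      have h4 := hFG (x i) (hxm i hi)
      linarith
    linarith
  · intro i hi
    exact hFG (x i) (hxm i hi)
  · intro i hi1 hi2
    obtain ⟨k, rfl⟩ : ∃ k, i = k + 1 := ⟨i - 1, by omega⟩
    exact hφ k (by omega) _ ⟨(hx k (by omega)).le, le_rfl⟩
  · intro i hi
    exact hφ i hi _ ⟨le_rfl, (hx i hi).le⟩
  · -- the second sum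
    have hs2 : ∑ i ∈ Finset.range M, (sSup (F '' Icc (x (i + 1 - 1)) (x (i + 1))) - F (x (i + 1))) ≤
        ∫ u in (R / 2)..(4 * R), |f u| := by
      have h1 : ∀ i ∈ Finset.range M,
          sSup (F '' Icc (x (i + 1 - 1)) (x (i + 1))) - F (x (i + 1)) ≤
            ∫ u in (x i)..(x (i + 1)), |f u| := by
        intro i hi
        rw [Finset.mem_range] at hi
        rw [Nat.add_sub_cancel, sub_le_iff_le_add]
        refine csSup_le ((nonempty_Icc.mpr (hx i hi).le).image F) ?_
        rintro _ ⟨y, hy, rfl⟩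
        have h2 := lt_osc F f hF y (x (i + 1)) (lt_of_lt_of_le (hpos i hi.le) hy.1) hy.2
        have hmi := hxm i hi.le
        have hmi' := hxm (i + 1) hi
        have h3 := lt_sub f y (x (i + 1)) (x i) (x (i + 1)) hy.1 hy.2 le_rfl
          ((hF (x i) (x (i + 1)) (hpos i hi.le) (hx i hi).le).1)
        linarith [(abs_le.mp h2).1]
      refine (Finset.sum_le_sum h1).trans ?_
      rw [intervalIntegral.sum_integral_adjacent_intervals
        (fun k hk => ((hF (x k) (x (k + 1)) (hpos k hk.le) (hx k hk).le).1).abs)]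
      have hm0 := hxm 0 (Nat.zero_le _)
      have hmM := hxm M le_rfl
      exact lt_sub f _ _ _ _ (by linarith [hm0.1]) (hx0 M le_rfl) (by linarith [hmM.2]) hfi
    have hs3 : ∑ t ∈ Finset.range (M + 1), (volume (BV653.Lam M (fun i => G (x i))
        (fun j => sSup (F '' Icc (x (j - 1)) (x j))) t)).toReal ≤
        C' * ∫ u in (R / 2)..(4 * R), |f u| := by
      have hev : ∀ᶠ η in 𝓝[>] (0 : ℝ), ∀ i ∈ Finset.range (M + 1), ∀ j ∈ Finset.range (M + 1),
          G (x j) < G (x i) → 2 * η ≤ G (x i) - G (x j) := by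
        rw [Filter.eventually_all_finset]
        intro i _
        rw [Filter.eventually_all_finset]
        intro j _
        by_cases hij : G (x j) < G (x i)
        · have h1 : ∀ᶠ η in 𝓝 (0 : ℝ), η < (G (x i) - G (x j)) / 2 :=
            Iio_mem_nhds (by linarith)
          filter_upwards [h1.filter_mono nhdsWithin_le_nhds] with η hη _
          linarith
        · exact Filter.Eventually.of_forall fun η h => absurd h hij
      have hle : ∀ᶠ η in 𝓝[>] (0 : ℝ), ∑ t ∈ Finset.range (M + 1),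
          (volume (BV653.Lam M (fun i => G (x i))
            (fun j => sSup (F '' Icc (x (j - 1)) (x j))) t)).toReal ≤
          C' * (∫ u in (R / 2)..(4 * R), |f u|) + (M + 1) * (6 * η) := by
        filter_upwards [hev, self_mem_nhdsWithin] with η hη hη0
        have hη0' : (0 : ℝ) < η := hη0
        have hch : ∀ t : ℕ, ∃ r : ℝ, t ≤ M → 0 < r ∧ r ≤ R / 16 ∧
            G (x t) - η ≤ A n F (x t) r := by
          intro t
          by_cases ht : t ≤ M
          · obtain ⟨r, h1, h2, h3⟩ := hG2 (x t) (hxm t ht) η hη0'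
            exact ⟨r, fun _ => ⟨h1, h2, h3⟩⟩
          · exact ⟨0, fun h => absurd h ht⟩
        choose ω hω using hch
        exact hS F f hF R hR M (fun i => G (x i))
          (fun j => sSup (F '' Icc (x (j - 1)) (x j))) x ω η hx hxm hη0'
          (fun i hi j hj h => hη i (Finset.mem_range.mpr (by omega)) j
            (Finset.mem_range.mpr (by omega)) h)
          hφ (fun t ht => ⟨(hω t ht).1, (hω t ht).2.1⟩) (fun t ht => (hω t ht).2.2)
          (fun v hv r hr1 hr2 => hG1 (x v) (hxm v hv) r hr1 hr2)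
      have hlim : Tendsto (fun η : ℝ => C' * (∫ u in (R / 2)..(4 * R), |f u|) +
          (M + 1) * (6 * η)) (𝓝[>] (0 : ℝ)) (𝓝 (C' * (∫ u in (R / 2)..(4 * R), |f u|))) := by
        have h1 : Tendsto (fun η : ℝ => C' * (∫ u in (R / 2)..(4 * R), |f u|) +
          (M + 1) * (6 * η)) (𝓝 (0 : ℝ))
            (𝓝 (C' * (∫ u in (R / 2)..(4 * R), |f u|) + (M + 1) * (6 * 0))) := by
          apply Continuous.tendsto
          fun_prop
        rw [mul_zero, mul_zero, add_zero] at h1
        exact h1.mono_left nhdsWithin_le_nhds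
      exact ge_of_tendsto hlim hle
    have hK' : ∑ i ∈ Finset.range M, max (G (x i) - G (x (i + 1))) 0 ≤
        (∫ u in (R / 2)..(4 * R), |f u|) +
        ∑ i ∈ Finset.range M, (sSup (F '' Icc (x (i + 1 - 1)) (x (i + 1))) - F (x (i + 1))) +
        ∑ t ∈ Finset.range (M + 1), (volume (BV653.Lam M (fun i => G (x i))
          (fun j => sSup (F '' Icc (x (j - 1)) (x j))) t)).toReal := hK
    linarith

end Pool.Agent.RM8c
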