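import Mathlib
set_option autoImplicit false
open MeasureTheory Set Filter Topology
namespace Pool.Agent.RM8c

/-- `ℝ^(n+1)` -/
abbrev E (n : ℕ) := EuclideanSpace ℝ (Fin (n + 1))

/-- first unit vector -/
noncomputable def e1 (n : ℕ) : E n := EuclideanSpace.single (0 : Fin (n + 1)) (1 : ℝ)

/-- average over the ball of radius `r` centred at `x e₁` of the radial function with profile `F` -/
noncomputable def A (n : ℕ) (F : ℝ → ℝ) (x r : ℝ) : ℝ :=
  (volume.real (Metric.ball (0 : E n) r))⁻¹ * ∫ z in Metric.ball (x • e1 n) r, F ‖z‖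

/-- distribution function of `‖z‖` for `z` uniform in the ball `B(x e₁, r)` -/
noncomputable def N (n : ℕ) (x r u : ℝ) : ℝ :=
  (volume.real (Metric.ball (0 : E n) r))⁻¹ *
    volume.real (Metric.ball (x • e1 n) r ∩ Metric.closedBall (0 : E n) u)

/-- `F` is locally absolutely continuous on `(0,∞)` with derivative `f` -/
def AC (F f : ℝ → ℝ) : Prop :=
  ∀ a b, 0 < a → a ≤ b → IntervalIntegrable f volume a b ∧ F b - F a = ∫ t in a..b, f t

/-- kernel estimates with constant `CK` -/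
def Ker (n : ℕ) (CK : ℝ) : Prop :=
  0 < CK ∧
  (∀ r x q u : ℝ, 0 < r → 4 * r ≤ x → x ≤ q →
    0 ≤ N n x r u - N n q r u ∧ N n x r u - N n q r u ≤ CK * ((q - x) / r)) ∧
  (∀ r x q u v : ℝ, 0 < r → 4 * r ≤ x → x ≤ q → 0 ≤ u → 0 ≤ v →
    |(N n x r u - N n q r u) - (N n x r v - N n q r v)| ≤
      CK * ((q - x) / r) * Real.sqrt (|u - v| / r)) ∧
  (∀ r x u v : ℝ, 0 < r → 4 * r ≤ x → 0 ≤ u → 0 ≤ v →
    |N n x r u - N n x r v| ≤ CK * Real.sqrt (|u - v| / r))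

/-- admissible kernel on `[a,b]`, centred at `c`, at scale `ρ` -/
def GoodK (L a b c ρ : ℝ) (φ : ℝ → ℝ) : Prop :=
  (∀ u ∈ Icc a b, 0 ≤ φ u ∧ φ u ≤ 1) ∧ (∀ u ∈ Icc a b, φ u ≠ 0 → |u - c| ≤ 2 * ρ) ∧
    (∀ u ∈ Icc a b, ∀ v ∈ Icc a b, |φ u - φ v| ≤ L * Real.sqrt (|u - v| / ρ))

/-- the auxiliary function dominating the derivative of the large-ball part -/
noncomputable def H1 (n : ℕ) (f : ℝ → ℝ) (σ : ℝ) : ℝ :=
  σ⁻¹ * ∫ w in Ioi (0 : ℝ), (w / max σ w) ^ (n + 1) * |f w|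

/-- profile of the centred maximal function -/
noncomputable def mm (n : ℕ) (F : ℝ → ℝ) (s : ℝ) : ℝ := ⨆ r : Ioi (0 : ℝ), A n F s r

/-- profile kernel of the spherical cap projection -/
noncomputable def kk (n : ℕ) (r y u : ℝ) : ℝ :=
  (Real.sqrt (max (u ^ 2 - ((u ^ 2 + y ^ 2 - r ^ 2) / (2 * y)) ^ 2) 0) / r) ^ n

/-- point of `ℝ^(n+1)` with first coordinate `t` and remaining coordinates `y` -/
noncomputable def cs (n : ℕ) (t : ℝ) (y : EuclideanSpace ℝ (Fin n)) : E n :=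
  WithLp.toLp 2 (Fin.cons t (fun i => y i) : Fin (n + 1) → ℝ)

end Pool.Agent.RM8c
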