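import Pool.Agent.RM8c.Defs
set_option autoImplicit false
open MeasureTheory Set Filter Topology
namespace Pool.Agent.RM8c
theorem mmb_contOn (F f : ℝ → ℝ) (hF : AC F f) {a b : ℝ} (ha : 0 < a) (hab : a ≤ b) :
    ContinuousOn F (Icc a b) := by
  have h1 := (hF a b ha hab).1
  have h2 : ContinuousOn (fun x => ∫ t in a..x, f t) (uIcc a b) :=
    intervalIntegral.continuousOn_primitive_interval ((intervalIntegrable_iff' (by simp)).1 h1)
  rw [uIcc_of_le hab] at h2
  have h3 : ContinuousOn (fun x => F a + ∫ t in a..x, f t) (Icc a b) := continuousOn_const.add h2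
  refine h3.congr ?_
  intro x hx
  have := (hF a x ha hx.1).2
  simp only
  linarith

theorem mmb_norm (n : ℕ) (s : ℝ) (hs : 0 < s) : ‖s • e1 n‖ = s := by
  rw [norm_smul, e1, EuclideanSpace.norm_single]
  simp [abs_of_pos hs]

theorem mmb_mem (n : ℕ) (s : ℝ) (hs : 0 < s) {r : ℝ} {z : E n}
    (hz : z ∈ Metric.ball (s • e1 n) r) : |‖z‖ - s| < r := by
  have h := abs_norm_sub_norm_le z (s • e1 n)
  rw [mmb_norm n s hs] at h
  rw [Metric.mem_ball, dist_eq_norm] at hz
  linarith

theorem mmb_vol (n : ℕ) (x : E n) (r : ℝ) :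
    volume.real (Metric.ball x r) = volume.real (Metric.ball (0 : E n) r) := by
  simp only [Measure.real]
  rw [Measure.addHaar_ball_center]

theorem mmb_pos (n : ℕ) {r : ℝ} (hr : 0 < r) : 0 < volume.real (Metric.ball (0 : E n) r) := by
  simp only [Measure.real]
  exact ENNReal.toReal_pos (Metric.measure_ball_pos _ _ hr).ne' measure_ball_lt_top.ne

theorem mmb_up (n : ℕ) (F : ℝ → ℝ) (hi : Integrable (fun z : E n => F ‖z‖)) (s : ℝ) {r M : ℝ}
    (hr : 0 < r) (hM : ∀ z ∈ Metric.ball (s • e1 n) r, F ‖z‖ ≤ M) : A n F s r ≤ M := by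
  have h1 : ∫ z in Metric.ball (s • e1 n) r, F ‖z‖ ≤ ∫ z in Metric.ball (s • e1 n) r, M :=
    setIntegral_mono_on hi.integrableOn (integrableOn_const measure_ball_lt_top.ne)
      measurableSet_ball hM
  rw [setIntegral_const, smul_eq_mul, mmb_vol] at h1
  have hp := mmb_pos n hr
  rw [A, inv_mul_le_iff₀ hp]
  linarith

theorem mmb_low (n : ℕ) (F : ℝ → ℝ) (hi : Integrable (fun z : E n => F ‖z‖)) (s : ℝ) {r M : ℝ}
    (hr : 0 < r) (hM : ∀ z ∈ Metric.ball (s • e1 n) r, M ≤ F ‖z‖) : M ≤ A n F s r := by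
  have h1 : ∫ z in Metric.ball (s • e1 n) r, M ≤ ∫ z in Metric.ball (s • e1 n) r, F ‖z‖ :=
    setIntegral_mono_on (integrableOn_const measure_ball_lt_top.ne) hi.integrableOn
      measurableSet_ball hM
  rw [setIntegral_const, smul_eq_mul, mmb_vol] at h1
  have hp := mmb_pos n hr
  rw [A, le_inv_mul_iff₀ hp]
  linarith

theorem mm_bdd (n : ℕ) (F f : ℝ → ℝ) (hF : AC F f) (hi : Integrable (fun z : E n => F ‖z‖))
    (hF0 : ∀ s, 0 < s → 0 ≤ F s) (s : ℝ) (hs : 0 < s) :
    BddAbove (range fun r : Ioi (0 : ℝ) => A n F s r) ∧ F s ≤ mm n F s ∧ 0 ≤ mm n F s := by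
  have hc : ContinuousOn F (Icc (s / 2) (3 * s / 2)) :=
    mmb_contOn F f hF (by linarith) (by linarith)
  have hbd : BddAbove (range fun r : Ioi (0 : ℝ) => A n F s r) := by
    obtain ⟨M, hM⟩ := (isCompact_Icc.image_of_continuousOn hc).bddAbove
    have hV := mmb_pos n (show 0 < s / 2 by linarith)
    refine ⟨max M ((volume.real (Metric.ball (0 : E n) (s / 2)))⁻¹ * ∫ z : E n, |F ‖z‖|), ?_⟩
    rintro _ ⟨⟨r, hr⟩, rfl⟩
    have hr' : 0 < r := hr
    simp only
    by_cases hrs : r ≤ s / 2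
    · refine (mmb_up n F hi s hr' ?_).trans (le_max_left _ _)
      intro z hz
      apply hM
      refine ⟨‖z‖, ?_, rfl⟩
      have := abs_lt.1 (mmb_mem n s hs hz)
      constructor <;> linarith [this.1, this.2]
    · refine le_trans ?_ (le_max_right _ _)
      have hI : 0 ≤ ∫ z : E n, |F ‖z‖| := integral_nonneg fun _ => abs_nonneg _
      have h1 : ∫ z in Metric.ball (s • e1 n) r, F ‖z‖ ≤ ∫ z : E n, |F ‖z‖| := by
        calc ∫ z in Metric.ball (s • e1 n) r, F ‖z‖
            ≤ ∫ z in Metric.ball (s • e1 n) r, |F ‖z‖| :=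
              setIntegral_mono hi.integrableOn hi.abs.integrableOn (fun z => le_abs_self _)
          _ ≤ _ := setIntegral_le_integral hi.abs (Eventually.of_forall fun _ => abs_nonneg _)
      have h2 : volume.real (Metric.ball (0 : E n) (s / 2)) ≤
          volume.real (Metric.ball (0 : E n) r) :=
        measureReal_mono (Metric.ball_subset_ball (by linarith)) measure_ball_lt_top.ne
      calc A n F s r ≤ (volume.real (Metric.ball (0 : E n) r))⁻¹ * ∫ z : E n, |F ‖z‖| :=
            mul_le_mul_of_nonneg_left h1 (inv_nonneg.2 (mmb_pos n hr').le)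
        _ ≤ _ := mul_le_mul_of_nonneg_right (inv_anti₀ hV h2) hI
  have hle : F s ≤ mm n F s := by
    apply le_of_forall_pos_le_add
    intro ε hε
    have hcs : ContinuousAt F s := hc.continuousAt (Icc_mem_nhds (by linarith) (by linarith))
    obtain ⟨δ, hδ, h⟩ := Metric.continuousAt_iff.1 hcs ε hε
    have h1 : F s - ε ≤ A n F s δ := by
      apply mmb_low n F hi s hδ
      intro z hz
      have h2 := h (show dist ‖z‖ s < δ by rw [Real.dist_eq]; exact mmb_mem n s hs hz)
      rw [Real.dist_eq] at h2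
      linarith [(abs_lt.1 h2).1]
    have h3 : A n F s δ ≤ mm n F s := le_ciSup hbd (⟨δ, hδ⟩ : Ioi (0 : ℝ))
    linarith
  exact ⟨hbd, hle, (hF0 s hs).trans hle⟩

end Pool.Agent.RM8c
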