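import Pool.Agent.RM8c.Defs
import Pool.Agent.RM8c.B2
import Pool.Agent.RM8c.B3
import Pool.Agent.RM8c.M1
set_option autoImplicit false
open MeasureTheory Set Filter Topology
namespace Pool.Agent.RM8c
theorem F_cont8 (F f : ℝ → ℝ) (hF : AC F f) (s₀ : ℝ) (hs : 0 < s₀) : ContinuousAt F s₀ := by
  have hii := (hF (s₀ / 2) (2 * s₀) (by positivity) (by linarith)).1
  have hc : ContinuousOn (fun u => ∫ t in (s₀ / 2)..u, f t) (Icc (s₀ / 2) (2 * s₀)) := by
    have := intervalIntegral.continuousOn_primitive_interval' hii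
      (a := s₀ / 2) left_mem_uIcc
    rwa [uIcc_of_le (by linarith)] at this
  have hcF : ContinuousOn F (Icc (s₀ / 2) (2 * s₀)) := by
    refine (hc.add (continuousOn_const (c := F (s₀ / 2)))).congr ?_
    intro u hu
    have := (hF (s₀ / 2) u (by positivity) hu.1).2
    show F u = (∫ t in (s₀ / 2)..u, f t) + F (s₀ / 2)
    linarith
  exact hcF.continuousAt (Icc_mem_nhds (by linarith) (by linarith))

theorem A_le8 (n : ℕ) (F : ℝ → ℝ) (x r c : ℝ) (hr : 0 < r)
    (hi : Integrable (fun z : E n => F ‖z‖))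
    (h : ∀ z ∈ Metric.ball (x • e1 n) r, F ‖z‖ ≤ c) : A n F x r ≤ c := by
  have hvol : volume.real (Metric.ball (x • e1 n) r) = volume.real (Metric.ball (0 : E n) r) := by
    simp only [Measure.real]
    rw [Measure.addHaar_ball_center]
  have hpos : 0 < volume.real (Metric.ball (0 : E n) r) :=
    ENNReal.toReal_pos (Metric.measure_ball_pos _ _ hr).ne' measure_ball_lt_top.ne
  have h1 : ∫ z in Metric.ball (x • e1 n) r, F ‖z‖ ≤ ∫ _z in Metric.ball (x • e1 n) r, c :=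
    setIntegral_mono_on hi.integrableOn
      (integrableOn_const (measure_ball_lt_top.ne)) measurableSet_ball h
  rw [setIntegral_const, smul_eq_mul, hvol] at h1
  unfold A
  calc _ ≤ (volume.real (Metric.ball (0 : E n) r))⁻¹ *
        (volume.real (Metric.ball (0 : E n) r) * c) :=
        mul_le_mul_of_nonneg_left h1 (inv_nonneg.2 hpos.le)
    _ = c := by field_simp

theorem norm_e18 (n : ℕ) : ‖e1 n‖ = 1 := by
  unfold e1
  rw [EuclideanSpace.norm_single]
  simp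

theorem small_t8 (n : ℕ) (F f : ℝ → ℝ) (hF : AC F f)
    (hi : Integrable (fun z : E n => F ‖z‖)) (s₀ : ℝ) (hs₀ : 0 < s₀) (ε : ℝ) (hε : 0 < ε) :
    ∃ δ > 0, ∃ t₀ > 0, ∀ s t : ℝ, |s - s₀| < δ → 0 < t → t < t₀ →
      A n F s (t * s) ≤ F s₀ + ε := by
  obtain ⟨η, hη, hcont⟩ := Metric.continuousAt_iff.1 (F_cont8 F f hF s₀ hs₀) ε hε
  refine ⟨min (η / 2) (s₀ / 2), by positivity, η / (4 * s₀), by positivity, ?_⟩
  intro s t hs ht htt
  have hs1 : |s - s₀| < η / 2 := lt_of_lt_of_le hs (min_le_left _ _)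
  have hs2 : |s - s₀| < s₀ / 2 := lt_of_lt_of_le hs (min_le_right _ _)
  have hs3 := abs_lt.1 hs2
  have hs0 : 0 < s := by linarith [hs3.1]
  refine A_le8 n F s (t * s) _ (mul_pos ht hs0) hi ?_
  intro z hz
  have hz1 : ‖z - s • e1 n‖ < t * s := by rwa [mem_ball_iff_norm] at hz
  have hz2 : |‖z‖ - s| < t * s := by
    have h1 : ‖s • e1 n‖ = s := by
      rw [norm_smul, norm_e18, mul_one, Real.norm_of_nonneg hs0.le]
    have h2 := abs_norm_sub_norm_le z (s • e1 n)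
    rw [h1] at h2
    exact lt_of_le_of_lt h2 hz1
  have hts : t * s < η / 2 := by
    have h1 : t * s ≤ t * (2 * s₀) := by
      apply mul_le_mul_of_nonneg_left _ ht.le
      linarith [hs3.2]
    have h2 : t * (2 * s₀) < η / (4 * s₀) * (2 * s₀) := by
      apply mul_lt_mul_of_pos_right htt
      positivity
    have h3 : η / (4 * s₀) * (2 * s₀) = η / 2 := by
      field_simp
      ring
    linarith
  have hd : dist ‖z‖ s₀ < η := by
    rw [Real.dist_eq]
    have : ‖z‖ - s₀ = (‖z‖ - s) + (s - s₀) := by ring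
    rw [this]
    refine lt_of_le_of_lt (abs_add_le _ _) ?_
    linarith
  have h4 := hcont hd
  rw [Real.dist_eq] at h4
  have h5 := (abs_lt.1 h4).2
  linarith

theorem big_lip8 (n : ℕ) (F f : ℝ → ℝ) (hF : AC F f)
    (hf : IntegrableOn (fun w => f w * w ^ n) (Ioi 0))
    (hi : Integrable (fun z : E n => F ‖z‖)) (s₀ t₀ : ℝ) (hs₀ : 0 < s₀) (ht₀ : 0 < t₀) :
    ∃ K : ℝ, 0 ≤ K ∧ ∀ t, t₀ ≤ t → ∀ s s' : ℝ, s₀ / 2 < s → s₀ / 2 < s' →
      A n F s' (t * s') ≤ A n F s (t * s) + K * |s' - s| := by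
  obtain ⟨K, hK, hbig⟩ := big_diff n t₀ ht₀
  obtain ⟨hH, -⟩ := H1_local n f hf
  set I : ℝ := ∫ w in Ioi (0 : ℝ), |f w| * w ^ n with hI
  have hI0 : 0 ≤ I := by
    apply setIntegral_nonneg measurableSet_Ioi
    intro w hw
    have : (0 : ℝ) < w := hw
    positivity
  set B : ℝ := ((s₀ / 2)⁻¹) ^ (n + 1) * I with hB
  have hB0 : 0 ≤ B := by positivity
  have main : ∀ t, t₀ ≤ t → ∀ s s' : ℝ, s₀ / 2 < s → s ≤ s' →
      |A n F s' (t * s') - A n F s (t * s)| ≤ K * B * |s' - s| := by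
    intro t ht s s' hs hss
    have hs0 : 0 < s := by linarith
    refine (hbig F f hF hf hi t ht s s' hs0 hss).trans ?_
    rw [mul_assoc]
    refine mul_le_mul_of_nonneg_left ?_ hK
    refine (le_abs_self _).trans ?_
    rw [← Real.norm_eq_abs]
    apply intervalIntegral.norm_integral_le_of_norm_le_const
    intro σ hσ
    rw [uIoc_of_le hss] at hσ
    have hσ0 : 0 < σ := hs0.trans hσ.1
    obtain ⟨-, h1, h2⟩ := hH σ hσ0
    rw [Real.norm_of_nonneg h1]
    refine h2.trans ?_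
    refine mul_le_mul_of_nonneg_right ?_ hI0
    apply pow_le_pow_left₀ (by positivity)
    apply inv_anti₀ (by positivity)
    linarith [hσ.1]
  refine ⟨K * B, by positivity, ?_⟩
  intro t ht s s' hs hs'
  rcases le_total s s' with h | h
  · have := (abs_le.1 (main t ht s s' hs h)).2
    linarith
  · have := (abs_le.1 (main t ht s' s hs' h)).1
    rw [abs_sub_comm] at this
    linarith

theorem mm_reg (n : ℕ) (F f : ℝ → ℝ) (hF : AC F f) (hf : IntegrableOn (fun w => f w * w ^ n) (Ioi 0))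
    (hi : Integrable (fun z : E n => F ‖z‖)) (hF0 : ∀ s, 0 < s → 0 ≤ F s) :
    ContinuousOn (mm n F) (Ioi 0) ∧ ∀ s₀, 0 < s₀ → F s₀ < mm n F s₀ →
      ∃ δ > 0, ∃ K : ℝ, ∀ s s' : ℝ, 0 < s → 0 < s' → |s - s₀| < δ → |s' - s₀| < δ →
        |mm n F s - mm n F s'| ≤ K * |s - s'| := by
  haveI : Nonempty (Ioi (0 : ℝ)) := ⟨⟨1, mem_Ioi.2 one_pos⟩⟩
  have hle : ∀ s t : ℝ, 0 < s → 0 < t → A n F s (t * s) ≤ mm n F s := by
    intro s t hs ht
    exact le_ciSup (f := fun r : Ioi (0 : ℝ) => A n F s r) (mm_bdd n F f hF hi hF0 s hs).1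
      ⟨t * s, mul_pos ht hs⟩
  have hub : ∀ s c : ℝ, 0 < s → (∀ t, 0 < t → A n F s (t * s) ≤ c) → mm n F s ≤ c := by
    intro s c hs h
    refine ciSup_le ?_
    intro r
    have h1 := h ((r : ℝ) / s) (div_pos r.2 hs)
    rwa [div_mul_cancel₀ _ hs.ne'] at h1
  have hex : ∀ s c : ℝ, 0 < s → c < mm n F s → ∃ t > 0, c < A n F s (t * s) := by
    intro s c hs h
    obtain ⟨r, hr⟩ := exists_lt_of_lt_ciSup h
    refine ⟨(r : ℝ) / s, div_pos r.2 hs, ?_⟩
    rwa [div_mul_cancel₀ _ hs.ne']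
  have hcont : ∀ s₀ : ℝ, 0 < s₀ → ∀ ε > 0, ∃ δ > 0, δ ≤ s₀ / 2 ∧ ∀ s, |s - s₀| < δ →
      |mm n F s - mm n F s₀| < ε := by
    intro s₀ hs₀ ε hε
    -- lower
    obtain ⟨t₁, ht₁, hA⟩ := hex s₀ (mm n F s₀ - ε / 3) hs₀ (by linarith)
    obtain ⟨K₁, hK₁, hL₁⟩ := big_lip8 n F f hF hf hi s₀ t₁ hs₀ ht₁
    obtain ⟨δ₂, hδ₂, t₂, ht₂, hS⟩ := small_t8 n F f hF hi s₀ hs₀ (ε / 3) (by positivity)
    obtain ⟨K₂, hK₂, hL₂⟩ := big_lip8 n F f hF hf hi s₀ t₂ hs₀ ht₂
    refine ⟨min (min δ₂ (s₀ / 2)) (ε / (3 * (K₁ + K₂ + 1))), by positivity,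
      (min_le_left _ _).trans (min_le_right _ _), ?_⟩
    intro s hs
    have hs1 : |s - s₀| < δ₂ :=
      lt_of_lt_of_le hs ((min_le_left _ _).trans (min_le_left _ _))
    have hs2 : |s - s₀| < s₀ / 2 :=
      lt_of_lt_of_le hs ((min_le_left _ _).trans (min_le_right _ _))
    have hs3 : |s - s₀| < ε / (3 * (K₁ + K₂ + 1)) := lt_of_lt_of_le hs (min_le_right _ _)
    have hs4 := abs_lt.1 hs2
    have hsh : s₀ / 2 < s := by linarith [hs4.1]
    have hs₀h : s₀ / 2 < s₀ := by linarith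
    have hs0 : 0 < s := by linarith
    have hs5 : (K₁ + K₂ + 1) * |s - s₀| < ε / 3 := by
      have hp : 0 < K₁ + K₂ + 1 := by positivity
      calc (K₁ + K₂ + 1) * |s - s₀| < (K₁ + K₂ + 1) * (ε / (3 * (K₁ + K₂ + 1))) :=
            mul_lt_mul_of_pos_left hs3 hp
        _ = ε / 3 := by field_simp
    have habs := abs_nonneg (s - s₀)
    have k1 : K₁ * |s - s₀| < ε / 3 := by nlinarith
    have k2 : K₂ * |s - s₀| < ε / 3 := by nlinarith
    rw [abs_lt]
    constructor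
    · have h1 := hL₁ t₁ le_rfl s s₀ hsh hs₀h
      rw [abs_sub_comm] at h1
      have h2 := hle s t₁ hs0 ht₁
      linarith
    · have h3 : mm n F s ≤ mm n F s₀ + ε * 2 / 3 := by
        apply hub s _ hs0
        intro t ht
        rcases lt_or_ge t t₂ with h | h
        · have h4 := hS s t hs1 ht h
          have h5 := (mm_bdd n F f hF hi hF0 s₀ hs₀).2.1
          linarith
        · have h4 := hL₂ t h s₀ s hs₀h hsh
          have h5 := hle s₀ t hs₀ ht
          linarith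
      linarith
  refine ⟨?_, ?_⟩
  · intro s₀ hs₀
    have hs₀' : 0 < s₀ := hs₀
    apply ContinuousAt.continuousWithinAt
    rw [Metric.continuousAt_iff]
    intro ε hε
    obtain ⟨δ, hδ, -, h⟩ := hcont s₀ hs₀' ε hε
    refine ⟨δ, hδ, ?_⟩
    intro s hs
    rw [Real.dist_eq] at hs ⊢
    exact h s hs
  · intro s₀ hs₀ hlt
    set ε : ℝ := (mm n F s₀ - F s₀) / 4 with hε
    have hε0 : 0 < ε := by
      rw [hε]
      linarith
    obtain ⟨δ₁, hδ₁, t₀, ht₀, hS⟩ := small_t8 n F f hF hi s₀ hs₀ ε hε0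
    obtain ⟨δ₂, hδ₂, hδ₂', hC⟩ := hcont s₀ hs₀ ε hε0
    obtain ⟨K, hK, hL⟩ := big_lip8 n F f hF hf hi s₀ t₀ hs₀ ht₀
    refine ⟨min δ₁ δ₂, by positivity, K, ?_⟩
    have key : ∀ s s' : ℝ, 0 < s → 0 < s' → |s - s₀| < min δ₁ δ₂ → |s' - s₀| < min δ₁ δ₂ →
        mm n F s ≤ mm n F s' + K * |s - s'| := by
      intro s s' hs hs' h h'
      have a1 : |s - s₀| < δ₁ := lt_of_lt_of_le h (min_le_left _ _)
      have a2 : |s - s₀| < δ₂ := lt_of_lt_of_le h (min_le_right _ _)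
      have a3 : |s' - s₀| < δ₂ := lt_of_lt_of_le h' (min_le_right _ _)
      have b1 : s₀ / 2 < s := by linarith [(abs_lt.1 a2).1]
      have b2 : s₀ / 2 < s' := by linarith [(abs_lt.1 a3).1]
      apply hub s _ hs
      intro t ht
      have hn : 0 ≤ K * |s - s'| := by positivity
      rcases lt_or_ge t t₀ with h4 | h4
      · have h5 := hS s t a1 ht h4
        have h6 := (abs_lt.1 (hC s' a3)).1
        have h7 : mm n F s₀ - F s₀ = 4 * ε := by
          rw [hε]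
          ring
        linarith
      · have h5 := hL t h4 s' s b2 b1
        have h6 := hle s' t hs' ht
        linarith
    intro s s' hs hs' h h'
    rw [abs_le]
    constructor
    · have := key s' s hs' hs h' h
      rw [abs_sub_comm] at this
      linarith
    · have := key s s' hs hs' h h'
      linarith

end Pool.Agent.RM8c
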