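import Pool.Agent.RM8c.Defs
import Pool.Agent.BV653.Defs
import Pool.Agent.RM8c.B2
import Pool.Agent.RM8c.B3
import Pool.Agent.RM8c.C4
import Pool.Agent.RM8c.M1
set_option autoImplicit false
open MeasureTheory Set Filter Topology
namespace Pool.Agent.RM8c
theorem mm_var_avg (n : ℕ) (F : ℝ → ℝ) (hInt : Integrable (fun z : E n => F ‖z‖)) (x r c V : ℝ)
    (hr : 0 < r) (h : ∀ z ∈ Metric.ball (x • e1 n) r, |F ‖z‖ - c| ≤ V) : |A n F x r - c| ≤ V := by
  have hvol : volume.real (Metric.ball (x • e1 n) r) = volume.real (Metric.ball (0 : E n) r) :=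
    MeasureTheory.Measure.addHaar_real_ball_center _ _ _
  have hfin : volume (Metric.ball (x • e1 n) r) < ⊤ := measure_ball_lt_top
  have hpos : 0 < volume.real (Metric.ball (0 : E n) r) := by
    rw [MeasureTheory.measureReal_def]
    exact ENNReal.toReal_pos (Metric.measure_ball_pos _ _ hr).ne' measure_ball_lt_top.ne
  have hc : ∫ z in Metric.ball (x • e1 n) r, c = volume.real (Metric.ball (0 : E n) r) * c := by
    rw [setIntegral_const, hvol, smul_eq_mul]
  have hsub : ∫ z in Metric.ball (x • e1 n) r, (F ‖z‖ - c) =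
      (∫ z in Metric.ball (x • e1 n) r, F ‖z‖) - volume.real (Metric.ball (0 : E n) r) * c := by
    rw [integral_sub hInt.integrableOn (integrableOn_const hfin.ne), hc]
  have hbd : ‖∫ z in Metric.ball (x • e1 n) r, (F ‖z‖ - c)‖ ≤
      V * volume.real (Metric.ball (x • e1 n) r) :=
    norm_setIntegral_le_of_norm_le_const hfin (fun z hz => h z hz)
  rw [hvol, Real.norm_eq_abs] at hbd
  have hA : A n F x r - c = (volume.real (Metric.ball (0 : E n) r))⁻¹ *
      ∫ z in Metric.ball (x • e1 n) r, (F ‖z‖ - c) := by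
    rw [hsub]
    unfold A
    field_simp
  rw [hA, abs_mul, abs_of_pos (inv_pos.2 hpos), inv_mul_le_iff₀ hpos]
  linarith

theorem mm_var_osc (F f : ℝ → ℝ) (hF : AC F f) (R : ℝ) (hR : 0 < R) (u v : ℝ)
    (hu : u ∈ Icc (R / 2) (4 * R)) (hv : v ∈ Icc (R / 2) (4 * R)) :
    |F u - F v| ≤ ∫ t in (R / 2)..(4 * R), |f t| := by
  wlog huv : v ≤ u generalizing u v
  · rw [abs_sub_comm]
    exact this v u hv hu (le_of_not_ge huv)
  have hv0 : 0 < v := by have := hv.1; linarith
  obtain ⟨hi, he⟩ := hF v u hv0 huv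
  obtain ⟨hi', -⟩ := hF (R / 2) (4 * R) (by linarith) (by linarith)
  rw [he]
  calc |∫ t in v..u, f t| ≤ ∫ t in v..u, |f t| :=
        intervalIntegral.abs_integral_le_integral_abs huv
    _ ≤ ∫ t in (R / 2)..(4 * R), |f t| := by
        apply intervalIntegral.integral_mono_interval hv.1 huv hu.2
        · exact Eventually.of_forall fun t => abs_nonneg _
        · exact hi'.abs

theorem mm_var_A_osc (n : ℕ) (F f : ℝ → ℝ) (hF : AC F f)
    (hInt : Integrable (fun z : E n => F ‖z‖)) (R : ℝ) (hR : 0 < R) (x y r r' : ℝ)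
    (hx : x ∈ Icc R (2 * R)) (hy : y ∈ Icc R (2 * R)) (hr : 0 < r) (hrR : r ≤ R / 16)
    (hr' : 0 < r') (hrR' : r' ≤ R / 16) :
    |A n F x r - A n F y r'| ≤ ∫ t in (R / 2)..(4 * R), |f t| := by
  have hnorm : ∀ (x r : ℝ), x ∈ Icc R (2 * R) → r ≤ R / 16 →
      ∀ z ∈ Metric.ball (x • e1 n) r, ‖z‖ ∈ Icc (R / 2) (4 * R) := by
    intro x r hx hr z hz
    rw [Metric.mem_ball, dist_eq_norm] at hz
    have hx0 : 0 < x := lt_of_lt_of_le hR hx.1
    have hxe : ‖x • e1 n‖ = x := by
      rw [norm_smul, e1, EuclideanSpace.norm_single]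
      simp [abs_of_pos hx0]
    have h1 : ‖z‖ ≤ ‖z - x • e1 n‖ + ‖x • e1 n‖ := by
      have := norm_add_le (z - x • e1 n) (x • e1 n)
      simpa using this
    have h2 : ‖x • e1 n‖ ≤ ‖z - x • e1 n‖ + ‖z‖ := by
      have := norm_sub_norm_le (x • e1 n) z
      rw [norm_sub_rev] at this
      linarith
    rw [hxe] at h1 h2
    constructor
    · have := hx.1; linarith
    · have := hx.2; linarith
  apply mm_var_avg n F hInt x r _ _ hr
  intro z hz
  rw [abs_sub_comm]
  apply mm_var_avg n F hInt y r' _ _ hr'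
  intro w hw
  exact mm_var_osc F f hF R hR _ _ (hnorm y r' hy hrR' w hw) (hnorm x r hx hrR z hz)

/-- local variation of the maximal profile, dimension at least two -/
theorem mm_var (n : ℕ) (hn : 1 ≤ n) : ∃ C : ℝ, 0 ≤ C ∧ ∀ F f : ℝ → ℝ, AC F f →
    IntegrableOn (fun w => f w * w ^ n) (Ioi 0) → Integrable (fun z : E n => F ‖z‖) →
    (∀ s, 0 < s → 0 ≤ F s) → ∀ R, 0 < R →
    eVariationOn (mm n F) (Icc R (2 * R)) ≤
      ENNReal.ofReal (C * (∫ u in (R / 2)..(4 * R), |f u|) + C * ∫ σ in R..(2 * R), H1 n f σ) := by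
  obtain ⟨C0, hC0, hLT⟩ := LT n hn
  obtain ⟨K, hK, hBD⟩ := big_diff n (1 / 32) (by norm_num)
  refine ⟨2 * C0 + 1 + K, by positivity, ?_⟩
  intro F f hF hfi hInt hF0 R hR
  set V : ℝ := ∫ u in (R / 2)..(4 * R), |f u| with hVdef
  set W : ℝ := ∫ σ in R..(2 * R), H1 n f σ with hWdef
  have hV : 0 ≤ V := intervalIntegral.integral_nonneg (by linarith) fun u _ => abs_nonneg _
  obtain ⟨hH1a, hH1b⟩ := H1_local n f hfi
  have hH1nn : ∀ σ, 0 < σ → 0 ≤ H1 n f σ := fun σ hσ => (hH1a σ hσ).2.1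
  have hW : 0 ≤ W := intervalIntegral.integral_nonneg (by linarith)
    fun u hu => hH1nn u (lt_of_lt_of_le hR hu.1)
  -- the two parts
  set G : ℝ → ℝ := fun x => ⨆ r : Ioc (0 : ℝ) (R / 16), A n F x r with hG
  set b : ℝ → ℝ := fun x => ⨆ t : Ici (1 / 32 : ℝ), A n F x (t * x) with hb
  have hne1 : Nonempty (Ioc (0 : ℝ) (R / 16)) := ⟨⟨R / 16, by constructor <;> linarith⟩⟩
  have hne2 : Nonempty (Ici (1 / 32 : ℝ)) := ⟨⟨1 / 32, by simp⟩⟩
  have hne3 : Nonempty (Ioi (0 : ℝ)) := ⟨⟨1, by simp⟩⟩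
  have hpos : ∀ x ∈ Icc R (2 * R), 0 < x := fun x hx => lt_of_lt_of_le hR hx.1
  have hbdd : ∀ x ∈ Icc R (2 * R), BddAbove (range fun r : Ioi (0 : ℝ) => A n F x r) :=
    fun x hx => (mm_bdd n F f hF hInt hF0 x (hpos x hx)).1
  have hbdd1 : ∀ x ∈ Icc R (2 * R),
      BddAbove (range fun r : Ioc (0 : ℝ) (R / 16) => A n F x r) := by
    intro x hx
    refine (hbdd x hx).mono ?_
    rintro _ ⟨r, rfl⟩
    exact ⟨⟨r, r.2.1⟩, rfl⟩
  have hbdd2 : ∀ x ∈ Icc R (2 * R),
      BddAbove (range fun t : Ici (1 / 32 : ℝ) => A n F x (t * x)) := by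
    intro x hx
    refine (hbdd x hx).mono ?_
    rintro _ ⟨t, rfl⟩
    have ht : (0 : ℝ) < t := lt_of_lt_of_le (by norm_num) t.2
    exact ⟨⟨t * x, mul_pos ht (hpos x hx)⟩, rfl⟩
  have hmax : ∀ x ∈ Icc R (2 * R), mm n F x = max (G x) (b x) := by
    intro x hx
    apply le_antisymm
    · refine ciSup_le fun r => ?_
      by_cases hr : (r : ℝ) ≤ R / 16
      · exact le_max_of_le_left (le_ciSup (hbdd1 x hx) ⟨r, r.2, hr⟩)
      · push Not at hr
        have hx0 := hpos x hx
        have ht : (1 / 32 : ℝ) ≤ r / x := by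
          rw [le_div_iff₀ hx0]
          have := hx.2
          linarith
        refine le_max_of_le_right ?_
        have h1 := le_ciSup (hbdd2 x hx) ⟨r / x, ht⟩
        have h2 : (r : ℝ) / x * x = r := div_mul_cancel₀ _ hx0.ne'
        simp only [h2] at h1
        exact h1
    · apply max_le
      · refine ciSup_le fun r => ?_
        exact le_ciSup (hbdd x hx) (⟨r, r.2.1⟩ : Ioi (0 : ℝ))
      · refine ciSup_le fun t => ?_
        have ht : (0 : ℝ) < t := lt_of_lt_of_le (by norm_num) t.2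
        exact le_ciSup (hbdd x hx) (⟨t * x, mul_pos ht (hpos x hx)⟩ : Ioi (0 : ℝ))
  -- falls of G
  have hfall : BV653.FallsLE G (Icc R (2 * R)) (C0 * V) := by
    apply hLT F f hF R hR G
    · intro x hx r hr hrR
      exact le_ciSup (hbdd1 x hx) ⟨r, hr, hrR⟩
    · intro x hx η hη
      have hlt : G x - η < ⨆ r : Ioc (0 : ℝ) (R / 16), A n F x r := by
        show G x - η < G x
        linarith
      obtain ⟨r, hr⟩ := exists_lt_of_lt_ciSup hlt
      exact ⟨r, r.2.1, r.2.2, hr.le⟩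
  -- oscillation of G
  have hGosc : ∀ x ∈ Icc R (2 * R), ∀ y ∈ Icc R (2 * R), G x - G y ≤ V := by
    intro x hx y hy
    have : G x ≤ G y + V := by
      refine ciSup_le fun r => ?_
      have h1 := mm_var_A_osc n F f hF hInt R hR x y r r hx hy r.2.1 r.2.2 r.2.1 r.2.2
      have h2 : A n F y r ≤ G y := le_ciSup (hbdd1 y hy) r
      have h3 := (abs_le.1 h1).2
      linarith
    linarith
  -- differences of b
  have hbdiff : ∀ x ∈ Icc R (2 * R), ∀ y ∈ Icc R (2 * R), x ≤ y →
      |b y - b x| ≤ K * ∫ σ in x..y, H1 n f σ := by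
    intro x hx y hy hxy
    have hD : ∀ t : Ici (1 / 32 : ℝ), |A n F y (t * y) - A n F x (t * x)| ≤
        K * ∫ σ in x..y, H1 n f σ := fun t => hBD F f hF hfi hInt t t.2 x y (hpos x hx) hxy
    rw [abs_le]
    constructor
    · have : b x ≤ b y + K * ∫ σ in x..y, H1 n f σ := by
        refine ciSup_le fun t => ?_
        have h1 := (abs_le.1 (hD t)).1
        have h2 : A n F y (t * y) ≤ b y := le_ciSup (hbdd2 y hy) t
        linarith
      linarith
    · have : b y ≤ b x + K * ∫ σ in x..y, H1 n f σ := by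
        refine ciSup_le fun t => ?_
        have h1 := (abs_le.1 (hD t)).2
        have h2 : A n F x (t * x) ≤ b x := le_ciSup (hbdd2 x hx) t
        linarith
      linarith
  -- the variation
  unfold eVariationOn
  refine iSup_le ?_
  rintro ⟨N, u, hu, hus⟩
  simp only
  have hsum1 : ∑ i ∈ Finset.range N, |G (u (i + 1)) - G (u i)| ≤ 2 * C0 * V + V := by
    have e1 : ∀ i, |G (u (i + 1)) - G (u i)| =
        2 * max (G (u i) - G (u (i + 1))) 0 + (G (u (i + 1)) - G (u i)) := by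
      intro i
      rcases le_total (G (u i) - G (u (i + 1))) 0 with h | h
      · rw [max_eq_right h, abs_of_nonneg (by linarith)]; ring
      · rw [max_eq_left h, abs_of_nonpos (by linarith)]; ring
    rw [Finset.sum_congr rfl fun i _ => e1 i, Finset.sum_add_distrib, ← Finset.mul_sum,
      Finset.sum_range_sub (fun i => G (u i))]
    have h1 := hfall N u hu hus
    have h2 := hGosc (u N) (hus N) (u 0) (hus 0)
    linarith
  have hsum2 : ∑ i ∈ Finset.range N, |b (u (i + 1)) - b (u i)| ≤ K * W := by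
    have e1 : ∀ i ∈ Finset.range N, |b (u (i + 1)) - b (u i)| ≤
        K * ∫ σ in (u i)..(u (i + 1)), H1 n f σ := fun i _ =>
      hbdiff (u i) (hus i) (u (i + 1)) (hus (i + 1)) (hu (Nat.le_succ i))
    refine (Finset.sum_le_sum e1).trans ?_
    rw [← Finset.mul_sum]
    rw [intervalIntegral.sum_integral_adjacent_intervals (fun k _ =>
      hH1b (u k) (u (k + 1)) (hpos _ (hus k)) (hu (Nat.le_succ k)))]
    refine mul_le_mul_of_nonneg_left ?_ hK
    have h0N : u 0 ≤ u N := hu (Nat.zero_le N)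
    apply intervalIntegral.integral_mono_interval (hus 0).1 h0N (hus N).2
    · rw [Filter.EventuallyLE, ae_restrict_iff' measurableSet_Ioc]
      exact Eventually.of_forall fun σ hσ => hH1nn σ (lt_trans hR hσ.1)
    · exact hH1b R (2 * R) hR (by linarith)
  have hsum : ∑ i ∈ Finset.range N, |mm n F (u (i + 1)) - mm n F (u i)| ≤
      (2 * C0 + 1 + K) * V + (2 * C0 + 1 + K) * W := by
    have e1 : ∀ i ∈ Finset.range N, |mm n F (u (i + 1)) - mm n F (u i)| ≤
        |G (u (i + 1)) - G (u i)| + |b (u (i + 1)) - b (u i)| := by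
      intro i _
      rw [hmax _ (hus (i + 1)), hmax _ (hus i)]
      refine (abs_max_sub_max_le_max _ _ _ _).trans ?_
      exact max_le (le_add_of_nonneg_right (abs_nonneg _)) (le_add_of_nonneg_left (abs_nonneg _))
    refine (Finset.sum_le_sum e1).trans ?_
    rw [Finset.sum_add_distrib]
    have h1 : 0 ≤ K * V := mul_nonneg hK hV
    have h2 : 0 ≤ (2 * C0 + 1) * W := mul_nonneg (by positivity) hW
    nlinarith [hsum1, hsum2]
  calc ∑ i ∈ Finset.range N, edist (mm n F (u (i + 1))) (mm n F (u i))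
      = ∑ i ∈ Finset.range N, ENNReal.ofReal |mm n F (u (i + 1)) - mm n F (u i)| := by
        refine Finset.sum_congr rfl fun i _ => ?_
        rw [edist_dist, Real.dist_eq]
    _ = ENNReal.ofReal (∑ i ∈ Finset.range N, |mm n F (u (i + 1)) - mm n F (u i)|) := by
        rw [ENNReal.ofReal_sum_of_nonneg fun i _ => abs_nonneg _]
    _ ≤ _ := ENNReal.ofReal_le_ofReal hsum

end Pool.Agent.RM8c
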