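import Pool.Agent.RM8c.Defs
set_option autoImplicit false
open MeasureTheory Set Filter Topology
namespace Pool.Agent.RM8c
theorem int_deriv_le (m : ℝ → ℝ) (a b : ℝ) (hab : a ≤ b) (hbv : eVariationOn m (Icc a b) ≠ ⊤) :
    IntervalIntegrable (deriv m) volume a b ∧
      ∫ s in a..b, |deriv m s| ≤ (eVariationOn m (Icc a b)).toReal := by
  have hbv' : BoundedVariationOn m (Icc a b) := hbv
  have hloc : LocallyBoundedVariationOn m (Icc a b) := hbv'.locallyBoundedVariationOn
  have hint : IntervalIntegrable (deriv m) volume a b := by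
    apply BoundedVariationOn.intervalIntegrable_deriv
    rw [uIcc_of_le hab]
    exact hbv'
  refine ⟨hint, ?_⟩
  have ha : a ∈ Icc a b := ⟨le_rfl, hab⟩
  set v : ℝ → ℝ := variationOnFromTo m (Icc a b) a with hv
  have hvm : MonotoneOn v (Icc a b) := variationOnFromTo.monotoneOn hloc ha
  have hpm : MonotoneOn (v + m) (Icc a b) := variationOnFromTo.add_self_monotoneOn hloc ha
  have hqm : MonotoneOn (v - m) (Icc a b) := variationOnFromTo.sub_self_monotoneOn hloc ha
  have hvu : MonotoneOn v (uIcc a b) := by rw [uIcc_of_le hab]; exact hvm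
  have hvint := hvu.intervalIntegrable_deriv
  have h1 : ∫ s in a..b, |deriv m s| ≤ ∫ s in a..b, deriv v s := by
    apply intervalIntegral.integral_mono_ae_restrict hab hint.abs hvint
    rw [Filter.EventuallyLE, MeasureTheory.ae_restrict_iff' measurableSet_Icc]
    have hnb : ∀ᵐ x : ℝ, x ≠ b := by simp [ae_iff, measure_singleton]
    have hna : ∀ᵐ x : ℝ, x ≠ a := by simp [ae_iff, measure_singleton]
    filter_upwards [hvm.ae_differentiableWithinAt_of_mem, hpm.ae_differentiableWithinAt_of_mem,
      hna, hnb] with x hx1 hx2 hx3 hx4 hx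
    have hxo : x ∈ Ioo a b := ⟨lt_of_le_of_ne hx.1 (Ne.symm hx3), lt_of_le_of_ne hx.2 hx4⟩
    have hnh : Icc a b ∈ 𝓝 x := Icc_mem_nhds hxo.1 hxo.2
    have dv : DifferentiableAt ℝ v x := (hx1 hx).differentiableAt hnh
    have dp : DifferentiableAt ℝ (v + m) x := (hx2 hx).differentiableAt hnh
    have dm : DifferentiableAt ℝ m x := by
      have := dp.sub dv
      have e : v + m - v = m := by
        funext y
        simp
      rwa [e] at this
    have n1 : 0 ≤ deriv (v + m) x := by
      rw [← derivWithin_of_mem_nhds hnh]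
      exact hpm.derivWithin_nonneg
    have n2 : 0 ≤ deriv (v - m) x := by
      rw [← derivWithin_of_mem_nhds hnh]
      exact hqm.derivWithin_nonneg
    rw [deriv_add dv dm] at n1
    rw [deriv_sub dv dm] at n2
    exact abs_le.2 ⟨by linarith, by linarith⟩
  have h2 := hvu.intervalIntegral_deriv_mem_uIcc
  have h3 : 0 ≤ v b - v a := sub_nonneg.2 (hvm ha ⟨hab, le_rfl⟩ hab)
  rw [uIcc_of_le h3] at h2
  have h4 : v b - v a = (eVariationOn m (Icc a b)).toReal := by
    rw [hv, variationOnFromTo.self, variationOnFromTo.eq_of_le _ _ hab, Set.inter_self, sub_zero]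
  linarith [h2.2]

end Pool.Agent.RM8c
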