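import Pool.Agent.RM8c.Defs
import Pool.Agent.RM8c.M6
set_option autoImplicit false
open MeasureTheory Set Filter Topology
namespace Pool.Agent.RM8c
/-- contact / detachment criterion for absolute continuity -/
theorem CD (F f m : ℝ → ℝ) (hF : AC F f) (a b : ℝ) (ha : 0 < a) (hab : a ≤ b)
    (hle : ∀ s ∈ Icc a b, F s ≤ m s) (hc : ContinuousOn m (Icc a b))
    (hloc : ∀ s₀ ∈ Icc a b, F s₀ < m s₀ → ∃ δ > 0, ∃ K : ℝ, ∀ s ∈ Icc a b, ∀ s' ∈ Icc a b,
      |s - s₀| < δ → |s' - s₀| < δ → |m s - m s'| ≤ K * |s - s'|)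
    (hbv : eVariationOn m (Icc a b) ≠ ⊤) :
    AbsolutelyContinuousOnInterval m a b := by
  obtain ⟨hdm, _⟩ := int_deriv_le m a b hab hbv
  obtain ⟨hfi, _⟩ := hF a b ha hab
  set w : ℝ → ℝ := fun t => |f t| + |deriv m t| with hw
  have hwi : IntervalIntegrable w volume a b := hfi.abs.add hdm.abs
  have hw0 : ∀ t, 0 ≤ w t := fun t => add_nonneg (abs_nonneg _) (abs_nonneg _)
  have huI : uIcc a b = Icc a b := uIcc_of_le hab
  set G : ℝ → ℝ := fun x => ∫ t in a..x, w t with hG
  have hGac : AbsolutelyContinuousOnInterval G a b :=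
    hwi.absolutelyContinuousOnInterval_intervalIntegral left_mem_uIcc
  have hwsub : ∀ s s', a ≤ s → s ≤ s' → s' ≤ b → IntervalIntegrable w volume s s' := by
    intro s s' h1 h2 h3
    exact hwi.mono_set (by rw [huI, uIcc_of_le h2]; exact Icc_subset_Icc h1 h3)
  have hGd : ∀ s s', a ≤ s → s ≤ s' → s' ≤ b → G s' - G s = ∫ t in s..s', w t := by
    intro s s' h1 h2 h3
    exact intervalIntegral.integral_interval_sub_left (hwsub a s' le_rfl (h1.trans h2) h3)
      (hwsub a s le_rfl h1 (h2.trans h3))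
  have hGm : ∀ s s', a ≤ s → s ≤ s' → s' ≤ b → G s ≤ G s' := by
    intro s s' h1 h2 h3
    have := hGd s s' h1 h2 h3
    have h4 : 0 ≤ ∫ t in s..s', w t := intervalIntegral.integral_nonneg h2 fun t _ => hw0 t
    linarith
  -- F part
  have hFd : ∀ s s', a ≤ s → s ≤ s' → s' ≤ b → |F s' - F s| ≤ G s' - G s := by
    intro s s' h1 h2 h3
    obtain ⟨h4, h5⟩ := hF s s' (lt_of_lt_of_le ha h1) h2
    rw [h5, hGd s s' h1 h2 h3]
    refine (intervalIntegral.abs_integral_le_integral_abs h2).trans ?_
    exact intervalIntegral.integral_mono_on h2 h4.abs (hwsub s s' h1 h2 h3)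
      (fun t _ => le_add_of_nonneg_right (abs_nonneg _))
  have hFc : ContinuousOn F (Icc a b) := by
    have h1 : ContinuousOn (fun x => ∫ t in a..x, f t) (Icc a b) := by
      rw [← huI]
      exact (hfi.absolutelyContinuousOnInterval_intervalIntegral left_mem_uIcc).continuousOn
    have h2 : ContinuousOn (fun x => F a + ∫ t in a..x, f t) (Icc a b) := continuousOn_const.add h1
    refine h2.congr ?_
    intro x hx
    have := (hF a x ha hx.1).2
    show F x = F a + ∫ t in a..x, f t
    linarith
  -- case 1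
  have C1 : ∀ s s', a ≤ s → s ≤ s' → s' ≤ b → (∀ x ∈ Icc s s', F x < m x) →
      |m s' - m s| ≤ G s' - G s := by
    intro s s' h1 h2 h3 hlt
    have hsub : Icc s s' ⊆ Icc a b := Icc_subset_Icc h1 h3
    have hll : LocallyLipschitzOn (Icc s s') m := by
      intro x hx
      obtain ⟨δ, hδ, K, hK⟩ := hloc x (hsub hx) (hlt x hx)
      refine ⟨K.toNNReal, Icc s s' ∩ Metric.ball x δ, ?_, ?_⟩
      · exact inter_mem_nhdsWithin _ (Metric.ball_mem_nhds x hδ)
      · refine LipschitzOnWith.of_dist_le_mul ?_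
        rintro y ⟨hy1, hy2⟩ z ⟨hz1, hz2⟩
        rw [Metric.mem_ball, Real.dist_eq] at hy2 hz2
        rw [Real.dist_eq, Real.dist_eq]
        refine (hK y (hsub hy1) z (hsub hz1) hy2 hz2).trans ?_
        exact mul_le_mul_of_nonneg_right (Real.le_coe_toNNReal K) (abs_nonneg _)
    obtain ⟨K, hK⟩ := hll.exists_lipschitzOnWith_of_compact isCompact_Icc
    rw [← uIcc_of_le h2] at hK
    have h4 := hK.absolutelyContinuousOnInterval.integral_deriv_eq_sub
    rw [← h4, hGd s s' h1 h2 h3]
    refine (intervalIntegral.abs_integral_le_integral_abs h2).trans ?_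
    have h5 : IntervalIntegrable (deriv m) volume s s' :=
      hdm.mono_set (by rw [huI, uIcc_of_le h2]; exact hsub)
    exact intervalIntegral.integral_mono_on h2 h5.abs (hwsub s s' h1 h2 h3)
      (fun t _ => le_add_of_nonneg_left (abs_nonneg _))
  -- main claim
  have CL : ∀ s s', a ≤ s → s ≤ s' → s' ≤ b → |m s' - m s| ≤ G s' - G s := by
    intro s s' h1 h2 h3
    have hsub : Icc s s' ⊆ Icc a b := Icc_subset_Icc h1 h3
    by_cases hE : (Icc s s' ∩ {x | F x = m x}).Nonempty
    · have hclosed : IsClosed (Icc s s' ∩ {x | F x = m x}) := by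
        have hc1 : ContinuousOn (fun x => m x - F x) (Icc s s') := (hc.sub hFc).mono hsub
        have h4 := hc1.preimage_isClosed_of_isClosed isClosed_Icc (isClosed_singleton (x := (0:ℝ)))
        convert h4 using 1
        ext x
        simp only [mem_inter_iff, mem_ofPred_eq, mem_preimage, mem_singleton_iff, sub_eq_zero,
          eq_comm]
      have hcomp : IsCompact (Icc s s' ∩ {x | F x = m x}) :=
        isCompact_Icc.of_isClosed_subset hclosed inter_subset_left
      obtain ⟨e, ⟨he1, he2⟩, hemin⟩ := hcomp.exists_isLeast hE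
      obtain ⟨e', ⟨he1', he2'⟩, hemax⟩ := hcomp.exists_isGreatest hE
      have hee : e ≤ e' := hemax ⟨he1, he2⟩
      have hL : |m e - m s| ≤ G e - G s := by
        rcases he1.1.eq_or_lt with h | h
        · rw [← h]; simp
        · have hnb := right_nhdsWithin_Ico_neBot h
          have hcw : ContinuousWithinAt m (Ico s e) e :=
            (hc e (hsub he1)).mono fun x hx => hsub ⟨hx.1, hx.2.le.trans he1.2⟩
          have ht : Tendsto (fun τ => |m τ - m s|) (𝓝[Ico s e] e) (𝓝 |m e - m s|) :=
            (hcw.tendsto.sub_const (m s)).abs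
          refine le_of_tendsto ht ?_
          filter_upwards [self_mem_nhdsWithin] with τ hτ
          have h5 := C1 s τ h1 hτ.1 (hτ.2.le.trans (he1.2.trans h3)) (by
            intro x hx
            have hx' : x ∈ Icc s s' := ⟨hx.1, hx.2.trans (hτ.2.le.trans he1.2)⟩
            refine lt_of_le_of_ne (hle x (hsub hx')) fun h6 => ?_
            have := hemin ⟨hx', h6⟩
            exact absurd (lt_of_le_of_lt hx.2 hτ.2) (not_lt.mpr this))
          have h6 := hGm τ e (h1.trans hτ.1) hτ.2.le (he1.2.trans h3)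
          linarith
      have hR : |m s' - m e'| ≤ G s' - G e' := by
        rcases he1'.2.eq_or_lt with h | h
        · rw [← h]; simp
        · have hnb := left_nhdsWithin_Ioc_neBot h
          have hcw : ContinuousWithinAt m (Ioc e' s') e' :=
            (hc e' (hsub he1')).mono fun x hx => hsub ⟨he1'.1.trans hx.1.le, hx.2⟩
          have ht : Tendsto (fun τ => |m s' - m τ|) (𝓝[Ioc e' s'] e') (𝓝 |m s' - m e'|) :=
            (hcw.tendsto.const_sub (m s')).abs
          refine le_of_tendsto ht ?_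
          filter_upwards [self_mem_nhdsWithin] with τ hτ
          have h5 := C1 τ s' (h1.trans (he1'.1.trans hτ.1.le)) hτ.2 h3 (by
            intro x hx
            have hx' : x ∈ Icc s s' := ⟨he1'.1.trans (hτ.1.le.trans hx.1), hx.2⟩
            refine lt_of_le_of_ne (hle x (hsub hx')) fun h6 => ?_
            have := hemax ⟨hx', h6⟩
            exact absurd (lt_of_lt_of_le hτ.1 hx.1) (not_lt.mpr this))
          have h6 := hGm e' τ (h1.trans he1'.1) hτ.1.le (hτ.2.trans h3)
          linarith
      have hM : |m e' - m e| ≤ G e' - G e := by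
        have h5 : m e' = F e' := he2'.symm
        have h6 : m e = F e := he2.symm
        rw [h5, h6]
        exact hFd e e' (h1.trans he1.1) hee (he1'.2.trans h3)
      have h7 : m s' - m s = (m s' - m e') + (m e' - m e) + (m e - m s) := by ring
      rw [h7]
      refine (abs_add_three _ _ _).trans ?_
      linarith
    · refine C1 s s' h1 h2 h3 fun x hx => ?_
      refine lt_of_le_of_ne (hle x (hsub hx)) fun h6 => hE ⟨x, hx, h6⟩
  rw [absolutelyContinuousOnInterval_iff] at hGac ⊢
  intro ε hε
  obtain ⟨δ, hδ, hGδ⟩ := hGac ε hε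
  refine ⟨δ, hδ, fun Ev hEv hlen => lt_of_le_of_lt ?_ (hGδ Ev hEv hlen)⟩
  refine Finset.sum_le_sum fun i hi => ?_
  have hmem := hEv.1 i hi
  rw [huI] at hmem
  rw [Real.dist_eq, Real.dist_eq]
  rcases le_total (Ev.2 i).1 (Ev.2 i).2 with h | h
  · have h5 := CL _ _ hmem.1.1 h hmem.2.2
    rw [abs_sub_comm (m _), abs_sub_comm (G _)]
    exact h5.trans (le_abs_self _)
  · have h5 := CL _ _ hmem.2.1 h hmem.1.2
    exact h5.trans (le_abs_self _)

end Pool.Agent.RM8c
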