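import Pool.Agent.RM8c.Defs
set_option autoImplicit false
open MeasureTheory Set Filter Topology
namespace Pool.Agent.RM8c
theorem j26486_union : (⋃ k : ℤ, Ioc ((2 : ℝ) ^ k) (2 ^ (k + 1))) = Ioi (0 : ℝ) := by
  ext x
  simp only [mem_iUnion, mem_Ioi]
  constructor
  · rintro ⟨k, hk⟩
    exact lt_trans (by positivity) hk.1
  · intro hx
    exact exists_mem_Ioc_zpow hx (by norm_num)

theorem j26486_disj : Pairwise (Function.onFun Disjoint fun k : ℤ => Ioc ((2 : ℝ) ^ k) (2 ^ (k + 1))) := by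
  have hm : Monotone (fun k : ℤ => (2 : ℝ) ^ k) := fun a b hab =>
    zpow_le_zpow_right₀ (by norm_num) hab
  exact hm.pairwise_disjoint_on_Ioc_succ

theorem j26486_le (k : ℤ) : (2 : ℝ) ^ k ≤ 2 ^ (k + 1) :=
  zpow_le_zpow_right₀ (by norm_num) (by linarith)

theorem j26486_hasSum (g : ℝ → ℝ) (hg : IntegrableOn g (Ioi 0)) :
    HasSum (fun k : ℤ => ∫ s in ((2 : ℝ) ^ k)..(2 ^ (k + 1)), g s) (∫ s in Ioi (0 : ℝ), g s) := by
  have h := hasSum_integral_iUnion (μ := volume) (f := g)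
    (s := fun k : ℤ => Ioc ((2 : ℝ) ^ k) (2 ^ (k + 1))) (fun _ => measurableSet_Ioc) j26486_disj
    (by rw [j26486_union]; exact hg)
  rw [j26486_union] at h
  have e : (fun k : ℤ => ∫ s in ((2 : ℝ) ^ k)..(2 ^ (k + 1)), g s) =
      fun k : ℤ => ∫ s in Ioc ((2 : ℝ) ^ k) (2 ^ (k + 1)), g s := by
    funext k
    exact intervalIntegral.integral_of_le (j26486_le k)
  rw [e]
  exact h

theorem j26486_absint (n : ℕ) (f : ℝ → ℝ)
    (hf : IntegrableOn (fun w => f w * w ^ n) (Ioi 0)) :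
    IntegrableOn (fun w => |f w| * w ^ n) (Ioi 0) := by
  have h1 := hf.norm
  refine (integrableOn_congr_fun ?_ measurableSet_Ioi).mp h1
  intro w hw
  have hw0 : (0 : ℝ) < w := hw
  simp only [Real.norm_eq_abs, abs_mul, abs_pow, abs_of_pos hw0]

theorem j26486_ii (n : ℕ) (f : ℝ → ℝ)
    (hf : IntegrableOn (fun w => f w * w ^ n) (Ioi 0)) (a b : ℝ) (ha : 0 < a) (hab : a ≤ b) :
    IntervalIntegrable f volume a b := by
  have h1 : IntervalIntegrable (fun w => f w * w ^ n) volume a b := by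
    rw [intervalIntegrable_iff_integrableOn_Ioc_of_le hab]
    exact hf.mono_set (fun x hx => lt_trans ha hx.1)
  have hc : ContinuousOn (fun w : ℝ => (w ^ n)⁻¹) (uIcc a b) := by
    rw [uIcc_of_le hab]
    apply ContinuousOn.inv₀ (by fun_prop)
    intro x hx
    have : 0 < x := lt_of_lt_of_le ha hx.1
    positivity
  have h2 := h1.mul_continuousOn hc
  refine h2.congr ?_
  intro w hw
  rw [uIoc_of_le hab] at hw
  have hw0 : (0 : ℝ) < w := lt_trans ha hw.1
  have : (w : ℝ) ^ n ≠ 0 := by positivity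
  simp only
  field_simp

theorem j26486_pow (n : ℕ) (G : ℝ → ℝ) (a b : ℝ) (ha : 0 < a) (hab : a ≤ b)
    (hG : IntervalIntegrable G volume a b) (h0 : ∀ s ∈ Icc a b, 0 ≤ G s) :
    (∫ s in a..b, G s * s ^ n) ≤ b ^ n * ∫ s in a..b, G s ∧
    a ^ n * (∫ s in a..b, G s) ≤ ∫ s in a..b, G s * s ^ n := by
  have hc : ContinuousOn (fun w : ℝ => w ^ n) (uIcc a b) := by fun_prop
  have h1 := hG.mul_continuousOn hc
  constructor
  · rw [← intervalIntegral.integral_const_mul]
    apply intervalIntegral.integral_mono_on hab h1 (hG.const_mul _)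
    intro s hs
    have hs0 : 0 < s := lt_of_lt_of_le ha hs.1
    have : s ^ n ≤ b ^ n := pow_le_pow_left₀ hs0.le hs.2 n
    nlinarith [h0 s hs]
  · rw [← intervalIntegral.integral_const_mul]
    apply intervalIntegral.integral_mono_on hab (hG.const_mul _) h1
    intro s hs
    have hs0 : 0 < s := lt_of_lt_of_le ha hs.1
    have : a ^ n ≤ s ^ n := pow_le_pow_left₀ ha.le hs.1 n
    nlinarith [h0 s hs]

theorem j26486_shift (a : ℤ → ℝ) (A : ℝ) (j : ℤ) (h : HasSum a A) :
    HasSum (fun k : ℤ => a (k + j)) A := by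
  have h1 := (Equiv.addRight j).hasSum_iff (f := a) (a := A)
  have h2 : (fun k : ℤ => a (k + j)) = a ∘ (Equiv.addRight j) := rfl
  rw [h2]
  exact h1.mpr h

theorem dyadic_sum (n : ℕ) (C : ℝ) (hC : 0 ≤ C) (f H d : ℝ → ℝ)
    (hf : IntegrableOn (fun w => f w * w ^ n) (Ioi 0))
    (hH : IntegrableOn (fun w => H w * w ^ n) (Ioi 0)) (hH0 : ∀ w, 0 < w → 0 ≤ H w)
    (hd : ∀ a b, 0 < a → a ≤ b → IntervalIntegrable d volume a b)
    (h : ∀ R, 0 < R → ∫ s in R..(2 * R), |d s| ≤
      C * (∫ u in (R / 2)..(4 * R), |f u|) + C * ∫ σ in R..(2 * R), H σ) :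
    IntegrableOn (fun s => d s * s ^ n) (Ioi 0) ∧
      ∫ s in Ioi (0 : ℝ), |d s| * s ^ n ≤ 3 * 4 ^ n * C * (∫ w in Ioi (0 : ℝ), |f w| * w ^ n) +
        2 ^ n * C * ∫ w in Ioi (0 : ℝ), H w * w ^ n := by
  classical
  set a : ℤ → ℝ := fun k => ∫ s in ((2 : ℝ) ^ k)..(2 ^ (k + 1)), |f s| * s ^ n with hadef
  set b : ℤ → ℝ := fun k => ∫ s in ((2 : ℝ) ^ k)..(2 ^ (k + 1)), H s * s ^ n with hbdef
  set c : ℤ → ℝ := fun k => ∫ s in ((2 : ℝ) ^ k)..(2 ^ (k + 1)), |d s| * s ^ n with hcdef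
  have hA := j26486_hasSum _ (j26486_absint n f hf)
  have hB := j26486_hasSum _ hH
  have hA' : HasSum a (∫ w in Ioi (0 : ℝ), |f w| * w ^ n) := hA
  have hB' : HasSum b (∫ w in Ioi (0 : ℝ), H w * w ^ n) := hB
  have hAm : HasSum (fun k : ℤ => a (k - 1)) (∫ w in Ioi (0 : ℝ), |f w| * w ^ n) :=
    j26486_shift a _ (-1) hA'
  have hAp : HasSum (fun k : ℤ => a (k + 1)) (∫ w in Ioi (0 : ℝ), |f w| * w ^ n) :=
    j26486_shift a _ 1 hA'
  have hfi : ∀ x y : ℝ, 0 < x → x ≤ y → IntervalIntegrable (fun s => |f s|) volume x y :=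
    fun x y hx hxy => (j26486_ii n f hf x y hx hxy).abs
  have hfin : ∀ x y : ℝ, 0 < x → x ≤ y → IntervalIntegrable (fun s => |f s| * s ^ n) volume x y :=
    fun x y hx hxy => (hfi x y hx hxy).mul_continuousOn (by fun_prop)
  have hcle : ∀ k, c k ≤ 4 ^ n * C * (a (k - 1) + a k + a (k + 1)) + 2 ^ n * C * b k := by
    intro k
    have hR : (0 : ℝ) < 2 ^ k := by positivity
    set R : ℝ := 2 ^ k with hRdef
    have e1 : (2 : ℝ) ^ (k + 1) = 2 * R := by
      rw [zpow_add_one₀ (by norm_num)]; ring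
    have e2 : (2 : ℝ) ^ (k - 1) = R / 2 := by
      rw [zpow_sub_one₀ (by norm_num)]; ring
    have e3 : (2 : ℝ) ^ (k + 1 + 1) = 4 * R := by
      rw [zpow_add_one₀ (by norm_num), e1]; ring
    have e4 : k - 1 + 1 = k := by ring
    have hsum : (∫ u in (R / 2)..(4 * R), |f u| * u ^ n) = a (k - 1) + a k + a (k + 1) := by
      simp only [hadef]
      rw [e4, e1, e2, e3, ← hRdef]
      rw [intervalIntegral.integral_add_adjacent_intervals
        (hfin _ _ (by linarith) (by linarith)) (hfin _ _ (by linarith) (by linarith)),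
        intervalIntegral.integral_add_adjacent_intervals
        (hfin _ _ (by linarith) (by linarith)) (hfin _ _ (by linarith) (by linarith))]
    have p1 := (j26486_pow n (fun s => |d s|) R (2 * R) hR (by linarith)
      ((hd R (2 * R) hR (by linarith)).abs) (fun s _ => abs_nonneg _)).1
    have p2 := (j26486_pow n (fun s => |f s|) (R / 2) (4 * R) (by linarith) (by linarith)
      (hfi _ _ (by linarith) (by linarith)) (fun s _ => abs_nonneg _)).2
    have p3 := (j26486_pow n H R (2 * R) hR (by linarith)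
      (j26486_ii n H hH R (2 * R) hR (by linarith))
      (fun s hs => hH0 s (lt_of_lt_of_le hR hs.1))).2
    have p4 := h R hR
    have hck : c k = ∫ s in R..(2 * R), |d s| * s ^ n := by
      simp only [hcdef]; rw [e1]
    have hbk : b k = ∫ s in R..(2 * R), H s * s ^ n := by
      simp only [hbdef]; rw [e1]
    rw [hck, hbk, ← hsum]
    have q1 : (2 * R) ^ n = 4 ^ n * (R / 2) ^ n := by
      rw [← mul_pow]; congr 1; ring
    have q2 : (2 * R) ^ n = 2 ^ n * R ^ n := by rw [mul_pow]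
    have hpos : 0 ≤ (2 * R) ^ n := by positivity
    calc (∫ s in R..(2 * R), |d s| * s ^ n) ≤ (2 * R) ^ n * ∫ s in R..(2 * R), |d s| := p1
      _ ≤ (2 * R) ^ n * (C * (∫ u in (R / 2)..(4 * R), |f u|) + C * ∫ σ in R..(2 * R), H σ) :=
          mul_le_mul_of_nonneg_left p4 hpos
      _ = 4 ^ n * C * ((R / 2) ^ n * ∫ u in (R / 2)..(4 * R), |f u|) +
          2 ^ n * C * (R ^ n * ∫ σ in R..(2 * R), H σ) := by
          rw [mul_add]
          congr 1
          · rw [q1]; ring
          · rw [q2]; ring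
      _ ≤ _ := by
          apply add_le_add
          · exact mul_le_mul_of_nonneg_left p2 (by positivity)
          · exact mul_le_mul_of_nonneg_left p3 (by positivity)
  have hcn : ∀ k, 0 ≤ c k := by
    intro k
    simp only [hcdef]
    apply intervalIntegral.integral_nonneg (j26486_le k)
    intro s hs
    have : 0 < s := lt_of_lt_of_le (by positivity) hs.1
    positivity
  have hRHS : HasSum (fun k : ℤ => 4 ^ n * C * (a (k - 1) + a k + a (k + 1)) + 2 ^ n * C * b k)
      (4 ^ n * C * ((∫ w in Ioi (0 : ℝ), |f w| * w ^ n) + (∫ w in Ioi (0 : ℝ), |f w| * w ^ n) +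
        (∫ w in Ioi (0 : ℝ), |f w| * w ^ n)) + 2 ^ n * C * ∫ w in Ioi (0 : ℝ), H w * w ^ n) :=
    (((hAm.add hA').add hAp).mul_left _).add (hB'.mul_left _)
  have hcs : Summable c := Summable.of_nonneg_of_le hcn hcle hRHS.summable
  have hdint : ∀ k : ℤ, IntegrableOn (fun s => d s * s ^ n) (Ioc ((2 : ℝ) ^ k) (2 ^ (k + 1))) := by
    intro k
    have := (hd (2 ^ k) (2 ^ (k + 1)) (by positivity) (j26486_le k)).mul_continuousOn
      (g := fun s : ℝ => s ^ n) (by fun_prop)
    rwa [intervalIntegrable_iff_integrableOn_Ioc_of_le (j26486_le k)] at this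
  have hnorm : ∀ k : ℤ, (∫ s in Ioc ((2 : ℝ) ^ k) (2 ^ (k + 1)), ‖d s * s ^ n‖) = c k := by
    intro k
    simp only [hcdef]
    rw [intervalIntegral.integral_of_le (j26486_le k)]
    apply setIntegral_congr_fun measurableSet_Ioc
    intro s hs
    have : 0 < s := lt_trans (by positivity) hs.1
    simp only [Real.norm_eq_abs, abs_mul, abs_pow, abs_of_pos this]
  have hint : IntegrableOn (fun s => d s * s ^ n) (Ioi 0) := by
    rw [← j26486_union]
    apply integrableOn_iUnion_of_summable_integral_norm hdint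
    simp only [hnorm]
    exact hcs
  refine ⟨hint, ?_⟩
  have hC' : HasSum c (∫ w in Ioi (0 : ℝ), |d w| * w ^ n) :=
    j26486_hasSum _ (j26486_absint n d hint)
  have := hasSum_le hcle hC' hRHS
  linarith

end Pool.Agent.RM8c
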