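import Pool.Agent.RM8c.Defs
import Pool.Agent.RM8c.B3
import Pool.Agent.RM8c.B4
import Pool.Agent.RM8c.M1
import Pool.Agent.RM8c.M2
import Pool.Agent.RM8c.M4
import Pool.Agent.RM8c.M5
import Pool.Agent.RM8c.M6
import Pool.Agent.RM8c.M7
set_option autoImplicit false
open MeasureTheory Set Filter Topology
namespace Pool.Agent.RM8c
theorem MAIN_pos (n : ℕ) (hn : 1 ≤ n) : ∃ C : ℝ, 0 ≤ C ∧ ∀ F f : ℝ → ℝ, AC F f →
    IntegrableOn (fun w => f w * w ^ n) (Ioi 0) → Integrable (fun z : E n => F ‖z‖) →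
    (∀ s, 0 < s → 0 ≤ F s) →
    AC (mm n F) (deriv (mm n F)) ∧ IntegrableOn (fun s => deriv (mm n F) s * s ^ n) (Ioi 0) ∧
      ∫ s in Ioi (0 : ℝ), |deriv (mm n F) s| * s ^ n ≤ C * ∫ w in Ioi (0 : ℝ), |f w| * w ^ n := by
  obtain ⟨C, hC, hvar⟩ := mm_var n hn
  refine ⟨3 * 4 ^ n * C + 2 ^ n * C * 2, by positivity, ?_⟩
  intro F f hF hf hi hF0
  have hvarR : ∀ R, 0 < R → eVariationOn (mm n F) (Icc R (2 * R)) ≤
      ENNReal.ofReal (C * (∫ u in (R / 2)..(4 * R), |f u|) + C * ∫ σ in R..(2 * R), H1 n f σ) :=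
    hvar F f hF hf hi hF0
  have hdy : ∀ a : ℝ, 0 < a → ∀ k : ℕ, eVariationOn (mm n F) (Icc a (2 ^ k * a)) ≠ ⊤ := by
    intro a ha k
    induction k with
    | zero =>
      have h0 : eVariationOn (mm n F) (Icc a (2 ^ 0 * a)) = 0 := by
        apply eVariationOn.subsingleton
        rw [pow_zero, one_mul, Icc_self]
        exact subsingleton_singleton
      rw [h0]
      exact ENNReal.zero_ne_top
    | succ k ih =>
      have hk : (1 : ℝ) ≤ 2 ^ k := one_le_pow₀ (by norm_num)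
      have h1 : a ≤ 2 ^ k * a := by nlinarith
      have h2 : 2 ^ k * a ≤ 2 ^ (k + 1) * a := by
        rw [pow_succ]
        nlinarith
      have h3 := eVariationOn.Icc_add_Icc (mm n F) (s := univ) h1 h2 (mem_univ _)
      simp only [univ_inter] at h3
      rw [← h3]
      refine ENNReal.add_ne_top.mpr ⟨ih, ?_⟩
      have h4 := hvarR (2 ^ k * a) (by positivity)
      have h5 : 2 * (2 ^ k * a) = 2 ^ (k + 1) * a := by
        rw [pow_succ]
        ring
      rw [h5] at h4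
      exact ne_top_of_le_ne_top ENNReal.ofReal_ne_top h4
  have hbv : ∀ a b : ℝ, 0 < a → a ≤ b → eVariationOn (mm n F) (Icc a b) ≠ ⊤ := by
    intro a b ha hab
    obtain ⟨k, hk⟩ := pow_unbounded_of_one_lt (b / a) (one_lt_two : (1 : ℝ) < 2)
    have h1 : b ≤ 2 ^ k * a := by
      rw [div_lt_iff₀ ha] at hk
      exact hk.le
    exact ne_top_of_le_ne_top (hdy a ha k) (eVariationOn.mono _ (Icc_subset_Icc le_rfl h1))
  obtain ⟨hreg1, hreg2⟩ := mm_reg n F f hF hf hi hF0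
  have hAC : ∀ a b : ℝ, 0 < a → a ≤ b → AbsolutelyContinuousOnInterval (mm n F) a b := by
    intro a b ha hab
    refine CD F f (mm n F) hF a b ha hab ?_ ?_ ?_ (hbv a b ha hab)
    · intro s hs
      exact (mm_bdd n F f hF hi hF0 s (ha.trans_le hs.1)).2.1
    · exact hreg1.mono fun s hs => ha.trans_le hs.1
    · intro s₀ hs₀ hlt
      obtain ⟨δ, hδ, K, hK⟩ := hreg2 s₀ (ha.trans_le hs₀.1) hlt
      exact ⟨δ, hδ, K, fun s hs s' hs' h1 h2 =>
        hK s s' (ha.trans_le hs.1) (ha.trans_le hs'.1) h1 h2⟩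
  have hint : ∀ a b : ℝ, 0 < a → a ≤ b → IntervalIntegrable (deriv (mm n F)) volume a b :=
    fun a b ha hab => (int_deriv_le (mm n F) a b hab (hbv a b ha hab)).1
  obtain ⟨hH1a, hH1b⟩ := H1_local n f hf
  obtain ⟨hH1c, hH1d⟩ := H1_total n hn f hf
  have hdR : ∀ R, 0 < R → ∫ s in R..(2 * R), |deriv (mm n F) s| ≤
      C * (∫ u in (R / 2)..(4 * R), |f u|) + C * ∫ σ in R..(2 * R), H1 n f σ := by
    intro R hR
    have hab : R ≤ 2 * R := by linarith
    refine (int_deriv_le (mm n F) R (2 * R) hab (hbv R (2 * R) hR hab)).2.trans ?_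
    refine ENNReal.toReal_le_of_le_ofReal ?_ (hvarR R hR)
    have h1 : 0 ≤ ∫ u in (R / 2)..(4 * R), |f u| :=
      intervalIntegral.integral_nonneg (by linarith) fun u _ => abs_nonneg _
    have h2 : 0 ≤ ∫ σ in R..(2 * R), H1 n f σ :=
      intervalIntegral.integral_nonneg hab fun u hu => (hH1a u (hR.trans_le hu.1)).2.1
    positivity
  obtain ⟨hd1, hd2⟩ := dyadic_sum n C hC f (H1 n f) (deriv (mm n F)) hf hH1c
    (fun w hw => (hH1a w hw).2.1) hint hdR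
  refine ⟨fun a b ha hab => ⟨hint a b ha hab, ((hAC a b ha hab).integral_deriv_eq_sub).symm⟩,
    hd1, hd2.trans ?_⟩
  have h3 : 2 ^ n * C * (∫ w in Ioi (0 : ℝ), H1 n f w * w ^ n) ≤
      2 ^ n * C * (2 * ∫ w in Ioi (0 : ℝ), |f w| * w ^ n) :=
    mul_le_mul_of_nonneg_left hH1d (by positivity)
  calc 3 * 4 ^ n * C * (∫ w in Ioi (0 : ℝ), |f w| * w ^ n) +
        2 ^ n * C * ∫ w in Ioi (0 : ℝ), H1 n f w * w ^ n
      ≤ 3 * 4 ^ n * C * (∫ w in Ioi (0 : ℝ), |f w| * w ^ n) +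
        2 ^ n * C * (2 * ∫ w in Ioi (0 : ℝ), |f w| * w ^ n) := by linarith
    _ = _ := by ring

end Pool.Agent.RM8c
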