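import Pool.Agent.RM8c.Defs
import Pool.Agent.RM8c.P1
set_option autoImplicit false
open MeasureTheory Set Filter Topology
namespace Pool.Agent.RM8c
theorem weak_profile_norm_e1 (n : ℕ) : ‖e1 n‖ = 1 := by
  simp [e1]

/-- the sigma-algebra generated by the norm -/
noncomputable def weak_profile_m (n : ℕ) : MeasurableSpace (E n) :=
  MeasurableSpace.comap (fun x : E n => ‖x‖) inferInstance

theorem weak_profile_cond (n : ℕ) (G : E n → ℝ) (hG : Integrable G) :
    ∃ F' : ℝ → ℝ, IntegrableOn (fun s => F' s * s ^ n) (Ioi 0) ∧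
      (n + 1) * volume.real (Metric.ball (0 : E n) 1) * (∫ s in Ioi (0 : ℝ), |F' s| * s ^ n) ≤
        ∫ x, |G x| ∧
      ∀ (ψ : ℝ → ℝ) (C : ℝ), Measurable ψ → (∀ s, ‖ψ s‖ ≤ C) →
        ∫ x, G x * ψ ‖x‖ = (n + 1) * volume.real (Metric.ball (0 : E n) 1) *
          ∫ s in Ioi (0 : ℝ), (F' s * ψ s) * s ^ n := by
  have hm : weak_profile_m n ≤ (inferInstance : MeasurableSpace (E n)) := measurable_norm.comap_le
  have hnm : Measurable[weak_profile_m n] (fun x : E n => ‖x‖) := comap_measurable _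
  have hσ : SigmaFinite ((volume : Measure (E n)).trim hm) := by
    refine ⟨⟨⟨fun k : ℕ => {x : E n | ‖x‖ ≤ k}, fun _ => trivial, ?_, ?_⟩⟩⟩
    · intro k
      have hms : MeasurableSet[weak_profile_m n] {x : E n | ‖x‖ ≤ k} := hnm measurableSet_Iic
      rw [trim_measurableSet_eq hm hms]
      have : {x : E n | ‖x‖ ≤ k} = Metric.closedBall 0 k := by
        ext x
        simp
      rw [this]
      exact measure_closedBall_lt_top
    · rw [eq_univ_iff_forall]
      intro x
      obtain ⟨k, hk⟩ := exists_nat_ge ‖x‖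
      exact mem_iUnion.2 ⟨k, hk⟩
  have hfac : ∀ x : E n, (volume[G | weak_profile_m n]) x = (volume[G | weak_profile_m n]) (‖x‖ • e1 n) := by
    intro x
    have hsm : StronglyMeasurable[weak_profile_m n] (volume[G | weak_profile_m n]) := stronglyMeasurable_condExp
    have h1 : MeasurableSet[weak_profile_m n] ((volume[G | weak_profile_m n]) ⁻¹' {(volume[G | weak_profile_m n]) x}) :=
      hsm.measurable (measurableSet_singleton _)
    obtain ⟨s, _, hs⟩ := h1
    have hx : x ∈ (fun x : E n => ‖x‖) ⁻¹' s := by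
      rw [hs]
      exact rfl
    have hy : (‖x‖ • e1 n) ∈ (fun x : E n => ‖x‖) ⁻¹' s := by
      show ‖‖x‖ • e1 n‖ ∈ s
      rw [norm_smul, weak_profile_norm_e1, mul_one, norm_norm]
      exact hx
    rw [hs] at hy
    exact hy.symm
  set F' : ℝ → ℝ := fun s => (volume[G | weak_profile_m n]) (s • e1 n) with hF'
  have hfac' : ∀ x : E n, (volume[G | weak_profile_m n]) x = F' ‖x‖ := hfac
  refine ⟨F', ?_, ?_, ?_⟩
  · rw [← (polar n F').1]
    exact (integrable_condExp (μ := volume) (m := weak_profile_m n) (f := G)).congr (ae_of_all _ hfac')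
  · have h1 := (polar n (fun s => |F' s|)).2
    rw [← h1]
    calc ∫ x : E n, |F' ‖x‖| = ∫ x : E n, |(volume[G | weak_profile_m n]) x| := by
          congr 1
          funext x
          rw [hfac' x]
      _ ≤ ∫ x, |G x| := integral_abs_condExp_le G
  · intro ψ C hψ hC
    have hsm : StronglyMeasurable[weak_profile_m n] (fun x : E n => ψ ‖x‖) :=
      (hψ.comp hnm).stronglyMeasurable
    have hint : Integrable (G * fun x : E n => ψ ‖x‖) := by
      have := hG.bdd_mul (c := C) (f := fun x : E n => ψ ‖x‖)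
        ((hψ.comp measurable_norm).aestronglyMeasurable) (ae_of_all _ fun x => hC _)
      refine this.congr (ae_of_all _ fun x => ?_)
      show ψ ‖x‖ * G x = G x * ψ ‖x‖
      ring
    have h2 := condExp_mul_of_stronglyMeasurable_right (μ := volume) (f := G) hsm hint hG
    have h3 := integral_condExp (μ := volume) (f := G * fun x : E n => ψ ‖x‖) hm
    have h4 := (polar n (fun s => F' s * ψ s)).2
    rw [← h4]
    calc ∫ x, G x * ψ ‖x‖ = ∫ x, (volume[G * (fun x : E n => ψ ‖x‖) | weak_profile_m n]) x := h3.symm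
      _ = ∫ x : E n, F' ‖x‖ * ψ ‖x‖ := by
          apply integral_congr_ae
          filter_upwards [h2] with x hx
          rw [hx]
          show (volume[G | weak_profile_m n]) x * ψ ‖x‖ = _
          rw [hfac' x]

theorem weak_profile_test (n : ℕ) (χ : ℝ → ℝ) (hχ : ContDiff ℝ ((⊤ : ℕ∞) : WithTop ℕ∞) χ)
    (hc : HasCompactSupport χ) (hs : tsupport χ ⊆ Ioi 0) :
    (∀ᶠ s in 𝓝 (0 : ℝ), χ s = 0) ∧
    ContDiff ℝ ((⊤ : ℕ∞) : WithTop ℕ∞) (fun s => χ s / s ^ (n + 1)) ∧
    HasCompactSupport (fun s => χ s / s ^ (n + 1)) ∧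
    ∀ s : ℝ, 0 < s → (n + 1) * (χ s / s ^ (n + 1)) + s * deriv (fun s => χ s / s ^ (n + 1)) s =
      (s ^ n)⁻¹ * deriv χ s := by
  have h0 : ∀ᶠ s in 𝓝 (0 : ℝ), χ s = 0 := by
    have h1 : (0 : ℝ) ∉ tsupport χ := fun h => lt_irrefl (0 : ℝ) (mem_Ioi.1 (hs h))
    exact notMem_tsupport_iff_eventuallyEq.1 h1
  refine ⟨h0, ?_, ?_, ?_⟩
  · rw [contDiff_iff_contDiffAt]
    intro s
    by_cases hs0 : s = 0
    · subst hs0
      have : (fun s => χ s / s ^ (n + 1)) =ᶠ[𝓝 0] fun _ => 0 := by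
        filter_upwards [h0] with s hs
        rw [hs, zero_div]
      exact contDiffAt_const.congr_of_eventuallyEq this
    · exact hχ.contDiffAt.div (contDiffAt_id.pow (n + 1)) (pow_ne_zero _ hs0)
  · refine hc.mono ?_
    intro s hs1 hs2
    apply hs1
    show χ s / s ^ (n + 1) = 0
    rw [hs2, zero_div]
  · intro s hs0
    have hd : HasDerivAt χ (deriv χ s) s :=
      (hχ.differentiable (by simp) s).hasDerivAt
    have hp : HasDerivAt (fun s : ℝ => s ^ (n + 1)) (((n + 1 : ℕ) : ℝ) * s ^ n) s := by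
      simpa using hasDerivAt_pow (n + 1) s
    have hq := (hd.div hp (pow_ne_zero _ hs0.ne')).deriv
    have hq' : deriv (fun s => χ s / s ^ (n + 1)) s = _ := hq
    rw [hq']
    have hsn : s ^ n ≠ 0 := pow_ne_zero _ hs0.ne'
    have hs1 : s ≠ 0 := hs0.ne'
    push_cast
    field_simp
    ring

theorem weak_profile_phi (n : ℕ) (ψ : ℝ → ℝ) (hψ : ContDiff ℝ ((⊤ : ℕ∞) : WithTop ℕ∞) ψ)
    (hc : HasCompactSupport ψ) (h0 : ∀ᶠ s in 𝓝 (0 : ℝ), ψ s = 0) (j : Fin (n + 1)) :
    ContDiff ℝ ((⊤ : ℕ∞) : WithTop ℕ∞) (fun x : E n => ψ ‖x‖ * x j) ∧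
    HasCompactSupport (fun x : E n => ψ ‖x‖ * x j) := by
  have h0' : ∀ᶠ x in 𝓝 (0 : E n), ψ ‖x‖ = 0 := by
    have ht : Tendsto (fun x : E n => ‖x‖) (𝓝 0) (𝓝 0) := by
      have := (continuous_norm (E := E n)).tendsto 0
      rwa [norm_zero] at this
    exact ht.eventually h0
  constructor
  · rw [contDiff_iff_contDiffAt]
    intro x
    by_cases hx : x = 0
    · subst hx
      have : (fun x : E n => ψ ‖x‖ * x j) =ᶠ[𝓝 0] fun _ => 0 := by
        filter_upwards [h0'] with y hy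
        rw [hy, zero_mul]
      exact contDiffAt_const.congr_of_eventuallyEq this
    · refine ContDiffAt.mul ?_ ?_
      · exact hψ.contDiffAt.comp x (contDiffAt_norm ℝ hx)
      · exact (EuclideanSpace.proj (𝕜 := ℝ) j).contDiff.contDiffAt
  · obtain ⟨b, hb⟩ := hc.isCompact.isBounded.subset_closedBall 0
    refine HasCompactSupport.intro (isCompact_closedBall (0 : E n) b) ?_
    intro x hx
    have h1 : ‖x‖ ∉ tsupport ψ := by
      intro h
      apply hx
      have := hb h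
      rw [mem_closedBall_zero_iff, norm_norm] at this
      rwa [mem_closedBall_zero_iff]
    rw [image_eq_zero_of_notMem_tsupport h1, zero_mul]

theorem weak_profile_div (n : ℕ) (ψ : ℝ → ℝ) (hψ : ContDiff ℝ ((⊤ : ℕ∞) : WithTop ℕ∞) ψ)
    (x : E n) (hx : x ≠ 0) :
    ∑ j : Fin (n + 1), fderiv ℝ (fun x : E n => ψ ‖x‖ * x j) x (EuclideanSpace.single j (1 : ℝ)) =
      (n + 1) * ψ ‖x‖ + ‖x‖ * deriv ψ ‖x‖ := by
  have hN : DifferentiableAt ℝ (fun x : E n => ‖x‖) x :=
    (contDiffAt_norm ℝ (n := 1) hx).differentiableAt (by norm_num)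
  have hψd : HasDerivAt ψ (deriv ψ ‖x‖) ‖x‖ := (hψ.differentiable (by simp) _).hasDerivAt
  have h1 : HasFDerivAt (fun x : E n => ψ ‖x‖)
      (deriv ψ ‖x‖ • fderiv ℝ (fun x : E n => ‖x‖) x) x :=
    hψd.comp_hasFDerivAt x hN.hasFDerivAt
  have h2 : ∀ j : Fin (n + 1), fderiv ℝ (fun x : E n => ψ ‖x‖ * x j) x
      (EuclideanSpace.single j (1 : ℝ)) = ψ ‖x‖ + deriv ψ ‖x‖ *
        (fderiv ℝ (fun x : E n => ‖x‖) x (x j • EuclideanSpace.single j (1 : ℝ))) := by
    intro j
    have h3 : HasFDerivAt (fun x : E n => x j) (EuclideanSpace.proj (𝕜 := ℝ) j : E n →L[ℝ] ℝ) x :=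
      (EuclideanSpace.proj (𝕜 := ℝ) j : E n →L[ℝ] ℝ).hasFDerivAt
    have h4 : HasFDerivAt (fun x : E n => ψ ‖x‖ * x j) _ x := h1.mul h3
    rw [h4.fderiv]
    simp
    ring
  rw [Finset.sum_congr rfl fun j _ => h2 j, Finset.sum_add_distrib, ← Finset.mul_sum, ← map_sum]
  have h4 : ∑ j : Fin (n + 1), x j • (EuclideanSpace.single j (1 : ℝ) : E n) = x := by
    have := (EuclideanSpace.basisFun (Fin (n + 1)) ℝ).sum_repr x
    simpa using this
  rw [h4, hN.fderiv_norm_self]
  simp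
  ring

theorem weak_profile_inner (n : ℕ) (y x : E n) :
    ∑ j : Fin (n + 1), inner ℝ y (EuclideanSpace.single j (1 : ℝ)) * x j = inner ℝ y x := by
  simp [PiLp.inner_apply, mul_comm]

/-- the profile of a radial `W^{1,1}` function has a weak derivative on `(0,∞)` -/
theorem weak_profile (n : ℕ) (f : E n → ℝ) (g : E n → E n)
    (hrad : ∀ x y : E n, ‖x‖ = ‖y‖ → f x = f y) (hf : Integrable f) (hg : Integrable g)
    (hw : ∀ φ : E n → ℝ, ContDiff ℝ ((⊤ : ℕ∞) : WithTop ℕ∞) φ → HasCompactSupport φ →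
      ∀ v : E n, ∫ x, f x * fderiv ℝ φ x v = - ∫ x, inner ℝ (g x) v * φ x) :
    ∃ F' : ℝ → ℝ, IntegrableOn (fun s => F' s * s ^ n) (Ioi 0) ∧
      (n + 1) * volume.real (Metric.ball (0 : E n) 1) * (∫ s in Ioi (0 : ℝ), |F' s| * s ^ n) ≤
        ∫ x, ‖g x‖ ∧
      ∀ χ : ℝ → ℝ, ContDiff ℝ ((⊤ : ℕ∞) : WithTop ℕ∞) χ → HasCompactSupport χ →
        tsupport χ ⊆ Ioi 0 →
        ∫ s in Ioi (0 : ℝ), f (s • e1 n) * deriv χ s = - ∫ s in Ioi (0 : ℝ), F' s * χ s := by
  have hae : ∀ᵐ x : E n, x ≠ 0 := compl_mem_ae_iff.2 (measure_singleton 0)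
  have hGle : ∀ x : E n, |inner ℝ (g x) (‖x‖⁻¹ • x)| ≤ ‖g x‖ := by
    intro x
    refine (abs_real_inner_le_norm _ _).trans ?_
    have : ‖‖x‖⁻¹ • x‖ ≤ 1 := by
      rw [norm_smul, norm_inv, norm_norm]
      by_cases hx : ‖x‖ = 0
      · rw [hx]; simp
      · rw [inv_mul_cancel₀ hx]
    calc ‖g x‖ * ‖‖x‖⁻¹ • x‖ ≤ ‖g x‖ * 1 := mul_le_mul_of_nonneg_left this (norm_nonneg _)
      _ = ‖g x‖ := mul_one _
  have hGm : AEStronglyMeasurable (fun x : E n => inner ℝ (g x) (‖x‖⁻¹ • x)) volume := by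
    refine AEStronglyMeasurable.inner hg.aestronglyMeasurable ?_
    exact (measurable_norm.inv.smul measurable_id).aestronglyMeasurable
  have hG : Integrable (fun x : E n => inner ℝ (g x) (‖x‖⁻¹ • x)) :=
    hg.norm.mono' hGm (ae_of_all _ hGle)
  obtain ⟨F', hF1, hF2, hF3⟩ := weak_profile_cond n _ hG
  refine ⟨F', hF1, hF2.trans (integral_mono hG.abs hg.norm hGle), ?_⟩
  intro χ hχ hc hs
  obtain ⟨h0, hψ, hψc, hψd⟩ := weak_profile_test n χ hχ hc hs
  set ψ : ℝ → ℝ := fun s => χ s / s ^ (n + 1) with hψdef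
  have hψ0 : ∀ᶠ s in 𝓝 (0 : ℝ), ψ s = 0 := by
    filter_upwards [h0] with s hs
    show χ s / s ^ (n + 1) = 0
    rw [hs, zero_div]
  have hφ := weak_profile_phi n ψ hψ hψc hψ0
  -- left side
  have hL : ∑ j : Fin (n + 1), ∫ x : E n, f x *
      fderiv ℝ (fun x : E n => ψ ‖x‖ * x j) x (EuclideanSpace.single j (1 : ℝ)) =
      (n + 1) * volume.real (Metric.ball (0 : E n) 1) *
        ∫ s in Ioi (0 : ℝ), f (s • e1 n) * deriv χ s := by
    rw [← integral_finsetSum]
    · have h1 : ∫ x : E n, ∑ j : Fin (n + 1), f x *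
          fderiv ℝ (fun x : E n => ψ ‖x‖ * x j) x (EuclideanSpace.single j (1 : ℝ)) =
          ∫ x : E n, (fun s : ℝ => f (s • e1 n) * ((s ^ n)⁻¹ * deriv χ s)) ‖x‖ := by
        apply integral_congr_ae
        filter_upwards [hae] with x hx
        rw [← Finset.mul_sum, weak_profile_div n ψ hψ x hx, hψd _ (norm_pos_iff.2 hx)]
        have : f x = f (‖x‖ • e1 n) := by
          apply hrad
          rw [norm_smul, weak_profile_norm_e1, mul_one, norm_norm]
        rw [this]
      rw [h1]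
      refine ((polar n (fun s : ℝ => f (s • e1 n) * ((s ^ n)⁻¹ * deriv χ s))).2).trans ?_
      congr 1
      refine setIntegral_congr_fun measurableSet_Ioi fun s hs => ?_
      have hs0 : (0 : ℝ) < s := hs
      have : s ^ n ≠ 0 := pow_ne_zero _ hs0.ne'
      show f (s • e1 n) * ((s ^ n)⁻¹ * deriv χ s) * s ^ n = _
      field_simp
    · intro j _
      have hcd : Continuous (fun x : E n =>
          fderiv ℝ (fun x : E n => ψ ‖x‖ * x j) x (EuclideanSpace.single j (1 : ℝ))) :=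
        ((hφ j).1.continuous_fderiv (by simp)).clm_apply continuous_const
      have hcs : HasCompactSupport (fun x : E n =>
          fderiv ℝ (fun x : E n => ψ ‖x‖ * x j) x (EuclideanSpace.single j (1 : ℝ))) :=
        ((hφ j).2.fderiv_apply ℝ _)
      obtain ⟨C, hC⟩ := hcd.bounded_above_of_compact_support hcs
      have := hf.bdd_mul (c := C) hcd.aestronglyMeasurable (ae_of_all _ hC)
      refine this.congr (ae_of_all _ fun x => ?_)
      exact mul_comm _ _
  -- right side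
  have hR : ∑ j : Fin (n + 1), ∫ x : E n, inner ℝ (g x) (EuclideanSpace.single j (1 : ℝ)) *
      (ψ ‖x‖ * x j) = (n + 1) * volume.real (Metric.ball (0 : E n) 1) *
        ∫ s in Ioi (0 : ℝ), F' s * χ s := by
    rw [← integral_finsetSum]
    · have hψ1c : Continuous (fun s : ℝ => s * ψ s) := continuous_id.mul hψ.continuous
      have hψ1s : HasCompactSupport (fun s : ℝ => s * ψ s) := hψc.mul_left
      obtain ⟨C, hC⟩ := hψ1c.bounded_above_of_compact_support hψ1s
      have h2 := hF3 (fun s : ℝ => s * ψ s) C hψ1c.measurable hC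
      have h1 : ∫ x : E n, ∑ j : Fin (n + 1), inner ℝ (g x) (EuclideanSpace.single j (1 : ℝ)) *
          (ψ ‖x‖ * x j) = ∫ x : E n, inner ℝ (g x) (‖x‖⁻¹ • x) * (‖x‖ * ψ ‖x‖) := by
        apply integral_congr_ae
        filter_upwards [hae] with x hx
        have hx0 : ‖x‖ ≠ 0 := norm_ne_zero_iff.2 hx
        have e : ∑ j : Fin (n + 1), inner ℝ (g x) (EuclideanSpace.single j (1 : ℝ)) *
          (ψ ‖x‖ * x j) = ψ ‖x‖ * inner ℝ (g x) x := by
          rw [← weak_profile_inner n (g x) x, Finset.mul_sum]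
          exact Finset.sum_congr rfl fun j _ => by ring
        rw [e, inner_smul_right]
        field_simp
      rw [h1, h2]
      congr 1
      refine setIntegral_congr_fun measurableSet_Ioi fun s hs => ?_
      have hs0 : (0 : ℝ) < s := hs
      show F' s * (s * (χ s / s ^ (n + 1))) * s ^ n = F' s * χ s
      have : s ^ n ≠ 0 := pow_ne_zero _ hs0.ne'
      field_simp
      ring
    · intro j _
      obtain ⟨C, hC⟩ := (hφ j).1.continuous.bounded_above_of_compact_support (hφ j).2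
      have hgj : Integrable (fun x : E n => inner ℝ (g x) (EuclideanSpace.single j (1 : ℝ))) :=
        hg.inner_const _
      have := hgj.bdd_mul (c := C) (hφ j).1.continuous.aestronglyMeasurable (ae_of_all _ hC)
      refine this.congr (ae_of_all _ fun x => ?_)
      exact mul_comm _ _
  have hsum : ∑ j : Fin (n + 1), ∫ x : E n, f x *
      fderiv ℝ (fun x : E n => ψ ‖x‖ * x j) x (EuclideanSpace.single j (1 : ℝ)) =
      - ∑ j : Fin (n + 1), ∫ x : E n, inner ℝ (g x) (EuclideanSpace.single j (1 : ℝ)) *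
      (ψ ‖x‖ * x j) := by
    rw [← Finset.sum_neg_distrib]
    exact Finset.sum_congr rfl fun j _ => hw _ (hφ j).1 (hφ j).2 _
  rw [hL, hR] at hsum
  have hcpos : (0 : ℝ) < (n + 1) * volume.real (Metric.ball (0 : E n) 1) := by
    have h1 : 0 < volume.real (Metric.ball (0 : E n) 1) :=
      ENNReal.toReal_pos (Metric.measure_ball_pos volume 0 one_pos).ne' measure_ball_lt_top.ne
    positivity
  have : (n + 1) * volume.real (Metric.ball (0 : E n) 1) *
      (∫ s in Ioi (0 : ℝ), f (s • e1 n) * deriv χ s) =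
      (n + 1) * volume.real (Metric.ball (0 : E n) 1) * (- ∫ s in Ioi (0 : ℝ), F' s * χ s) := by
    rw [hsum]
    ring
  exact mul_left_cancel₀ hcpos.ne' this

end Pool.Agent.RM8c
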