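import Pool.Agent.RM8c.Defs
set_option autoImplicit false
open MeasureTheory Set Filter Topology
namespace Pool.Agent.RM8c
theorem dbr_supp (χ : ℝ → ℝ) (hc : HasCompactSupport χ) (hs : tsupport χ ⊆ Ioi 0) :
    ∃ a b : ℝ, 0 < a ∧ a < b ∧ tsupport χ ⊆ Ioo a b := by
  rcases (tsupport χ).eq_empty_or_nonempty with h | h
  · exact ⟨1, 2, one_pos, by norm_num, by rw [h]; exact empty_subset _⟩
  · obtain ⟨m, hm⟩ := hc.isCompact.exists_isLeast h
    obtain ⟨M, hM⟩ := hc.isCompact.exists_isGreatest h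
    have hm0 : 0 < m := hs hm.1
    have hmM : m ≤ M := hm.2 hM.1
    refine ⟨m / 2, M + 1, by linarith, by linarith, ?_⟩
    intro x hx
    have h1 := hm.2 hx
    have h2 := hM.2 hx
    constructor <;> linarith

theorem dbr_zero {χ : ℝ → ℝ} {a b : ℝ} (hs : tsupport χ ⊆ Ioo a b) {x : ℝ} (hx : x ∉ Ioo a b) :
    χ x = 0 := by
  by_contra h
  exact hx (hs (subset_tsupport χ h))

theorem dbr_int (G χ : ℝ → ℝ) {a b : ℝ} (ha : 0 < a) (hab : a < b) (hs : tsupport χ ⊆ Ioo a b) :
    ∫ s in Ioi (0 : ℝ), G s * χ s = ∫ s in a..b, G s * χ s := by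
  rw [intervalIntegral.integral_of_le hab.le]
  apply setIntegral_eq_of_subset_of_forall_sdiff_eq_zero measurableSet_Ioi
  · intro x hx
    exact lt_trans ha hx.1
  · intro x hx
    rw [dbr_zero hs (fun h => hx.2 ⟨h.1, h.2.le⟩), mul_zero]

theorem dbr_ii (f : ℝ → ℝ) (h1 : ∀ a b, 0 < a → a ≤ b → IntervalIntegrable f volume a b)
    (a b : ℝ) (ha : 0 < a) (hb : 0 < b) : IntervalIntegrable f volume a b := by
  rcases le_total a b with h | h
  · exact h1 a b ha h
  · exact (h1 b a hb h).symm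

theorem dbr_parts (F' : ℝ → ℝ) (h1 : ∀ a b, 0 < a → a ≤ b → IntervalIntegrable F' volume a b)
    (χ : ℝ → ℝ) (hχ : ContDiff ℝ ((⊤ : ℕ∞) : WithTop ℕ∞) χ) {a b : ℝ} (ha : 0 < a) (hab : a < b)
    (hs : tsupport χ ⊆ Ioo a b) :
    ∫ s in a..b, (∫ t in (1:ℝ)..s, F' t) * deriv χ s = - ∫ s in a..b, F' s * χ s := by
  have hb : 0 < b := lt_trans ha hab
  set P₁ : ℝ → ℝ := fun s => ∫ t in a..s, F' t with hP1
  have hFab := h1 a b ha hab.le
  have hP1ac : AbsolutelyContinuousOnInterval P₁ a b :=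
    hFab.absolutelyContinuousOnInterval_intervalIntegral (c := a) (by simp)
  have hcast : (1 : WithTop ℕ∞) ≤ ((⊤ : ℕ∞) : WithTop ℕ∞) := by exact_mod_cast le_top
  have hχac : AbsolutelyContinuousOnInterval χ a b :=
    ContDiffOn.absolutelyContinuousOnInterval (hχ.of_le hcast).contDiffOn
  have hχa : χ a = 0 := dbr_zero hs (fun h => lt_irrefl _ h.1)
  have hχb : χ b = 0 := dbr_zero hs (fun h => lt_irrefl _ h.2)
  have hparts := hP1ac.integral_mul_deriv_eq_deriv_mul hχac
  rw [hχa, hχb, mul_zero, mul_zero, sub_zero, zero_sub] at hparts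
  have hd : ∫ x in a..b, deriv P₁ x * χ x = ∫ s in a..b, F' s * χ s := by
    apply intervalIntegral.integral_congr_ae
    filter_upwards [hFab.ae_hasDerivAt_integral] with x hx hx2
    have hx3 : x ∈ uIcc a b := uIoc_subset_uIcc hx2
    rw [(hx hx3 a (by simp)).deriv]
  rw [hd] at hparts
  have hdc : ∫ s in a..b, deriv χ s = 0 := by
    rw [hχac.integral_deriv_eq_sub, hχa, hχb, sub_zero]
  have hP : ∀ s ∈ uIcc a b, (∫ t in (1:ℝ)..s, F' t) * deriv χ s =
      (∫ t in (1:ℝ)..a, F' t) * deriv χ s + P₁ s * deriv χ s := by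
    intro s hs'
    rw [uIcc_of_le hab.le] at hs'
    have h2 : (∫ t in (1:ℝ)..a, F' t) + P₁ s = ∫ t in (1:ℝ)..s, F' t :=
      intervalIntegral.integral_add_adjacent_intervals (dbr_ii F' h1 1 a one_pos ha)
        (dbr_ii F' h1 a s ha (lt_of_lt_of_le ha hs'.1))
    rw [← h2]; ring
  have hdcont : Continuous (deriv χ) := hχ.continuous_deriv hcast
  rw [intervalIntegral.integral_congr hP, intervalIntegral.integral_add, 
    intervalIntegral.integral_const_mul, hdc, mul_zero, zero_add, hparts]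
  · exact (continuous_const.mul hdcont).intervalIntegrable _ _
  · exact (hP1ac.continuousOn.mul hdcont.continuousOn).intervalIntegrable

/-- du Bois-Reymond lemma on `(0,∞)` -/
theorem DBR (F₀ F' : ℝ → ℝ) (h0 : ∀ a b, 0 < a → a ≤ b → IntervalIntegrable F₀ volume a b)
    (h1 : ∀ a b, 0 < a → a ≤ b → IntervalIntegrable F' volume a b)
    (h : ∀ χ : ℝ → ℝ, ContDiff ℝ ((⊤ : ℕ∞) : WithTop ℕ∞) χ → HasCompactSupport χ →
      tsupport χ ⊆ Ioi 0 →
      ∫ s in Ioi (0 : ℝ), F₀ s * deriv χ s = - ∫ s in Ioi (0 : ℝ), F' s * χ s) :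
    ∃ F : ℝ → ℝ, AC F F' ∧ ∀ᵐ s ∂(volume.restrict (Ioi (0 : ℝ))), F₀ s = F s := by
  have hcast : (1 : WithTop ℕ∞) ≤ ((⊤ : ℕ∞) : WithTop ℕ∞) := by exact_mod_cast le_top
  set P : ℝ → ℝ := fun s => ∫ t in (1:ℝ)..s, F' t with hP
  have hPsub : ∀ a b : ℝ, 0 < a → 0 < b → P b - P a = ∫ t in a..b, F' t := by
    intro a b ha hb
    have h2 := intervalIntegral.integral_add_adjacent_intervals
      (dbr_ii F' h1 1 a one_pos ha) (dbr_ii F' h1 a b ha hb)
    show (∫ t in (1:ℝ)..b, F' t) - (∫ t in (1:ℝ)..a, F' t) = _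
    rw [← h2]; ring
  have hPcont : ∀ a b : ℝ, 0 < a → a ≤ b → ContinuousOn P (Icc a b) := by
    intro a b ha hab
    have hb : 0 < b := lt_of_lt_of_le ha hab
    have h2 : AbsolutelyContinuousOnInterval (fun s => ∫ t in a..s, F' t) a b :=
      (h1 a b ha hab).absolutelyContinuousOnInterval_intervalIntegral (c := a) (by simp)
    have h3 := h2.continuousOn
    rw [uIcc_of_le hab] at h3
    have h4 : ContinuousOn (fun s => P a + ∫ t in a..s, F' t) (Icc a b) :=
      continuousOn_const.add h3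
    apply h4.congr
    intro s hs
    have := hPsub a s ha (lt_of_lt_of_le ha hs.1)
    show P s = P a + ∫ t in a..s, F' t
    linarith
  have hPii : ∀ a b : ℝ, 0 < a → a ≤ b → IntervalIntegrable P volume a b := by
    intro a b ha hab
    apply ContinuousOn.intervalIntegrable
    rw [uIcc_of_le hab]
    exact hPcont a b ha hab
  set u : ℝ → ℝ := fun s => F₀ s - P s with hu
  have huii : ∀ a b : ℝ, 0 < a → a ≤ b → IntervalIntegrable u volume a b := fun a b ha hab =>
    (h0 a b ha hab).sub (hPii a b ha hab)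
  -- step B
  have hB : ∀ χ : ℝ → ℝ, ContDiff ℝ ((⊤ : ℕ∞) : WithTop ℕ∞) χ → HasCompactSupport χ →
      tsupport χ ⊆ Ioi 0 → ∫ s in Ioi (0 : ℝ), u s * deriv χ s = 0 := by
    intro χ hχ hχc hχs
    obtain ⟨a, b, ha, hab, hsab⟩ := dbr_supp χ hχc hχs
    have hsab' : tsupport (deriv χ) ⊆ Ioo a b := Subset.trans tsupport_deriv_subset hsab
    have hdcont : Continuous (deriv χ) := hχ.continuous_deriv hcast
    have e1 := h χ hχ hχc hχs
    rw [dbr_int _ _ ha hab hsab', dbr_int _ _ ha hab hsab] at e1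
    have e2 := dbr_parts F' h1 χ hχ ha hab hsab
    rw [dbr_int _ _ ha hab hsab']
    have e3 : ∫ s in a..b, u s * deriv χ s =
        (∫ s in a..b, F₀ s * deriv χ s) - ∫ s in a..b, P s * deriv χ s := by
      rw [← intervalIntegral.integral_sub]
      · apply intervalIntegral.integral_congr
        intro s _
        show (F₀ s - P s) * deriv χ s = F₀ s * deriv χ s - P s * deriv χ s
        ring
      · exact (h0 a b ha hab.le).mul_continuousOn hdcont.continuousOn
      · exact (hPii a b ha hab.le).mul_continuousOn hdcont.continuousOn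
    rw [e3, e1]
    show - (∫ s in a..b, F' s * χ s) - (∫ s in a..b, (∫ t in (1:ℝ)..s, F' t) * deriv χ s) = 0
    rw [e2]; ring
  -- the bump
  let bmp : ContDiffBump (1 : ℝ) := ⟨1/4, 1/2, by norm_num, by norm_num⟩
  set χ₀ : ℝ → ℝ := bmp.normed volume with hχ₀
  have hχ₀d : ContDiff ℝ ((⊤ : ℕ∞) : WithTop ℕ∞) χ₀ := bmp.contDiff_normed
  have hχ₀c : HasCompactSupport χ₀ := bmp.hasCompactSupport_normed
  have hχ₀s : tsupport χ₀ ⊆ Ioi 0 := by
    rw [hχ₀, bmp.tsupport_normed_eq]
    intro x hx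
    rw [Metric.mem_closedBall, Real.dist_eq] at hx
    have h2 := (abs_le.1 hx).1
    show 0 < x
    have h3 : bmp.rOut = 1/2 := rfl
    rw [h3] at h2
    linarith
  have hχ₀i : ∫ x, χ₀ x = 1 := bmp.integral_normed
  set c : ℝ := ∫ s in Ioi (0 : ℝ), u s * χ₀ s with hc
  -- step D
  have hfull : ∀ φ : ℝ → ℝ, ∀ a b : ℝ, a < b → tsupport φ ⊆ Ioo a b → ∫ x, φ x = ∫ x in a..b, φ x := by
    intro φ a b hab hs
    rw [intervalIntegral.integral_of_le hab.le, ← setIntegral_univ]
    apply setIntegral_eq_of_subset_of_forall_sdiff_eq_zero MeasurableSet.univ (subset_univ _)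
    intro x hx
    exact dbr_zero hs (fun h => hx.2 ⟨h.1, h.2.le⟩)
  have hD : ∀ ψ : ℝ → ℝ, ContDiff ℝ ((⊤ : ℕ∞) : WithTop ℕ∞) ψ → HasCompactSupport ψ →
      tsupport ψ ⊆ Ioi 0 → ∫ x, ψ x = 0 → ∫ s in Ioi (0 : ℝ), u s * ψ s = 0 := by
    intro ψ hψ hψc hψs hψi
    obtain ⟨a, b, ha, hab, hsab⟩ := dbr_supp ψ hψc hψs
    set χ : ℝ → ℝ := fun s => ∫ t in a..s, ψ t with hχ
    have hder : ∀ s, HasDerivAt χ (ψ s) s := fun s =>
      intervalIntegral.integral_hasDerivAt_right (hψ.continuous.intervalIntegrable _ _)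
        hψ.continuous.stronglyMeasurable.stronglyMeasurableAtFilter hψ.continuous.continuousAt
    have hderiv : deriv χ = ψ := funext fun s => (hder s).deriv
    have hχd : ContDiff ℝ ((⊤ : ℕ∞) : WithTop ℕ∞) χ := by
      rw [contDiff_infty_iff_deriv]
      exact ⟨fun s => (hder s).differentiableAt, by rw [hderiv]; exact hψ⟩
    have hz : ∀ x, x ∉ Icc a b → χ x = 0 := by
      intro x hx
      rw [mem_Icc, not_and_or, not_le, not_le] at hx
      rcases hx with hx | hx
      · show ∫ t in a..x, ψ t = 0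
        rw [intervalIntegral.integral_symm]
        have : ∫ t in x..a, ψ t = ∫ t in x..a, (0:ℝ) := by
          apply intervalIntegral.integral_congr
          intro t ht
          rw [uIcc_of_le hx.le] at ht
          exact dbr_zero hsab (fun h => not_lt.2 ht.2 h.1)
        rw [this]; simp
      · show ∫ t in a..x, ψ t = 0
        rw [← intervalIntegral.integral_add_adjacent_intervals
          (hψ.continuous.intervalIntegrable a b) (hψ.continuous.intervalIntegrable b x),
          ← hfull ψ a b hab hsab, hψi, zero_add]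
        have : ∫ t in b..x, ψ t = ∫ t in b..x, (0:ℝ) := by
          apply intervalIntegral.integral_congr
          intro t ht
          rw [uIcc_of_le hx.le] at ht
          exact dbr_zero hsab (fun h => not_lt.2 ht.1 h.2)
        rw [this]; simp
    have hsupp : tsupport χ ⊆ Icc a b := by
      apply closure_minimal _ isClosed_Icc
      intro x hx
      by_contra hcon
      exact hx (hz x hcon)
    have hχc : HasCompactSupport χ := isCompact_Icc.of_isClosed_subset (isClosed_tsupport χ) hsupp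
    have hχs : tsupport χ ⊆ Ioi 0 := fun x hx => lt_of_lt_of_le ha (hsupp hx).1
    have := hB χ hχd hχc hχs
    rwa [hderiv] at this
  have hE : ∀ φ : ℝ → ℝ, ContDiff ℝ ((⊤ : ℕ∞) : WithTop ℕ∞) φ → HasCompactSupport φ →
      tsupport φ ⊆ Ioi 0 → ∫ s in Ioi (0 : ℝ), u s * φ s = c * ∫ x, φ x := by
    intro φ hφ hφc hφs
    set I : ℝ := ∫ x, φ x with hI
    have hcφ : Integrable φ := hφ.continuous.integrable_of_hasCompactSupport hφc
    have hcχ : Integrable χ₀ := hχ₀d.continuous.integrable_of_hasCompactSupport hχ₀c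
    have hψ : ContDiff ℝ ((⊤ : ℕ∞) : WithTop ℕ∞) (fun x => φ x - I * χ₀ x) :=
      hφ.sub (contDiff_const.mul hχ₀d)
    have hψc : HasCompactSupport (fun x => φ x - I * χ₀ x) := hφc.sub hχ₀c.mul_left
    have hψs : tsupport (fun x => φ x - I * χ₀ x) ⊆ Ioi 0 := by
      have h2 : tsupport (fun x => φ x - I * χ₀ x) ⊆ tsupport φ ∪ tsupport χ₀ := by
        apply closure_minimal _ ((isClosed_tsupport φ).union (isClosed_tsupport χ₀))
        intro x hx
        by_contra hcon
        rw [mem_union, not_or] at hcon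
        apply hx
        show φ x - I * χ₀ x = 0
        rw [image_eq_zero_of_notMem_tsupport hcon.1, image_eq_zero_of_notMem_tsupport hcon.2]
        ring
      exact h2.trans (union_subset hφs hχ₀s)
    have hψi : ∫ x, (φ x - I * χ₀ x) = 0 := by
      rw [integral_sub hcφ (hcχ.const_mul I), integral_const_mul, hχ₀i]
      ring
    have e1 := hD _ hψ hψc hψs hψi
    have int1 : ∀ g : ℝ → ℝ, Continuous g → HasCompactSupport g → tsupport g ⊆ Ioi 0 →
        IntegrableOn (fun s => u s * g s) (Ioi 0) := by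
      intro g hg hgc hgs
      obtain ⟨a, b, ha, hab, hsab⟩ := dbr_supp g hgc hgs
      have h3 : IntegrableOn (fun s => u s * g s) (Ioc a b) :=
        (intervalIntegrable_iff_integrableOn_Ioc_of_le hab.le).1
          ((huii a b ha hab.le).mul_continuousOn hg.continuousOn)
      have h4 : IntegrableOn (fun s => u s * g s) (Ioi 0 \ Ioc a b) := by
        have h5 : IntegrableOn (fun _ : ℝ => (0:ℝ)) (Ioi 0 \ Ioc a b) := integrableOn_zero
        refine h5.congr_fun ?_ (measurableSet_Ioi.diff measurableSet_Ioc)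
        intro x hx
        show (0:ℝ) = u x * g x
        rw [dbr_zero hsab (fun h => hx.2 ⟨h.1, h.2.le⟩), mul_zero]
      exact (h3.union h4).mono_set (by
        intro x hx
        by_cases hx2 : x ∈ Ioc a b
        · exact Or.inl hx2
        · exact Or.inr ⟨hx, hx2⟩)
    have e2 : ∫ s in Ioi (0 : ℝ), u s * (φ s - I * χ₀ s) =
        (∫ s in Ioi (0 : ℝ), u s * φ s) - I * ∫ s in Ioi (0 : ℝ), u s * χ₀ s := by
      rw [← integral_const_mul, ← integral_sub (int1 φ hφ.continuous hφc hφs)
        ((int1 χ₀ hχ₀d.continuous hχ₀c hχ₀s).const_mul I)]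
      congr 1
      funext s
      ring
    rw [e2] at e1
    rw [mul_comm c I]
    linarith
  have hloc : LocallyIntegrableOn (fun s => u s - c) (Ioi (0:ℝ)) volume := by
    intro x hx
    have hx0 : 0 < x := hx
    refine ⟨Ioc (x/2) (2*x), ?_, ?_⟩
    · exact mem_nhdsWithin_of_mem_nhds (Ioc_mem_nhds (by linarith) (by linarith))
    · exact (intervalIntegrable_iff_integrableOn_Ioc_of_le (by linarith)).1
        ((huii (x/2) (2*x) (by linarith) (by linarith)).sub intervalIntegrable_const)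
  have hfin := isOpen_Ioi.ae_eq_zero_of_integral_contDiff_smul_eq_zero hloc (by
    intro g hg hgc hgs
    obtain ⟨a, b, ha, hab, hsab⟩ := dbr_supp g hgc hgs
    have e1 := hE g hg hgc hgs
    rw [dbr_int _ _ ha hab hsab] at e1
    have e3 : tsupport (fun x => g x • (u x - c)) ⊆ Ioo a b :=
      (tsupport_smul_subset_left g _).trans hsab
    rw [hfull _ a b hab e3]
    have e4 : ∫ x in a..b, g x • (u x - c) = (∫ x in a..b, u x * g x) - c * ∫ x in a..b, g x := by
      rw [← intervalIntegral.integral_const_mul, ← intervalIntegral.integral_sub]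
      · apply intervalIntegral.integral_congr
        intro x _
        show g x * (u x - c) = u x * g x - c * g x
        ring
      · exact (huii a b ha hab.le).mul_continuousOn hg.continuous.continuousOn
      · exact (hg.continuous.intervalIntegrable a b).const_mul c
    rw [e4, e1, hfull g a b hab hsab]
    ring)
  refine ⟨fun s => c + P s, ?_, ?_⟩
  · intro a b ha hab
    refine ⟨h1 a b ha hab, ?_⟩
    rw [← hPsub a b ha (lt_of_lt_of_le ha hab)]
    ring
  · rw [ae_restrict_iff' measurableSet_Ioi]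
    filter_upwards [hfin] with x hx hx0
    have h2 := hx hx0
    have h3 : F₀ x - P x - c = 0 := h2
    linarith

end Pool.Agent.RM8c
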