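import Pool.Agent.RM8c.Defs
import Pool.Agent.RM8c.P1
import Pool.Agent.RM8c.R1
import Pool.Agent.RM8c.R2
set_option autoImplicit false
open MeasureTheory Set Filter Topology
namespace Pool.Agent.RM8c
theorem radial_profile_li (n : ℕ) (h : ℝ → ℝ) (hh : IntegrableOn (fun s => h s * s ^ n) (Ioi 0)) :
    ∀ a b, 0 < a → a ≤ b → IntervalIntegrable h volume a b := by
  intro a b ha hab
  rw [intervalIntegrable_iff_integrableOn_Icc_of_le hab]
  have hsub : Icc a b ⊆ Ioi (0 : ℝ) := fun s hs => lt_of_lt_of_le ha hs.1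
  have h1 : IntegrableOn (fun s => h s * s ^ n) (Icc a b) := hh.mono_set hsub
  have h2 : ContinuousOn (fun s : ℝ => (s ^ n)⁻¹) (Icc a b) := by
    refine ContinuousOn.inv₀ (by fun_prop) fun s hs => ?_
    have : 0 < s := hsub hs
    positivity
  have h3 := h1.mul_continuousOn h2 isCompact_Icc
  refine h3.congr_fun (fun s hs => ?_) measurableSet_Icc
  have : 0 < s := hsub hs
  have hs' : s ^ n ≠ 0 := by positivity
  show h s * s ^ n * (s ^ n)⁻¹ = h s
  rw [mul_assoc, mul_inv_cancel₀ hs', mul_one]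

theorem radial_profile (n : ℕ) (f : E n → ℝ) (g : E n → E n)
    (hrad : ∀ x y : E n, ‖x‖ = ‖y‖ → f x = f y) (hf : Integrable f) (hg : Integrable g)
    (hw : ∀ φ : E n → ℝ, ContDiff ℝ ((⊤ : ℕ∞) : WithTop ℕ∞) φ → HasCompactSupport φ →
      ∀ v : E n, ∫ x, f x * fderiv ℝ φ x v = - ∫ x, inner ℝ (g x) v * φ x) :
    ∃ F F' : ℝ → ℝ, AC F F' ∧ (∀ᵐ x : E n, f x = F ‖x‖) ∧
      IntegrableOn (fun s => F' s * s ^ n) (Ioi 0) ∧
      (n + 1) * volume.real (Metric.ball (0 : E n) 1) * (∫ s in Ioi (0 : ℝ), |F' s| * s ^ n) ≤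
        ∫ x, ‖g x‖ := by
  obtain ⟨F', hF', hle, hweak⟩ := weak_profile n f g hrad hf hg hw
  have hfe : ∀ x : E n, f x = f (‖x‖ • e1 n) := by
    intro x
    refine hrad _ _ ?_
    rw [norm_smul, norm_norm, e1, EuclideanSpace.norm_single, norm_one, mul_one]
  have hf' : Integrable (fun x : E n => (fun s : ℝ => f (s • e1 n)) ‖x‖) :=
    hf.congr (Filter.Eventually.of_forall hfe)
  have hF₀ := (polar n (fun s : ℝ => f (s • e1 n))).1.mp hf'
  obtain ⟨F, hAC, hae⟩ := DBR (fun s : ℝ => f (s • e1 n)) F' (radial_profile_li n _ hF₀)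
    (radial_profile_li n _ hF') hweak
  refine ⟨F, F', hAC, ?_, hF', hle⟩
  have h1 := ae_norm n (fun s => f (s • e1 n) = F s) hae
  filter_upwards [h1] with x hx
  rw [hfe x]
  exact hx

end Pool.Agent.RM8c
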