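import Pool.Agent.RM8c.Defs
set_option autoImplicit false
open MeasureTheory Set Filter Topology
namespace Pool.Agent.RM8c
theorem AC_abs_der (F G : ℝ → ℝ) (x d d' : ℝ) (hF : HasDerivAt F d x)
    (hG : HasDerivAt G d' x) (hle : ∀ᶠ y in 𝓝 x, |G y - G x| ≤ |F y - F x|) : |d'| ≤ |d| := by
  rw [hasDerivAt_iff_tendsto_slope] at hF hG
  refine le_of_tendsto_of_tendsto hG.abs hF.abs ?_
  have hle' : ∀ᶠ y in 𝓝[≠] x, |G y - G x| ≤ |F y - F x| := hle.filter_mono nhdsWithin_le_nhds
  filter_upwards [hle'] with y hy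
  rw [slope_def_field, slope_def_field, abs_div, abs_div]
  exact div_le_div_of_nonneg_right hy (abs_nonneg _)

theorem AC_abs (F F' : ℝ → ℝ) (h : AC F F') :
    ∃ f₁ : ℝ → ℝ, AC (fun s => |F s|) f₁ ∧ ∀ s, |f₁ s| ≤ |F' s| := by
  classical
  refine ⟨fun s => if |deriv (fun s => |F s|) s| ≤ |F' s| then deriv (fun s => |F s|) s else 0,
    ?_, ?_⟩
  · intro a b ha hab
    obtain ⟨hint, -⟩ := h a b ha hab
    have hdiff : ∀ x ∈ Icc a b, F x = F a + ∫ t in a..x, F' t := by
      intro x hx
      have h1 := (h a x ha hx.1).2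
      rw [← h1]; ring
    have hG := hint.absolutelyContinuousOnInterval_intervalIntegral (c := a) left_mem_uIcc
    have hdist : ∀ x y, |(|F x| - |F y|)| ≤ |F x - F y| := fun x y => abs_abs_sub_abs_le _ _
    have hAC : AbsolutelyContinuousOnInterval (fun s => |F s|) a b := by
      rw [absolutelyContinuousOnInterval_iff] at hG ⊢
      intro ε hε
      obtain ⟨δ, hδ, hG⟩ := hG ε hε
      refine ⟨δ, hδ, fun E hE hsum =>
        lt_of_le_of_lt (Finset.sum_le_sum fun i hi => ?_) (hG E hE hsum)⟩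
      obtain ⟨hx, hy⟩ := hE.1 i hi
      rw [uIcc_of_le hab] at hx hy
      rw [Real.dist_eq, Real.dist_eq]
      refine (hdist _ _).trans (le_of_eq ?_)
      rw [hdiff _ hx, hdiff _ hy]
      congr 1
      ring
    have hI := hAC.intervalIntegrable_deriv
    have hE := hAC.integral_deriv_eq_sub
    have hae : (fun s => deriv (fun s => |F s|) s) =ᵐ[volume.restrict (uIoc a b)]
        fun s => if |deriv (fun s => |F s|) s| ≤ |F' s| then deriv (fun s => |F s|) s else 0 := by
      rw [Filter.EventuallyEq, ae_restrict_iff' measurableSet_uIoc]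
      have hb : ∀ᵐ x : ℝ, x ≠ b := by simp [ae_iff, measure_singleton]
      filter_upwards [hAC.ae_differentiableAt, hint.ae_hasDerivAt_integral, hb]
        with x hx1 hx2 hxb hx
      rw [uIoc_of_le hab] at hx
      have hxI : x ∈ uIcc a b := by rw [uIcc_of_le hab]; exact ⟨hx.1.le, hx.2⟩
      have hxlt : x < b := lt_of_le_of_ne hx.2 hxb
      have hd1 := (hx1 hxI).hasDerivAt
      have hd2 := hx2 hxI a left_mem_uIcc
      have hnear : ∀ᶠ y in 𝓝 x, y ∈ Icc a b := Icc_mem_nhds hx.1 hxlt
      have hle := AC_abs_der _ _ x _ _ hd2 hd1 (by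
        filter_upwards [hnear] with y hy
        refine (hdist _ _).trans (le_of_eq ?_)
        rw [hdiff _ hy, hdiff _ ⟨hx.1.le, hx.2⟩]
        congr 1
        ring)
      rw [if_pos hle]
    refine ⟨hI.congr_ae hae, ?_⟩
    show |F b| - |F a| = _
    rw [← hE]
    exact intervalIntegral.integral_congr_ae_restrict hae
  · intro s
    show |if |deriv (fun s => |F s|) s| ≤ |F' s| then deriv (fun s => |F s|) s else 0| ≤ |F' s|
    split_ifs with h1
    · exact h1
    · rw [abs_zero]
      exact abs_nonneg _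

end Pool.Agent.RM8c
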