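import Pool.Agent.RM8c.Defs
set_option autoImplicit false
open MeasureTheory Set Filter Topology
namespace Pool.Agent.RM8c
theorem avg_rot (n : ℕ) (f : E n → ℝ) (F : ℝ → ℝ) (hfF : ∀ᵐ x : E n, |f x| = F ‖x‖)
    (hf : Integrable f) (x : E n) (r : ℝ) (hr : 0 < r) :
    (volume (Metric.ball x r))⁻¹ * ∫⁻ y in Metric.ball x r, ‖f y‖ₑ =
      ENNReal.ofReal (A n F ‖x‖ r) := by
  have hU : ∃ U : E n ≃ₗᵢ[ℝ] E n, U x = ‖x‖ • e1 n := by
    refine ⟨(Submodule.span ℝ {x - ‖x‖ • e1 n})ᗮ.reflection, ?_⟩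
    apply Submodule.reflection_sub
    rw [norm_smul, e1, EuclideanSpace.norm_single]
    simp
  obtain ⟨U, hUx⟩ := hU
  have hint : Integrable (fun z : E n => F ‖z‖) := by
    refine (hf.abs).congr ?_
    filter_upwards [hfF] with z hz
    exact hz
  have h1 : ∫⁻ y in Metric.ball x r, ‖f y‖ₑ = ∫⁻ y in Metric.ball x r, ENNReal.ofReal (F ‖y‖) := by
    apply lintegral_congr_ae
    filter_upwards [ae_restrict_of_ae hfF] with z hz
    rw [← hz, ← Real.norm_eq_abs, ofReal_norm_eq_enorm]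
  have h2 : ∫⁻ y in Metric.ball x r, ENNReal.ofReal (F ‖y‖)
      = ∫⁻ z in Metric.ball (‖x‖ • e1 n) r, ENNReal.ofReal (F ‖z‖) := by
    have hmp : MeasurePreserving U volume volume := U.measurePreserving
    have hme : MeasurableEmbedding U := U.toHomeomorph.measurableEmbedding
    have h := hmp.setLIntegral_comp_preimage_emb hme (fun z : E n => ENNReal.ofReal (F ‖z‖))
      (Metric.ball (‖x‖ • e1 n) r)
    rw [← h]
    have hp : U ⁻¹' Metric.ball (‖x‖ • e1 n) r = Metric.ball x r := by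
      rw [← hUx]
      ext z
      simp
    rw [hp]
    simp
  have h3 : ∫⁻ z in Metric.ball (‖x‖ • e1 n) r, ENNReal.ofReal (F ‖z‖)
      = ENNReal.ofReal (∫ z in Metric.ball (‖x‖ • e1 n) r, F ‖z‖) := by
    rw [ofReal_integral_eq_lintegral_ofReal]
    · exact hint.integrableOn
    · filter_upwards [ae_restrict_of_ae hfF] with z hz
      rw [← hz]
      exact abs_nonneg _
  rw [h1, h2, h3, A, ENNReal.ofReal_mul (by positivity)]
  congr 1
  have hpos : 0 < volume (Metric.ball (0 : E n) r) := Metric.measure_ball_pos _ _ hr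
  have htop : volume (Metric.ball (0 : E n) r) ≠ ⊤ := measure_ball_lt_top.ne
  rw [Measure.addHaar_ball_center, ENNReal.ofReal_inv_of_pos, Measure.real,
    ENNReal.ofReal_toReal htop]
  exact ENNReal.toReal_pos hpos.ne' htop

end Pool.Agent.RM8c
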