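import Pool.Agent.RM8c.Defs
import Pool.Agent.RM8c.P1
set_option autoImplicit false
open MeasureTheory Set Filter Topology
namespace Pool.Agent.RM8c
theorem wg_int_cont (m m' : ℝ → ℝ) (hm : AC m m') : ContinuousOn m (Ioi 0) := by
  intro x hx
  have hx0 : (0 : ℝ) < x := hx
  have h1 : ContinuousOn m (Icc (x / 2) (2 * x)) := by
    have h2 := (hm (x / 2) (2 * x) (by linarith) (by linarith)).1
    have h3 : ContinuousOn (fun t => m (x / 2) + ∫ s in (x / 2)..t, m' s) (Icc (x / 2) (2 * x)) := by
      have h4 := intervalIntegral.continuousOn_primitive_interval' h2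
        (Set.left_mem_uIcc : x / 2 ∈ Set.uIcc (x / 2) (2 * x))
      rw [Set.uIcc_of_le (by linarith)] at h4
      exact continuousOn_const.add h4
    refine h3.congr ?_
    intro t ht
    have h5 := (hm (x / 2) t (by linarith) ht.1).2
    show m t = m (x / 2) + ∫ s in (x / 2)..t, m' s
    rw [← h5]
    ring
  exact (h1.continuousAt (Icc_mem_nhds (by linarith) (by linarith))).continuousWithinAt

theorem wg_int_bound (n : ℕ) (m m' : ℝ → ℝ) (hm : AC m m')
    (hi : IntegrableOn (fun s => m' s * s ^ n) (Ioi 0)) (R : ℝ) (s : ℝ) (hs : 0 < s)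
    (hsR : s ≤ R) : |m s * s ^ n| ≤ |m R| * R ^ n + ∫ t in Ioi (0 : ℝ), |m' t * t ^ n| := by
  obtain ⟨h1, h2⟩ := hm s R hs hsR
  have h3 : IntegrableOn m' (Ioc s R) := (intervalIntegrable_iff_integrableOn_Ioc_of_le hsR).mp h1
  have h4 : |∫ t in s..R, m' t| * s ^ n ≤ ∫ t in Ioi (0 : ℝ), |m' t * t ^ n| := by
    calc |∫ t in s..R, m' t| * s ^ n = |∫ t in Ioc s R, m' t| * s ^ n := by
          rw [intervalIntegral.integral_of_le hsR]
      _ ≤ (∫ t in Ioc s R, |m' t|) * s ^ n := by
          apply mul_le_mul_of_nonneg_right _ (by positivity)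
          exact abs_integral_le_integral_abs
      _ = ∫ t in Ioc s R, |m' t| * s ^ n := by rw [integral_mul_const]
      _ ≤ ∫ t in Ioc s R, |m' t * t ^ n| := by
          apply setIntegral_mono_on
          · exact h3.abs.mul_const _
          · exact (hi.mono_set (fun t ht => hs.trans ht.1)).abs
          · exact measurableSet_Ioc
          · intro t ht
            have ht0 : 0 < t := hs.trans ht.1
            rw [abs_mul, abs_of_pos (pow_pos ht0 n)]
            exact mul_le_mul_of_nonneg_left (pow_le_pow_left₀ hs.le ht.1.le n) (abs_nonneg _)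
      _ ≤ ∫ t in Ioi (0 : ℝ), |m' t * t ^ n| := by
          apply setIntegral_mono_set hi.abs
          · exact Filter.Eventually.of_forall fun t => abs_nonneg _
          · exact Filter.Eventually.of_forall (fun t ht => hs.trans ht.1)
  have h5 : m s = m R - ∫ t in s..R, m' t := by rw [← h2]; ring
  have h6 : |m s| ≤ |m R| + |∫ t in s..R, m' t| := by
    rw [h5]
    exact abs_sub _ _
  rw [abs_mul, abs_of_pos (pow_pos hs n)]
  calc |m s| * s ^ n ≤ (|m R| + |∫ t in s..R, m' t|) * s ^ n :=
        mul_le_mul_of_nonneg_right h6 (by positivity)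
    _ = |m R| * s ^ n + |∫ t in s..R, m' t| * s ^ n := by ring
    _ ≤ |m R| * R ^ n + ∫ t in Ioi (0 : ℝ), |m' t * t ^ n| := by
        apply add_le_add _ h4
        exact mul_le_mul_of_nonneg_left (pow_le_pow_left₀ hs.le hsR n) (abs_nonneg _)

theorem wg_int (n : ℕ) (m m' : ℝ → ℝ) (hm : AC m m')
    (hi : IntegrableOn (fun s => m' s * s ^ n) (Ioi 0)) :
    LocallyIntegrable (fun x : E n => m ‖x‖) ∧
      Integrable (fun x : E n => (m' ‖x‖ / ‖x‖) • x) ∧
      ∫ x : E n, ‖(m' ‖x‖ / ‖x‖) • x‖ =
        (n + 1) * volume.real (Metric.ball (0 : E n) 1) * ∫ s in Ioi (0 : ℝ), |m' s| * s ^ n := by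
  have hm'int : Integrable (fun x : E n => m' ‖x‖) := (polar n m').1.mpr hi
  refine ⟨?_, ?_, ?_⟩
  · intro x
    refine ⟨Metric.ball 0 (‖x‖ + 1), ?_, ?_⟩
    · apply Metric.isOpen_ball.mem_nhds
      rw [mem_ball_zero_iff]
      linarith
    · have hR : 0 < ‖x‖ + 1 := by positivity
      have h1 : IntegrableOn (fun s => (Iic (‖x‖ + 1)).indicator m s * s ^ n) (Ioi 0) := by
        have h2 : IntegrableOn (fun s => m s * s ^ n) (Ioc 0 (‖x‖ + 1)) := by
          refine Integrable.of_bound ?_ (|m (‖x‖ + 1)| * (‖x‖ + 1) ^ n +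
            ∫ t in Ioi (0 : ℝ), |m' t * t ^ n|) ?_
          · apply ContinuousOn.aestronglyMeasurable _ measurableSet_Ioc
            exact ((wg_int_cont m m' hm).mono (fun t ht => ht.1)).mul (by fun_prop)
          · rw [ae_restrict_iff' measurableSet_Ioc]
            refine Filter.Eventually.of_forall fun s hs => ?_
            rw [Real.norm_eq_abs]
            exact wg_int_bound n m m' hm hi (‖x‖ + 1) s hs.1 hs.2
        have h3 : (fun s => (Iic (‖x‖ + 1)).indicator m s * s ^ n) =
            (Iic (‖x‖ + 1)).indicator (fun s => m s * s ^ n) := by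
          funext s
          by_cases hs : s ∈ Iic (‖x‖ + 1)
          · rw [indicator_of_mem hs, indicator_of_mem hs]
          · rw [indicator_of_notMem hs, indicator_of_notMem hs, zero_mul]
        rw [h3, IntegrableOn, integrable_indicator_iff measurableSet_Iic, IntegrableOn,
          Measure.restrict_restrict measurableSet_Iic]
        have h4 : Iic (‖x‖ + 1) ∩ Ioi 0 = Ioc 0 (‖x‖ + 1) := by
          ext t
          simp only [mem_inter_iff, mem_Iic, mem_Ioi, mem_Ioc]
          tauto
        rw [h4]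
        exact h2
      have h5 := (polar n ((Iic (‖x‖ + 1)).indicator m)).1.mpr h1
      refine (h5.integrableOn (s := Metric.ball 0 (‖x‖ + 1))).congr_fun ?_ measurableSet_ball
      intro y hy
      rw [mem_ball_zero_iff] at hy
      exact indicator_of_mem (show ‖y‖ ∈ Iic (‖x‖ + 1) from hy.le) m
  · refine hm'int.mono ?_ ?_
    · exact (hm'int.aestronglyMeasurable.aemeasurable.div
        measurable_norm.aemeasurable).aestronglyMeasurable.smul
          (measurable_id.aestronglyMeasurable)
    · refine Filter.Eventually.of_forall fun x => ?_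
      rw [norm_smul, norm_div, norm_norm]
      by_cases hx : ‖x‖ = 0
      · rw [hx]; simp
      · rw [div_mul_cancel₀ _ hx]
  · have h1 : ∫ x : E n, ‖(m' ‖x‖ / ‖x‖) • x‖ = ∫ x : E n, |m' ‖x‖| := by
      apply integral_congr_ae
      have h2 : ∀ᵐ x : E n, x ≠ 0 := by
        rw [ae_iff]
        simp
      filter_upwards [h2] with x hx
      have hx' : ‖x‖ ≠ 0 := norm_ne_zero_iff.mpr hx
      rw [norm_smul, norm_div, norm_norm, div_mul_cancel₀ _ hx', Real.norm_eq_abs]
    rw [h1]
    exact (polar n (fun s => |m' s|)).2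

end Pool.Agent.RM8c
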