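import Pool.Agent.RM8c.Defs
set_option autoImplicit false
open MeasureTheory Set Filter Topology
namespace Pool.Agent.RM8c
theorem h170_H (h : ℝ → ℝ) (hc : Continuous h) (c R₀ s : ℝ) :
    HasDerivAt (fun s => c - ∫ t in s..R₀, h t) (h s) s := by
  have h1 := intervalIntegral.integral_hasDerivAt_left (hc.intervalIntegrable s R₀)
    (hc.stronglyMeasurableAtFilter volume (𝓝 s)) hc.continuousAt
  have h2 := h1.const_sub c
  rw [neg_neg] at h2
  exact h2

theorem h170_F {n : ℕ} (H : ℝ → ℝ) (h : ℝ → ℝ) (hH : ∀ s, HasDerivAt H (h s) s) (h0 : h 0 = 0)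
    (x : E n) :
    HasFDerivAt (fun x : E n => H ‖x‖) ((h ‖x‖ / ‖x‖) • innerSL ℝ x) x := by
  by_cases hx : x = 0
  · subst hx
    rw [norm_zero, h0, zero_div, zero_smul]
    have h1 := hH 0
    rw [h0] at h1
    rw [hasFDerivAt_iff_isLittleO_nhds_zero]
    rw [hasDerivAt_iff_isLittleO_nhds_zero] at h1
    have h2 : Tendsto (fun y : E n => ‖y‖) (𝓝 0) (𝓝 0) := tendsto_norm_zero
    have h3 := (h1.comp_tendsto h2).norm_right
    refine (Asymptotics.IsLittleO.of_norm_right ?_)
    refine h3.congr ?_ ?_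
    · intro y
      simp
    · intro y
      simp
  · have hn : ‖x‖ ≠ 0 := norm_ne_zero_iff.2 hx
    have a1 : HasFDerivAt (fun x : E n => ‖x‖ ^ 2) (2 • innerSL ℝ x) x :=
      (hasStrictFDerivAt_norm_sq x).hasFDerivAt
    have a2 := a1.sqrt (by positivity : ‖x‖ ^ 2 ≠ 0)
    simp only [Real.sqrt_sq (norm_nonneg _)] at a2
    have a3 := (hH ‖x‖).comp_hasFDerivAt x a2
    refine a3.congr_fderiv ?_
    ext v
    simp
    field_simp

theorem h170_k (h : ℝ → ℝ) (hc : Continuous h) (ht : tsupport h ⊆ Ioi 0) :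
    Continuous (fun s => h s / s) := by
  rw [continuous_iff_continuousAt]
  intro s
  by_cases hs : s = 0
  · subst hs
    have h0 : (0 : ℝ) ∉ tsupport h := fun h' => lt_irrefl (0 : ℝ) (ht h')
    rw [notMem_tsupport_iff_eventuallyEq] at h0
    have h1 : (fun s => h s / s) =ᶠ[𝓝 0] fun _ => (0 : ℝ) := by
      filter_upwards [h0] with s hs
      rw [hs]
      simp
    exact continuousAt_const.congr h1.symm
  · exact hc.continuousAt.div continuousAt_id hs

/-- integration by parts for radial functions which are `C¹` and constant near the origin -/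
theorem wg_smooth (n : ℕ) (h : ℝ → ℝ) (hc : Continuous h) (hs : HasCompactSupport h)
    (ht : tsupport h ⊆ Ioi 0) (c R₀ : ℝ) (φ : E n → ℝ)
    (hφ : ContDiff ℝ ((⊤ : ℕ∞) : WithTop ℕ∞) φ) (hφs : HasCompactSupport φ) (v : E n) :
    ∫ x : E n, (c - ∫ t in ‖x‖..R₀, h t) * fderiv ℝ φ x v =
      - ∫ x : E n, inner ℝ ((h ‖x‖ / ‖x‖) • x) v * φ x := by
  have h0 : h 0 = 0 := by
    by_contra hne
    exact lt_irrefl (0 : ℝ) (ht (subset_tsupport h hne))
  have hF := h170_F (n := n) (fun s => c - ∫ t in s..R₀, h t) h (fun s => h170_H h hc c R₀ s) h0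
  have hu : Continuous (fun x : E n => c - ∫ t in ‖x‖..R₀, h t) :=
    continuous_iff_continuousAt.2 (fun x => (hF x).continuousAt)
  have hk : Continuous (fun x : E n => h ‖x‖ / ‖x‖) := (h170_k h hc ht).comp continuous_norm
  have hfd : ∀ x : E n, fderiv ℝ (fun x : E n => c - ∫ t in ‖x‖..R₀, h t) x v =
      inner ℝ ((h ‖x‖ / ‖x‖) • x) v := by
    intro x
    rw [(hF x).fderiv, real_inner_smul_left]
    rfl
  have hdφ : Continuous (fun x => fderiv ℝ φ x v) :=
    (hφ.continuous_fderiv (by simp)).clm_apply continuous_const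
  have hdφs : HasCompactSupport (fun x => fderiv ℝ φ x v) := by
    refine (hφs.fderiv ℝ).mono ?_
    intro x hx
    rw [Function.mem_support] at hx ⊢
    intro h
    apply hx
    rw [h]
    rfl
  have i1 : Integrable (fun x : E n => (c - ∫ t in ‖x‖..R₀, h t) * fderiv ℝ φ x v) :=
    (hu.mul hdφ).integrable_of_hasCompactSupport (hdφs.mul_left)
  have i2 : Integrable (fun x : E n => (c - ∫ t in ‖x‖..R₀, h t) * φ x) :=
    (hu.mul hφ.continuous).integrable_of_hasCompactSupport (hφs.mul_left)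
  have i3 : Integrable (fun x : E n => fderiv ℝ (fun x : E n => c - ∫ t in ‖x‖..R₀, h t) x v * φ x) := by
    simp only [hfd]
    refine Continuous.integrable_of_hasCompactSupport ?_ (hφs.mul_left)
    exact ((hk.smul continuous_id).inner continuous_const).mul hφ.continuous
  rw [integral_mul_fderiv_eq_neg_fderiv_mul_of_integrable i3 i1 i2
    (fun x _ => (hF x).differentiableAt) (fun x _ => hφ.differentiable (by simp) x)]
  simp only [hfd]

end Pool.Agent.RM8c
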