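import Pool.Agent.RM8c.Defs
import Pool.Agent.RM8c.P1
import Pool.Agent.RM8c.W1
import Pool.Agent.RM8c.W2
set_option autoImplicit false
open MeasureTheory Set Filter Topology
namespace Pool.Agent.RM8c
theorem wg_approx0 (f : ℝ → ℝ) (hf : IntegrableOn f (Ioi 0)) (ε : ℝ) (hε : 0 < ε) :
    ∃ (G : ℝ → ℝ) (δ : ℝ), 0 < δ ∧ Continuous G ∧ HasCompactSupport G ∧ (∀ s, s ≤ δ → G s = 0) ∧
      ∫ s in Ioi (0 : ℝ), |f s - G s| ≤ ε := by
  set F : ℝ → ℝ := (Ioi (0 : ℝ)).indicator f with hF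
  have hFi : Integrable F := (integrable_indicator_iff measurableSet_Ioi).mpr hf
  have hcont : Continuous (fun b : ℝ => ∫ t in (0 : ℝ)..b, |F t|) :=
    intervalIntegral.continuous_primitive (fun a b => hFi.abs.intervalIntegrable) 0
  obtain ⟨δ, hδ, hδε⟩ : ∃ δ : ℝ, 0 < δ ∧ ∫ t in (0 : ℝ)..δ, |F t| < ε / 2 := by
    have h1 : Tendsto (fun b : ℝ => ∫ t in (0 : ℝ)..b, |F t|) (𝓝[>] 0) (𝓝 0) := by
      have h2 := hcont.tendsto 0
      simp only [intervalIntegral.integral_same] at h2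
      exact h2.mono_left nhdsWithin_le_nhds
    have h3 := (h1.eventually (gt_mem_nhds (show (0 : ℝ) < ε / 2 by positivity))).and
      self_mem_nhdsWithin
    obtain ⟨δ, h4, h5⟩ := h3.exists
    exact ⟨δ, h5, h4⟩
  set F1 : ℝ → ℝ := (Ioi δ).indicator f with hF1def
  have hF1 : Integrable F1 :=
    (integrable_indicator_iff measurableSet_Ioi).mpr (hf.mono_set (Ioi_subset_Ioi hδ.le))
  obtain ⟨G, hGs, hGε, hGc, hGi⟩ :=
    hF1.exists_hasCompactSupport_integral_sub_le (ε := ε / 2) (by positivity)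
  let χ : ℝ → ℝ := fun s => max 0 (min 1 (2 * s / δ - 1))
  have hχc : Continuous χ :=
    continuous_const.max (continuous_const.min
      (((continuous_const.mul continuous_id).div_const δ).sub continuous_const))
  have hχ0 : ∀ s, 0 ≤ χ s := fun s => le_max_left _ _
  have hχ1 : ∀ s, χ s ≤ 1 := fun s => max_le zero_le_one (min_le_left _ _)
  have hχδ : ∀ s, δ ≤ s → χ s = 1 := by
    intro s hs
    have h1 : 1 ≤ 2 * s / δ - 1 := by
      rw [le_sub_iff_add_le, le_div_iff₀ hδ]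
      linarith
    show max 0 (min 1 (2 * s / δ - 1)) = 1
    rw [min_eq_left h1, max_eq_right zero_le_one]
  have hχz : ∀ s, s ≤ δ / 2 → χ s = 0 := by
    intro s hs
    have h1 : 2 * s / δ - 1 ≤ 0 := by
      rw [sub_nonpos, div_le_one hδ]
      linarith
    show max 0 (min 1 (2 * s / δ - 1)) = 0
    exact max_eq_left ((min_le_right _ _).trans h1)
  refine ⟨fun s => χ s * G s, δ / 2, by positivity, hχc.mul hGc, hGs.mul_left, ?_, ?_⟩
  · intro s hs
    show χ s * G s = 0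
    rw [hχz s hs, zero_mul]
  · have hb : ∀ s ∈ Ioi (0 : ℝ), |f s - χ s * G s| ≤
        (Ioc 0 δ).indicator (fun s => |f s|) s + ‖F1 s - G s‖ := by
      intro s hs
      by_cases hsd : s ≤ δ
      · rw [indicator_of_mem (show s ∈ Ioc 0 δ from ⟨hs, hsd⟩), hF1def,
          indicator_of_notMem (show s ∉ Ioi δ from not_lt.mpr hsd), zero_sub, norm_neg,
          Real.norm_eq_abs]
        have h1 : |χ s * G s| ≤ |G s| := by
          rw [abs_mul, abs_of_nonneg (hχ0 s)]
          exact mul_le_of_le_one_left (abs_nonneg _) (hχ1 s)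
        exact (abs_sub _ _).trans (by linarith)
      · rw [indicator_of_notMem (show s ∉ Ioc 0 δ from fun h => hsd h.2), hF1def,
          indicator_of_mem (show s ∈ Ioi δ from not_le.mp hsd), hχδ s (not_le.mp hsd).le, one_mul,
          zero_add, Real.norm_eq_abs]
    have hi1 : IntegrableOn (fun s => |f s - χ s * G s|) (Ioi 0) :=
      (hf.sub ((hχc.mul hGc).integrable_of_hasCompactSupport hGs.mul_left).integrableOn).abs
    have hi2 : IntegrableOn ((Ioc 0 δ).indicator (fun s => |f s|)) (Ioi 0) :=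
      IntegrableOn.indicator hf.abs measurableSet_Ioc
    have hi3 : Integrable (fun s => ‖F1 s - G s‖) := (hF1.sub hGi).norm
    have e1 : ∫ s in Ioi (0 : ℝ), (Ioc 0 δ).indicator (fun s => |f s|) s =
        ∫ t in (0 : ℝ)..δ, |F t| := by
      rw [setIntegral_indicator measurableSet_Ioc, intervalIntegral.integral_of_le hδ.le,
        inter_eq_right.mpr (fun x hx => hx.1)]
      apply setIntegral_congr_fun measurableSet_Ioc
      intro t ht
      show |f t| = |F t|
      rw [hF, indicator_of_mem (show t ∈ Ioi (0 : ℝ) from ht.1)]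
    calc ∫ s in Ioi (0 : ℝ), |f s - χ s * G s|
        ≤ ∫ s in Ioi (0 : ℝ), ((Ioc 0 δ).indicator (fun s => |f s|) s + ‖F1 s - G s‖) :=
          setIntegral_mono_on hi1 (hi2.add hi3.integrableOn) measurableSet_Ioi hb
      _ = (∫ s in Ioi (0 : ℝ), (Ioc 0 δ).indicator (fun s => |f s|) s) +
          ∫ s in Ioi (0 : ℝ), ‖F1 s - G s‖ := integral_add hi2 hi3.integrableOn
      _ ≤ ε / 2 + ε / 2 := by
          apply add_le_add
          · rw [e1]
            exact hδε.le
          · exact (setIntegral_le_integral hi3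
              (Filter.Eventually.of_forall fun s => norm_nonneg _)).trans hGε
      _ = ε := by ring

theorem wg_approx (n : ℕ) (m' : ℝ → ℝ) (hi : IntegrableOn (fun s => m' s * s ^ n) (Ioi 0))
    (ε : ℝ) (hε : 0 < ε) :
    ∃ g : ℝ → ℝ, Continuous g ∧ HasCompactSupport g ∧ tsupport g ⊆ Ioi 0 ∧
      IntegrableOn (fun s => g s * s ^ n) (Ioi 0) ∧
      ∫ s in Ioi (0 : ℝ), |m' s - g s| * s ^ n ≤ ε := by
  obtain ⟨G, δ, hδ, hGc, hGs, hG0, hGε⟩ := wg_approx0 _ hi ε hε
  have hmx : ∀ s : ℝ, max s δ ≠ 0 := fun s => (lt_of_lt_of_le hδ (le_max_right _ _)).ne'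
  have hkey : ∀ s ∈ Ioi (0 : ℝ), G s * ((max s δ) ^ n)⁻¹ * s ^ n = G s := by
    intro s hs
    by_cases hsd : s ≤ δ
    · rw [hG0 s hsd]
      simp
    · rw [max_eq_left (not_le.mp hsd).le, mul_assoc,
        inv_mul_cancel₀ (pow_ne_zero n (ne_of_gt hs)), mul_one]
  refine ⟨fun s => G s * ((max s δ) ^ n)⁻¹, ?_, ?_, ?_, ?_, ?_⟩
  · exact hGc.mul (((continuous_id.max continuous_const).pow n).inv₀
      (fun s => pow_ne_zero n (hmx s)))
  · exact hGs.mul_right
  · have h1 : Function.support (fun s => G s * ((max s δ) ^ n)⁻¹) ⊆ Ici δ := by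
      intro s hs
      by_contra hc
      apply hs
      have h2 : s ≤ δ := (not_le.mp hc).le
      show G s * ((max s δ) ^ n)⁻¹ = 0
      rw [hG0 s h2, zero_mul]
    exact (closure_minimal h1 isClosed_Ici).trans (fun s hs => lt_of_lt_of_le hδ hs)
  · apply ((hGc.integrable_of_hasCompactSupport hGs).integrableOn (s := Ioi 0)).congr_fun _
      measurableSet_Ioi
    intro s hs
    exact (hkey s hs).symm
  · refine le_trans (le_of_eq ?_) hGε
    apply setIntegral_congr_fun measurableSet_Ioi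
    intro s hs
    show |m' s - G s * ((max s δ) ^ n)⁻¹| * s ^ n = |m' s * s ^ n - G s|
    have h3 : (0 : ℝ) ≤ s ^ n := pow_nonneg (le_of_lt hs) n
    conv_lhs => rw [← abs_of_nonneg h3]
    rw [← abs_mul, sub_mul, hkey s hs]

theorem wg_AC (m m' : ℝ → ℝ) (hm : AC m m') (g : ℝ → ℝ) (hg : Continuous g) (R₀ c : ℝ) :
    AC (fun s => m s - (c - ∫ t in s..R₀, g t)) (fun s => m' s - g s) := by
  intro a b ha hab
  obtain ⟨h1, h2⟩ := hm a b ha hab
  have h3 : IntervalIntegrable g volume a b := hg.intervalIntegrable a b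
  refine ⟨h1.sub h3, ?_⟩
  rw [intervalIntegral.integral_sub h1 h3, ← h2]
  have h4 : (∫ t in a..b, g t) + ∫ t in b..R₀, g t = ∫ t in a..R₀, g t :=
    intervalIntegral.integral_add_adjacent_intervals h3 (hg.intervalIntegrable b R₀)
  beta_reduce
  linarith

theorem wg_bound (n : ℕ) (m m' : ℝ → ℝ) (hm : AC m m') (g : ℝ → ℝ) (hg : Continuous g)
    (R₀ : ℝ) (hi : IntegrableOn (fun s => (m' s - g s) * s ^ n) (Ioi 0))
    (ε : ℝ) (hε : ∫ s in Ioi (0 : ℝ), |m' s - g s| * s ^ n ≤ ε) (s : ℝ) (hs : 0 < s)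
    (hsR : s ≤ R₀) :
    |m s - (m R₀ - ∫ t in s..R₀, g t)| ≤ ε * (s ^ n)⁻¹ := by
  obtain ⟨h1, h2⟩ := wg_AC m m' hm g hg R₀ (m R₀) s R₀ hs hsR
  beta_reduce at h1 h2
  rw [intervalIntegral.integral_same] at h2
  have h3 : m s - (m R₀ - ∫ t in s..R₀, g t) = -∫ t in s..R₀, (m' t - g t) := by linarith
  have hsn : 0 < s ^ n := pow_pos hs n
  have hiabs : IntegrableOn (fun s => |m' s - g s| * s ^ n) (Ioi 0) := by
    have hia : IntegrableOn (fun s => |(m' s - g s) * s ^ n|) (Ioi 0) := hi.abs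
    apply hia.congr_fun _ measurableSet_Ioi
    intro t ht
    show |(m' t - g t) * t ^ n| = |m' t - g t| * t ^ n
    have hp : (0 : ℝ) ≤ t ^ n := pow_nonneg (le_of_lt ht) n
    rw [abs_mul, abs_of_nonneg hp]
  have hsub : Ioc s R₀ ⊆ Ioi 0 := fun t ht => hs.trans ht.1
  rw [h3, abs_neg]
  calc |∫ t in s..R₀, (m' t - g t)| ≤ ∫ t in s..R₀, |m' t - g t| :=
        intervalIntegral.abs_integral_le_integral_abs hsR
    _ ≤ ∫ t in s..R₀, (s ^ n)⁻¹ * (|m' t - g t| * t ^ n) := by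
        apply intervalIntegral.integral_mono_on hsR h1.abs
        · rw [intervalIntegrable_iff_integrableOn_Ioc_of_le hsR]
          exact (hiabs.mono_set hsub).const_mul _
        · intro t ht
          have h4 : s ^ n ≤ t ^ n := pow_le_pow_left₀ hs.le ht.1 n
          have h5 : 1 ≤ (s ^ n)⁻¹ * t ^ n := by
            rw [← div_eq_inv_mul, le_div_iff₀ hsn, one_mul]
            exact h4
          calc |m' t - g t| = |m' t - g t| * 1 := (mul_one _).symm
            _ ≤ |m' t - g t| * ((s ^ n)⁻¹ * t ^ n) :=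
                mul_le_mul_of_nonneg_left h5 (abs_nonneg _)
            _ = (s ^ n)⁻¹ * (|m' t - g t| * t ^ n) := by ring
    _ = (s ^ n)⁻¹ * ∫ t in Ioc s R₀, |m' t - g t| * t ^ n := by
        rw [intervalIntegral.integral_const_mul, intervalIntegral.integral_of_le hsR]
    _ ≤ (s ^ n)⁻¹ * ∫ t in Ioi (0 : ℝ), |m' t - g t| * t ^ n := by
        apply mul_le_mul_of_nonneg_left _ (by positivity)
        apply setIntegral_mono_set hiabs
        · rw [Filter.EventuallyLE, ae_restrict_iff' measurableSet_Ioi]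
          refine Filter.Eventually.of_forall fun t ht => ?_
          exact mul_nonneg (abs_nonneg _) (pow_nonneg (le_of_lt ht) n)
        · exact hsub.eventuallyLE
    _ ≤ (s ^ n)⁻¹ * ε := mul_le_mul_of_nonneg_left hε (by positivity)
    _ = ε * (s ^ n)⁻¹ := mul_comm _ _

theorem weak_grad (n : ℕ) (m m' : ℝ → ℝ) (hm : AC m m')
    (hi : IntegrableOn (fun s => m' s * s ^ n) (Ioi 0)) (φ : E n → ℝ)
    (hφ : ContDiff ℝ ((⊤ : ℕ∞) : WithTop ℕ∞) φ) (hφs : HasCompactSupport φ) (v : E n) :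
    ∫ x : E n, m ‖x‖ * fderiv ℝ φ x v = - ∫ x : E n, inner ℝ ((m' ‖x‖ / ‖x‖) • x) v * φ x := by
  obtain ⟨R₀, hR0, hRs⟩ := hφs.isCompact.isBounded.subset_closedBall_lt 0 (0 : E n)
  have hdφc : Continuous (fun x : E n => fderiv ℝ φ x v) :=
    (hφ.continuous_fderiv (by simp)).clm_apply continuous_const
  have hdφs : HasCompactSupport (fun x : E n => fderiv ℝ φ x v) := hφs.fderiv_apply ℝ v
  have hd0 : ∀ x : E n, R₀ < ‖x‖ → fderiv ℝ φ x v = 0 := by
    intro x hx
    have h1 : x ∉ tsupport φ := by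
      intro h2
      have h3 := hRs h2
      rw [mem_closedBall_zero_iff] at h3
      exact absurd hx (not_lt.mpr h3)
    rw [fderiv_of_notMem_tsupport (𝕜 := ℝ) h1]
    rfl
  obtain ⟨M₀, hM₀⟩ := hφs.exists_bound_of_continuous hφ.continuous
  obtain ⟨M₁, hM₁⟩ := hdφs.exists_bound_of_continuous hdφc
  have hM₀nn : 0 ≤ M₀ := (norm_nonneg _).trans (hM₀ 0)
  have hM₁nn : 0 ≤ M₁ := (norm_nonneg _).trans (hM₁ 0)
  -- the weight
  set P : ℝ → ℝ := (Ioc 0 R₀).indicator (fun s => (s ^ n)⁻¹) with hP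
  have hPi : Integrable (fun x : E n => P ‖x‖) := by
    rw [(polar n P).1]
    have h1 : IntegrableOn ((Ioc (0 : ℝ) R₀).indicator (fun _ => (1 : ℝ))) (Ioi 0) := by
      have h2 : Integrable ((Ioc (0 : ℝ) R₀).indicator (fun _ => (1 : ℝ))) := by
        rw [integrable_indicator_iff measurableSet_Ioc]
        exact integrableOn_const measure_Ioc_lt_top.ne
      exact h2.integrableOn
    apply h1.congr_fun _ measurableSet_Ioi
    intro s hs
    show (Ioc (0 : ℝ) R₀).indicator (fun _ => (1 : ℝ)) s = P s * s ^ n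
    rw [hP]
    by_cases hsR : s ∈ Ioc 0 R₀
    · rw [indicator_of_mem hsR, indicator_of_mem hsR, inv_mul_cancel₀ (pow_ne_zero n (ne_of_gt hs))]
    · rw [indicator_of_notMem hsR, indicator_of_notMem hsR, zero_mul]
  set CP : ℝ := ∫ x : E n, P ‖x‖ with hCP
  set cn : ℝ := (n + 1) * volume.real (Metric.ball (0 : E n) 1) with hcn
  have hcnn : 0 ≤ cn := by positivity
  have hPnn : ∀ x : E n, 0 ≤ P ‖x‖ := by
    intro x
    rw [hP]
    apply indicator_nonneg
    intro s hs
    have := hs.1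
    positivity
  have hCPnn : 0 ≤ CP := integral_nonneg hPnn
  have hbd : ∀ ε : ℝ, 0 < ε → |(∫ x : E n, m ‖x‖ * fderiv ℝ φ x v) -
      (- ∫ x : E n, inner ℝ ((m' ‖x‖ / ‖x‖) • x) v * φ x)| ≤
        ε * (M₁ * CP + cn * (‖v‖ * M₀)) := by
    intro ε hε
    obtain ⟨g, hgc, hgs, hgt, hgi, hgε⟩ := wg_approx n m' hi ε hε
    have hiD : IntegrableOn (fun s => (m' s - g s) * s ^ n) (Ioi 0) := by
      have h1 := hi.sub hgi
      apply h1.congr_fun _ measurableSet_Ioi
      intro s _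
      show m' s * s ^ n - g s * s ^ n = (m' s - g s) * s ^ n
      ring
    have hACD := wg_AC m m' hm g hgc R₀ (m R₀)
    obtain ⟨hl, hI, hnorm⟩ := wg_int n _ _ hACD hiD
    obtain ⟨hl0, hI0, _⟩ := wg_int n m m' hm hi
    have hsm := wg_smooth n g hgc hgs hgt (m R₀) R₀ φ hφ hφs v
    set H : ℝ → ℝ := fun s => m R₀ - ∫ t in s..R₀, g t with hH
    have hHc : Continuous H := by
      have h1 : Continuous (fun s : ℝ => ∫ t in R₀..s, g t) :=
        intervalIntegral.continuous_primitive (fun a b => hgc.intervalIntegrable a b) R₀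
      have h2 : H = fun s => m R₀ + ∫ t in R₀..s, g t := by
        funext s
        rw [hH]
        beta_reduce
        rw [intervalIntegral.integral_symm R₀ s]
        ring
      rw [h2]
      exact continuous_const.add h1
    have hiA : Integrable (fun x : E n => (m ‖x‖ - H ‖x‖) * fderiv ℝ φ x v) :=
      hl.integrable_smul_right_of_hasCompactSupport hdφc hdφs
    have hiB : Integrable (fun x : E n => H ‖x‖ * fderiv ℝ φ x v) :=
      ((hHc.comp continuous_norm).mul hdφc).integrable_of_hasCompactSupport hdφs.mul_left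
    have hsplit1 : ∫ x : E n, m ‖x‖ * fderiv ℝ φ x v =
        (∫ x : E n, H ‖x‖ * fderiv ℝ φ x v) +
          ∫ x : E n, (m ‖x‖ - H ‖x‖) * fderiv ℝ φ x v := by
      rw [← integral_add hiB hiA]
      apply integral_congr_ae
      refine Filter.Eventually.of_forall fun x => ?_
      beta_reduce
      ring
    have hiC : Integrable (fun x : E n =>
        inner ℝ (((m' ‖x‖ - g ‖x‖) / ‖x‖) • x) v * φ x) := by
      have h1 : Integrable (fun x : E n => inner ℝ (((m' ‖x‖ - g ‖x‖) / ‖x‖) • x) v) :=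
        hI.inner_const v
      exact h1.mul_bdd (c := M₀) hφ.continuous.aestronglyMeasurable
        (Filter.Eventually.of_forall hM₀)
    have hiE : Integrable (fun x : E n => inner ℝ ((m' ‖x‖ / ‖x‖) • x) v * φ x) := by
      have h1 : Integrable (fun x : E n => inner ℝ ((m' ‖x‖ / ‖x‖) • x) v) :=
        hI0.inner_const v
      exact h1.mul_bdd (c := M₀) hφ.continuous.aestronglyMeasurable
        (Filter.Eventually.of_forall hM₀)
    have hsplit2 : ∫ x : E n, inner ℝ ((g ‖x‖ / ‖x‖) • x) v * φ x =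
        (∫ x : E n, inner ℝ ((m' ‖x‖ / ‖x‖) • x) v * φ x) -
          ∫ x : E n, inner ℝ (((m' ‖x‖ - g ‖x‖) / ‖x‖) • x) v * φ x := by
      rw [← integral_sub hiE hiC]
      apply integral_congr_ae
      refine Filter.Eventually.of_forall fun x => ?_
      beta_reduce
      rw [real_inner_smul_left, real_inner_smul_left, real_inner_smul_left]
      ring
    have hE1 : |∫ x : E n, (m ‖x‖ - H ‖x‖) * fderiv ℝ φ x v| ≤ ε * M₁ * CP := by
      rw [← Real.norm_eq_abs, hCP, ← integral_const_mul]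
      apply norm_integral_le_of_norm_le (hPi.const_mul _)
      have hae : ∀ᵐ x : E n, x ≠ 0 := by
        rw [ae_iff]
        simp
      filter_upwards [hae] with x hx
      have hxp : 0 < ‖x‖ := norm_pos_iff.mpr hx
      by_cases hxR : ‖x‖ ≤ R₀
      · have h1 := wg_bound n m m' hm g hgc R₀ hiD ε hgε ‖x‖ hxp hxR
        have h2 : P ‖x‖ = (‖x‖ ^ n)⁻¹ := by
          rw [hP, indicator_of_mem (show ‖x‖ ∈ Ioc 0 R₀ from ⟨hxp, hxR⟩)]
        rw [norm_mul, h2]
        have h3 := hM₁ x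
        calc ‖m ‖x‖ - H ‖x‖‖ * ‖fderiv ℝ φ x v‖ ≤ (ε * (‖x‖ ^ n)⁻¹) * M₁ := by
              apply mul_le_mul h1 h3 (norm_nonneg _) (by positivity)
          _ = ε * M₁ * (‖x‖ ^ n)⁻¹ := by ring
      · rw [hd0 x (not_le.mp hxR), mul_zero, norm_zero]
        exact mul_nonneg (by positivity) (hPnn x)
    have hE2 : |∫ x : E n, inner ℝ (((m' ‖x‖ - g ‖x‖) / ‖x‖) • x) v * φ x| ≤
        ε * (cn * (‖v‖ * M₀)) := by
      have h1 : ‖∫ x : E n, inner ℝ (((m' ‖x‖ - g ‖x‖) / ‖x‖) • x) v * φ x‖ ≤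
          ∫ x : E n, ‖((m' ‖x‖ - g ‖x‖) / ‖x‖) • x‖ * (‖v‖ * M₀) := by
        apply norm_integral_le_of_norm_le (hI.norm.mul_const _)
        refine Filter.Eventually.of_forall fun x => ?_
        rw [norm_mul, ← mul_assoc]
        exact mul_le_mul (norm_inner_le_norm _ _) (hM₀ x) (norm_nonneg _) (by positivity)
      rw [integral_mul_const, hnorm] at h1
      rw [← Real.norm_eq_abs]
      refine h1.trans ?_
      calc (n + 1) * volume.real (Metric.ball (0 : E n) 1) *
            (∫ s in Ioi (0 : ℝ), |m' s - g s| * s ^ n) * (‖v‖ * M₀)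
          ≤ cn * ε * (‖v‖ * M₀) := by
            apply mul_le_mul_of_nonneg_right _ (by positivity)
            exact mul_le_mul_of_nonneg_left hgε hcnn
        _ = ε * (cn * (‖v‖ * M₀)) := by ring
    have heq : (∫ x : E n, m ‖x‖ * fderiv ℝ φ x v) -
        (- ∫ x : E n, inner ℝ ((m' ‖x‖ / ‖x‖) • x) v * φ x) =
        (∫ x : E n, (m ‖x‖ - H ‖x‖) * fderiv ℝ φ x v) +
          ∫ x : E n, inner ℝ (((m' ‖x‖ - g ‖x‖) / ‖x‖) • x) v * φ x := by
      have hsm' : ∫ x : E n, H ‖x‖ * fderiv ℝ φ x v =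
          - ∫ x : E n, inner ℝ ((g ‖x‖ / ‖x‖) • x) v * φ x := hsm
      rw [hsplit1, hsm', hsplit2]
      ring
    rw [heq]
    calc _ ≤ |∫ x : E n, (m ‖x‖ - H ‖x‖) * fderiv ℝ φ x v| +
          |∫ x : E n, inner ℝ (((m' ‖x‖ - g ‖x‖) / ‖x‖) • x) v * φ x| := abs_add_le _ _
      _ ≤ ε * M₁ * CP + ε * (cn * (‖v‖ * M₀)) := add_le_add hE1 hE2
      _ = ε * (M₁ * CP + cn * (‖v‖ * M₀)) := by ring
  set Y : ℝ := (∫ x : E n, m ‖x‖ * fderiv ℝ φ x v) -
      (- ∫ x : E n, inner ℝ ((m' ‖x‖ / ‖x‖) • x) v * φ x) with hY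
  set K : ℝ := M₁ * CP + cn * (‖v‖ * M₀) with hK
  have hKnn : 0 ≤ K := by positivity
  have hY0 : Y = 0 := by
    by_contra hne
    have hpos : 0 < |Y| := abs_pos.mpr hne
    have h1 := hbd (|Y| / (2 * (K + 1))) (by positivity)
    rw [div_mul_eq_mul_div, le_div_iff₀ (by positivity)] at h1
    nlinarith
  linarith

end Pool.Agent.RM8c
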