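import Pool.Agent.RM8c.Defs
set_option autoImplicit false
open MeasureTheory Set Filter Topology
namespace Pool.Agent.RM8c
theorem j26488_mp : MeasurePreserving (fun z : E 0 => z 0) volume volume := by
  have h1 : MeasurePreserving (WithLp.ofLp : E 0 → (Fin 1 → ℝ)) volume volume :=
    PiLp.volume_preserving_ofLp (Fin 1)
  have h2 := volume_preserving_funUnique (Fin 1) ℝ
  exact h2.comp h1

theorem j26488_emb : MeasurableEmbedding (fun z : E 0 => z 0) := by
  have h1 : MeasurableEmbedding ((MeasurableEquiv.toLp 2 (Fin 1 → ℝ)).symm.trans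
      (MeasurableEquiv.funUnique (Fin 1) ℝ)) := MeasurableEquiv.measurableEmbedding _
  exact h1

theorem j26488_norm (z : E 0) : ‖z‖ = |z 0| := by
  rw [EuclideanSpace.norm_eq]
  simp [Real.sqrt_sq_eq_abs]

theorem A_zero (F : ℝ → ℝ) (x r : ℝ) (hr : 0 < r) :
    A 0 F x r = (2 * r)⁻¹ * ∫ t in (x - r)..(x + r), F |t| := by
  unfold A
  have hb : Metric.ball (0 : E 0) r = (fun z : E 0 => z 0) ⁻¹' (Ioo (-r) r) := by
    ext z
    rw [mem_ball_zero_iff, j26488_norm, mem_preimage, mem_Ioo, abs_lt]
  have hb2 : Metric.ball (x • e1 0) r = (fun z : E 0 => z 0) ⁻¹' (Ioo (x - r) (x + r)) := by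
    ext z
    rw [Metric.mem_ball, dist_eq_norm, j26488_norm, mem_preimage, mem_Ioo]
    have h1 : (z - x • e1 0) 0 = z 0 - x := by
      simp [e1]
    rw [h1, abs_lt]
    constructor
    · rintro ⟨h2, h3⟩
      constructor <;> linarith
    · rintro ⟨h2, h3⟩
      constructor <;> linarith
  have hv : volume.real (Metric.ball (0 : E 0) r) = 2 * r := by
    rw [hb, Measure.real, j26488_mp.measure_preimage measurableSet_Ioo.nullMeasurableSet,
      Real.volume_Ioo, ENNReal.toReal_ofReal (by linarith)]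
    ring
  rw [hv]
  congr 1
  have h2 : ∀ z : E 0, F ‖z‖ = (fun t : ℝ => F |t|) ((fun z : E 0 => z 0) z) := by
    intro z
    rw [j26488_norm]
  simp only [h2]
  rw [hb2, j26488_mp.setIntegral_preimage_emb j26488_emb (fun t : ℝ => F |t|),
    intervalIntegral.integral_of_le (by linarith), integral_Ioc_eq_integral_Ioo]

end Pool.Agent.RM8c
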