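import Pool.Agent.RM8c.Defs
import Pool.Agent.BV653.Defs
import Pool.Agent.BV653.K11
import Pool.Agent.RM8c.M1
import Pool.Agent.RM8c.Z0
set_option autoImplicit false
open MeasureTheory Set Filter Topology
namespace Pool.Agent.RM8c
section mmvz

variable {g : ℝ → ℝ}

/-- primitive -/
noncomputable def mmvzP (g : ℝ → ℝ) (y : ℝ) : ℝ := ∫ t in (0 : ℝ)..y, g t

theorem mmvzP_sub (hg : Integrable g) (a b : ℝ) : mmvzP g b - mmvzP g a = ∫ t in a..b, g t := by
  rw [mmvzP, mmvzP]
  exact intervalIntegral.integral_interval_sub_left hg.intervalIntegrable hg.intervalIntegrable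

theorem mmvzP_neg (hg0 : ∀ t, t ≤ 0 → g t = 0) (y : ℝ) (hy : y ≤ 0) : mmvzP g y = 0 := by
  rw [mmvzP, intervalIntegral.integral_symm]
  have : ∫ t in y..(0 : ℝ), g t = ∫ t in y..(0 : ℝ), (0 : ℝ) := by
    apply intervalIntegral.integral_congr
    intro t ht
    rw [uIcc_of_le hy] at ht
    exact hg0 t ht.2
  rw [this]
  simp

theorem mmvzP_abs (hg : Integrable g) (a b : ℝ) (hab : a ≤ b) :
    |mmvzP g b - mmvzP g a| ≤ mmvzP (fun t => |g t|) b - mmvzP (fun t => |g t|) a := by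
  rw [mmvzP_sub hg, mmvzP_sub hg.abs]
  exact intervalIntegral.abs_integral_le_integral_abs hab

theorem mmvzQ (hg : Integrable g) (hg0 : ∀ t, t ≤ 0 → g t = 0) (y : ℝ) :
    0 ≤ mmvzP (fun t => |g t|) y ∧ mmvzP (fun t => |g t|) y ≤ ∫ t, |g t| := by
  rcases le_total y 0 with hy | hy
  · have h0 : ∀ t, t ≤ 0 → (fun t => |g t|) t = 0 := by
      intro t ht
      simp [hg0 t ht]
    rw [mmvzP_neg h0 y hy]
    exact ⟨le_rfl, integral_nonneg fun t => abs_nonneg _⟩
  · rw [mmvzP, intervalIntegral.integral_of_le hy]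
    exact ⟨integral_nonneg fun t => abs_nonneg _,
      setIntegral_le_integral hg.abs (Filter.Eventually.of_forall fun t => abs_nonneg _)⟩

theorem mmvzP_bd (hg : Integrable g) (hg0 : ∀ t, t ≤ 0 → g t = 0) (y : ℝ) :
    |mmvzP g y| ≤ ∫ t, |g t| := by
  rcases le_total y 0 with hy | hy
  · rw [mmvzP_neg hg0 y hy, abs_zero]
    exact integral_nonneg fun t => abs_nonneg _
  · have h1 := mmvzP_abs hg 0 y hy
    have h2 := (mmvzQ hg hg0 y).2
    have h3 : mmvzP g 0 = 0 := by simp [mmvzP]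
    have h4 : mmvzP (fun t => |g t|) 0 = 0 := by simp [mmvzP]
    rw [h3, h4, sub_zero, sub_zero] at h1
    exact h1.trans h2

theorem mmvzP_cont (hg : Integrable g) : Continuous (mmvzP g) :=
  intervalIntegral.continuous_primitive (fun a b => hg.intervalIntegrable) 0

/-- extension of the profile -/
noncomputable def mmvzT (g : ℝ → ℝ) (L : ℝ) (t : ℝ) : ℝ := L + mmvzP g t + mmvzP g (-t)

theorem mmvzT_bd (hg : Integrable g) (hg0 : ∀ t, t ≤ 0 → g t = 0) (L : ℝ) (t : ℝ) :
    |mmvzT g L t - L| ≤ ∫ t, |g t| := by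
  have e : mmvzT g L t - L = mmvzP g t + mmvzP g (-t) := by rw [mmvzT]; ring
  rw [e]
  rcases le_total t 0 with ht | ht
  · rw [mmvzP_neg hg0 t ht, zero_add]
    exact mmvzP_bd hg hg0 _
  · rw [mmvzP_neg hg0 (-t) (by linarith), add_zero]
    exact mmvzP_bd hg hg0 _

theorem mmvzT_falls (hg : Integrable g) (hg0 : ∀ t, t ≤ 0 → g t = 0) (L : ℝ) :
    BV653.FallsLE (mmvzT g L) univ (2 * ∫ t, |g t|) := by
  intro n x hx _
  have hstep : ∀ i, max (mmvzT g L (x i) - mmvzT g L (x (i + 1))) 0 ≤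
      (mmvzP (fun t => |g t|) (x (i + 1)) - mmvzP (fun t => |g t|) (-(x (i + 1)))) -
      (mmvzP (fun t => |g t|) (x i) - mmvzP (fun t => |g t|) (-(x i))) := by
    intro i
    have hle : x i ≤ x (i + 1) := hx (Nat.le_succ i)
    have h1 := mmvzP_abs hg _ _ hle
    have h2 := mmvzP_abs hg _ _ (neg_le_neg hle)
    have h3 := abs_le.1 h1
    have h4 := abs_le.1 h2
    apply max_le
    · rw [mmvzT, mmvzT]; linarith [h3.1, h3.2, h4.1, h4.2]
    · have := abs_nonneg (mmvzP g (x (i + 1)) - mmvzP g (x i))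
      have := abs_nonneg (mmvzP g (-(x i)) - mmvzP g (-(x (i + 1))))
      linarith
  refine (Finset.sum_le_sum fun i _ => hstep i).trans ?_
  rw [Finset.sum_range_sub (fun i => mmvzP (fun t => |g t|) (x i) -
    mmvzP (fun t => |g t|) (-(x i)))]
  have a1 := mmvzQ hg hg0 (x n)
  have a2 := mmvzQ hg hg0 (-(x n))
  have a3 := mmvzQ hg hg0 (x 0)
  have a4 := mmvzQ hg hg0 (-(x 0))
  linarith [a1.2, a2.1, a3.1, a4.2]

theorem mmvzT_cont (hg : Integrable g) (L : ℝ) : Continuous (mmvzT g L) :=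
  ((continuous_const.add (mmvzP_cont hg)).add ((mmvzP_cont hg).comp continuous_neg))

theorem mmvzT_avg (hg : Integrable g) (hg0 : ∀ t, t ≤ 0 → g t = 0) (L x r : ℝ) (hr : 0 < r) :
    L - (∫ t, |g t|) ≤ BV653.A (mmvzT g L) x r ∧
      BV653.A (mmvzT g L) x r ≤ L + ∫ t, |g t| := by
  have hle : x - r ≤ x + r := by linarith
  have hc := mmvzT_cont hg L
  have h2r : 0 < 2 * r := by linarith
  have hb := fun t => abs_le.1 (mmvzT_bd hg hg0 L t)
  rw [BV653.A]
  constructor
  · have h1 : ∫ t in (x - r)..(x + r), (L - ∫ t, |g t|) ≤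
        ∫ t in (x - r)..(x + r), mmvzT g L t := by
      apply intervalIntegral.integral_mono_on hle
      · exact intervalIntegrable_const
      · exact hc.intervalIntegrable _ _
      · intro t _
        linarith [(hb t).1]
    rw [intervalIntegral.integral_const, smul_eq_mul] at h1
    have e : x + r - (x - r) = 2 * r := by ring
    rw [e] at h1
    calc L - ∫ t, |g t| = (2 * r)⁻¹ * (2 * r * (L - ∫ t, |g t|)) := by
          field_simp
      _ ≤ _ := mul_le_mul_of_nonneg_left h1 (by positivity)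
  · have h1 : ∫ t in (x - r)..(x + r), mmvzT g L t ≤
        ∫ t in (x - r)..(x + r), (L + ∫ t, |g t|) := by
      apply intervalIntegral.integral_mono_on hle
      · exact hc.intervalIntegrable _ _
      · exact intervalIntegrable_const
      · intro t _
        linarith [(hb t).2]
    rw [intervalIntegral.integral_const, smul_eq_mul] at h1
    have e : x + r - (x - r) = 2 * r := by ring
    rw [e] at h1
    calc _ ≤ (2 * r)⁻¹ * (2 * r * (L + ∫ t, |g t|)) :=
          mul_le_mul_of_nonneg_left h1 (by positivity)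
      _ = _ := by field_simp

end mmvz

/-- variation of the maximal profile in dimension one -/
theorem mm_var_zero : ∃ C : ℝ, 0 ≤ C ∧ ∀ F f : ℝ → ℝ, AC F f → IntegrableOn f (Ioi 0) →
    Integrable (fun z : E 0 => F ‖z‖) → (∀ s, 0 < s → 0 ≤ F s) → ∀ a b, 0 < a → a ≤ b →
    eVariationOn (mm 0 F) (Icc a b) ≤ ENNReal.ofReal (C * ∫ w in Ioi (0 : ℝ), |f w|) := by
  refine ⟨3818, by norm_num, ?_⟩
  intro F f hF hfi hFi hF0 a b ha hab
  set g : ℝ → ℝ := (Ioi (0 : ℝ)).indicator f with hgdef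
  have hg : Integrable g := (integrable_indicator_iff measurableSet_Ioi).2 hfi
  have hg0 : ∀ t, t ≤ 0 → g t = 0 := by
    intro t ht
    exact indicator_of_notMem (fun h : t ∈ Ioi (0 : ℝ) => absurd h (not_lt.2 ht)) f
  have hgf : ∀ t, 0 < t → g t = f t := fun t ht => indicator_of_mem (mem_Ioi.2 ht) f
  set I : ℝ := ∫ w in Ioi (0 : ℝ), |f w| with hI
  have hIg : ∫ t, |g t| = I := by
    rw [hI, ← integral_indicator measurableSet_Ioi]
    congr 1
    funext t
    by_cases ht : t ∈ Ioi (0 : ℝ)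
    · rw [indicator_of_mem ht, hgdef, indicator_of_mem ht]
    · rw [indicator_of_notMem ht, hgdef, indicator_of_notMem ht, abs_zero]
  have hI0 : 0 ≤ I := by rw [← hIg]; exact integral_nonneg fun t => abs_nonneg _
  set L : ℝ := F 1 - mmvzP g 1 with hL
  have hFP : ∀ x, 0 < x → F x = L + mmvzP g x := by
    intro x hx
    have hcongr : ∀ p q : ℝ, 0 < p → 0 < q → ∫ t in p..q, f t = ∫ t in p..q, g t := by
      intro p q hp hq
      apply intervalIntegral.integral_congr
      intro t ht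
      have : 0 < t := lt_of_lt_of_le (lt_min hp hq) ht.1
      exact (hgf t this).symm
    rcases le_total 1 x with h1 | h1
    · have h2 := (hF 1 x one_pos h1).2
      rw [hcongr 1 x one_pos hx, ← mmvzP_sub hg] at h2
      linarith
    · have h2 := (hF x 1 hx h1).2
      rw [hcongr x 1 hx one_pos, ← mmvzP_sub hg] at h2
      linarith
  have hFT : ∀ t, t ≠ 0 → F |t| = mmvzT g L t := by
    intro t ht
    rw [hFP _ (abs_pos.2 ht), mmvzT]
    rcases lt_or_gt_of_ne ht with h | h
    · rw [abs_of_neg h, mmvzP_neg hg0 t h.le, add_zero]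
    · rw [abs_of_pos h, mmvzP_neg hg0 (-t) (by linarith), add_zero]
  have hA : ∀ x r, 0 < r → A 0 F x r = BV653.A (mmvzT g L) x r := by
    intro x r hr
    rw [A_zero F x r hr, BV653.A]
    congr 1
    apply intervalIntegral.integral_congr_ae
    have h0 : ∀ᵐ t : ℝ, t ≠ 0 := by
      rw [ae_iff]
      simp
    filter_upwards [h0] with t ht _
    exact hFT t ht
  have hbd := fun s hs => mm_bdd 0 F f hF hFi hF0 s hs
  haveI : Nonempty (Ioi (0 : ℝ)) := ⟨⟨1, mem_Ioi.2 one_pos⟩⟩
  have hlo : ∀ x, 0 < x → L - I ≤ mm 0 F x := by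
    intro x hx
    have h1 : A 0 F x 1 ≤ mm 0 F x := le_ciSup (hbd x hx).1 (⟨1, mem_Ioi.2 one_pos⟩ : Ioi (0 : ℝ))
    rw [hA x 1 one_pos] at h1
    have h2 := (mmvzT_avg hg hg0 L x 1 one_pos).1
    rw [hIg] at h2
    linarith
  have hhi : ∀ x, 0 < x → mm 0 F x ≤ L + I := by
    intro x hx
    apply ciSup_le
    rintro ⟨r, hr⟩
    have h2 := (mmvzT_avg hg hg0 L x r hr).2
    rw [hIg, ← hA x r hr] at h2
    exact h2
  have hK := BV653.thmK (mmvzT g L) (fun p q => (mmvzT_cont hg L).intervalIntegrable p q)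
    ⟨|L| + I, fun x => by
      have h1 := mmvzT_bd hg hg0 L x
      rw [hIg] at h1
      have h2 := abs_add_le (mmvzT g L x - L) L
      rw [sub_add_cancel] at h2
      linarith⟩ (2 * I) (by rw [← hIg]; exact mmvzT_falls hg hg0 L)
    {p | 0 < p.2} (by
      intro x r x' r' _ hr' _ _
      exact hr') (mm 0 F) (Ioi 0)
    (by
      intro x hx r hr _
      rw [← hA x r hr]
      exact le_ciSup (hbd x hx).1 (⟨r, hr⟩ : Ioi (0 : ℝ)))
    (by
      intro x hx η hη
      have h1 : mm 0 F x - η < ⨆ r : Ioi (0 : ℝ), A 0 F x r := by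
        have : mm 0 F x = ⨆ r : Ioi (0 : ℝ), A 0 F x r := rfl
        linarith
      obtain ⟨⟨r, hr⟩, h2⟩ := exists_lt_of_lt_ciSup h1
      refine ⟨r, hr, hr, ?_⟩
      rw [← hA x r hr]
      exact h2.le)
    (2 * I) (by linarith) (by
      intro x hx y hy _
      have h1 := hhi x hx
      have h2 := hlo y hy
      linarith)
  unfold eVariationOn
  apply iSup_le
  rintro ⟨n, u, hu, hus⟩
  have hpos : ∀ i, 0 < u i := fun i => lt_of_lt_of_le ha (hus i).1
  have hfall := hK n u hu (fun i => hpos i)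
  have e1 : ∀ i, edist (mm 0 F (u (i + 1))) (mm 0 F (u i)) =
      ENNReal.ofReal |mm 0 F (u (i + 1)) - mm 0 F (u i)| := by
    intro i
    rw [edist_dist, Real.dist_eq]
  show ∑ i ∈ Finset.range n, edist (mm 0 F (u (i + 1))) (mm 0 F (u i)) ≤ _
  simp only [e1]
  rw [← ENNReal.ofReal_sum_of_nonneg (fun i _ => abs_nonneg _)]
  apply ENNReal.ofReal_le_ofReal
  have e2 : ∀ i, |mm 0 F (u (i + 1)) - mm 0 F (u i)| =
      2 * max (mm 0 F (u i) - mm 0 F (u (i + 1))) 0 + (mm 0 F (u (i + 1)) - mm 0 F (u i)) := by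
    intro i
    rcases le_total (mm 0 F (u i)) (mm 0 F (u (i + 1))) with h | h
    · rw [abs_of_nonneg (by linarith), max_eq_right (by linarith)]; ring
    · rw [abs_of_nonpos (by linarith), max_eq_left (by linarith)]; ring
  simp only [e2]
  rw [Finset.sum_add_distrib, ← Finset.mul_sum, Finset.sum_range_sub (fun i => mm 0 F (u i))]
  have h1 := hhi (u n) (hpos n)
  have h2 := hlo (u 0) (hpos 0)
  linarith

end Pool.Agent.RM8c
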