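import Pool.Agent.RM8c.Defs
import Pool.Agent.RM8c.M1
import Pool.Agent.RM8c.M2
import Pool.Agent.RM8c.M5
import Pool.Agent.RM8c.M6
import Pool.Agent.RM8c.Z1
set_option autoImplicit false
open MeasureTheory Set Filter Topology
namespace Pool.Agent.RM8c
theorem cover833 : AECover (volume.restrict (Ioi (0 : ℝ))) (atTop : Filter ℕ)
    (fun k : ℕ => Ioc (1 / ((k : ℝ) + 1)) ((k : ℝ) + 1)) where
  measurableSet _ := measurableSet_Ioc
  ae_eventually_mem := by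
    rw [ae_restrict_iff' measurableSet_Ioi]
    apply Eventually.of_forall
    intro x hx
    have hx0 : (0 : ℝ) < x := hx
    have h1 : Tendsto (fun k : ℕ => 1 / ((k : ℝ) + 1)) atTop (𝓝 0) :=
      tendsto_one_div_add_atTop_nhds_zero_nat
    have h2 : Tendsto (fun k : ℕ => (k : ℝ) + 1) atTop atTop :=
      tendsto_atTop_add_const_right _ _ tendsto_natCast_atTop_atTop
    filter_upwards [h1.eventually_lt_const hx0, h2.eventually_ge_atTop x] with k hk1 hk2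
    exact ⟨hk1, hk2⟩

theorem improper833 (g : ℝ → ℝ) (J : ℝ)
    (h : ∀ a b, 0 < a → a ≤ b → IntervalIntegrable g volume a b ∧ ∫ s in a..b, |g s| ≤ J) :
    IntegrableOn g (Ioi 0) ∧ ∫ s in Ioi (0 : ℝ), |g s| ≤ J := by
  have hsub : ∀ k : ℕ, Ioc (1 / ((k : ℝ) + 1)) ((k : ℝ) + 1) ⊆ Ioi (0 : ℝ) := by
    intro k x hx
    have h1 : (0 : ℝ) < 1 / ((k : ℝ) + 1) := by positivity
    exact h1.trans hx.1
  have hle : ∀ k : ℕ, 1 / ((k : ℝ) + 1) ≤ (k : ℝ) + 1 := by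
    intro k
    have h0 : (0 : ℝ) ≤ k := Nat.cast_nonneg k
    rw [div_le_iff₀ (by positivity)]
    nlinarith
  have hb : ∀ k : ℕ, IntegrableOn g (Ioc (1 / ((k : ℝ) + 1)) ((k : ℝ) + 1))
      (volume.restrict (Ioi (0 : ℝ))) ∧
      ∫ s in Ioc (1 / ((k : ℝ) + 1)) ((k : ℝ) + 1), |g s| ∂(volume.restrict (Ioi (0 : ℝ))) ≤ J := by
    intro k
    obtain ⟨h1, h2⟩ := h (1 / ((k : ℝ) + 1)) ((k : ℝ) + 1) (by positivity) (hle k)
    unfold IntegrableOn
    rw [Measure.restrict_restrict_of_subset (hsub k)]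
    rw [intervalIntegrable_iff_integrableOn_Ioc_of_le (hle k)] at h1
    rw [intervalIntegral.integral_of_le (hle k)] at h2
    exact ⟨h1, h2⟩
  have hI : IntegrableOn g (Ioi 0) := by
    apply cover833.integrable_of_integral_norm_bounded J (fun k => (hb k).1)
    apply Eventually.of_forall
    intro k
    exact (hb k).2
  refine ⟨hI, ?_⟩
  have ht := cover833.integral_tendsto_of_countably_generated (f := fun s => |g s|)
    (Integrable.abs hI)
  exact le_of_tendsto ht (Eventually.of_forall (fun k => (hb k).2))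

theorem MAIN_zero : ∃ C : ℝ, 0 ≤ C ∧ ∀ F f : ℝ → ℝ, AC F f →
    IntegrableOn (fun w => f w * w ^ 0) (Ioi 0) → Integrable (fun z : E 0 => F ‖z‖) →
    (∀ s, 0 < s → 0 ≤ F s) →
    AC (mm 0 F) (deriv (mm 0 F)) ∧ IntegrableOn (fun s => deriv (mm 0 F) s * s ^ 0) (Ioi 0) ∧
      ∫ s in Ioi (0 : ℝ), |deriv (mm 0 F) s| * s ^ 0 ≤ C * ∫ w in Ioi (0 : ℝ), |f w| * w ^ 0 := by
  obtain ⟨C, hC, hvar⟩ := mm_var_zero
  refine ⟨C, hC, ?_⟩
  intro F f hF hf hi hF0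
  simp only [pow_zero, mul_one] at hf ⊢
  have hf' : IntegrableOn (fun w => f w * w ^ 0) (Ioi 0) := by
    simp only [pow_zero, mul_one]; exact hf
  obtain ⟨m, hm⟩ : ∃ m, m = mm 0 F := ⟨_, rfl⟩
  obtain ⟨I, hI⟩ : ∃ I : ℝ, I = ∫ w in Ioi (0 : ℝ), |f w| := ⟨_, rfl⟩
  have hI0 : 0 ≤ I := by rw [hI]; exact integral_nonneg (fun _ => abs_nonneg _)
  have hv : ∀ a b, 0 < a → a ≤ b → eVariationOn m (Icc a b) ≤ ENNReal.ofReal (C * I) := by
    intro a b ha hab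
    rw [hm, hI]
    exact hvar F f hF hf hi hF0 a b ha hab
  have hv' : ∀ a b, 0 < a → a ≤ b → eVariationOn m (Icc a b) ≠ ⊤ := by
    intro a b ha hab
    exact ne_top_of_le_ne_top ENNReal.ofReal_ne_top (hv a b ha hab)
  have hd : ∀ a b, 0 < a → a ≤ b → IntervalIntegrable (deriv m) volume a b ∧
      ∫ s in a..b, |deriv m s| ≤ C * I := by
    intro a b ha hab
    obtain ⟨h1, h2⟩ := int_deriv_le m a b hab (hv' a b ha hab)
    exact ⟨h1, h2.trans (ENNReal.toReal_le_of_le_ofReal (mul_nonneg hC hI0) (hv a b ha hab))⟩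
  obtain ⟨r1, r2⟩ := mm_reg 0 F f hF hf' hi hF0
  rw [← hm] at r1 r2 ⊢
  rw [← hI]
  refine ⟨?_, improper833 (deriv m) (C * I) hd⟩
  intro a b ha hab
  refine ⟨(hd a b ha hab).1, ?_⟩
  have hac : AbsolutelyContinuousOnInterval m a b := by
    apply CD F f m hF a b ha hab
    · intro s hs
      rw [hm]
      exact (mm_bdd 0 F f hF hi hF0 s (lt_of_lt_of_le ha hs.1)).2.1
    · exact r1.mono (fun s hs => lt_of_lt_of_le ha hs.1)
    · intro s₀ hs₀ hlt
      obtain ⟨δ, hδ, K, hK⟩ := r2 s₀ (lt_of_lt_of_le ha hs₀.1) hlt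
      exact ⟨δ, hδ, K, fun s hs s' hs' h1 h2 =>
        hK s s' (lt_of_lt_of_le ha hs.1) (lt_of_lt_of_le ha hs'.1) h1 h2⟩
    · exact hv' a b ha hab
  exact hac.integral_deriv_eq_sub.symm

end Pool.Agent.RM8c
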