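import Pool.Agent.RM8c.Defs
import Pool.Agent.RM8c.M1
import Pool.Agent.RM8c.M8
import Pool.Agent.RM8c.P1
import Pool.Agent.RM8c.R3
import Pool.Agent.RM8c.R4
import Pool.Agent.RM8c.R5
import Pool.Agent.RM8c.W1
import Pool.Agent.RM8c.W3
import Pool.Agent.RM8c.Z2
set_option autoImplicit false
open MeasureTheory Set Filter Topology
namespace Pool.Agent.RM8c
theorem FINn (n : ℕ) : ∃ C : ℝ, 0 ≤ C ∧
    ∀ (f : E n → ℝ) (g : E n → E n),
      (∀ x y : E n, ‖x‖ = ‖y‖ → f x = f y) →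
      Integrable f → Integrable g →
      (∀ φ : E n → ℝ, ContDiff ℝ ((⊤ : ℕ∞) : WithTop ℕ∞) φ → HasCompactSupport φ →
        ∀ v : E n, ∫ x, f x * fderiv ℝ φ x v = - ∫ x, inner ℝ (g x) v * φ x) →
      (∀ᵐ x ∂(volume : Measure (E n)),
          (⨆ (r : ℝ) (_ : 0 < r),
            (volume (Metric.ball x r))⁻¹ * ∫⁻ y in Metric.ball x r, ‖f y‖ₑ) < ⊤) ∧
      ∃ G : E n → E n,
        Integrable G ∧
        LocallyIntegrable (fun x : E n =>
          (⨆ (r : ℝ) (_ : 0 < r),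
            (volume (Metric.ball x r))⁻¹ * ∫⁻ y in Metric.ball x r, ‖f y‖ₑ).toReal) ∧
        (∀ φ : E n → ℝ, ContDiff ℝ ((⊤ : ℕ∞) : WithTop ℕ∞) φ → HasCompactSupport φ →
          ∀ v : E n,
            ∫ x, (⨆ (r : ℝ) (_ : 0 < r),
              (volume (Metric.ball x r))⁻¹ * ∫⁻ y in Metric.ball x r, ‖f y‖ₑ).toReal
                * fderiv ℝ φ x v
              = - ∫ x, inner ℝ (G x) v * φ x) ∧
        ∫ x, ‖G x‖ ≤ C * ∫ x, ‖g x‖ := by
  obtain ⟨C, hC0, hC⟩ : ∃ C : ℝ, 0 ≤ C ∧ ∀ F f : ℝ → ℝ, AC F f →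
      IntegrableOn (fun w => f w * w ^ n) (Ioi 0) → Integrable (fun z : E n => F ‖z‖) →
      (∀ s, 0 < s → 0 ≤ F s) →
      AC (mm n F) (deriv (mm n F)) ∧ IntegrableOn (fun s => deriv (mm n F) s * s ^ n) (Ioi 0) ∧
        ∫ s in Ioi (0 : ℝ), |deriv (mm n F) s| * s ^ n ≤ C * ∫ w in Ioi (0 : ℝ), |f w| * w ^ n := by
    rcases Nat.eq_zero_or_pos n with rfl | hn
    · exact MAIN_zero
    · exact MAIN_pos n hn
  refine ⟨C, hC0, ?_⟩
  intro f g hrad hf hg hw
  obtain ⟨F0, F0', hAC, hfF, hF0i, hF0le⟩ := radial_profile n f g hrad hf hg hw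
  obtain ⟨f1, hAC1, hf1⟩ := AC_abs F0 F0' hAC
  set F : ℝ → ℝ := fun s => |F0 s| with hF
  have habs : ∀ᵐ x : E n, |f x| = F ‖x‖ := hfF.mono (fun x hx => by simp only [hF, hx])
  have hiF : Integrable (fun z : E n => F ‖z‖) := hf.abs.congr habs
  have hFnn : ∀ s, 0 < s → 0 ≤ F s := fun s _ => abs_nonneg _
  have hloc : LocallyIntegrableOn f1 (Ioi 0) := by
    intro x hx
    have hx' : (0:ℝ) < x := hx
    refine ⟨Icc (x/2) (2*x), mem_nhdsWithin_of_mem_nhds (Icc_mem_nhds (by linarith) (by linarith)), ?_⟩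
    have := (hAC1 (x/2) (2*x) (by linarith) (by linarith)).1
    rw [intervalIntegrable_iff_integrableOn_Icc_of_le (by linarith)] at this
    exact this
  have hmeas : AEStronglyMeasurable f1 (volume.restrict (Ioi 0)) := hloc.aestronglyMeasurable
  have hi1 : IntegrableOn (fun w => f1 w * w ^ n) (Ioi 0) := by
    refine Integrable.mono hF0i (hmeas.mul (by fun_prop)) ?_
    refine Filter.Eventually.of_forall (fun w => ?_)
    rw [norm_mul, norm_mul]
    exact mul_le_mul_of_nonneg_right (hf1 w) (norm_nonneg _)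
  obtain ⟨hACm, him, hmle⟩ := hC F f1 hAC1 hi1 hiF hFnn
  have hnn : ∀ᵐ x : E n, 0 < ‖x‖ :=
    ae_norm n (fun s => 0 < s) (by
      refine (ae_restrict_iff' measurableSet_Ioi).mpr (Filter.Eventually.of_forall ?_)
      intro s hs; exact hs)
  have hsup : ∀ x : E n, 0 < ‖x‖ → (⨆ (r : ℝ) (_ : 0 < r),
      (volume (Metric.ball x r))⁻¹ * ∫⁻ y in Metric.ball x r, ‖f y‖ₑ) =
        ENNReal.ofReal (mm n F ‖x‖) := by
    intro x hx
    obtain ⟨hb, -, h0⟩ := mm_bdd n F f1 hAC1 hiF hFnn ‖x‖ hx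
    have hle : (⨆ (r : ℝ) (_ : 0 < r),
      (volume (Metric.ball x r))⁻¹ * ∫⁻ y in Metric.ball x r, ‖f y‖ₑ) ≤
        ENNReal.ofReal (mm n F ‖x‖) := by
      refine iSup₂_le ?_
      intro r hr
      rw [avg_rot n f F habs hf x r hr]
      exact ENNReal.ofReal_le_ofReal (le_ciSup hb ⟨r, hr⟩)
    refine le_antisymm hle ?_
    have hlt : (⨆ (r : ℝ) (_ : 0 < r),
      (volume (Metric.ball x r))⁻¹ * ∫⁻ y in Metric.ball x r, ‖f y‖ₑ) ≠ ⊤ :=
      ne_top_of_le_ne_top ENNReal.ofReal_ne_top hle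
    rw [ENNReal.ofReal_le_iff_le_toReal hlt]
    haveI : Nonempty (Ioi (0:ℝ)) := ⟨⟨1, by simp⟩⟩
    refine ciSup_le ?_
    intro r
    rw [← ENNReal.ofReal_le_iff_le_toReal hlt, ← avg_rot n f F habs hf x r r.2]
    exact le_iSup₂ (f := fun (r : ℝ) (_ : 0 < r) =>
      (volume (Metric.ball x r))⁻¹ * ∫⁻ y in Metric.ball x r, ‖f y‖ₑ) (r:ℝ) r.2
  have hsup2 : ∀ᵐ x : E n, (⨆ (r : ℝ) (_ : 0 < r),
      (volume (Metric.ball x r))⁻¹ * ∫⁻ y in Metric.ball x r, ‖f y‖ₑ).toReal = mm n F ‖x‖ := by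
    filter_upwards [hnn] with x hx
    rw [hsup x hx, ENNReal.toReal_ofReal (mm_bdd n F f1 hAC1 hiF hFnn ‖x‖ hx).2.2]
  obtain ⟨w1, w2, w3⟩ := wg_int n (mm n F) (deriv (mm n F)) hACm him
  refine ⟨?_, fun x => (deriv (mm n F) ‖x‖ / ‖x‖) • x, w2, ?_, ?_, ?_⟩
  · filter_upwards [hnn] with x hx
    rw [hsup x hx]; exact ENNReal.ofReal_lt_top
  · intro x
    obtain ⟨s, hs, hi⟩ := w1 x
    refine ⟨s, hs, Integrable.congr hi ?_⟩
    filter_upwards [ae_restrict_of_ae hsup2] with y hy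
    exact hy.symm
  · intro φ hφ hφs v
    rw [← weak_grad n (mm n F) (deriv (mm n F)) hACm him φ hφ hφs v]
    refine integral_congr_ae ?_
    filter_upwards [hsup2] with x hx
    rw [hx]
  · rw [w3]
    have hc : 0 ≤ (n + 1) * volume.real (Metric.ball (0 : E n) 1) := by positivity
    have h1 : ∫ w in Ioi (0 : ℝ), |f1 w| * w ^ n ≤ ∫ w in Ioi (0 : ℝ), |F0' w| * w ^ n := by
      refine integral_mono_of_nonneg ?_ ?_ ?_
      · refine (ae_restrict_iff' measurableSet_Ioi).mpr (Filter.Eventually.of_forall ?_)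
        intro w hw
        exact mul_nonneg (abs_nonneg _) (pow_nonneg (le_of_lt hw) _)
      · refine Integrable.congr hF0i.abs ?_
        refine (ae_restrict_iff' measurableSet_Ioi).mpr (Filter.Eventually.of_forall ?_)
        intro w hw
        have hw' : (0:ℝ) < w := hw
        simp only
        rw [abs_mul, abs_of_pos (pow_pos hw' n)]
      · refine (ae_restrict_iff' measurableSet_Ioi).mpr (Filter.Eventually.of_forall ?_)
        intro w hw
        exact mul_le_mul_of_nonneg_right (hf1 w) (pow_nonneg (le_of_lt hw) _)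
    calc (n + 1) * volume.real (Metric.ball (0 : E n) 1) * ∫ s in Ioi (0 : ℝ), |deriv (mm n F) s| * s ^ n
        ≤ (n + 1) * volume.real (Metric.ball (0 : E n) 1) * (C * ∫ w in Ioi (0 : ℝ), |F0' w| * w ^ n) := by
          apply mul_le_mul_of_nonneg_left _ hc
          exact hmle.trans (mul_le_mul_of_nonneg_left h1 hC0)
      _ = C * ((n + 1) * volume.real (Metric.ball (0 : E n) 1) * ∫ w in Ioi (0 : ℝ), |F0' w| * w ^ n) := by ring
      _ ≤ C * ∫ x, ‖g x‖ := mul_le_mul_of_nonneg_left hF0le hC0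

end Pool.Agent.RM8c
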